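import Mathlib

/-!
The affine Kac-Moody algebra of type `A_1^{(1)}` (through its enveloping algebra, with the
Chevalley-Serre presentation), its highest weight modules, the Kostant form generated by
the divided powers and the binomial elements, the Weyl modules over a field, the category of
integrable weight modules of level `ℓ` over the hyperalgebra and extensions in it.
-/

set_option autoImplicit false

open scoped TensorProduct

namespace Pool.Agent.Helper840.AE

/-- The Cartan matrix of type `A_1^{(1)}`: `2` on the diagonal, `-2` off the diagonal. -/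
def cartan (i j : Fin 2) : ℤ := if i = j then 2 else -2

/-- The commutator `ab - ba`. -/
def cm {R : Type*} [Ring R] (a b : R) : R := a * b - b * a

/-- Names of the generators `e_i`, `f_i`, `h_i` (`i = 0, 1`) and `d` of the affine algebra. -/
inductive Gen : Type
  | e (i : Fin 2) : Gen
  | f (i : Fin 2) : Gen
  | h (i : Fin 2) : Gen
  | d : Gen

/-- The generator `x`, in the free complex algebra. -/
noncomputable def gn (x : Gen) : FreeAlgebra ℂ Gen := FreeAlgebra.ι ℂ x

/-- The Chevalley-Serre relations of the affine Kac-Moody algebra of type `A_1^{(1)}`. -/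
inductive Rel : FreeAlgebra ℂ Gen → FreeAlgebra ℂ Gen → Prop
  | hh (i j : Fin 2) : Rel (cm (gn (.h i)) (gn (.h j))) 0
  | hd (i : Fin 2) : Rel (cm (gn (.h i)) (gn .d)) 0
  | ef (i j : Fin 2) : Rel (cm (gn (.e i)) (gn (.f j))) (if i = j then gn (.h i) else 0)
  | he (i j : Fin 2) : Rel (cm (gn (.h i)) (gn (.e j))) (cartan i j • gn (.e j))
  | hf (i j : Fin 2) : Rel (cm (gn (.h i)) (gn (.f j))) (-(cartan i j • gn (.f j)))
  | de (j : Fin 2) : Rel (cm (gn .d) (gn (.e j))) (if j = 0 then gn (.e j) else 0)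
  | df (j : Fin 2) : Rel (cm (gn .d) (gn (.f j))) (-(if j = 0 then gn (.f j) else 0))
  | serre_e (i j : Fin 2) (hij : i ≠ j) :
      Rel (cm (gn (.e i)) (cm (gn (.e i)) (cm (gn (.e i)) (gn (.e j))))) 0
  | serre_f (i j : Fin 2) (hij : i ≠ j) :
      Rel (cm (gn (.f i)) (cm (gn (.f i)) (cm (gn (.f i)) (gn (.f j))))) 0

/-- The universal enveloping algebra `U(𝔤)` of the affine Kac-Moody algebra `𝔤` of type
`A_1^{(1)}` over `ℂ`. -/
abbrev UA : Type := RingQuot Rel

/-- The quotient map from the free algebra to `U(𝔤)`. -/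
noncomputable def toUA : FreeAlgebra ℂ Gen →ₐ[ℂ] UA := RingQuot.mkAlgHom ℂ Rel

/-- The generators of `U(𝔤)`. -/
noncomputable def e (i : Fin 2) : UA := toUA (gn (.e i))
@[inherit_doc e] noncomputable def f (i : Fin 2) : UA := toUA (gn (.f i))
@[inherit_doc e] noncomputable def h (i : Fin 2) : UA := toUA (gn (.h i))
@[inherit_doc e] noncomputable def d : UA := toUA (gn .d)

/-- The left ideal of `U(𝔤)` generated by `e_i`, `h_i - λ(h_i)` and `d`, where
`λ(h_i) = lam i`. -/
noncomputable def vermaIdeal (lam : Fin 2 → ℕ) : Submodule UA UA :=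
  Submodule.span UA (Set.range e ∪ Set.range (fun i => h i - algebraMap ℂ UA (lam i)) ∪ {d})

/-- The Verma module of highest weight `λ`, where `λ(h_i) = lam i` and `λ(d) = 0`. -/
def Verma (lam : Fin 2 → ℕ) : Type := UA ⧸ vermaIdeal lam

noncomputable instance (lam : Fin 2 → ℕ) : AddCommGroup (Verma lam) :=
  inferInstanceAs (AddCommGroup (UA ⧸ vermaIdeal lam))

noncomputable instance (lam : Fin 2 → ℕ) : Module UA (Verma lam) :=
  inferInstanceAs (Module UA (UA ⧸ vermaIdeal lam))

/-- The quotient map from `U(𝔤)` to the Verma module. -/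
noncomputable def vermaMk (lam : Fin 2 → ℕ) : UA →ₗ[UA] Verma lam := (vermaIdeal lam).mkQ

/-- The sum of all proper submodules of the Verma module. -/
noncomputable def maxSub (lam : Fin 2 → ℕ) : Submodule UA (Verma lam) := sSup {N | N ≠ ⊤}

/-- The irreducible highest weight module `L_ℂ(λ)` of `𝔤`: the quotient of the Verma module by the
sum of all proper submodules. -/
def LC (lam : Fin 2 → ℕ) : Type := Verma lam ⧸ maxSub lam

noncomputable instance (lam : Fin 2 → ℕ) : AddCommGroup (LC lam) :=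
  inferInstanceAs (AddCommGroup (Verma lam ⧸ maxSub lam))

noncomputable instance (lam : Fin 2 → ℕ) : Module UA (LC lam) :=
  inferInstanceAs (Module UA (Verma lam ⧸ maxSub lam))

/-- The quotient map from the Verma module to `L_ℂ(λ)`. -/
noncomputable def lcMk (lam : Fin 2 → ℕ) : Verma lam →ₗ[UA] LC lam := (maxSub lam).mkQ

/-- The highest weight vector `v_λ` of `L_ℂ(λ)`. -/
noncomputable def vlam (lam : Fin 2 → ℕ) : LC lam := lcMk lam (vermaMk lam 1)

/-- The divided power `x^k / k!`. -/
noncomputable def dpow (x : UA) (k : ℕ) : UA := ((k.factorial : ℂ)⁻¹) • x ^ k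

/-- The binomial element `x (x - 1) ⋯ (x - k + 1) / k!`. -/
noncomputable def binom (x : UA) (k : ℕ) : UA :=
  ((k.factorial : ℂ)⁻¹) • ((List.range k).map (fun j : ℕ => x - algebraMap ℂ UA (j : ℂ))).prod

/-- The Kostant form `U_ℤ` of `U(𝔤)`: the subring generated by the divided powers of
`e_0, e_1, f_0, f_1` and the binomial elements of `h_0, h_1`. -/
noncomputable def UZ : Subring UA :=
  Subring.closure {u | ∃ (i : Fin 2) (k : ℕ), u = dpow (e i) k ∨ u = dpow (f i) k ∨
    u = binom (h i) k}

/-- The divided power `e_i^{(k)}` as an element of `U_ℤ`. -/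
noncomputable def eZ (i : Fin 2) (k : ℕ) : UZ :=
  ⟨dpow (e i) k, Subring.subset_closure ⟨i, k, Or.inl rfl⟩⟩

/-- The divided power `f_i^{(k)}` as an element of `U_ℤ`. -/
noncomputable def fZ (i : Fin 2) (k : ℕ) : UZ :=
  ⟨dpow (f i) k, Subring.subset_closure ⟨i, k, Or.inr (Or.inl rfl)⟩⟩

/-- The binomial element of `h_i` as an element of `U_ℤ`. -/
noncomputable def hZ (i : Fin 2) (k : ℕ) : UZ :=
  ⟨binom (h i) k, Subring.subset_closure ⟨i, k, Or.inr (Or.inr rfl)⟩⟩

/-- The lattice `V_ℤ(λ) = U_ℤ v_λ` in `L_ℂ(λ)`. -/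
noncomputable def VZ (lam : Fin 2 → ℕ) : Submodule UZ (LC lam) := Submodule.span UZ {vlam lam}

/-- The lattice `V_ℤ(λ)` as a type. -/
def Lat (lam : Fin 2 → ℕ) : Type := VZ lam

noncomputable instance (lam : Fin 2 → ℕ) : AddCommGroup (Lat lam) :=
  (inferInstance : AddCommGroup (VZ lam))

noncomputable instance (lam : Fin 2 → ℕ) : Module UZ (Lat lam) :=
  (inferInstance : Module UZ (VZ lam))

/-- The highest weight vector of `V_ℤ(λ)`. -/
noncomputable def vZ (lam : Fin 2 → ℕ) : Lat lam :=
  ⟨vlam lam, Submodule.subset_span (Set.mem_singleton _)⟩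

universe u

/-- The Weyl module `V(λ) = F ⊗_ℤ V_ℤ(λ)` over the field `F`. -/
def Weyl (F : Type u) [Field F] (lam : Fin 2 → ℕ) : Type u := F ⊗[ℤ] Lat lam

noncomputable instance (F : Type u) [Field F] (lam : Fin 2 → ℕ) : AddCommGroup (Weyl F lam) :=
  inferInstanceAs (AddCommGroup (F ⊗[ℤ] Lat lam))

noncomputable instance (F : Type u) [Field F] (lam : Fin 2 → ℕ) : Module F (Weyl F lam) :=
  inferInstanceAs (Module F (F ⊗[ℤ] Lat lam))

/-- A module over the hyperalgebra `U_F = F ⊗_ℤ U_ℤ` with underlying vector space `E`: a ring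
homomorphism from `U_ℤ` to the `F`-linear endomorphisms of `E` (which is the same as a
homomorphism of `F`-algebras from `F ⊗_ℤ U_ℤ`). -/
abbrev Rep (F : Type u) [Field F] (E : Type u) [AddCommGroup E] [Module F E] : Type u :=
  UZ →+* Module.End F E

/-- The action of an element `u` of `U_ℤ` on a module over `U_ℤ`. -/
noncomputable def actZ (M : Type) [AddCommGroup M] [Module UZ M] (u : UZ) : M →ₗ[ℤ] M :=
  (AddMonoidHom.mk' (fun x : M => u • x) (fun x y => smul_add u x y)).toIntLinearMap

/-- The action of `U_ℤ` on `F ⊗_ℤ M` for a module `M` over `U_ℤ`: the element `u` acts by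
`1 ⊗ u`. -/
noncomputable def tensorAct (F : Type u) [Field F] (M : Type) [AddCommGroup M] [Module UZ M] :
    UZ →+* Module.End F (F ⊗[ℤ] M) where
  toFun u := ((actZ M u).baseChange F : F ⊗[ℤ] M →ₗ[F] F ⊗[ℤ] M)
  map_one' := by
    ext x; simp [actZ]
  map_mul' u v := by
    ext x; simp [actZ, mul_smul]
  map_zero' := by
    ext x; simp [actZ]
  map_add' u v := by
    ext x; simp [actZ, add_smul, TensorProduct.tmul_add]

/-- The Weyl module as a module over the hyperalgebra: `u` in `U_ℤ` acts by `1 ⊗ u`. -/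
noncomputable def weylRep (F : Type u) [Field F] (lam : Fin 2 → ℕ) : Rep F (Weyl F lam) :=
  tensorAct F (Lat lam)

section category

variable {F : Type u} [Field F] {E E' : Type u} [AddCommGroup E] [Module F E] [AddCommGroup E']
  [Module F E']

/-- Homomorphisms of modules over the hyperalgebra. -/
def IsHom (ρ : Rep F E) (σ : Rep F E') (φ : E →ₗ[F] E') : Prop := ∀ u x, φ (ρ u x) = σ u (φ x)

/-- The module is integrable: every vector is killed by almost all divided powers
`e_i^{(k)}, f_i^{(k)}`. -/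
def Integrable (ρ : Rep F E) : Prop :=
  ∀ (i : Fin 2) (x : E), ∃ K : ℕ, ∀ k ≥ K, ρ (eZ i k) x = 0 ∧ ρ (fZ i k) x = 0

/-- The vector `x` has weight `n`: the binomial element of `h_i` acts by the integer
`n i (n i - 1) ⋯ (n i - k + 1) / k!`. -/
def HasWeight (ρ : Rep F E) (n : Fin 2 → ℤ) (x : E) : Prop :=
  ∀ (i : Fin 2) (k : ℕ), ρ (hZ i k) x = ((Ring.choose (n i) k : ℤ) : F) • x

/-- The module is a weight module of level `ℓ`: it is spanned by weight vectors whose weight `n`
satisfies `n 0 + n 1 = ℓ`. -/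
def IsWeightModule (ℓ : ℕ) (ρ : Rep F E) : Prop :=
  Submodule.span F {x | ∃ n : Fin 2 → ℤ, n 0 + n 1 = ℓ ∧ HasWeight ρ n x} = ⊤

end category

/-- `Ext¹(V(λ), V(μ)) = 0` in the category of integrable weight modules of level `ℓ` over the
hyperalgebra: every short exact sequence `0 → V(μ) → E → V(λ) → 0` in this category splits. -/
def ExtZero (F : Type u) [Field F] (ℓ : ℕ) (lam mu : Fin 2 → ℕ) : Prop :=
  ∀ (E : Type u) [AddCommGroup E] [Module F E] (ρ : Rep F E)
    (ι : Weyl F mu →ₗ[F] E) (π : E →ₗ[F] Weyl F lam),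
    Integrable ρ → IsWeightModule ℓ ρ → IsHom (weylRep F mu) ρ ι → IsHom ρ (weylRep F lam) π →
    Function.Injective ι → Function.Surjective π → LinearMap.range ι = LinearMap.ker π →
    ∃ s : Weyl F lam →ₗ[F] E, IsHom (weylRep F lam) ρ s ∧ ∀ x, π (s x) = x

/-- The dominant integral weight `λ_{ℓ;n} = (ℓ - n) ω_0 + n ω_1` of level `ℓ`, given by its values
on `h_0` and `h_1`. -/
def weight (ℓ n : ℕ) : Fin 2 → ℕ := fun i => if i = 0 then ℓ - n else n

end Pool.Agent.Helper840.AE
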