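import Pool.Agent.Helper840.AE.AlgDefs

/-!
The lattice defining the extension.
-/

set_option autoImplicit false

open scoped TensorProduct

namespace Pool.Agent.Helper840.AE

/-- The lattice generated by `(23 v_μ, 0)` and `(w, v_λ)` in `V_ℤ(μ) × V_ℤ(λ)`. -/
noncomputable def Lm (lam mu : Fin 2 → ℕ) (w : Lat mu) : Submodule UZ (Lat mu × Lat lam) :=
  Submodule.span UZ {((23 : ℤ) • vZ mu, 0), (w, vZ lam)}

/-- The lattice as a type. -/
def LmT (lam mu : Fin 2 → ℕ) (w : Lat mu) : Type := Lm lam mu w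

noncomputable instance (lam mu : Fin 2 → ℕ) (w : Lat mu) : AddCommGroup (LmT lam mu w) :=
  (inferInstance : AddCommGroup (Lm lam mu w))

noncomputable instance (lam mu : Fin 2 → ℕ) (w : Lat mu) : Module UZ (LmT lam mu w) :=
  (inferInstance : Module UZ (Lm lam mu w))

end Pool.Agent.Helper840.AE
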