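import Pool.Agent.Helper840.AE.FockDefs

set_option autoImplicit false

namespace Pool.Agent.Helper840.AE

/-- The coefficient of degree `s` of the fourth power of the series with coefficients the
variables. -/
noncomputable def relP (s : ℕ) : MvPolynomial ℕ ℂ :=
  ∑ q ∈ Finset.Nat.antidiagonalTuple 4 s, ∏ i, MvPolynomial.X (q i)

/-- The divided monomial. -/
noncomputable def dmono (κ : ℕ →₀ ℕ) : MvPolynomial ℕ ℂ :=
  MvPolynomial.monomial κ (κ.prod (fun _ a => ((a.factorial : ℂ))⁻¹))

/-- Admissible exponents. -/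
def Adm (κ : ℕ →₀ ℕ) : Prop := ∀ j, κ j + κ (j + 1) ≤ 3

/-- Admissible lists with entries at most `t`. -/
def AdmL (t : ℤ) (l : List ℤ) : Prop := (∀ m ∈ l, m ≤ t) ∧ ∀ m, l.count m + l.count (m + 1) ≤ 3

/-- The span over `Rp` of all `F`-words applied to `z_N`. -/
noncomputable def WN (N : ℕ) : Submodule Rp Fk :=
  Submodule.span Rp {x | ∃ l : List ℤ, x = FL l (zN N)}

/-- The span over `Rp` of all `F`-words with entries at least `2` applied to `z_N`. -/
noncomputable def GN (N : ℕ) : Submodule Rp Fk :=
  Submodule.span Rp {x | ∃ l : List ℤ, (∀ a ∈ l, 2 ≤ a) ∧ x = FL l (zN N)}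

/-- The deficit of a list. -/
def dfc (l : List ℤ) : ℕ := (l.map (fun a => (2 - a).toNat)).sum

/-- A row: a list with gaps at least two, the smallest entry first, entries at most `t`. -/
def goodRow (t : ℤ) (l : List ℤ) : Prop := l.Pairwise (fun x y => x + 2 ≤ y) ∧ ∀ x ∈ l, x ≤ t

/-- The site emptied by the first entry of a row whose tail has length `n`. -/
def aS (N : ℕ) (r : Fin 3) (n : ℕ) : Site := (r, 2 * ((N : ℤ) - n) - 1)

/-- The site filled by the first entry `x` of a row whose tail has length `n`. -/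
def bS (N : ℕ) (r : Fin 3) (n : ℕ) (x : ℤ) : Site := (r, 2 * ((N : ℤ) - n - x))

/-- The state obtained by moving, for each entry of the row, one particle. -/
def Crow (N : ℕ) (r : Fin 3) : List ℤ → Finset Site → Finset Site
  | [], D => D
  | x :: xs, D => tog (bS N r xs.length x) (tog (aS N r xs.length) (Crow N r xs D))

/-- The state of a triple of rows. -/
noncomputable def Cst (N : ℕ) (R : Fin 3 → List ℤ) : Finset Site :=
  Crow N 2 (R 2) (Crow N 1 (R 1) (Crow N 0 (R 0) (DN N)))

end Pool.Agent.Helper840.AE
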