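import Pool.Agent.Helper840.AE.FockDefs
import Pool.Agent.Helper840.AE.FockDefs2

set_option autoImplicit false

namespace Pool.Agent.Helper840.AE

theorem DN_occ_mem_qDN_occ (N : ℕ) (r : Fin 3) (s : ℤ) : (r, s) ∈ DN N ↔
    (∃ k : ℤ, (1 ≤ k ∧ k ≤ N) ∧ 2 * k - 1 = s) ∨ (∃ k : ℤ, (1 ≤ k ∧ k ≤ N) ∧ -2 * k = s) := by
  unfold DN
  simp only [Finset.mem_product, Finset.mem_univ, true_and, Finset.mem_union, Finset.mem_image,
    Finset.mem_Icc]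

theorem DN_occ_odd_qDN_occ (N : ℕ) (r : Fin 3) (k : ℤ) : (r, 2 * k - 1) ∈ DN N ↔ 1 ≤ k ∧ k ≤ N := by
  rw [DN_occ_mem_qDN_occ]
  constructor
  · rintro (⟨j, hj, h⟩ | ⟨j, hj, h⟩)
    · omega
    · omega
  · intro h
    exact Or.inl ⟨k, h, rfl⟩

theorem DN_occ_even_qDN_occ (N : ℕ) (r : Fin 3) (k : ℤ) : (r, 2 * k) ∈ DN N ↔ 1 ≤ -k ∧ -k ≤ N := by
  rw [DN_occ_mem_qDN_occ]
  constructor
  · rintro (⟨j, hj, h⟩ | ⟨j, hj, h⟩)
    · omega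
    · omega
  · intro h
    exact Or.inr ⟨-k, h, by ring⟩

theorem DN_occ (N : ℕ) (r : Fin 3) (k : ℤ) :
    (occ (DN N) (r, 2 * k - 1) ↔ k ≤ N) ∧ (occ (DN N) (r, 2 * k) ↔ k < -(N : ℤ)) := by
  have h1 := DN_occ_odd_qDN_occ N r k
  have h2 := DN_occ_even_qDN_occ N r k
  constructor
  · unfold occ
    by_cases hk : 2 * k - 1 < 0
    · rw [if_pos hk, h1]
      omega
    · rw [if_neg hk, h1]
      omega
  · unfold occ
    by_cases hk : 2 * k < 0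
    · rw [if_pos hk, h2]
      omega
    · rw [if_neg hk, h2]
      omega

end Pool.Agent.Helper840.AE
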