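import Pool.Agent.Helper840.AE.FockDefs

set_option autoImplicit false

namespace Pool.Agent.Helper840.AE

theorem S_add (d : ℤ) (g g' : Site → ℂ) : S d g + S d g' = S d (fun i => g i + g' i) := by
  apply Finsupp.lhom_ext
  intro D c
  unfold S
  rw [LinearMap.add_apply, Finsupp.linearCombination_single, Finsupp.linearCombination_single,
    Finsupp.linearCombination_single, ← smul_add, ← Finset.sum_add_distrib]
  congr 1
  apply Finset.sum_congr rfl
  intro i _
  rw [add_smul]

end Pool.Agent.Helper840.AE
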