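import Pool.Agent.Helper840.AE.FockDefs

set_option autoImplicit false

namespace Pool.Agent.Helper840.AE

/-- two linear maps agreeing on the states are equal -/
theorem S_ext (A B : Module.End ℂ Fk) (h : ∀ D, A (ket D) = B (ket D)) : A = B := by
  refine Finsupp.lhom_ext (fun D a => ?_)
  have h1 : (Finsupp.single D a : Fk) = a • ket D := by
    unfold ket
    rw [Finsupp.smul_single, smul_eq_mul, mul_one]
  rw [h1, map_smul, map_smul, h]

end Pool.Agent.Helper840.AE
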