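import Pool.Agent.Helper840.AE.FockDefs
import Pool.Agent.Helper840.AE.FockDefs2
import Pool.Agent.Helper840.AE.P_S_congr
import Pool.Agent.Helper840.AE.P_S_ext

set_option autoImplicit false

namespace Pool.Agent.Helper840.AE

theorem Fm_eq (m : ℤ) : Fm m = ∑ r : Fin 3, Fr r m := by
  rw [Fin.sum_univ_three]
  unfold Fr Fm
  rw [S_add, S_add]
  congr 1
  funext i
  obtain ⟨r, k⟩ := i
  unfold podd
  by_cases hk : k % 2 = 1
  · fin_cases r <;> simp [hk]
  · simp [hk]

end Pool.Agent.Helper840.AE
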