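import Pool.Agent.Helper840.AE.FockDefs

set_option autoImplicit false

namespace Pool.Agent.Helper840.AE

theorem ann_ket_aux_qX_box (i : Site) (D : Finset Site) :
    ann i (ket D) = if occ D i then ((-1 : ℂ) ^ cnt i D) • ket (tog i D) else 0 := by
  unfold ann ket
  rw [Finsupp.linearCombination_single, one_smul]

theorem cre_ket_aux_qX_box (i : Site) (D : Finset Site) :
    cre i (ket D) = if occ D i then 0 else ((-1 : ℂ) ^ cnt i D) • ket (tog i D) := by
  unfold cre
  rw [ket, Finsupp.linearCombination_single, one_smul]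

theorem mem_tog_aux_qX_box (i j : Site) (D : Finset Site) (h : j ∈ tog i D) : j ∈ D ∨ j = i := by
  unfold tog at h
  split_ifs at h with h1
  · exact Or.inl (Finset.mem_of_mem_erase h)
  · rcases Finset.mem_insert.mp h with h2 | h2
    · exact Or.inr h2
    · exact Or.inl h2

theorem mem_tog_ne_aux_qX_box (i j : Site) (D : Finset Site) (hij : j ≠ i) :
    j ∈ tog i D ↔ j ∈ D := by
  unfold tog
  split_ifs with h1
  · rw [Finset.mem_erase]
    exact ⟨fun h => h.2, fun h => ⟨hij, h⟩⟩
  · rw [Finset.mem_insert]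
    exact ⟨fun h => h.resolve_left hij, fun h => Or.inr h⟩

theorem mem_box_aux_qX_box (i : Site) (R : ℕ) (h : i.2.natAbs ≤ R) : i ∈ box R := by
  unfold box
  rw [Finset.mem_product]
  refine ⟨Finset.mem_univ _, ?_⟩
  rw [Finset.mem_Icc]
  omega

/-- a shift move on `D` vanishes outside the box, and the new state is bounded -/
theorem X_box (d : ℤ) (hd : d ≠ 0) (i : Site) (D : Finset Site) (h : X (sh d i) i (ket D) ≠ 0) :
    i ∈ box (bd D + d.natAbs) ∧ sh d i ∈ box (bd D + d.natAbs) ∧
      bd (tog (sh d i) (tog i D)) ≤ bd D + d.natAbs := by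
  have hne : sh d i ≠ i := by
    intro h1
    have h2 : i.2 + d = i.2 := congrArg Prod.snd h1
    omega
  have h1 : occ D i := by
    by_contra h1
    apply h
    show cre (sh d i) (ann i (ket D)) = 0
    rw [ann_ket_aux_qX_box, if_neg h1, map_zero]
  have h2 : ¬ occ D (sh d i) := by
    intro h2
    apply h
    show cre (sh d i) (ann i (ket D)) = 0
    have h3 : occ (tog i D) (sh d i) := by
      unfold occ at h2 ⊢
      rw [mem_tog_ne_aux_qX_box i (sh d i) D hne]
      exact h2
    rw [ann_ket_aux_qX_box, if_pos h1, map_smul, cre_ket_aux_qX_box, if_pos h3, smul_zero]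
  have hbd : ∀ j ∈ D, j.2.natAbs ≤ bd D := fun j hj =>
    Finset.le_sup (f := fun i : Site => i.2.natAbs) hj
  have hs2 : (sh d i).2 = i.2 + d := rfl
  have key : i.2.natAbs ≤ bd D + d.natAbs ∧ (sh d i).2.natAbs ≤ bd D + d.natAbs := by
    rw [hs2]
    unfold occ at h1 h2
    rw [hs2] at h2
    by_cases hs : i.2 < 0
    · by_cases hs' : i.2 + d < 0
      · rw [if_pos hs', not_not] at h2
        have h3 := hbd _ h2
        rw [hs2] at h3
        omega
      · omega
    · rw [if_neg hs] at h1
      have h3 := hbd _ h1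
      omega
  refine ⟨mem_box_aux_qX_box i _ key.1, mem_box_aux_qX_box _ _ key.2, ?_⟩
  apply Finset.sup_le
  intro j hj
  rcases mem_tog_aux_qX_box _ _ _ hj with h3 | h3
  · rcases mem_tog_aux_qX_box _ _ _ h3 with h4 | h4
    · exact (hbd j h4).trans (Nat.le_add_right _ _)
    · rw [h4]
      exact key.1
  · rw [h3]
    exact key.2

end Pool.Agent.Helper840.AE
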