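import Pool.Agent.Helper840.AE.FockDefs
import Pool.Agent.Helper840.AE.P_X_box

set_option autoImplicit false

namespace Pool.Agent.Helper840.AE

/-- the shift operator is given by the sum over any box which is large enough -/
theorem S_apply (d : ℤ) (hd : d ≠ 0) (g : Site → ℂ) (x : Fk) (R : ℕ)
    (hR : ∀ D ∈ x.support, bd D + d.natAbs ≤ R) :
    S d g x = ∑ i ∈ box R, g i • X (sh d i) i x := by
  classical
  have hx : x = ∑ D ∈ x.support, x D • ket D := by
    conv_lhs => rw [← Finsupp.sum_single x]
    rw [Finsupp.sum]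
    refine Finset.sum_congr rfl fun D _ => ?_
    rw [ket, Finsupp.smul_single, smul_eq_mul, mul_one]
  have hX : ∀ i, X (sh d i) i x = ∑ D ∈ x.support, x D • X (sh d i) i (ket D) := by
    intro i
    conv_lhs => rw [hx]
    rw [map_sum]
    exact Finset.sum_congr rfl fun D _ => map_smul _ _ _
  have hbox : ∀ D ∈ x.support, ∑ i ∈ box (bd D + d.natAbs), g i • X (sh d i) i (ket D) =
      ∑ i ∈ box R, g i • X (sh d i) i (ket D) := by
    intro D hD
    refine Finset.sum_subset ?_ ?_
    · intro i hi
      have h1 := hR D hD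
      rw [box, Finset.mem_product, Finset.mem_Icc] at hi ⊢
      refine ⟨hi.1, ?_, ?_⟩
      · have := hi.2.1
        omega
      · have := hi.2.2
        omega
    · intro i _ hi
      by_cases h : X (sh d i) i (ket D) = 0
      · rw [h, smul_zero]
      · exact absurd (X_box d hd i D h).1 hi
  have hS : S d g x = ∑ D ∈ x.support, x D • ∑ i ∈ box (bd D + d.natAbs),
      g i • X (sh d i) i (ket D) := by
    rw [S, Finsupp.linearCombination_apply, Finsupp.sum]
  rw [hS]
  have h2 : ∑ D ∈ x.support, x D • ∑ i ∈ box (bd D + d.natAbs), g i • X (sh d i) i (ket D) =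
      ∑ D ∈ x.support, ∑ i ∈ box R, g i • (x D • X (sh d i) i (ket D)) := by
    refine Finset.sum_congr rfl fun D hD => ?_
    rw [hbox D hD, Finset.smul_sum]
    exact Finset.sum_congr rfl fun i _ => smul_comm _ _ _
  rw [h2, Finset.sum_comm]
  refine Finset.sum_congr rfl fun i _ => ?_
  rw [hX i, Finset.smul_sum]

end Pool.Agent.Helper840.AE
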