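import Pool.Agent.Helper840.AE.FockDefs

set_option autoImplicit false

namespace Pool.Agent.Helper840.AE

theorem X_ket_ann_qX_ket (i : Site) (D : Finset Site) :
    ann i (ket D) = if occ D i then ((-1 : ℂ) ^ cnt i D) • ket (tog i D) else 0 := by
  unfold ann ket
  rw [Finsupp.linearCombination_single, one_smul]

theorem X_ket_cre_qX_ket (i : Site) (D : Finset Site) :
    cre i (ket D) = if occ D i then 0 else ((-1 : ℂ) ^ cnt i D) • ket (tog i D) := by
  unfold cre ket
  rw [Finsupp.linearCombination_single, one_smul]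

theorem X_ket_mem_tog_qX_ket {i j : Site} (h : i ≠ j) (D : Finset Site) : i ∈ tog j D ↔ i ∈ D := by
  unfold tog
  split_ifs with h1
  · simp [h]
  · simp [h]

theorem X_ket_occ_tog_qX_ket {i j : Site} (h : i ≠ j) (D : Finset Site) : occ (tog j D) i ↔ occ D i := by
  unfold occ
  split_ifs with h1
  · rw [X_ket_mem_tog_qX_ket h]
  · rw [X_ket_mem_tog_qX_ket h]

/-- moving a particle between different sites -/
theorem X_ket (i j : Site) (h : i ≠ j) (D : Finset Site) :
    ∃ ε : ℤ, (ε = 1 ∨ ε = -1) ∧ X i j (ket D) =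
      if occ D j ∧ ¬ occ D i then (ε : ℂ) • ket (tog i (tog j D)) else 0 := by
  refine ⟨(-1) ^ (cnt j D + cnt i (tog j D)), ?_, ?_⟩
  · exact neg_one_pow_eq_or ℤ _
  · unfold X
    rw [Module.End.mul_apply, X_ket_ann_qX_ket]
    by_cases hj : occ D j
    · rw [if_pos hj, map_smul, X_ket_cre_qX_ket]
      by_cases hi : occ D i
      · rw [if_pos ((X_ket_occ_tog_qX_ket h D).2 hi), if_neg (by tauto), smul_zero]
      · rw [if_neg (fun h' => hi ((X_ket_occ_tog_qX_ket h D).1 h')), if_pos ⟨hj, hi⟩, smul_smul, ← pow_add]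
        push_cast
        rfl
    · rw [if_neg hj, map_zero, if_neg (by tauto)]

end Pool.Agent.Helper840.AE
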