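import Pool.Agent.Helper840.AE.FockDefs
import Pool.Agent.Helper840.AE.P_X_box
import Pool.Agent.Helper840.AE.P_X_ket
import Pool.Agent.Helper840.AE.P_S_apply

set_option autoImplicit false

namespace Pool.Agent.Helper840.AE

/-- the shift operator increases the bound by at most `|d|` -/
theorem S_supp (d : ℤ) (hd : d ≠ 0) (g : Site → ℂ) (x : Fk) (R : ℕ)
    (hR : ∀ D ∈ x.support, bd D ≤ R) : ∀ D ∈ (S d g x).support, bd D ≤ R + d.natAbs := by
  classical
  intro D' hD'
  rw [S, Finsupp.linearCombination_apply, Finsupp.sum] at hD'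
  obtain ⟨D, hD, h1⟩ := Finset.mem_biUnion.1 (Finsupp.support_finset_sum hD')
  have h2 := Finsupp.support_smul h1
  obtain ⟨i, -, h3⟩ := Finset.mem_biUnion.1 (Finsupp.support_finset_sum h2)
  have h4 := Finsupp.support_smul h3
  have h5 : X (sh d i) i (ket D) ≠ 0 := by
    intro h
    rw [h] at h4
    simp at h4
  have hne : sh d i ≠ i := by
    intro h
    apply hd
    have := congrArg Prod.snd h
    simpa [sh] using this
  obtain ⟨-, -, h6⟩ := X_box d hd i D h5
  obtain ⟨ε, -, h7⟩ := X_ket (sh d i) i hne D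
  have h8 : D' = tog (sh d i) (tog i D) := by
    by_cases hc : occ D i ∧ ¬ occ D (sh d i)
    · rw [if_pos hc] at h7
      rw [h7] at h4
      have h9 := Finsupp.support_smul h4
      rw [ket] at h9
      exact Finset.mem_singleton.1 (Finsupp.support_single_subset h9)
    · rw [if_neg hc] at h7
      exact absurd h7 h5
  rw [h8]
  exact h6.trans (Nat.add_le_add_right (hR D hD) _)

end Pool.Agent.Helper840.AE
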