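import Pool.Agent.Helper840.AE.FockDefs

set_option autoImplicit false

namespace Pool.Agent.Helper840.AE

theorem ann_ket_11212_qann_ann (i : Site) (D : Finset Site) :
    ann i (ket D) = if occ D i then ((-1 : ℂ) ^ cnt i D) • ket (tog i D) else 0 := by
  have h1 : ann i (Finsupp.single D 1) =
      if occ D i then ((-1 : ℂ) ^ cnt i D) • ket (tog i D) else 0 := by
    unfold ann
    rw [Finsupp.linearCombination_single, one_smul]
  exact h1

theorem cnt_insert_11212_qann_ann (i j : Site) (D : Finset Site) (hj : j ∉ D) :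
    cnt i (insert j D) = cnt i D + if (j.1 < i.1 ∨ (j.1 = i.1 ∧ j.2 < i.2)) then 1 else 0 := by
  unfold cnt
  rw [Finset.filter_insert]
  split_ifs with h
  · rw [Finset.card_insert_of_notMem]
    intro h1
    exact hj (Finset.mem_of_mem_filter _ h1)
  · rfl

theorem sgn_11212_qann_ann (i j : Site) (D : Finset Site) :
    (-1 : ℂ) ^ cnt i (tog j D) =
      (if (j.1 < i.1 ∨ (j.1 = i.1 ∧ j.2 < i.2)) then -1 else 1) * (-1 : ℂ) ^ cnt i D := by
  by_cases hj : j ∈ D
  · have h1 : D = insert j (D.erase j) := (Finset.insert_erase hj).symm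
    have h2 : cnt i D = cnt i (D.erase j) +
        if (j.1 < i.1 ∨ (j.1 = i.1 ∧ j.2 < i.2)) then 1 else 0 := by
      conv_lhs => rw [h1]
      exact cnt_insert_11212_qann_ann i j _ (Finset.notMem_erase j D)
    have h3 : tog j D = D.erase j := by unfold tog; rw [if_pos hj]
    rw [h2, h3]
    split_ifs
    · rw [pow_succ]; ring
    · rw [add_zero, one_mul]
  · have h3 : tog j D = insert j D := by unfold tog; rw [if_neg hj]
    rw [h3, cnt_insert_11212_qann_ann i j D hj]
    split_ifs
    · rw [pow_succ]; ring
    · rw [add_zero, one_mul]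

theorem mem_tog_self_11212_qann_ann (i : Site) (D : Finset Site) : i ∈ tog i D ↔ i ∉ D := by
  unfold tog
  split_ifs with h
  · simp [h]
  · simp [h]

theorem mem_tog_ne_11212_qann_ann {i j : Site} (h : i ≠ j) (D : Finset Site) : i ∈ tog j D ↔ i ∈ D := by
  unfold tog
  split_ifs with h1
  · simp [h]
  · simp [h]

theorem occ_tog_self_11212_qann_ann (i : Site) (D : Finset Site) : occ (tog i D) i ↔ ¬ occ D i := by
  unfold occ
  split_ifs with h
  · rw [mem_tog_self_11212_qann_ann]
  · rw [mem_tog_self_11212_qann_ann]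

theorem occ_tog_ne_11212_qann_ann {i j : Site} (h : i ≠ j) (D : Finset Site) :
    occ (tog j D) i ↔ occ D i := by
  unfold occ
  rw [mem_tog_ne_11212_qann_ann h]

theorem tog_comm_11212_qann_ann (i j : Site) (D : Finset Site) : tog i (tog j D) = tog j (tog i D) := by
  by_cases hij : i = j
  · subst hij; rfl
  · ext x
    by_cases h1 : x = i
    · subst h1
      rw [mem_tog_self_11212_qann_ann, mem_tog_ne_11212_qann_ann hij, mem_tog_ne_11212_qann_ann hij, mem_tog_self_11212_qann_ann]
    · by_cases h2 : x = j
      · subst h2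
        rw [mem_tog_self_11212_qann_ann, mem_tog_ne_11212_qann_ann h1, mem_tog_self_11212_qann_ann, mem_tog_ne_11212_qann_ann h1]
      · rw [mem_tog_ne_11212_qann_ann h1, mem_tog_ne_11212_qann_ann h2, mem_tog_ne_11212_qann_ann h2, mem_tog_ne_11212_qann_ann h1]

theorem ann_ann_ket_11212_qann_ann (i j : Site) (D : Finset Site) :
    ann i (ann j (ket D)) = - ann j (ann i (ket D)) := by
  by_cases hij : i = j
  · subst hij
    have h : ann i (ann i (ket D)) = 0 := by
      rw [ann_ket_11212_qann_ann]
      split_ifs with h1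
      · rw [map_smul, ann_ket_11212_qann_ann, if_neg (by rw [occ_tog_self_11212_qann_ann]; exact not_not.mpr h1),
          smul_zero]
      · rw [map_zero]
    rw [h, neg_zero]
  · rw [ann_ket_11212_qann_ann j D, ann_ket_11212_qann_ann i D]
    by_cases h1 : occ D i
    · by_cases h2 : occ D j
      · rw [if_pos h1, if_pos h2, map_smul, map_smul, ann_ket_11212_qann_ann, ann_ket_11212_qann_ann,
          if_pos ((occ_tog_ne_11212_qann_ann hij D).mpr h1),
          if_pos ((occ_tog_ne_11212_qann_ann (Ne.symm hij) D).mpr h2), sgn_11212_qann_ann, sgn_11212_qann_ann,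
          tog_comm_11212_qann_ann i j, smul_smul, smul_smul, ← neg_smul]
        congr 1
        have h3 : (j.1 < i.1 ∨ (j.1 = i.1 ∧ j.2 < i.2)) ↔
            ¬ (i.1 < j.1 ∨ (i.1 = j.1 ∧ i.2 < j.2)) := by
          constructor
          · rintro (h | ⟨h, h'⟩) (h4 | ⟨h4, h5⟩)
            · exact absurd h4 (lt_asymm h)
            · rw [h4] at h; exact lt_irrefl _ h
            · rw [h] at h4; exact lt_irrefl _ h4
            · exact absurd h5 (lt_asymm h')
          · intro h
            push Not at h
            rcases lt_or_eq_of_le h.1 with h4 | h4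
            · exact Or.inl h4
            · refine Or.inr ⟨h4, lt_of_le_of_ne (h.2 h4.symm) ?_⟩
              intro h5
              exact hij (Prod.ext h4.symm h5.symm)
        by_cases h4 : (i.1 < j.1 ∨ (i.1 = j.1 ∧ i.2 < j.2))
        · rw [if_neg (fun h5 => (h3.mp h5) h4), if_pos h4]
          ring
        · rw [if_pos (h3.mpr h4), if_neg h4]
          ring
      · rw [if_neg h2, if_pos h1, map_zero, map_smul, ann_ket_11212_qann_ann,
          if_neg (fun h => h2 ((occ_tog_ne_11212_qann_ann (Ne.symm hij) D).mp h)), smul_zero, neg_zero]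
    · by_cases h2 : occ D j
      · rw [if_neg h1, if_pos h2, map_zero, map_smul, ann_ket_11212_qann_ann,
          if_neg (fun h => h1 ((occ_tog_ne_11212_qann_ann hij D).mp h)), smul_zero, neg_zero]
      · rw [if_neg h1, if_neg h2, map_zero, map_zero, neg_zero]

theorem ann_ann (i j : Site) : ann i * ann j = - (ann j * ann i) := by
  apply Finsupp.lhom_ext'
  intro D
  apply LinearMap.ext_ring
  exact ann_ann_ket_11212_qann_ann i j D

end Pool.Agent.Helper840.AE
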