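import Pool.Agent.Helper840.AE.FockDefs

set_option autoImplicit false

namespace Pool.Agent.Helper840.AE

theorem tog_tog_11214_qann_cre (i : Site) (D : Finset Site) : tog i (tog i D) = D := by
  unfold tog
  by_cases h : i ∈ D
  · rw [if_pos h, if_neg (Finset.notMem_erase i D), Finset.insert_erase h]
  · rw [if_neg h, if_pos (Finset.mem_insert_self i D), Finset.erase_insert h]

theorem mem_tog_self_11214_qann_cre (i : Site) (D : Finset Site) : i ∈ tog i D ↔ i ∉ D := by
  unfold tog
  by_cases h : i ∈ D <;> simp [h]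

theorem mem_tog_ne_11214_qann_cre {i j : Site} (hij : i ≠ j) (D : Finset Site) : i ∈ tog j D ↔ i ∈ D := by
  unfold tog
  by_cases h : j ∈ D <;> simp [h, hij]

theorem tog_comm_11214_qann_cre (i j : Site) (D : Finset Site) : tog i (tog j D) = tog j (tog i D) := by
  by_cases hij : i = j
  · rw [hij]
  ext k
  by_cases hki : k = i
  · subst hki
    rw [mem_tog_self_11214_qann_cre, mem_tog_ne_11214_qann_cre hij, mem_tog_ne_11214_qann_cre hij, mem_tog_self_11214_qann_cre]
  · by_cases hkj : k = j
    · subst hkj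
      rw [mem_tog_ne_11214_qann_cre hki, mem_tog_self_11214_qann_cre, mem_tog_self_11214_qann_cre, mem_tog_ne_11214_qann_cre hki]
    · rw [mem_tog_ne_11214_qann_cre hki, mem_tog_ne_11214_qann_cre hkj, mem_tog_ne_11214_qann_cre hkj, mem_tog_ne_11214_qann_cre hki]

theorem occ_tog_self_11214_qann_cre (i : Site) (D : Finset Site) : occ (tog i D) i ↔ ¬ occ D i := by
  unfold occ
  rw [mem_tog_self_11214_qann_cre]
  split_ifs <;> tauto

theorem occ_tog_ne_11214_qann_cre {i j : Site} (hij : i ≠ j) (D : Finset Site) :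
    occ (tog j D) i ↔ occ D i := by
  unfold occ
  rw [mem_tog_ne_11214_qann_cre hij]

theorem sg_tog_11214_qann_cre (i j : Site) (D : Finset Site) :
    ((-1 : ℂ) ^ cnt i (tog j D)) =
      (if (j.1 < i.1 ∨ (j.1 = i.1 ∧ j.2 < i.2)) then -1 else 1) * (-1 : ℂ) ^ cnt i D := by
  unfold cnt tog
  by_cases hj : j ∈ D
  · rw [if_pos hj, Finset.filter_erase]
    by_cases hl : (j.1 < i.1 ∨ (j.1 = i.1 ∧ j.2 < i.2))
    · rw [if_pos hl]
      have hm : j ∈ D.filter (fun j => j.1 < i.1 ∨ (j.1 = i.1 ∧ j.2 < i.2)) :=
        Finset.mem_filter.2 ⟨hj, hl⟩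
      have hc := Finset.card_erase_add_one hm
      rw [← hc, pow_succ]
      ring
    · rw [if_neg hl, Finset.erase_eq_of_notMem, one_mul]
      intro hm
      exact hl (Finset.mem_filter.1 hm).2
  · rw [if_neg hj, Finset.filter_insert]
    by_cases hl : (j.1 < i.1 ∨ (j.1 = i.1 ∧ j.2 < i.2))
    · rw [if_pos hl, if_pos hl, Finset.card_insert_of_notMem, pow_succ]
      · ring
      · intro hm
        exact hj (Finset.mem_filter.1 hm).1
    · rw [if_neg hl, if_neg hl, one_mul]

theorem ann_ket_11214_qann_cre (i : Site) (D : Finset Site) :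
    ann i (ket D) = if occ D i then ((-1 : ℂ) ^ cnt i D) • ket (tog i D) else 0 := by
  unfold ann
  conv_lhs => rw [ket]
  rw [Finsupp.linearCombination_single, one_smul]

theorem cre_ket_11214_qann_cre (i : Site) (D : Finset Site) :
    cre i (ket D) = if occ D i then 0 else ((-1 : ℂ) ^ cnt i D) • ket (tog i D) := by
  unfold cre
  conv_lhs => rw [ket]
  rw [Finsupp.linearCombination_single, one_smul]

theorem sq_sg_11214_qann_cre (m : ℕ) : ((-1 : ℂ) ^ m) * (-1 : ℂ) ^ m = 1 := by
  rw [← mul_pow]; norm_num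

theorem ann_cre (i j : Site) :
    ann i * cre j + cre j * ann i = if i = j then 1 else 0 := by
  apply Finsupp.lhom_ext'
  intro D
  apply LinearMap.ext_ring
  show (ann i * cre j + cre j * ann i) (ket D) = (if i = j then (1 : Module.End ℂ Fk) else 0) (ket D)
  rw [LinearMap.add_apply, Module.End.mul_apply, Module.End.mul_apply]
  by_cases hij : i = j
  · subst hij
    rw [if_pos rfl, Module.End.one_apply]
    by_cases ho : occ D i
    · rw [cre_ket_11214_qann_cre, if_pos ho, map_zero, zero_add, ann_ket_11214_qann_cre, if_pos ho, map_smul,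
        cre_ket_11214_qann_cre, if_neg (by rw [occ_tog_self_11214_qann_cre]; exact not_not.2 ho), smul_smul,
        sg_tog_11214_qann_cre, tog_tog_11214_qann_cre, if_neg (by simp), one_mul, sq_sg_11214_qann_cre, one_smul]
    · rw [cre_ket_11214_qann_cre, if_neg ho, map_smul, ann_ket_11214_qann_cre,
        if_pos (by rw [occ_tog_self_11214_qann_cre]; exact ho), ann_ket_11214_qann_cre, if_neg ho, map_zero, add_zero,
        smul_smul, sg_tog_11214_qann_cre, tog_tog_11214_qann_cre, if_neg (by simp), one_mul, sq_sg_11214_qann_cre, one_smul]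
  · rw [if_neg hij, LinearMap.zero_apply]
    by_cases hj : occ D j
    · rw [cre_ket_11214_qann_cre, if_pos hj, map_zero, zero_add, ann_ket_11214_qann_cre]
      by_cases hi : occ D i
      · rw [if_pos hi, map_smul, cre_ket_11214_qann_cre,
          if_pos ((occ_tog_ne_11214_qann_cre (Ne.symm hij) D).2 hj), smul_zero]
      · rw [if_neg hi, map_zero]
    · rw [cre_ket_11214_qann_cre, if_neg hj, map_smul, ann_ket_11214_qann_cre, ann_ket_11214_qann_cre]
      by_cases hi : occ D i
      · rw [if_pos ((occ_tog_ne_11214_qann_cre hij D).2 hi), if_pos hi, map_smul, cre_ket_11214_qann_cre,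
          if_neg (fun h => hj ((occ_tog_ne_11214_qann_cre (Ne.symm hij) D).1 h)), smul_smul, smul_smul,
          tog_comm_11214_qann_cre j i, ← add_smul, sg_tog_11214_qann_cre i j, sg_tog_11214_qann_cre j i]
        have hs : ((-1 : ℂ) ^ cnt j D * ((if (j.1 < i.1 ∨ (j.1 = i.1 ∧ j.2 < i.2)) then -1 else 1) *
            (-1 : ℂ) ^ cnt i D) + (-1 : ℂ) ^ cnt i D *
            ((if (i.1 < j.1 ∨ (i.1 = j.1 ∧ i.2 < j.2)) then -1 else 1) * (-1 : ℂ) ^ cnt j D)) = 0 := by
          have htri : (j.1 < i.1 ∨ (j.1 = i.1 ∧ j.2 < i.2)) ↔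
              ¬ (i.1 < j.1 ∨ (i.1 = j.1 ∧ i.2 < j.2)) := by
            constructor
            · rintro (h | ⟨h, h'⟩) (h1 | ⟨h1, h1'⟩)
              · exact lt_asymm h h1
              · exact absurd h1.symm h.ne
              · exact absurd h.symm h1.ne
              · exact lt_asymm h' h1'
            · intro h
              push Not at h
              rcases lt_trichotomy i.1 j.1 with h1 | h1 | h1
              · exact absurd h1 (not_lt.2 h.1)
              · rcases lt_trichotomy i.2 j.2 with h2 | h2 | h2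
                · exact absurd h2 (not_lt.2 (h.2 h1))
                · exact absurd (Prod.ext h1 h2) hij
                · exact Or.inr ⟨h1.symm, h2⟩
              · exact Or.inl h1
          by_cases hc : (i.1 < j.1 ∨ (i.1 = j.1 ∧ i.2 < j.2))
          · rw [if_pos hc, if_neg (fun h => (htri.1 h) hc)]
            ring
          · rw [if_neg hc, if_pos (htri.2 hc)]
            ring
        rw [hs, zero_smul]
      · rw [if_neg (fun h => hi ((occ_tog_ne_11214_qann_cre hij D).1 h)), if_neg hi, smul_zero, map_zero,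
          add_zero]

end Pool.Agent.Helper840.AE
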