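import Pool.Agent.Helper840.AE.FockDefs

set_option autoImplicit false

namespace Pool.Agent.Helper840.AE

theorem mem_tog_qcre_cre (i j : Site) (D : Finset Site) :
    i ∈ tog j D ↔ (i ≠ j ∧ i ∈ D) ∨ (i = j ∧ i ∉ D) := by
  unfold tog
  by_cases hj : j ∈ D
  · rw [if_pos hj, Finset.mem_erase]
    constructor
    · rintro ⟨h1, h2⟩
      exact Or.inl ⟨h1, h2⟩
    · rintro (h | ⟨h1, h2⟩)
      · exact h
      · exact absurd (h1 ▸ hj) h2
  · rw [if_neg hj, Finset.mem_insert]
    constructor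
    · rintro (h | h)
      · exact Or.inr ⟨h, h ▸ hj⟩
      · exact Or.inl ⟨fun h2 => hj (h2 ▸ h), h⟩
    · rintro (h | h)
      · exact Or.inr h.2
      · exact Or.inl h.1

theorem tog_comm_qcre_cre (i j : Site) (D : Finset Site) : tog i (tog j D) = tog j (tog i D) := by
  ext x
  rw [mem_tog_qcre_cre, mem_tog_qcre_cre, mem_tog_qcre_cre, mem_tog_qcre_cre]
  tauto

theorem occ_tog_ne_qcre_cre {i j : Site} (h : i ≠ j) (D : Finset Site) : occ (tog j D) i ↔ occ D i := by
  have hm : i ∈ tog j D ↔ i ∈ D := by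
    rw [mem_tog_qcre_cre]
    tauto
  unfold occ
  split_ifs
  · rw [hm]
  · rw [hm]

theorem occ_tog_self_qcre_cre (i : Site) (D : Finset Site) : occ (tog i D) i ↔ ¬ occ D i := by
  have hm : i ∈ tog i D ↔ i ∉ D := by
    rw [mem_tog_qcre_cre]
    tauto
  unfold occ
  split_ifs
  · rw [hm]
  · rw [hm]

/-- the sign of `j` relative to `i` -/
noncomputable def sg_qcre_cre (j i : Site) : ℂ := if j.1 < i.1 ∨ (j.1 = i.1 ∧ j.2 < i.2) then -1 else 1

theorem sg_swap_qcre_cre {i j : Site} (h : i ≠ j) : sg_qcre_cre j i = - sg_qcre_cre i j := by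
  unfold sg_qcre_cre
  have htri : (j.1 < i.1 ∨ (j.1 = i.1 ∧ j.2 < i.2)) ↔ ¬ (i.1 < j.1 ∨ (i.1 = j.1 ∧ i.2 < j.2)) := by
    constructor
    · rintro (h1 | ⟨h1, h2⟩) (h3 | ⟨h3, h4⟩)
      · exact absurd h1 (not_lt.2 h3.le)
      · exact absurd h1 (by rw [h3]; exact lt_irrefl _)
      · exact absurd h3 (by rw [h1]; exact lt_irrefl _)
      · exact absurd h2 (not_lt.2 h4.le)
    · intro h1
      push Not at h1
      rcases lt_trichotomy j.1 i.1 with h2 | h2 | h2
      · exact Or.inl h2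
      · right
        refine ⟨h2, ?_⟩
        have h3 := h1.2 h2.symm
        rcases lt_or_eq_of_le h3 with h4 | h4
        · exact h4
        · exact absurd (Prod.ext h2.symm h4.symm) h
      · exact absurd h2 (not_lt.2 h1.1)
  by_cases hb : i.1 < j.1 ∨ (i.1 = j.1 ∧ i.2 < j.2)
  · rw [if_pos hb, if_neg (fun h2 => htri.1 h2 hb), neg_neg]
  · rw [if_neg hb, if_pos (htri.2 hb)]

theorem cnt_tog_qcre_cre (i j : Site) (D : Finset Site) :
    (-1 : ℂ) ^ cnt i (tog j D) = sg_qcre_cre j i * (-1 : ℂ) ^ cnt i D := by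
  unfold cnt sg_qcre_cre tog
  by_cases hj : j ∈ D
  · rw [if_pos hj, Finset.filter_erase]
    by_cases hb : j.1 < i.1 ∨ (j.1 = i.1 ∧ j.2 < i.2)
    · have hm : j ∈ D.filter (fun j => j.1 < i.1 ∨ (j.1 = i.1 ∧ j.2 < i.2)) := by
        rw [Finset.mem_filter]; exact ⟨hj, hb⟩
      have hc := Finset.card_erase_add_one hm
      rw [if_pos hb, ← hc, pow_succ]
      ring
    · have hm : j ∉ D.filter (fun j => j.1 < i.1 ∨ (j.1 = i.1 ∧ j.2 < i.2)) := by
        rw [Finset.mem_filter]; exact fun h => hb h.2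
      rw [if_neg hb, Finset.erase_eq_of_notMem hm, one_mul]
  · rw [if_neg hj]
    by_cases hb : j.1 < i.1 ∨ (j.1 = i.1 ∧ j.2 < i.2)
    · have hm : j ∉ D.filter (fun j => j.1 < i.1 ∨ (j.1 = i.1 ∧ j.2 < i.2)) := by
        rw [Finset.mem_filter]; exact fun h => hj h.1
      rw [if_pos hb, Finset.filter_insert, if_pos hb, Finset.card_insert_of_notMem hm, pow_succ]
      ring
    · rw [if_neg hb, Finset.filter_insert, if_neg hb, one_mul]

theorem cre_ket_qcre_cre (i : Site) (D : Finset Site) :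
    cre i (ket D) = if occ D i then 0 else ((-1 : ℂ) ^ cnt i D) • ket (tog i D) := by
  unfold cre
  show Finsupp.linearCombination ℂ _ (Finsupp.single D 1) = _
  rw [Finsupp.linearCombination_single, one_smul]

theorem cre_cre (i j : Site) : cre i * cre j = - (cre j * cre i) := by
  apply Finsupp.lhom_ext'
  intro D
  apply LinearMap.ext_ring
  show cre i (cre j (ket D)) = -(cre j (cre i (ket D)))
  by_cases hij : i = j
  · subst hij
    have h0 : cre i (cre i (ket D)) = 0 := by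
      rw [cre_ket_qcre_cre]
      by_cases ho : occ D i
      · rw [if_pos ho, map_zero]
      · rw [if_neg ho, map_smul, cre_ket_qcre_cre, if_pos ((occ_tog_self_qcre_cre i D).2 ho), smul_zero]
    rw [h0, neg_zero]
  · have hji : j ≠ i := fun h => hij h.symm
    rw [cre_ket_qcre_cre, cre_ket_qcre_cre]
    by_cases hi : occ D i
    · rw [if_pos hi, map_zero, neg_zero]
      by_cases hj : occ D j
      · rw [if_pos hj, map_zero]
      · rw [if_neg hj, map_smul, cre_ket_qcre_cre, if_pos ((occ_tog_ne_qcre_cre hij D).2 hi), smul_zero]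
    · rw [if_neg hi]
      by_cases hj : occ D j
      · rw [if_pos hj, map_zero, map_smul, cre_ket_qcre_cre, if_pos ((occ_tog_ne_qcre_cre hji D).2 hj), smul_zero, neg_zero]
      · rw [if_neg hj, map_smul, map_smul, cre_ket_qcre_cre, cre_ket_qcre_cre,
          if_neg (fun h => hi ((occ_tog_ne_qcre_cre hij D).1 h)), if_neg (fun h => hj ((occ_tog_ne_qcre_cre hji D).1 h)),
          smul_smul, smul_smul, ← neg_smul, cnt_tog_qcre_cre, cnt_tog_qcre_cre, tog_comm_qcre_cre, sg_swap_qcre_cre hij]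
        congr 1
        ring

end Pool.Agent.Helper840.AE
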