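import Pool.Agent.Helper840.AE.FockDefs
import Pool.Agent.Helper840.AE.P_ann_ann
import Pool.Agent.Helper840.AE.P_cre_cre
import Pool.Agent.Helper840.AE.P_ann_cre

set_option autoImplicit false

namespace Pool.Agent.Helper840.AE

theorem alg_11215_qX_comm {R : Type*} [Ring R] (ci aj ck al p q : R) (h1 : aj * ck + ck * aj = p)
    (h2 : al * ci + ci * al = q) (h3 : ci * ck = -(ck * ci)) (h4 : aj * al = -(al * aj)) :
    ci * aj * (ck * al) - ck * al * (ci * aj) = ci * p * al - ck * q * aj := by
  have e1 : ci * aj * (ck * al) = ci * (aj * ck) * al := by simp only [mul_assoc]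
  have e2 : ck * al * (ci * aj) = ck * (al * ci) * aj := by simp only [mul_assoc]
  have e3 : aj * ck = p - ck * aj := eq_sub_of_add_eq h1
  have e4 : al * ci = q - ci * al := eq_sub_of_add_eq h2
  have e5 : ci * (ck * aj) * al = ck * (ci * al) * aj := by
    calc ci * (ck * aj) * al = (ci * ck) * (aj * al) := by simp only [mul_assoc]
      _ = (-(ck * ci)) * (-(al * aj)) := by rw [h3, h4]
      _ = (ck * ci) * (al * aj) := neg_mul_neg _ _
      _ = ck * (ci * al) * aj := by simp only [mul_assoc]
  rw [e1, e2, e3, e4, mul_sub, sub_mul, mul_sub, sub_mul, e5]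
  abel

theorem X_comm (i j k l : Site) :
    X i j * X k l - X k l * X i j = (if j = k then X i l else 0) - (if i = l then X k j else 0) := by
  have h := alg_11215_qX_comm (R := Module.End ℂ Fk) (cre i) (ann j) (cre k) (ann l)
    (if j = k then 1 else 0) (if l = i then 1 else 0) (ann_cre j k) (ann_cre l i) (cre_cre i k)
    (ann_ann j l)
  have e6 : cre i * (if j = k then (1 : Module.End ℂ Fk) else 0) * ann l =
      if j = k then X i l else 0 := by
    by_cases h : j = k
    · rw [if_pos h, if_pos h, mul_one]; rfl
    · rw [if_neg h, if_neg h, mul_zero, zero_mul]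
  have e7 : cre k * (if l = i then (1 : Module.End ℂ Fk) else 0) * ann j =
      if i = l then X k j else 0 := by
    by_cases h : i = l
    · rw [if_pos h, if_pos h.symm, mul_one]; rfl
    · rw [if_neg h, if_neg (fun h' => h h'.symm), mul_zero, zero_mul]
  rw [e6, e7] at h
  exact h

end Pool.Agent.Helper840.AE
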