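import Pool.Agent.Helper840.AE.FockDefs
import Pool.Agent.Helper840.AE.P_X_comm
import Pool.Agent.Helper840.AE.P_S_apply
import Pool.Agent.Helper840.AE.P_S_supp
import Pool.Agent.Helper840.AE.P_S_ext

set_option autoImplicit false

namespace Pool.Agent.Helper840.AE

theorem S_comm_zero (d d' : ℤ) (hd : d ≠ 0) (hd' : d' ≠ 0) (g g' : Site → ℂ)
    (h1 : ∀ i, g (sh d' i) * g' i = 0) (h2 : ∀ i, g' (sh d i) * g i = 0) :
    S d g * S d' g' = S d' g' * S d g := by
  apply S_ext
  intro D
  have hk : ∀ D' ∈ (ket D).support, bd D' ≤ bd D := by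
    intro D' hD'
    have : D' = D := by
      by_contra hne
      rw [ket, Finsupp.mem_support_iff, Finsupp.single_apply, if_neg (fun h => hne h.symm)] at hD'
      exact hD' rfl
    rw [this]
  set R := bd D + d.natAbs + d'.natAbs with hRdef
  have e1 : S d' g' (ket D) = ∑ k ∈ box R, g' k • X (sh d' k) k (ket D) := by
    apply S_apply d' hd'
    intro D' hD'
    have := hk D' hD'
    omega
  have e2 : S d g (ket D) = ∑ i ∈ box R, g i • X (sh d i) i (ket D) := by
    apply S_apply d hd
    intro D' hD'
    have := hk D' hD'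
    omega
  have e3 : S d g (S d' g' (ket D)) = ∑ i ∈ box R, g i • X (sh d i) i (S d' g' (ket D)) := by
    apply S_apply d hd
    intro D' hD'
    have := S_supp d' hd' g' (ket D) (bd D) hk D' hD'
    omega
  have e4 : S d' g' (S d g (ket D)) = ∑ k ∈ box R, g' k • X (sh d' k) k (S d g (ket D)) := by
    apply S_apply d' hd'
    intro D' hD'
    have := S_supp d hd g (ket D) (bd D) hk D' hD'
    omega
  rw [Module.End.mul_apply, Module.End.mul_apply, e3, e4, e1, e2]
  simp only [map_sum, map_smul, Finset.smul_sum, smul_smul]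
  rw [Finset.sum_comm]
  refine Finset.sum_congr rfl (fun k _ => Finset.sum_congr rfl (fun i _ => ?_))
  have hc := congrArg (fun A : Module.End ℂ Fk => A (ket D)) (X_comm (sh d i) i (sh d' k) k)
  simp only [LinearMap.sub_apply, Module.End.mul_apply] at hc
  rw [mul_comm (g' k) (g i), ← sub_eq_zero, ← smul_sub, hc]
  by_cases c1 : i = sh d' k
  · have : g i * g' k = 0 := by rw [c1]; exact h1 k
    rw [this, zero_smul]
  · by_cases c2 : sh d i = k
    · have : g i * g' k = 0 := by rw [← c2, mul_comm]; exact h2 i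
      rw [this, zero_smul]
    · rw [if_neg c1, if_neg c2]; simp

end Pool.Agent.Helper840.AE
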