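import Pool.Agent.Helper840.AE.FockDefs
import Pool.Agent.Helper840.AE.FockDefs2
import Pool.Agent.Helper840.AE.P_S_comm_zero

set_option autoImplicit false

namespace Pool.Agent.Helper840.AE

theorem Fr_comm_aux_qFr_comm (r r' : Fin 3) (b : ℤ) (i : Site) :
    (if (sh (1 - 2 * b) i).1 = r ∧ (sh (1 - 2 * b) i).2 % 2 = 1 then (1 : ℂ) else 0) *
      (if i.1 = r' ∧ i.2 % 2 = 1 then (1 : ℂ) else 0) = 0 := by
  by_cases h : i.2 % 2 = 1
  · have h2 : ¬ ((sh (1 - 2 * b) i).2 % 2 = 1) := by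
      show ¬ ((i.2 + (1 - 2 * b)) % 2 = 1)
      omega
    rw [if_neg (fun h3 => h2 h3.2), zero_mul]
  · have h4 : ¬ (i.1 = r' ∧ i.2 % 2 = 1) := fun h3 => h h3.2
    rw [if_neg h4, mul_zero]

theorem Fr_comm (r r' : Fin 3) (a b : ℤ) : Fr r a * Fr r' b = Fr r' b * Fr r a := by
  unfold Fr
  exact S_comm_zero _ _ (by omega) (by omega) _ _ (fun i => Fr_comm_aux_qFr_comm r r' b i)
    (fun i => Fr_comm_aux_qFr_comm r' r a i)

end Pool.Agent.Helper840.AE
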