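import Pool.Agent.Helper840.AE.FockDefs
import Pool.Agent.Helper840.AE.FockDefs2
import Pool.Agent.Helper840.AE.P_DN_occ
import Pool.Agent.Helper840.AE.P_X_ket
import Pool.Agent.Helper840.AE.P_X_comm
import Pool.Agent.Helper840.AE.P_Fm_eq
import Pool.Agent.Helper840.AE.P_Fr_comm

set_option autoImplicit false

namespace Pool.Agent.Helper840.AE

/-- the row `r` of the state `D` is as in `DN n` -/
def lev11807_qF3_zN (D : Finset Site) (r : Fin 3) (n : ℤ) : Prop :=
  ∀ k : ℤ, (occ D (r, 2 * k - 1) ↔ k ≤ n) ∧ (occ D (r, 2 * k) ↔ k < -n)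

theorem S_ket11807_qF3_zN (d : ℤ) (g : Site → ℂ) (D : Finset Site) :
    S d g (ket D) = ∑ i ∈ box (bd D + d.natAbs), g i • X (sh d i) i (ket D) := by
  show Finsupp.linearCombination ℂ _ (Finsupp.single D 1) = _
  rw [Finsupp.linearCombination_single, one_smul]

theorem occ_tog11807_qF3_zN (D : Finset Site) (i j : Site) :
    occ (tog i D) j ↔ (if j = i then ¬ occ D i else occ D j) := by
  unfold occ tog
  by_cases hij : j = i
  · subst hij
    by_cases h : j ∈ D
    · by_cases h2 : j.2 < 0 <;> simp [h, h2]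
    · by_cases h2 : j.2 < 0 <;> simp [h, h2]
  · by_cases h : i ∈ D
    · by_cases h2 : j.2 < 0 <;> simp [h, h2, hij]
    · by_cases h2 : j.2 < 0 <;> simp [h, h2, hij]

theorem sh_eq11807_qF3_zN (r : Fin 3) (n k : ℤ) :
    sh (1 - 2 * (2 * n)) (r, 2 * k - 1) = (r, 2 * (k - 2 * n)) := by
  unfold sh
  ext
  · rfl
  · show 2 * k - 1 + (1 - 2 * (2 * n)) = 2 * (k - 2 * n)
    ring

theorem term_zero11807_qF3_zN (D : Finset Site) (r : Fin 3) (n k : ℤ)
    (h : ¬ (occ D (r, 2 * k - 1) ∧ ¬ occ D (r, 2 * (k - 2 * n)))) :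
    X (sh (1 - 2 * (2 * n)) (r, 2 * k - 1)) (r, 2 * k - 1) (ket D) = 0 := by
  rw [sh_eq11807_qF3_zN]
  obtain ⟨ε, -, hε⟩ := X_ket (r, 2 * (k - 2 * n)) (r, 2 * k - 1) (by
    intro he
    have := congrArg Prod.snd he
    simp only at this
    omega) D
  rw [hε, if_neg h]

theorem Fr_zero11807_qF3_zN (D : Finset Site) (r : Fin 3) (n : ℤ) (h : lev11807_qF3_zN D r (n - 1)) :
    Fr r (2 * n) (ket D) = 0 := by
  unfold Fr
  rw [S_ket11807_qF3_zN]
  apply Finset.sum_eq_zero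
  rintro ⟨r', x⟩ -
  by_cases hg : r' = r ∧ x % 2 = 1
  · obtain ⟨rfl, hx⟩ := hg
    obtain ⟨k, rfl⟩ : ∃ k : ℤ, x = 2 * k - 1 := ⟨(x + 1) / 2, by omega⟩
    rw [term_zero11807_qF3_zN, smul_zero]
    rw [(h k).1, (h (k - 2 * n)).2]
    omega
  · rw [if_neg hg, zero_smul]

theorem Fr_move11807_qF3_zN (D : Finset Site) (r : Fin 3) (n : ℤ) (hn : 1 ≤ n) (h : lev11807_qF3_zN D r n) :
    ∃ ε : ℤ, (ε = 1 ∨ ε = -1) ∧ Fr r (2 * n) (ket D) =
      (ε : ℂ) • ket (tog (r, -2 * n) (tog (r, 2 * n - 1) D)) := by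
  obtain ⟨ε, hε1, hε⟩ := X_ket (r, 2 * (n - 2 * n)) (r, 2 * n - 1) (by
    intro he
    have := congrArg Prod.snd he
    simp only at this
    omega) D
  refine ⟨ε, hε1, ?_⟩
  unfold Fr
  rw [S_ket11807_qF3_zN, Finset.sum_eq_single (r, 2 * n - 1)]
  · have h1 : occ D (r, 2 * n - 1) ∧ ¬ occ D (r, 2 * (n - 2 * n)) := by
      rw [(h n).1, (h (n - 2 * n)).2]
      omega
    rw [if_pos (show r = r ∧ (2 * n - 1) % 2 = 1 from ⟨rfl, by omega⟩), one_smul, sh_eq11807_qF3_zN, hε,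
      if_pos h1]
    have h2 : 2 * (n - 2 * n) = -2 * n := by ring
    rw [h2]
  · rintro ⟨r', x⟩ - hne
    by_cases hg : r' = r ∧ x % 2 = 1
    · obtain ⟨rfl, hx⟩ := hg
      obtain ⟨k, rfl⟩ : ∃ k : ℤ, x = 2 * k - 1 := ⟨(x + 1) / 2, by omega⟩
      rw [term_zero11807_qF3_zN, smul_zero]
      rw [(h k).1, (h (k - 2 * n)).2]
      have hkn : k ≠ n := by
        rintro rfl
        exact hne rfl
      omega
    · rw [if_neg hg, zero_smul]
  · intro hbox
    exfalso
    apply hbox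
    unfold box
    rw [Finset.mem_product]
    refine ⟨Finset.mem_univ _, ?_⟩
    rw [Finset.mem_Icc]
    push_cast
    constructor
    · show -((bd D : ℤ) + |1 - 2 * (2 * n)|) ≤ 2 * n - 1
      have := abs_nonneg (1 - 2 * (2 * n))
      omega
    · show 2 * n - 1 ≤ (bd D : ℤ) + |1 - 2 * (2 * n)|
      have := neg_le_abs (1 - 2 * (2 * n))
      omega

theorem lev_move11807_qF3_zN (D : Finset Site) (r : Fin 3) (n : ℤ) (h : lev11807_qF3_zN D r n) :
    lev11807_qF3_zN (tog (r, -2 * n) (tog (r, 2 * n - 1) D)) r (n - 1) := by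
  intro k
  constructor
  · rw [occ_tog11807_qF3_zN, if_neg (by
      intro he
      have := congrArg Prod.snd he
      simp only at this
      omega), occ_tog11807_qF3_zN]
    by_cases hk : k = n
    · subst hk
      rw [if_pos rfl, (h k).1]
      omega
    · rw [if_neg (by
        intro he
        have := congrArg Prod.snd he
        simp only at this
        omega), (h k).1]
      omega
  · rw [occ_tog11807_qF3_zN]
    by_cases hk : k = -n
    · subst hk
      rw [if_pos (by ext <;> simp), occ_tog11807_qF3_zN, if_neg (by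
        intro he
        have := congrArg Prod.snd he
        simp only at this
        omega)]
      have h2 : (-2 * n : ℤ) = 2 * (-n) := by ring
      rw [h2, (h (-n)).2]
      omega
    · rw [if_neg (by
        intro he
        have := congrArg Prod.snd he
        simp only at this
        omega), occ_tog11807_qF3_zN, if_neg (by
        intro he
        have := congrArg Prod.snd he
        simp only at this
        omega), (h k).2]
      omega

theorem lev_other11807_qF3_zN (D : Finset Site) (r r' : Fin 3) (hr : r' ≠ r) (n m x y : ℤ)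
    (h : lev11807_qF3_zN D r' m) : lev11807_qF3_zN (tog (r, x) (tog (r, y) D)) r' m := by
  intro k
  have h1 : ∀ (a b : ℤ), ((r', a) : Site) ≠ (r, b) := fun a b he => hr (congrArg Prod.fst he)
  rw [occ_tog11807_qF3_zN, if_neg (h1 _ _), occ_tog11807_qF3_zN, if_neg (h1 _ _), occ_tog11807_qF3_zN,
    if_neg (h1 _ _), occ_tog11807_qF3_zN, if_neg (h1 _ _)]
  exact h k

theorem mem_iff11807_qF3_zN (D : Finset Site) (i : Site) :
    i ∈ D ↔ (if i.2 < 0 then ¬ occ D i else occ D i) := by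
  unfold occ
  by_cases h : i.2 < 0 <;> simp [h]

theorem F3_zN (N : ℕ) : ∃ c : ℂ, (c = 6 ∨ c = -6) ∧
    ((Fm (2 * (N : ℤ) + 2)) ^ 3) (zN (N + 1)) = c • zN N := by
  set n : ℤ := (N : ℤ) + 1 with hn
  have hm : 2 * (N : ℤ) + 2 = 2 * n := by rw [hn]; ring
  have hn1 : 1 ≤ n := by omega
  rw [hm, Fm_eq, Fin.sum_univ_three]
  have hz : zN (N + 1) = ket (DN (N + 1)) := rfl
  have hlev : ∀ r, lev11807_qF3_zN (DN (N + 1)) r n := by
    intro r k
    have := DN_occ (N + 1) r k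
    push_cast at this
    exact this
  -- squares kill
  have hsq : ∀ r, Fr r (2 * n) (Fr r (2 * n) (zN (N + 1))) = 0 := by
    intro r
    obtain ⟨ε, -, hε⟩ := Fr_move11807_qF3_zN (DN (N + 1)) r n hn1 (hlev r)
    rw [hz, hε, map_smul, Fr_zero11807_qF3_zN _ r n (lev_move11807_qF3_zN _ r n (hlev r)), smul_zero]
  have hcomm : ∀ (r r' : Fin 3) (v : Fk), Fr r (2 * n) (Fr r' (2 * n) v) =
      Fr r' (2 * n) (Fr r (2 * n) v) := by
    intro r r' v
    have := congrArg (fun T : Module.End ℂ Fk => T v) (Fr_comm r r' (2 * n) (2 * n))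
    exact this
  -- the product
  obtain ⟨ε2, hε2', hε2⟩ := Fr_move11807_qF3_zN (DN (N + 1)) 2 n hn1 (hlev 2)
  have hl1 := lev_other11807_qF3_zN (DN (N + 1)) 2 1 (by decide) n n (-2 * n) (2 * n - 1) (hlev 1)
  have hl0 := lev_other11807_qF3_zN (DN (N + 1)) 2 0 (by decide) n n (-2 * n) (2 * n - 1) (hlev 0)
  have hl2 := lev_move11807_qF3_zN (DN (N + 1)) 2 n (hlev 2)
  obtain ⟨ε1, hε1', hε1⟩ := Fr_move11807_qF3_zN _ 1 n hn1 hl1
  have hm0 := lev_other11807_qF3_zN _ 1 0 (by decide) n n (-2 * n) (2 * n - 1) hl0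
  have hm2 := lev_other11807_qF3_zN _ 1 2 (by decide) n (n - 1) (-2 * n) (2 * n - 1) hl2
  have hm1 := lev_move11807_qF3_zN _ 1 n hl1
  obtain ⟨ε0, hε0', hε0⟩ := Fr_move11807_qF3_zN _ 0 n hn1 hm0
  have hf0 := lev_move11807_qF3_zN _ 0 n hm0
  have hf1 := lev_other11807_qF3_zN _ 0 1 (by decide) n (n - 1) (-2 * n) (2 * n - 1) hm1
  have hf2 := lev_other11807_qF3_zN _ 0 2 (by decide) n (n - 1) (-2 * n) (2 * n - 1) hm2
  set D3 : Finset Site := tog (0, -2 * n) (tog (0, 2 * n - 1) (tog (1, -2 * n)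
    (tog (1, 2 * n - 1) (tog (2, -2 * n) (tog (2, 2 * n - 1) (DN (N + 1))))))) with hD3
  have hlev3 : ∀ r, lev11807_qF3_zN D3 r (n - 1) := by
    intro r
    fin_cases r
    · exact hf0
    · exact hf1
    · exact hf2
  have hlevN : ∀ r, lev11807_qF3_zN (DN N) r (n - 1) := by
    intro r k
    have := DN_occ N r k
    have h2 : n - 1 = N := by omega
    rw [h2]
    exact this
  have hD3N : D3 = DN N := by
    ext ⟨r, x⟩
    rw [mem_iff11807_qF3_zN, mem_iff11807_qF3_zN (DN N)]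
    have hocc : occ D3 (r, x) ↔ occ (DN N) (r, x) := by
      rcases Int.even_or_odd' x with ⟨k, hk | hk⟩
      · rw [hk, (hlev3 r k).2, (hlevN r k).2]
      · have h3 : x = 2 * (k + 1) - 1 := by omega
        rw [h3, (hlev3 r (k + 1)).1, (hlevN r (k + 1)).1]
    by_cases hx : x < 0 <;> simp [hx, hocc]
  have hprod : Fr 0 (2 * n) (Fr 1 (2 * n) (Fr 2 (2 * n) (zN (N + 1)))) =
      ((ε0 * ε1 * ε2 : ℤ) : ℂ) • zN N := by
    have hzN : zN N = ket (DN N) := rfl
    have hs : (ε2 : ℂ) * (ε1 : ℂ) * (ε0 : ℂ) = ((ε0 * ε1 * ε2 : ℤ) : ℂ) := by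
      push_cast
      ring
    rw [hz, hε2, map_smul, map_smul, hε1, map_smul, hε0, hD3N, smul_smul, smul_smul, hs, hzN]
  have hcube : ((Fr 0 (2 * n) + Fr 1 (2 * n) + Fr 2 (2 * n)) ^ 3) (zN (N + 1)) =
      (6 : ℂ) • Fr 0 (2 * n) (Fr 1 (2 * n) (Fr 2 (2 * n) (zN (N + 1)))) := by
    have e1 : ((Fr 0 (2 * n) + Fr 1 (2 * n) + Fr 2 (2 * n)) ^ 3) (zN (N + 1)) =
        (Fr 0 (2 * n) + Fr 1 (2 * n) + Fr 2 (2 * n)) ((Fr 0 (2 * n) + Fr 1 (2 * n) + Fr 2 (2 * n))
          ((Fr 0 (2 * n) + Fr 1 (2 * n) + Fr 2 (2 * n)) (zN (N + 1)))) := by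
      rw [pow_succ, pow_two]
      rfl
    rw [e1]
    have h00 := hsq 0
    have h11 := hsq 1
    have h22 := hsq 2
    have c10 := hcomm 1 0
    have c20 := hcomm 2 0
    have c21 := hcomm 2 1
    generalize zN (N + 1) = z at h00 h11 h22 ⊢
    generalize Fr 0 (2 * n) = a at *
    generalize Fr 1 (2 * n) = b at *
    generalize Fr 2 (2 * n) = c at *
    have haab : a (a (b z)) = 0 := by rw [← c10, ← c10, h00, map_zero]
    have haac : a (a (c z)) = 0 := by rw [← c20, ← c20, h00, map_zero]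
    have hbbc : b (b (c z)) = 0 := by rw [← c21, ← c21, h11, map_zero]
    simp only [LinearMap.add_apply, map_add, c10, c20, c21, h00, h11, h22, haab, haac, hbbc,
      map_zero, add_zero, zero_add]
    module
  rw [hcube, hprod, smul_smul]
  refine ⟨_, ?_, rfl⟩
  rcases hε0' with rfl | rfl <;> rcases hε1' with rfl | rfl <;> rcases hε2' with rfl | rfl <;>
    norm_num

end Pool.Agent.Helper840.AE
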