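import Pool.Agent.Helper840.AE.FockDefs
import Pool.Agent.Helper840.AE.FockDefs2
import Pool.Agent.Helper840.AE.P_F3_zN

set_option autoImplicit false

namespace Pool.Agent.Helper840.AE

theorem WN_mono_inv_qWN_mono (c : ℂ) (hc : c = 6 ∨ c = -6) : c⁻¹ ∈ Rp := by
  rcases hc with rfl | rfl
  · exact ⟨1, 6, by norm_num, by norm_num⟩
  · exact ⟨-1, 6, by norm_num, by norm_num⟩

theorem WN_mono_FL_qWN_mono (l : List ℤ) (t : ℤ) (x : Fk) :
    FL (l ++ [t, t, t]) x = FL l (((Fm t) ^ 3) x) := by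
  have h : FL (l ++ [t, t, t]) = FL l * (Fm t) ^ 3 := by
    unfold FL
    rw [List.map_append, List.prod_append]
    congr 1
  rw [h]
  rfl

theorem WN_mono (N : ℕ) : WN N ≤ WN (N + 1) := by
  unfold WN
  rw [Submodule.span_le]
  rintro x ⟨l, rfl⟩
  obtain ⟨c, hc, h⟩ := F3_zN N
  have hc0 : c ≠ 0 := by
    rcases hc with rfl | rfl <;> norm_num
  have h1 : FL l (zN N) = (⟨c⁻¹, WN_mono_inv_qWN_mono c hc⟩ : Rp) •
      FL (l ++ [2 * (N : ℤ) + 2, 2 * (N : ℤ) + 2, 2 * (N : ℤ) + 2]) (zN (N + 1)) := by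
    rw [WN_mono_FL_qWN_mono, h, map_smul]
    show _ = c⁻¹ • (c • FL l (zN N))
    rw [smul_smul, inv_mul_cancel₀ hc0, one_smul]
  show FL l (zN N) ∈ _
  rw [h1]
  apply Submodule.smul_mem
  apply Submodule.subset_span
  exact ⟨_, rfl⟩

end Pool.Agent.Helper840.AE
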