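import Pool.Agent.Helper840.AE.FockDefs
import Pool.Agent.Helper840.AE.P_X_comm
import Pool.Agent.Helper840.AE.P_S_apply
import Pool.Agent.Helper840.AE.P_S_supp
import Pool.Agent.Helper840.AE.P_X_box
import Pool.Agent.Helper840.AE.P_S_ext

set_option autoImplicit false

namespace Pool.Agent.Helper840.AE

theorem sh_sh_11222_qS_comm (d d' : ℤ) (k : Site) : sh d (sh d' k) = sh (d + d') k := by
  unfold sh
  refine Prod.ext rfl ?_
  show k.2 + d' + d = k.2 + (d + d')
  ring

theorem mem_box_11222_qS_comm (R : ℕ) (k : Site) : k ∈ box R ↔ k.2.natAbs ≤ R := by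
  unfold box
  rw [Finset.mem_product, Finset.mem_Icc]
  constructor
  · rintro ⟨-, h⟩
    omega
  · intro h
    refine ⟨Finset.mem_univ _, ?_⟩
    omega

/-- collapsing one sum -/
theorem coll_11222_qS_comm (d d' : ℤ) (hs : d + d' ≠ 0) (f : Site → ℂ) (D : Finset Site) (R : ℕ)
    (hR : bd D + (d + d').natAbs + d'.natAbs ≤ R) (k : Site) :
    ∑ i ∈ box R, f i • (if i = sh d' k then X (sh d i) k else 0) (ket D) =
      f (sh d' k) • X (sh (d + d') k) k (ket D) := by
  have h1 : ∀ i ∈ box R, f i • (if i = sh d' k then X (sh d i) k else 0) (ket D) =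
      if i = sh d' k then f i • X (sh d i) k (ket D) else 0 := by
    intro i _
    by_cases h : i = sh d' k
    · rw [if_pos h, if_pos h]
    · rw [if_neg h, if_neg h, LinearMap.zero_apply, smul_zero]
  rw [Finset.sum_congr rfl h1, Finset.sum_ite_eq']
  by_cases h2 : sh d' k ∈ box R
  · rw [if_pos h2, sh_sh_11222_qS_comm]
  · rw [if_neg h2]
    by_cases h3 : X (sh (d + d') k) k (ket D) = 0
    · rw [h3, smul_zero]
    · exfalso
      have h4 := (X_box (d + d') hs k D h3).1
      rw [mem_box_11222_qS_comm] at h2 h4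
      apply h2
      show (k.2 + d').natAbs ≤ R
      omega

theorem prod_11222_qS_comm (d d' : ℤ) (hd : d ≠ 0) (hd' : d' ≠ 0) (g g' : Site → ℂ) (D : Finset Site)
    (R : ℕ) (hR : bd D + d.natAbs + d'.natAbs ≤ R) :
    S d g (S d' g' (ket D)) = ∑ i ∈ box R, ∑ k ∈ box R,
      (g i * g' k) • X (sh d i) i (X (sh d' k) k (ket D)) := by
  have hsupp : ∀ D' ∈ (ket D).support, D' = D := by
    intro D' h
    unfold ket at h
    exact Finset.mem_singleton.1 (Finsupp.support_single_subset h)
  rw [S_apply d hd g (S d' g' (ket D)) R, S_apply d' hd' g' (ket D) R]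
  · refine Finset.sum_congr rfl (fun i _ => ?_)
    rw [map_sum, Finset.smul_sum]
    refine Finset.sum_congr rfl (fun k _ => ?_)
    rw [map_smul, smul_smul]
  · intro D' h
    rw [hsupp D' h]
    omega
  · intro D' h
    have := S_supp d' hd' g' (ket D) (bd D) (fun D'' h'' => by rw [hsupp D'' h'']) D' h
    omega

theorem S_comm (d d' : ℤ) (hd : d ≠ 0) (hd' : d' ≠ 0) (hs : d + d' ≠ 0) (g g' : Site → ℂ) :
    S d g * S d' g' - S d' g' * S d g =
      S (d + d') (fun i => g (sh d' i) * g' i - g' (sh d i) * g i) := by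
  apply S_ext
  intro D
  have hsupp : ∀ D' ∈ (ket D).support, D' = D := by
    intro D' h
    unfold ket at h
    exact Finset.mem_singleton.1 (Finsupp.support_single_subset h)
  obtain ⟨R, hR⟩ : ∃ R, bd D + 2 * (d.natAbs + d'.natAbs) = R := ⟨_, rfl⟩
  have habs : (d + d').natAbs ≤ d.natAbs + d'.natAbs := Int.natAbs_add_le d d'
  rw [LinearMap.sub_apply, Module.End.mul_apply, Module.End.mul_apply,
    prod_11222_qS_comm d d' hd hd' g g' D R (by omega), prod_11222_qS_comm d' d hd' hd g' g D R (by omega),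
    S_apply (d + d') hs _ (ket D) R (by intro D' h; rw [hsupp D' h]; omega)]
  rw [Finset.sum_comm (f := fun i k => (g' i * g k) • X (sh d' i) i (X (sh d k) k (ket D))),
    ← Finset.sum_sub_distrib]
  have h1 : ∀ i ∈ box R, (∑ k ∈ box R, (g i * g' k) • X (sh d i) i (X (sh d' k) k (ket D))) -
      ∑ k ∈ box R, (g' k * g i) • X (sh d' k) k (X (sh d i) i (ket D)) =
      (∑ k ∈ box R, (g i * g' k) • (if i = sh d' k then X (sh d i) k else 0) (ket D)) -
      ∑ k ∈ box R, (g' k * g i) • (if k = sh d i then X (sh d' k) i else 0) (ket D) := by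
    intro i _
    rw [← Finset.sum_sub_distrib, ← Finset.sum_sub_distrib]
    refine Finset.sum_congr rfl (fun k _ => ?_)
    have h2 := LinearMap.congr_fun (X_comm (sh d i) i (sh d' k) k) (ket D)
    rw [LinearMap.sub_apply, LinearMap.sub_apply, Module.End.mul_apply,
      Module.End.mul_apply] at h2
    rw [mul_comm (g' k) (g i), ← smul_sub, ← smul_sub, h2]
    congr 2
    by_cases h3 : k = sh d i
    · rw [if_pos h3, if_pos h3.symm]
    · rw [if_neg h3, if_neg (fun h => h3 h.symm)]
  rw [Finset.sum_congr rfl h1, Finset.sum_sub_distrib, Finset.sum_comm]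
  have h4 : ∀ k ∈ box R, ∑ i ∈ box R, (g i * g' k) • (if i = sh d' k then X (sh d i) k else 0)
      (ket D) = (g (sh d' k) * g' k) • X (sh (d + d') k) k (ket D) := by
    intro k _
    exact coll_11222_qS_comm d d' hs (fun i => g i * g' k) D R (by omega) k
  have h5 : ∀ i ∈ box R, ∑ k ∈ box R, (g' k * g i) • (if k = sh d i then X (sh d' k) i else 0)
      (ket D) = (g' (sh d i) * g i) • X (sh (d + d') i) i (ket D) := by
    intro i _
    have := coll_11222_qS_comm d' d (by rwa [add_comm]) (fun k => g' k * g i) D R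
      (by rw [add_comm d' d]; omega) i
    rw [add_comm d' d] at this
    exact this
  rw [Finset.sum_congr rfl h4, Finset.sum_congr rfl h5, ← Finset.sum_sub_distrib]
  refine Finset.sum_congr rfl (fun k _ => ?_)
  rw [sub_smul]

end Pool.Agent.Helper840.AE
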