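import Pool.Agent.Helper840.AE.FockDefs
import Pool.Agent.Helper840.AE.FockDefs2
import Pool.Agent.Helper840.AE.P_S_comm

set_option autoImplicit false

namespace Pool.Agent.Helper840.AE

theorem EF (a m : ℤ) (h : a + m ≠ 0) : Em a * Fm m - Fm m * Em a = Hm (a + m) := by
  unfold Em Fm Hm
  rw [S_comm _ _ (by omega) (by omega) (by omega)]
  have h1 : -1 - 2 * a + (1 - 2 * m) = -2 * (a + m) := by ring
  rw [h1]
  congr 1
  funext i
  unfold pev podd chi sh
  rcases Int.emod_two_eq_zero_or_one i.2 with h2 | h2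
  · have h3 : ¬ i.2 % 2 = 1 := by omega
    have h4 : (i.2 + (-1 - 2 * a)) % 2 = 1 := by omega
    simp only [h2, h3, h4, if_true, if_false]
    norm_num
  · have h3 : ¬ i.2 % 2 = 0 := by omega
    have h4 : (i.2 + (1 - 2 * m)) % 2 = 0 := by omega
    simp only [h2, h3, h4, if_true, if_false]
    norm_num

end Pool.Agent.Helper840.AE
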