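import Pool.Agent.Helper840.AE.FockDefs
import Pool.Agent.Helper840.AE.FockDefs2
import Pool.Agent.Helper840.AE.P_S_comm_zero

set_option autoImplicit false

namespace Pool.Agent.Helper840.AE

theorem j11798_pev_qEm_comm (c : ℤ) (i : Site) : pev (sh (-1 - 2 * c) i) * pev i = 0 := by
  unfold pev sh
  by_cases h : i.2 % 2 = 0
  · have h2 : ¬ ((i.2 + (-1 - 2 * c)) % 2 = 0) := by omega
    rw [if_neg h2, zero_mul]
  · rw [if_neg h, mul_zero]

theorem Em_comm (a b : ℤ) : Em a * Em b = Em b * Em a := by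
  unfold Em
  exact S_comm_zero (-1 - 2 * a) (-1 - 2 * b) (by omega) (by omega) pev pev
    (fun i => j11798_pev_qEm_comm b i) (fun i => j11798_pev_qEm_comm a i)

end Pool.Agent.Helper840.AE
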