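import Pool.Agent.Helper840.AE.FockDefs
import Pool.Agent.Helper840.AE.FockDefs2
import Pool.Agent.Helper840.AE.P_DN_occ
import Pool.Agent.Helper840.AE.P_X_ket

set_option autoImplicit false

namespace Pool.Agent.Helper840.AE

theorem Em_zN (N : ℕ) (a : ℤ) (h : -1 ≤ a) : Em a (zN N) = 0 := by
  unfold Em zN S ket
  rw [Finsupp.linearCombination_single, one_smul]
  apply Finset.sum_eq_zero
  rintro ⟨r, p⟩ _
  by_cases hp : p % 2 = 0
  · obtain ⟨l, rfl⟩ : ∃ l, p = 2 * l := ⟨p / 2, by omega⟩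
    have hsh : sh (-1 - 2 * a) (r, 2 * l) = (r, 2 * (l - a) - 1) := by
      unfold sh
      apply Prod.ext
      · rfl
      · show 2 * l + (-1 - 2 * a) = 2 * (l - a) - 1
        ring
    have hne : sh (-1 - 2 * a) (r, 2 * l) ≠ (r, 2 * l) := by
      rw [hsh]
      intro h1
      have := congrArg Prod.snd h1
      simp only at this
      omega
    obtain ⟨ε, -, hX⟩ := X_ket (sh (-1 - 2 * a) (r, 2 * l)) (r, 2 * l) hne (DN N)
    have hX' : X (sh (-1 - 2 * a) (r, 2 * l)) (r, 2 * l) (Finsupp.single (DN N) 1) = 0 := by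
      have h2 := hX
      unfold ket at h2
      rw [h2, if_neg]
      rintro ⟨h3, h4⟩
      rw [(DN_occ N r l).2] at h3
      rw [hsh, (DN_occ N r (l - a)).1] at h4
      omega
    rw [hX', smul_zero]
  · have : pev (r, p) = 0 := by
      unfold pev
      rw [if_neg hp]
    rw [this, zero_smul]

end Pool.Agent.Helper840.AE
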