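import Pool.Agent.Helper840.AE.FockDefs

set_option autoImplicit false

namespace Pool.Agent.Helper840.AE

theorem S_smul (d : ℤ) (a : ℂ) (g : Site → ℂ) : a • S d g = S d (fun i => a * g i) := by
  apply Finsupp.lhom_ext
  intro D c
  rw [LinearMap.smul_apply]
  unfold S
  rw [Finsupp.linearCombination_single, Finsupp.linearCombination_single,
    smul_comm a c, Finset.smul_sum]
  refine congrArg _ (Finset.sum_congr rfl fun i _ => ?_)
  rw [smul_smul]

end Pool.Agent.Helper840.AE
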