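import Pool.Agent.Helper840.AE.FockDefs
import Pool.Agent.Helper840.AE.FockDefs2
import Pool.Agent.Helper840.AE.P_S_comm
import Pool.Agent.Helper840.AE.P_S_smul

set_option autoImplicit false

namespace Pool.Agent.Helper840.AE

theorem HF (a m : ℤ) (h : a ≠ 0) : Hm a * Fm m - Fm m * Hm a = (-2 : ℂ) • Fm (a + m) := by
  rw [Hm, Fm, Fm, S_comm (-2 * a) (1 - 2 * m) (by omega) (by omega) (by omega), S_smul]
  have h1 : -2 * a + (1 - 2 * m) = 1 - 2 * (a + m) := by ring
  rw [h1]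
  congr 1
  funext i
  have h2 : (sh (1 - 2 * m) i).2 = i.2 + (1 - 2 * m) := rfl
  have h3 : (sh (-2 * a) i).2 = i.2 + (-2 * a) := rfl
  rcases Int.emod_two_eq_zero_or_one i.2 with hi | hi
  · have h4 : ¬ (i.2 + (-2 * a)) % 2 = 1 := by omega
    have h5 : ¬ i.2 % 2 = 1 := by omega
    simp only [podd, chi, h3, if_neg h4, if_neg h5]
    ring
  · have h4 : (i.2 + (-2 * a)) % 2 = 1 := by omega
    have h5 : ¬ (i.2 + (1 - 2 * m)) % 2 = 1 := by omega
    simp only [podd, chi, h2, h3, if_pos h4, if_neg h5, if_pos hi]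
    ring

end Pool.Agent.Helper840.AE
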