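import Pool.Agent.Helper840.AE.FockDefs
import Pool.Agent.Helper840.AE.FockDefs2
import Pool.Agent.Helper840.AE.P_DN_occ
import Pool.Agent.Helper840.AE.P_X_ket

set_option autoImplicit false

namespace Pool.Agent.Helper840.AE

theorem Hm_zN (N : ℕ) (a : ℤ) (h : 1 ≤ a) : Hm a (zN N) = 0 := by
  have key : ∀ i : Site, X (sh (-2 * a) i) i (ket (DN N)) = 0 := by
    rintro ⟨r, p⟩
    have hne : sh (-2 * a) (r, p) ≠ (r, p) := by
      intro he
      have : p + -2 * a = p := congrArg Prod.snd he
      omega
    obtain ⟨ε, -, hX⟩ := X_ket (sh (-2 * a) (r, p)) (r, p) hne (DN N)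
    rw [hX, if_neg]
    rintro ⟨h1, h2⟩
    apply h2
    rcases Int.even_or_odd' p with ⟨k, hk | hk⟩
    · subst hk
      have e : sh (-2 * a) (r, 2 * k) = (r, 2 * (k - a)) := by
        unfold sh
        simp only [Prod.mk.injEq, true_and]
        ring
      rw [e, (DN_occ N r (k - a)).2]
      rw [(DN_occ N r k).2] at h1
      omega
    · have hk' : p = 2 * (k + 1) - 1 := by omega
      subst hk'
      have e : sh (-2 * a) (r, 2 * (k + 1) - 1) = (r, 2 * (k + 1 - a) - 1) := by
        unfold sh
        simp only [Prod.mk.injEq, true_and]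
        ring
      rw [e, (DN_occ N r (k + 1 - a)).1]
      rw [(DN_occ N r (k + 1)).1] at h1
      omega
  unfold Hm S zN
  show Finsupp.linearCombination ℂ _ (Finsupp.single (DN N) 1) = 0
  rw [Finsupp.linearCombination_single, one_smul]
  apply Finset.sum_eq_zero
  intro i _
  rw [key i, smul_zero]

end Pool.Agent.Helper840.AE
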