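import Pool.Agent.Helper840.AE.FockDefs
import Pool.Agent.Helper840.AE.FockDefs2
import Pool.Agent.Helper840.AE.P_EF
import Pool.Agent.Helper840.AE.P_HF
import Pool.Agent.Helper840.AE.P_Em_zN
import Pool.Agent.Helper840.AE.P_Hm_zN

set_option autoImplicit false

namespace Pool.Agent.Helper840.AE

theorem GN_EH_F_qGN_EH (N : ℕ) (m : ℤ) (hm : 2 ≤ m) (x : Fk) (hx : x ∈ GN N) : Fm m x ∈ GN N := by
  unfold GN at hx ⊢
  induction hx using Submodule.span_induction with
  | mem x hx =>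
    obtain ⟨l, hl, rfl⟩ := hx
    apply Submodule.subset_span
    refine ⟨m :: l, ?_, ?_⟩
    · intro a ha
      rcases List.mem_cons.1 ha with h | h
      · rw [h]; exact hm
      · exact hl a h
    · unfold FL
      rw [List.map_cons, List.prod_cons]
      rfl
  | zero => rw [map_zero]; exact Submodule.zero_mem _
  | add x y _ _ hx hy => rw [map_add]; exact Submodule.add_mem _ hx hy
  | smul c x _ hx =>
    rw [Subring.smul_def, map_smul, ← Subring.smul_def]
    exact Submodule.smul_mem _ c hx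

theorem GN_EH_mem_qGN_EH (N : ℕ) (l : List ℤ) (hl : ∀ a ∈ l, 2 ≤ a) : FL l (zN N) ∈ GN N :=
  Submodule.subset_span ⟨l, hl, rfl⟩

theorem GN_EH_l_qGN_EH (N : ℕ) (l : List ℤ) (hl : ∀ a ∈ l, 2 ≤ a) :
    (∀ a : ℤ, -1 ≤ a → Em a (FL l (zN N)) ∈ GN N) ∧
      (∀ a : ℤ, 1 ≤ a → Hm a (FL l (zN N)) ∈ GN N) := by
  induction l with
  | nil =>
    have h0 : FL [] (zN N) = zN N := by unfold FL; simp
    rw [h0]
    constructor
    · intro a ha
      rw [Em_zN N a ha]
      exact Submodule.zero_mem _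
    · intro a ha
      rw [Hm_zN N a ha]
      exact Submodule.zero_mem _
  | cons m l ih =>
    have hm : 2 ≤ m := hl m (List.mem_cons_self)
    have hl' : ∀ a ∈ l, 2 ≤ a := fun a ha => hl a (List.mem_cons_of_mem _ ha)
    obtain ⟨ihE, ihH⟩ := ih hl'
    have h0 : FL (m :: l) (zN N) = Fm m (FL l (zN N)) := by
      unfold FL
      rw [List.map_cons, List.prod_cons]
      rfl
    rw [h0]
    constructor
    · intro a ha
      have h1 := congrArg (fun T : Module.End ℂ Fk => T (FL l (zN N))) (EF a m (by omega))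
      simp only [LinearMap.sub_apply, Module.End.mul_apply] at h1
      rw [sub_eq_iff_eq_add.1 h1]
      exact Submodule.add_mem _ (ihH _ (by omega)) (GN_EH_F_qGN_EH N m hm _ (ihE a ha))
    · intro a ha
      have h1 := congrArg (fun T : Module.End ℂ Fk => T (FL l (zN N))) (HF a m (by omega))
      simp only [LinearMap.sub_apply, Module.End.mul_apply, LinearMap.smul_apply] at h1
      rw [sub_eq_iff_eq_add.1 h1]
      refine Submodule.add_mem _ ?_ (GN_EH_F_qGN_EH N m hm _ (ihH a ha))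
      have h2 : Fm (a + m) (FL l (zN N)) ∈ GN N :=
        GN_EH_F_qGN_EH N (a + m) (by omega) _ (GN_EH_mem_qGN_EH N l hl')
      have h3 : (-2 : ℂ) • Fm (a + m) (FL l (zN N)) =
          -(Fm (a + m) (FL l (zN N)) + Fm (a + m) (FL l (zN N))) := by
        rw [neg_smul, two_smul]
      rw [h3]
      exact Submodule.neg_mem _ (Submodule.add_mem _ h2 h2)

theorem GN_EH_sp_qGN_EH (N : ℕ) (T : Module.End ℂ Fk)
    (hT : ∀ l : List ℤ, (∀ a ∈ l, 2 ≤ a) → T (FL l (zN N)) ∈ GN N) (x : Fk) (hx : x ∈ GN N) :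
    T x ∈ GN N := by
  have key : ∀ x ∈ Submodule.span Rp {x | ∃ l : List ℤ, (∀ a ∈ l, 2 ≤ a) ∧ x = FL l (zN N)},
      T x ∈ GN N := by
    intro x hx
    induction hx using Submodule.span_induction with
    | mem x hx =>
      obtain ⟨l, hl, rfl⟩ := hx
      exact hT l hl
    | zero => rw [map_zero]; exact Submodule.zero_mem _
    | add x y _ _ hx hy => rw [map_add]; exact Submodule.add_mem _ hx hy
    | smul c x _ hx =>
      rw [Subring.smul_def, map_smul, ← Subring.smul_def]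
      exact Submodule.smul_mem _ c hx
  exact key x hx

theorem GN_EH (N : ℕ) (x : Fk) (hx : x ∈ GN N) :
    (∀ a : ℤ, -1 ≤ a → Em a x ∈ GN N) ∧ (∀ a : ℤ, 1 ≤ a → Hm a x ∈ GN N) :=
  ⟨fun a ha => GN_EH_sp_qGN_EH N (Em a) (fun l hl => (GN_EH_l_qGN_EH N l hl).1 a ha) x hx,
    fun a ha => GN_EH_sp_qGN_EH N (Hm a) (fun l hl => (GN_EH_l_qGN_EH N l hl).2 a ha) x hx⟩

end Pool.Agent.Helper840.AE
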