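import Pool.Agent.Helper840.AE.FockDefs
import Pool.Agent.Helper840.AE.FockDefs2
import Pool.Agent.Helper840.AE.P_S_comm
import Pool.Agent.Helper840.AE.P_S_smul

set_option autoImplicit false

namespace Pool.Agent.Helper840.AE

theorem HE (a b : ℤ) (h : a ≠ 0) : Hm a * Em b - Em b * Hm a = (2 : ℂ) • Em (a + b) := by
  unfold Hm Em
  rw [S_comm (-2 * a) (-1 - 2 * b) (by omega) (by omega) (by omega), S_smul]
  rw [show -2 * a + (-1 - 2 * b) = -1 - 2 * (a + b) by ring]
  congr 1
  funext i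
  unfold chi pev sh
  simp only
  rcases Int.emod_two_eq_zero_or_one i.2 with h1 | h1
  · have e1 : (i.2 + (-1 - 2 * b)) % 2 = 1 := by omega
    have e2 : (i.2 + -2 * a) % 2 = 0 := by omega
    have e3 : ¬ (i.2 % 2 = 1) := by omega
    rw [if_pos e1, if_pos h1, if_pos e2, if_neg e3]
    norm_num
  · have e2 : ¬ ((i.2 + -2 * a) % 2 = 0) := by omega
    have e3 : ¬ (i.2 % 2 = 0) := by omega
    rw [if_neg e3, if_neg e2]
    ring

end Pool.Agent.Helper840.AE
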