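import Pool.Agent.Helper840.AE.FockDefs
import Pool.Agent.Helper840.AE.FockDefs2
import Pool.Agent.Helper840.AE.P_EF
import Pool.Agent.Helper840.AE.P_HE
import Pool.Agent.Helper840.AE.P_Em_comm
import Pool.Agent.Helper840.AE.P_GN_EH
import Pool.Agent.Helper840.AE.P_Em_zN

set_option autoImplicit false

namespace Pool.Agent.Helper840.AE

theorem unn_h845_qGN_dpow {A : Type*} [Ring A] [Algebra ℂ A] (E F H E' : A) (h1 : E * F = F * E + H)
    (h2 : E * H = H * E - (2 : ℂ) • E') (h3 : E * E' = E' * E) (k : ℕ) :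
    E ^ (k + 2) * F = F * E ^ (k + 2) + ((k : ℂ) + 2) • (H * E ^ (k + 1)) -
      (((k : ℂ) + 2) * ((k : ℂ) + 1)) • (E' * E ^ k) := by
  induction k with
  | zero =>
    have e0 : E ^ (0 + 2) * F = E * (E * F) := by rw [zero_add, sq, mul_assoc]
    rw [e0, h1, mul_add, h2, ← mul_assoc, h1, add_mul]
    have e1 : F * E ^ (0 + 2) = F * E * E := by rw [zero_add, sq, mul_assoc]
    rw [e1, zero_add, pow_one, pow_zero, mul_one]
    push_cast
    module
  | succ k ih =>
    have e0 : E ^ (k + 1 + 2) * F = E * (E ^ (k + 2) * F) := by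
      rw [← mul_assoc, ← pow_succ']
    rw [e0, ih, mul_sub, mul_add, mul_smul_comm, mul_smul_comm, ← mul_assoc E F, h1,
      ← mul_assoc E H, h2, ← mul_assoc E E', h3, add_mul, sub_mul, smul_mul_assoc]
    have e1 : F * E * E ^ (k + 2) = F * E ^ (k + 1 + 2) := by
      rw [mul_assoc, ← pow_succ']
    have e2 : H * E * E ^ (k + 1) = H * E ^ (k + 2) := by
      rw [mul_assoc, ← pow_succ']
    have e3 : E' * E * E ^ k = E' * E ^ (k + 1) := by
      rw [mul_assoc, ← pow_succ']
    have e4 : H * E ^ (k + 1 + 1) = H * E ^ (k + 2) := rfl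
    rw [e1, e2, e3, e4]
    push_cast
    module

/-- divided powers -/
noncomputable def dp_h845_qGN_dpow (c : ℤ) (k : ℕ) : Module.End ℂ Fk := ((k.factorial : ℂ)⁻¹) • (Em c) ^ k

theorem dp_one_h845_qGN_dpow (c m : ℤ) (h : c + m ≠ 0) :
    dp_h845_qGN_dpow c 1 * Fm m = Fm m * dp_h845_qGN_dpow c 1 + Hm (c + m) * dp_h845_qGN_dpow c 0 := by
  have h1 := EF c m h
  unfold dp_h845_qGN_dpow
  simp only [Nat.factorial, Nat.cast_one, inv_one, one_smul, pow_one, pow_zero, mul_one]
  rw [← h1]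
  abel

theorem dp_add_h845_qGN_dpow (c m : ℤ) (h : c + m ≠ 0) (k : ℕ) :
    dp_h845_qGN_dpow c (k + 2) * Fm m = Fm m * dp_h845_qGN_dpow c (k + 2) + Hm (c + m) * dp_h845_qGN_dpow c (k + 1) -
      Em (c + m + c) * dp_h845_qGN_dpow c k := by
  have h1 : Em c * Fm m = Fm m * Em c + Hm (c + m) := by
    rw [← EF c m h]; abel
  have h2 : Em c * Hm (c + m) = Hm (c + m) * Em c - (2 : ℂ) • Em (c + m + c) := by
    rw [← HE (c + m) c h]; abel
  have h3 : Em c * Em (c + m + c) = Em (c + m + c) * Em c := Em_comm _ _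
  have key := unn_h845_qGN_dpow (Em c) (Fm m) (Hm (c + m)) (Em (c + m + c)) h1 h2 h3 k
  unfold dp_h845_qGN_dpow
  rw [smul_mul_assoc, key, mul_smul_comm, mul_smul_comm, mul_smul_comm]
  have f0 : ((k.factorial : ℂ)) ≠ 0 := by exact_mod_cast k.factorial_ne_zero
  have f1 : ((k : ℂ) + 1) ≠ 0 := by exact_mod_cast Nat.succ_ne_zero k
  have f2 : ((k : ℂ) + 2) ≠ 0 := by exact_mod_cast Nat.succ_ne_zero (k + 1)
  have g1 : (((k + 2).factorial : ℂ))⁻¹ * ((k : ℂ) + 2) = (((k + 1).factorial : ℂ))⁻¹ := by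
    rw [Nat.factorial_succ (k + 1)]
    push_cast
    have f3 : (((k + 1).factorial : ℂ)) ≠ 0 := by exact_mod_cast (k + 1).factorial_ne_zero
    have f4 : ((k : ℂ) + 1 + 1) ≠ 0 := by
      have : (k : ℂ) + 1 + 1 = (k : ℂ) + 2 := by ring
      rw [this]; exact f2
    field_simp
    ring
  have g2 : (((k + 2).factorial : ℂ))⁻¹ * (((k : ℂ) + 2) * ((k : ℂ) + 1)) = ((k.factorial : ℂ))⁻¹ := by
    rw [Nat.factorial_succ (k + 1), Nat.factorial_succ k]
    push_cast
    have f4 : ((k : ℂ) + 1 + 1) ≠ 0 := by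
      have : (k : ℂ) + 1 + 1 = (k : ℂ) + 2 := by ring
      rw [this]; exact f2
    field_simp
    ring
  rw [smul_sub, smul_add, smul_smul, smul_smul, g1, g2]

theorem GN_F_h845_qGN_dpow (N : ℕ) (m : ℤ) (hm : 2 ≤ m) (x : Fk) (hx : x ∈ GN N) : Fm m x ∈ GN N := by
  unfold GN at hx ⊢
  induction hx using Submodule.span_induction with
  | mem x hx =>
    obtain ⟨l, hl, rfl⟩ := hx
    refine Submodule.subset_span ⟨m :: l, ?_, ?_⟩
    · intro a ha
      rcases List.mem_cons.mp ha with rfl | ha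
      · exact hm
      · exact hl a ha
    · show Fm m (FL l (zN N)) = FL (m :: l) (zN N)
      unfold FL
      rw [List.map_cons, List.prod_cons]
      rfl
  | zero => rw [map_zero]; exact Submodule.zero_mem _
  | add x y _ _ hx hy => rw [map_add]; exact Submodule.add_mem _ hx hy
  | smul r x _ hx =>
    have : Fm m (r • x) = r • Fm m x := by
      rw [Subring.smul_def, map_smul]
      rfl
    rw [this]
    exact Submodule.smul_mem _ r hx

theorem dp_FL_h845_qGN_dpow (N : ℕ) (c : ℤ) (hc : c = -1 ∨ c = 0) (l : List ℤ) (hl : ∀ a ∈ l, 2 ≤ a) :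
    ∀ k, dp_h845_qGN_dpow c k (FL l (zN N)) ∈ GN N := by
  induction l with
  | nil =>
    intro k
    have h0 : FL [] (zN N) = zN N := by
      unfold FL
      rw [List.map_nil, List.prod_nil]
      rfl
    rw [h0]
    cases k with
    | zero =>
      have : dp_h845_qGN_dpow c 0 (zN N) = zN N := by
        unfold dp_h845_qGN_dpow
        simp
      rw [this]
      exact Submodule.subset_span ⟨[], by simp, h0.symm⟩
    | succ k =>
      have : dp_h845_qGN_dpow c (k + 1) (zN N) = 0 := by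
        unfold dp_h845_qGN_dpow
        rw [LinearMap.smul_apply, pow_succ, Module.End.mul_apply, Em_zN N c (by omega), map_zero, smul_zero]
      rw [this]
      exact Submodule.zero_mem _
  | cons m l ih =>
    intro k
    have hm : 2 ≤ m := hl m (List.mem_cons_self)
    have hcm : c + m ≠ 0 := by omega
    have ih' := ih (fun a ha => hl a (List.mem_cons_of_mem _ ha))
    have h0 : FL (m :: l) (zN N) = Fm m (FL l (zN N)) := by
      unfold FL
      rw [List.map_cons, List.prod_cons]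
      rfl
    rw [h0]
    match k with
    | 0 =>
      have : dp_h845_qGN_dpow c 0 (Fm m (FL l (zN N))) = Fm m (dp_h845_qGN_dpow c 0 (FL l (zN N))) := by
        unfold dp_h845_qGN_dpow
        simp
      rw [this]
      exact GN_F_h845_qGN_dpow N m hm _ (ih' 0)
    | 1 =>
      have h1 := congrArg (fun T : Module.End ℂ Fk => T (FL l (zN N))) (dp_one_h845_qGN_dpow c m hcm)
      simp only [Module.End.mul_apply, LinearMap.add_apply] at h1
      rw [h1]
      exact Submodule.add_mem _ (GN_F_h845_qGN_dpow N m hm _ (ih' 1)) ((GN_EH N _ (ih' 0)).2 _ (by omega))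
    | k + 2 =>
      have h1 := congrArg (fun T : Module.End ℂ Fk => T (FL l (zN N))) (dp_add_h845_qGN_dpow c m hcm k)
      simp only [Module.End.mul_apply, LinearMap.add_apply, LinearMap.sub_apply] at h1
      rw [h1]
      exact Submodule.sub_mem _ (Submodule.add_mem _ (GN_F_h845_qGN_dpow N m hm _ (ih' (k + 2)))
        ((GN_EH N _ (ih' (k + 1))).2 _ (by omega))) ((GN_EH N _ (ih' k)).1 _ (by omega))

theorem GN_dpow (N : ℕ) (c : ℤ) (hc : c = -1 ∨ c = 0) (k : ℕ) (x : Fk) (hx : x ∈ GN N) :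
    ((k.factorial : ℂ)⁻¹) • ((Em c) ^ k) x ∈ GN N := by
  have key : ∀ x ∈ GN N, dp_h845_qGN_dpow c k x ∈ GN N := by
    intro x hx
    unfold GN at hx
    induction hx using Submodule.span_induction with
    | mem x hx =>
      obtain ⟨l, hl, rfl⟩ := hx
      exact dp_FL_h845_qGN_dpow N c hc l hl k
    | zero => rw [map_zero]; exact Submodule.zero_mem _
    | add x y hx0 hy0 hx hy => rw [map_add]; exact Submodule.add_mem _ hx hy
    | smul r x hx0 hx =>
      have : dp_h845_qGN_dpow c k (r • x) = r • dp_h845_qGN_dpow c k x := by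
        rw [Subring.smul_def, map_smul]
        rfl
      rw [this]
      exact Submodule.smul_mem _ r hx
  exact key x hx

end Pool.Agent.Helper840.AE
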