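import Pool.Agent.Helper840.AE.FockDefs
import Pool.Agent.Helper840.AE.FockDefs2
import Pool.Agent.Helper840.AE.P_F3_zN

set_option autoImplicit false

namespace Pool.Agent.Helper840.AE

theorem GN_mono (N : ℕ) : GN N ≤ GN (N + 1) := by
  unfold GN
  rw [Submodule.span_le]
  rintro x ⟨l, hl, rfl⟩
  obtain ⟨c, hc, hcz⟩ := F3_zN N
  have hc0 : c ≠ 0 := by rcases hc with rfl | rfl <;> norm_num
  have hcR : c⁻¹ ∈ Rp := by
    rcases hc with rfl | rfl
    · exact ⟨1, 6, by norm_num, by norm_num⟩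
    · exact ⟨-1, 6, by norm_num, by norm_num⟩
  have hz : zN N = c⁻¹ • ((Fm (2 * (N : ℤ) + 2)) ^ 3) (zN (N + 1)) := by
    rw [hcz, smul_smul, inv_mul_cancel₀ hc0, one_smul]
  have e : FL l (zN N) = (⟨c⁻¹, hcR⟩ : Rp) •
      FL (l ++ [2 * (N : ℤ) + 2, 2 * (N : ℤ) + 2, 2 * (N : ℤ) + 2]) (zN (N + 1)) := by
    show FL l (zN N) = c⁻¹ • FL (l ++ _) (zN (N + 1))
    rw [hz, map_smul]
    congr 1
    unfold FL
    rw [List.map_append, List.prod_append, Module.End.mul_apply]
    congr 1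
  rw [e]
  refine Submodule.smul_mem _ _ (Submodule.subset_span ⟨_, ?_, rfl⟩)
  intro a ha
  rw [List.mem_append] at ha
  rcases ha with ha | ha
  · exact hl a ha
  · simp only [List.mem_cons, List.not_mem_nil, or_false, or_self] at ha
    omega

end Pool.Agent.Helper840.AE
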