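import Pool.Agent.Helper840.AE.FockDefs
import Pool.Agent.Helper840.AE.FockDefs2
import Pool.Agent.Helper840.AE.P_S_comm_zero

set_option autoImplicit false

namespace Pool.Agent.Helper840.AE

theorem Fm_comm_aux_qFm_comm (a : ℤ) (i : Site) : podd (sh (1 - 2 * a) i) * podd i = 0 := by
  unfold podd sh
  simp only
  by_cases h : i.2 % 2 = 1
  · have : ¬ (i.2 + (1 - 2 * a)) % 2 = 1 := by omega
    rw [if_neg this, zero_mul]
  · rw [if_neg h, mul_zero]

theorem Fm_comm (a b : ℤ) : Fm a * Fm b = Fm b * Fm a := by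
  unfold Fm
  exact S_comm_zero _ _ (by omega) (by omega) _ _ (Fm_comm_aux_qFm_comm b) (Fm_comm_aux_qFm_comm a)

end Pool.Agent.Helper840.AE
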