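import Pool.Agent.Helper840.AE.FockDefs
import Pool.Agent.Helper840.AE.FockDefs2
import Pool.Agent.Helper840.AE.P_Fm_comm

set_option autoImplicit false

namespace Pool.Agent.Helper840.AE

theorem FL_perm (l l' : List ℤ) (h : l.Perm l') : FL l = FL l' := by
  induction h with
  | nil => rfl
  | cons x _ ih =>
    unfold FL at ih ⊢
    rw [List.map_cons, List.map_cons, List.prod_cons, List.prod_cons, ih]
  | swap x y l =>
    unfold FL
    rw [List.map_cons, List.map_cons, List.map_cons, List.map_cons, List.prod_cons, List.prod_cons,
      List.prod_cons, List.prod_cons, ← mul_assoc, ← mul_assoc, Fm_comm]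
  | trans _ _ ih1 ih2 => exact ih1.trans ih2

end Pool.Agent.Helper840.AE
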