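import Pool.Agent.Helper840.AE.FockDefs
import Pool.Agent.Helper840.AE.FockDefs2
import Pool.Agent.Helper840.AE.P_DN_occ
import Pool.Agent.Helper840.AE.P_X_ket

set_option autoImplicit false

namespace Pool.Agent.Helper840.AE

theorem Fr_zN (N : ℕ) (r : Fin 3) (m : ℤ) (h : 2 * (N : ℤ) < m) : Fr r m (zN N) = 0 := by
  have hS : ∀ (d : ℤ) (g : Site → ℂ) (D : Finset Site),
      S d g (ket D) = ∑ i ∈ box (bd D + d.natAbs), g i • X (sh d i) i (ket D) := by
    intro d g D
    show Finsupp.linearCombination ℂ _ (Finsupp.single D 1) = _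
    rw [Finsupp.linearCombination_single, one_smul]
  unfold Fr zN
  rw [hS]
  refine Finset.sum_eq_zero fun i _ => ?_
  by_cases hi : i.1 = r ∧ i.2 % 2 = 1
  · obtain ⟨k, hk⟩ : ∃ k, i.2 = 2 * k - 1 := ⟨(i.2 + 1) / 2, by omega⟩
    have hi' : i = (r, 2 * k - 1) := Prod.ext hi.1 hk
    have hs : sh (1 - 2 * m) i = (r, 2 * (k - m)) := by
      unfold sh
      rw [hi']
      refine Prod.ext rfl ?_
      show 2 * k - 1 + (1 - 2 * m) = 2 * (k - m)
      ring
    have hne : sh (1 - 2 * m) i ≠ i := by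
      rw [hs, hi']
      intro h
      have h' : 2 * (k - m) = 2 * k - 1 := congrArg Prod.snd h
      omega
    obtain ⟨ε, -, hε⟩ := X_ket _ _ hne (DN N)
    rw [hε, if_neg (c := occ (DN N) i ∧ ¬occ (DN N) (sh (1 - 2 * m) i)), smul_zero]
    rintro ⟨h1, h2⟩
    rw [hi'] at h1
    rw [hs] at h2
    have h3 := (DN_occ N r k).1.1 h1
    have h4 : ¬ (k - m < -(N : ℤ)) := fun h5 => h2 ((DN_occ N r (k - m)).2.2 h5)
    omega
  · rw [if_neg hi, zero_smul]

end Pool.Agent.Helper840.AE
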