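import Pool.Agent.Helper840.AE.FockDefs
import Pool.Agent.Helper840.AE.FockDefs2
import Pool.Agent.Helper840.AE.P_X_comm
import Pool.Agent.Helper840.AE.P_cre_cre
import Pool.Agent.Helper840.AE.P_ann_ann
import Pool.Agent.Helper840.AE.P_ann_cre
import Pool.Agent.Helper840.AE.P_S_apply
import Pool.Agent.Helper840.AE.P_S_supp

set_option autoImplicit false

namespace Pool.Agent.Helper840.AE

theorem rr_ann_ket_qrow_rel (i : Site) (D : Finset Site) :
    ann i (ket D) = if occ D i then ((-1 : ℂ) ^ cnt i D) • ket (tog i D) else 0 := by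
  simp [ann, ket]

theorem rr_cre_ket_qrow_rel (i : Site) (D : Finset Site) :
    cre i (ket D) = if occ D i then 0 else ((-1 : ℂ) ^ cnt i D) • ket (tog i D) := by
  simp [cre, ket]

theorem rr_notMem_qrow_rel (D : Finset Site) (i : Site) (b : ℕ) (hb : bd D ≤ b) (h : b < i.2.natAbs) :
    i ∉ D := by
  intro hi
  have h1 : (fun i : Site => i.2.natAbs) i ≤ bd D := Finset.le_sup (f := fun i : Site => i.2.natAbs) hi
  simp only at h1
  omega

theorem rr_ac_qrow_rel (i j : Site) (h : i ≠ j) (x : Fk) : ann i (cre j x) = - cre j (ann i x) := by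
  have h1 := ann_cre i j
  rw [if_neg h] at h1
  have h2 := congrArg (fun f : Module.End ℂ Fk => f x) h1
  simp only [LinearMap.add_apply, Module.End.mul_apply, LinearMap.zero_apply] at h2
  exact eq_neg_of_add_eq_zero_left h2

theorem rr_aa_qrow_rel (i j : Site) (x : Fk) : ann i (ann j x) = - ann j (ann i x) := by
  have h1 := ann_ann i j
  have h2 := congrArg (fun f : Module.End ℂ Fk => f x) h1
  simpa only [LinearMap.neg_apply, Module.End.mul_apply] using h2

theorem rr_van_qrow_rel (z : Fk) (b : ℕ) (hb : ∀ D ∈ z.support, bd D ≤ b) (v p : Site)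
    (hvp : v.2 + 2 * b < p.2) : X v p z = 0 := by
  have hz : z = ∑ D ∈ z.support, z D • ket D := by
    conv_lhs => rw [← Finsupp.sum_single z]
    simp [Finsupp.sum, ket]
  rw [hz, map_sum]
  apply Finset.sum_eq_zero
  intro D hD
  rw [map_smul]
  have hbD := hb D hD
  have hne : p ≠ v := by
    intro h
    rw [h] at hvp
    omega
  have h2 : X v p (ket D) = 0 := by
    by_cases hp : (b : ℤ) < p.2
    · have h3 : p ∉ D := rr_notMem_qrow_rel D p b hbD (by omega)
      have h4 : ¬ occ D p := by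
        unfold occ
        rw [if_neg (by omega)]
        exact h3
      simp only [X, Module.End.mul_apply]
      rw [rr_ann_ket_qrow_rel, if_neg h4, map_zero]
    · have h3 : v ∉ D := rr_notMem_qrow_rel D v b hbD (by omega)
      have h4 : occ D v := by
        unfold occ
        rw [if_pos (by omega)]
        exact h3
      have h6 := rr_ac_qrow_rel p v hne (ket D)
      rw [rr_cre_ket_qrow_rel, if_pos h4, map_zero] at h6
      simp only [X, Module.End.mul_apply]
      exact neg_eq_zero.mp h6.symm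
  rw [h2, smul_zero]

/-- the odd positions between `-R` and `R` -/
noncomputable def OR_qrow_rel (R : ℕ) : Finset ℤ := (Finset.Icc (-(R : ℤ)) (R : ℤ)).filter (fun p => p % 2 = 1)

theorem rr_Fr_qrow_rel (r : Fin 3) (m : ℤ) (x : Fk) (R : ℕ)
    (hR : ∀ D ∈ x.support, bd D + (1 - 2 * m).natAbs ≤ R) :
    Fr r m x = ∑ p ∈ OR_qrow_rel R, X (r, p + (1 - 2 * m)) (r, p) x := by
  unfold Fr
  rw [S_apply (1 - 2 * m) (by omega) _ x R hR, box, Finset.sum_product, OR_qrow_rel, Finset.sum_filter]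
  rw [Finset.sum_eq_single r]
  · apply Finset.sum_congr rfl
    intro p _
    simp only [sh, true_and]
    split_ifs <;> simp
  · intro q _ hq
    apply Finset.sum_eq_zero
    intro p _
    simp [hq]
  · intro h; exact absurd (Finset.mem_univ r) h

theorem rr_FrFr_qrow_rel (r : Fin 3) (m m' : ℤ) (x : Fk) (b R : ℕ) (hb : ∀ D ∈ x.support, bd D ≤ b)
    (hR : b + (1 - 2 * m).natAbs + (1 - 2 * m').natAbs ≤ R) :
    Fr r m (Fr r m' x) = ∑ p ∈ OR_qrow_rel R, ∑ p' ∈ OR_qrow_rel R,
      X (r, p + (1 - 2 * m)) (r, p) (X (r, p' + (1 - 2 * m')) (r, p') x) := by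
  rw [rr_Fr_qrow_rel r m (Fr r m' x) R]
  · rw [rr_Fr_qrow_rel r m' x R]
    · apply Finset.sum_congr rfl
      intro p _
      rw [map_sum]
    · intro D hD
      have := hb D hD
      omega
  · intro D hD
    have h1 := S_supp (1 - 2 * m') (by omega) (fun i => if i.1 = r ∧ i.2 % 2 = 1 then 1 else 0) x b
      hb D hD
    omega

theorem rr_Xcomm_qrow_rel (i j k l : Site) (h1 : j ≠ k) (h2 : i ≠ l) (x : Fk) :
    X i j (X k l x) = X k l (X i j x) := by
  have h3 := X_comm i j k l
  rw [if_neg h1, if_neg h2] at h3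
  have h5 := congrArg (fun f : Module.End ℂ Fk => f x) h3
  simp only [LinearMap.sub_apply, Module.End.mul_apply, LinearMap.zero_apply] at h5
  have h6 : X i j (X k l x) - X k l (X i j x) = 0 := by
    rw [h5]; simp
  exact sub_eq_zero.mp h6

theorem rr_Frcomm_qrow_rel (r : Fin 3) (m m' : ℤ) (x : Fk) :
    Fr r m (Fr r m' x) = Fr r m' (Fr r m x) := by
  obtain ⟨b, hb⟩ : ∃ b : ℕ, ∀ D ∈ x.support, bd D ≤ b :=
    ⟨x.support.sup bd, fun D hD => Finset.le_sup hD⟩
  rw [rr_FrFr_qrow_rel r m m' x b (b + (1 - 2 * m).natAbs + (1 - 2 * m').natAbs) hb le_rfl,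
    rr_FrFr_qrow_rel r m' m x b (b + (1 - 2 * m).natAbs + (1 - 2 * m').natAbs) hb (by omega),
    Finset.sum_comm]
  apply Finset.sum_congr rfl
  intro p hp
  apply Finset.sum_congr rfl
  intro p' hp'
  rw [OR_qrow_rel, Finset.mem_filter] at hp hp'
  apply rr_Xcomm_qrow_rel
  · intro h
    have := congrArg Prod.snd h
    simp only at this
    omega
  · intro h
    have := congrArg Prod.snd h
    simp only at this
    omega

theorem rr_anti_qrow_rel (i j k l : Site) (hjk : j ≠ k) (hlk : l ≠ k) (x : Fk) :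
    X i j (X k l x) = - X i l (X k j x) := by
  simp only [X, Module.End.mul_apply]
  rw [rr_ac_qrow_rel j k hjk, rr_ac_qrow_rel l k hlk, rr_aa_qrow_rel j l, map_neg, map_neg, map_neg, neg_neg]

theorem row_rel (r : Fin 3) (t : ℤ) (z : Fk) (h : ∀ m, t < m → Fr r m z = 0) (s : ℤ) :
    ∑ a ∈ Finset.Icc (s - t) t, Fr r a (Fr r (s - a) z) = 0 := by
  obtain ⟨b, hb⟩ : ∃ b : ℕ, ∀ D ∈ z.support, bd D ≤ b :=
    ⟨z.support.sup bd, fun D hD => Finset.le_sup hD⟩
  obtain ⟨T, hT1, hT2⟩ : ∃ T : ℤ, t ≤ T ∧ (b : ℤ) + 1 ≤ T := ⟨max t (b + 1), le_max_left _ _, le_max_right _ _⟩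
  -- extend the sum
  have hext : ∑ a ∈ Finset.Icc (s - t) t, Fr r a (Fr r (s - a) z) =
      ∑ a ∈ Finset.Icc (s - T) T, Fr r a (Fr r (s - a) z) := by
    apply Finset.sum_subset
    · apply Finset.Icc_subset_Icc <;> omega
    · intro a ha hna
      rw [Finset.mem_Icc] at ha hna
      by_cases hat : t < a
      · rw [rr_Frcomm_qrow_rel, h a hat, map_zero]
      · rw [h (s - a) (by omega), map_zero]
  rw [hext]
  obtain ⟨R, hR⟩ : ∃ R : ℕ, ∀ a ∈ Finset.Icc (s - T) T,
      b + (1 - 2 * a).natAbs + (1 - 2 * (s - a)).natAbs ≤ R := by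
    refine ⟨b + (Finset.Icc (s - T) T).sup
      (fun a => (1 - 2 * a).natAbs + (1 - 2 * (s - a)).natAbs), ?_⟩
    intro a ha
    have := Finset.le_sup (f := fun a : ℤ => (1 - 2 * a).natAbs + (1 - 2 * (s - a)).natAbs) ha
    omega
  have h1 : ∑ a ∈ Finset.Icc (s - T) T, Fr r a (Fr r (s - a) z) =
      ∑ a ∈ Finset.Icc (s - T) T, ∑ p ∈ OR_qrow_rel R, ∑ p' ∈ OR_qrow_rel R,
        X (r, p + (1 - 2 * a)) (r, p) (X (r, p' + (1 - 2 * (s - a))) (r, p') z) := by
    apply Finset.sum_congr rfl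
    intro a ha
    exact rr_FrFr_qrow_rel r a (s - a) z b R hb (hR a ha)
  rw [h1, Finset.sum_comm]
  have h2 : ∀ p ∈ OR_qrow_rel R, ∑ a ∈ Finset.Icc (s - T) T, ∑ p' ∈ OR_qrow_rel R,
        X (r, p + (1 - 2 * a)) (r, p) (X (r, p' + (1 - 2 * (s - a))) (r, p') z) =
      ∑ p' ∈ OR_qrow_rel R, ∑ a ∈ Finset.Icc (s - T) T,
        X (r, p + (1 - 2 * a)) (r, p) (X (r, p' + (1 - 2 * (s - a))) (r, p') z) := by
    intro p _
    exact Finset.sum_comm
  rw [Finset.sum_congr rfl h2]
  -- reindex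
  obtain ⟨L, hL⟩ : ∃ L : ℤ, (R : ℤ) + 1 + |s| + |T| ≤ L := ⟨_, le_rfl⟩
  have hs1 := le_abs_self s
  have hs2 := neg_abs_le s
  have hT3 := le_abs_self T
  have hT4 := neg_abs_le T
  have h3 : ∀ p ∈ OR_qrow_rel R, ∀ p' ∈ OR_qrow_rel R, ∑ a ∈ Finset.Icc (s - T) T,
        X (r, p + (1 - 2 * a)) (r, p) (X (r, p' + (1 - 2 * (s - a))) (r, p') z) =
      ∑ l ∈ Finset.Icc (-L) L, X (r, 2 * l) (r, p) (X (r, p + p' + 2 - 2 * s - 2 * l) (r, p') z) := by
    intro p hp p' hp'
    rw [OR_qrow_rel, Finset.mem_filter, Finset.mem_Icc] at hp hp'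
    obtain ⟨k, hk⟩ : ∃ k : ℤ, p + 1 = 2 * k := ⟨(p + 1) / 2, by omega⟩
    have h4 : ∑ a ∈ Finset.Icc (s - T) T,
        X (r, p + (1 - 2 * a)) (r, p) (X (r, p' + (1 - 2 * (s - a))) (r, p') z) =
        ∑ a ∈ Finset.Icc (k - L) (k + L),
        X (r, p + (1 - 2 * a)) (r, p) (X (r, p' + (1 - 2 * (s - a))) (r, p') z) := by
      apply Finset.sum_subset
      · apply Finset.Icc_subset_Icc <;> omega
      · intro a _ hna
        rw [Finset.mem_Icc] at hna
        by_cases haT : T < a
        · rw [rr_Xcomm_qrow_rel, rr_van_qrow_rel z b hb (r, p + (1 - 2 * a)) (r, p) (by simp only; omega), map_zero]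
          · intro h
            have := congrArg Prod.snd h
            simp only at this
            omega
          · intro h
            have := congrArg Prod.snd h
            simp only at this
            omega
        · rw [rr_van_qrow_rel z b hb (r, p' + (1 - 2 * (s - a))) (r, p') (by simp only; omega), map_zero]
    rw [h4]
    apply Finset.sum_nbij' (fun a => k - a) (fun l => k - l)
    · intro a ha
      rw [Finset.mem_Icc] at ha ⊢
      omega
    · intro a ha
      rw [Finset.mem_Icc] at ha ⊢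
      omega
    · intro a _; omega
    · intro a _; omega
    · intro a _
      rw [show p + (1 - 2 * a) = 2 * (k - a) by omega,
        show p' + (1 - 2 * (s - a)) = p + p' + 2 - 2 * s - 2 * (k - a) by omega]
  have h5 : ∑ p ∈ OR_qrow_rel R, ∑ p' ∈ OR_qrow_rel R, ∑ a ∈ Finset.Icc (s - T) T,
        X (r, p + (1 - 2 * a)) (r, p) (X (r, p' + (1 - 2 * (s - a))) (r, p') z) =
      ∑ p ∈ OR_qrow_rel R, ∑ p' ∈ OR_qrow_rel R, ∑ l ∈ Finset.Icc (-L) L,
        X (r, 2 * l) (r, p) (X (r, p + p' + 2 - 2 * s - 2 * l) (r, p') z) := by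
    apply Finset.sum_congr rfl
    intro p hp
    apply Finset.sum_congr rfl
    intro p' hp'
    exact h3 p hp p' hp'
  rw [h5]
  set SS := ∑ p ∈ OR_qrow_rel R, ∑ p' ∈ OR_qrow_rel R, ∑ l ∈ Finset.Icc (-L) L,
        X (r, 2 * l) (r, p) (X (r, p + p' + 2 - 2 * s - 2 * l) (r, p') z) with hSS
  have h6 : SS = - SS := by
    conv_lhs => rw [hSS, Finset.sum_comm]
    rw [hSS, ← Finset.sum_neg_distrib]
    apply Finset.sum_congr rfl
    intro p hp
    rw [← Finset.sum_neg_distrib]
    apply Finset.sum_congr rfl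
    intro p' hp'
    rw [← Finset.sum_neg_distrib]
    apply Finset.sum_congr rfl
    intro l _
    rw [OR_qrow_rel, Finset.mem_filter] at hp hp'
    rw [rr_anti_qrow_rel]
    · rw [show p' + p + 2 - 2 * s - 2 * l = p + p' + 2 - 2 * s - 2 * l by omega]
    · intro h
      have := congrArg Prod.snd h
      simp only at this
      omega
    · intro h
      have := congrArg Prod.snd h
      simp only at this
      omega
  have h7 : (2 : ℂ) • SS = 0 := by
    rw [two_smul]
    nth_rewrite 1 [h6]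
    exact neg_add_cancel _
  exact (smul_eq_zero.mp h7).resolve_left (by norm_num)

end Pool.Agent.Helper840.AE
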