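import Pool.Agent.Helper840.AE.FockDefs
import Pool.Agent.Helper840.AE.FockDefs2
import Pool.Agent.Helper840.AE.P_row_rel
import Pool.Agent.Helper840.AE.P_Fm_eq
import Pool.Agent.Helper840.AE.P_Fr_comm

set_option autoImplicit false

namespace Pool.Agent.Helper840.AE

theorem coeffpow_11810_qrel4 {R : Type*} [CommSemiring R] (f : PowerSeries R) (n : ℕ) :
    PowerSeries.coeff n (f ^ 4) = ∑ q ∈ Finset.Nat.antidiagonalTuple 4 n,
      PowerSeries.coeff (q 0) f * PowerSeries.coeff (q 1) f * PowerSeries.coeff (q 2) f *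
        PowerSeries.coeff (q 3) f := by
  classical
  have h1 : f ^ 4 = ∏ i ∈ (Finset.univ : Finset (Fin 4)), f := by
    rw [Finset.prod_const, Finset.card_univ, Fintype.card_fin]
  rw [h1, PowerSeries.coeff_prod]
  refine Finset.sum_nbij' (fun l => (l : Fin 4 → ℕ)) (fun q => Finsupp.equivFunOnFinite.symm q)
    ?_ ?_ ?_ ?_ ?_
  · intro l hl
    rw [Finset.mem_finsuppAntidiag] at hl
    rw [Finset.Nat.mem_antidiagonalTuple]
    exact hl.1
  · intro q hq
    rw [Finset.Nat.mem_antidiagonalTuple] at hq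
    rw [Finset.mem_finsuppAntidiag]
    exact ⟨hq, Finset.subset_univ _⟩
  · intro l _
    ext i
    rfl
  · intro q _
    rfl
  · intro l _
    rw [Fin.prod_univ_four]

theorem sq_11810_qrel4 (r : Fin 3) (t : ℤ) (z : Fk) (h : ∀ m, t < m → Fr r m z = 0) (n : ℕ) :
    ∑ p ∈ Finset.HasAntidiagonal.antidiagonal n, Fr r (t - (p.1 : ℕ)) (Fr r (t - (p.2 : ℕ)) z) = 0 := by
  rw [← row_rel r t z h (2 * t - n)]
  refine Finset.sum_bij' (fun p _ => t - (p.1 : ℤ))
    (fun a _ => ((t - a).toNat, (n : ℕ) - (t - a).toNat)) ?_ ?_ ?_ ?_ ?_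
  · intro p hp
    rw [Finset.HasAntidiagonal.mem_antidiagonal] at hp
    rw [Finset.mem_Icc]
    constructor <;> omega
  · intro a ha
    rw [Finset.mem_Icc] at ha
    rw [Finset.HasAntidiagonal.mem_antidiagonal]
    show (t - a).toNat + (n - (t - a).toNat) = n
    omega
  · intro p hp
    rw [Finset.HasAntidiagonal.mem_antidiagonal] at hp
    ext
    · show (t - (t - (p.1 : ℤ))).toNat = p.1
      omega
    · show n - (t - (t - (p.1 : ℤ))).toNat = p.2
      omega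
  · intro a ha
    rw [Finset.mem_Icc] at ha
    show t - (((t - a).toNat : ℕ) : ℤ) = a
    omega
  · intro p hp
    rw [Finset.HasAntidiagonal.mem_antidiagonal] at hp
    have e1 : 2 * t - (n : ℤ) - (t - (p.1 : ℤ)) = t - (p.2 : ℤ) := by omega
    rw [e1]

open scoped IsMulCommutative in
theorem rel4 (t : ℤ) (z : Fk) (h : ∀ r m, t < m → Fr r m z = 0) (s : ℕ) :
    ∑ q ∈ Finset.Nat.antidiagonalTuple 4 s,
      (Fm (t - (q 0 : ℕ)) * Fm (t - (q 1 : ℕ)) * Fm (t - (q 2 : ℕ)) * Fm (t - (q 3 : ℕ))) z = 0 := by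
  classical
  obtain ⟨s0, hs0⟩ : ∃ s0 : Set (Module.End ℂ Fk), s0 = {x | ∃ r m, x = Fr r m} := ⟨_, rfl⟩
  have hcomm : ∀ a ∈ s0, ∀ b ∈ s0, a * b = b * a := by
    rw [hs0]
    rintro _ ⟨r, m, rfl⟩ _ ⟨r', m', rfl⟩
    exact Fr_comm r r' m m'
  have hmem : ∀ r m, Fr r m ∈ Algebra.adjoin ℂ s0 := fun r m =>
    Algebra.subset_adjoin (by rw [hs0]; exact ⟨r, m, rfl⟩)
  have := Algebra.isMulCommutative_adjoin ℂ hcomm
  let f : Fin 3 → PowerSeries (Algebra.adjoin ℂ s0) :=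
    fun r => PowerSeries.mk fun j => ⟨Fr r (t - (j : ℕ)), hmem _ _⟩
  let P : PowerSeries (Algebra.adjoin ℂ s0) → Prop := fun g =>
    ∀ n, ((PowerSeries.coeff n g : Algebra.adjoin ℂ s0) : Module.End ℂ Fk) z = 0
  have hadd : ∀ g g', P g → P g' → P (g + g') := by
    intro g g' hg hg' n
    rw [map_add]
    show ((PowerSeries.coeff n g : Algebra.adjoin ℂ s0) : Module.End ℂ Fk) z +
      ((PowerSeries.coeff n g' : Algebra.adjoin ℂ s0) : Module.End ℂ Fk) z = 0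
    rw [hg n, hg' n, add_zero]
  have hmul : ∀ u g, P g → P (u * g) := by
    intro u g hg n
    rw [PowerSeries.coeff_mul, AddSubmonoidClass.coe_finsetSum, LinearMap.sum_apply]
    apply Finset.sum_eq_zero
    intro p _
    show ((PowerSeries.coeff p.1 u : Algebra.adjoin ℂ s0) : Module.End ℂ Fk)
      (((PowerSeries.coeff p.2 g : Algebra.adjoin ℂ s0) : Module.End ℂ Fk) z) = 0
    rw [hg p.2, map_zero]
  have hsq : ∀ r, P (f r * f r) := by
    intro r n
    rw [PowerSeries.coeff_mul, AddSubmonoidClass.coe_finsetSum, LinearMap.sum_apply]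
    rw [← sq_11810_qrel4 r t z (h r) n]
    refine Finset.sum_congr rfl fun p _ => ?_
    simp only [f, PowerSeries.coeff_mk]
    rfl
  have hid : (f 0 + f 1 + f 2) ^ 4 =
      (f 0 ^ 2 + 4 * f 0 * (f 1 + f 2) + 6 * (f 1 ^ 2 + f 2 ^ 2) + 12 * f 1 * f 2) * (f 0 * f 0) +
      (4 * f 0 * f 1 + 12 * f 0 * f 2 + f 1 ^ 2 + 4 * f 1 * f 2 + 6 * f 2 ^ 2) * (f 1 * f 1) +
      (4 * f 0 * f 2 + 12 * f 0 * f 1 + 4 * f 1 * f 2 + f 2 ^ 2) * (f 2 * f 2) := by
    ring
  have hP : P ((f 0 + f 1 + f 2) ^ 4) := by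
    rw [hid]
    exact hadd _ _ (hadd _ _ (hmul _ _ (hsq 0)) (hmul _ _ (hsq 1))) (hmul _ _ (hsq 2))
  have h2 := congrArg (fun g : Algebra.adjoin ℂ s0 => (g : Module.End ℂ Fk) z)
    (coeffpow_11810_qrel4 (f 0 + f 1 + f 2) s)
  have h1 := h2.symm.trans (hP s)
  beta_reduce at h1
  rw [AddSubmonoidClass.coe_finsetSum, LinearMap.sum_apply] at h1
  rw [← h1]
  refine Finset.sum_congr rfl fun q _ => ?_
  have hc : ∀ j : ℕ, ((PowerSeries.coeff j (f 0 + f 1 + f 2) : Algebra.adjoin ℂ s0) :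
      Module.End ℂ Fk) = Fm (t - (j : ℕ)) := by
    intro j
    rw [Fm_eq, Fin.sum_univ_three, map_add, map_add]
    simp only [f, PowerSeries.coeff_mk]
    rfl
  rw [← hc, ← hc, ← hc, ← hc]
  rfl

end Pool.Agent.Helper840.AE
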