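import Pool.Agent.Helper840.AE.FockDefs
import Pool.Agent.Helper840.AE.FockDefs2
import Pool.Agent.Helper840.AE.P_rel4
import Pool.Agent.Helper840.AE.P_Fr_zN
import Pool.Agent.Helper840.AE.P_F3_zN
import Pool.Agent.Helper840.AE.P_FL_perm

set_option autoImplicit false

namespace Pool.Agent.Helper840.AE

theorem raise1_inv_qraise1 (c : ℂ) (hc : c = 6 ∨ c = -6) : (4 * c)⁻¹ ∈ Rp := by
  rcases hc with rfl | rfl
  · exact ⟨1, 24, by norm_num, by norm_num⟩
  · exact ⟨-1, 24, by norm_num, by norm_num⟩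

theorem raise1 (N : ℕ) (hN : 1 ≤ N) (m : ℤ) (hm : m < 2) : Fm m (zN N) ∈
    Submodule.span Rp {x | ∃ l : List ℤ, dfc l < (2 - m).toNat ∧ x = FL l (zN (N + 1))} := by
  classical
  obtain ⟨c, hc, hF⟩ := F3_zN N
  have hc0 : c ≠ 0 := by rcases hc with rfl | rfl <;> norm_num
  set t : ℤ := 2 * (N : ℤ) + 2 with ht
  obtain ⟨s, hs⟩ : ∃ s : ℕ, (s : ℤ) = t - m := ⟨(t - m).toNat, by omega⟩
  have hs0 : s ≠ 0 := by omega
  have hrel := rel4 t (zN (N + 1)) (fun r k hk => Fr_zN (N + 1) r k (by push_cast; omega)) s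
  set T : (Fin 4 → ℕ) → Fk := fun q =>
    (Fm (t - (q 0 : ℕ)) * Fm (t - (q 1 : ℕ)) * Fm (t - (q 2 : ℕ)) * Fm (t - (q 3 : ℕ)))
      (zN (N + 1)) with hT
  have hTF : ∀ q, T q = FL [t - (q 0 : ℕ), t - (q 1 : ℕ), t - (q 2 : ℕ), t - (q 3 : ℕ)]
      (zN (N + 1)) := by
    intro q
    simp only [hT, FL, List.map_cons, List.map_nil, List.prod_cons, List.prod_nil, mul_one,
      mul_assoc]
  change ∑ q ∈ Finset.Nat.antidiagonalTuple 4 s, T q = 0 at hrel
  have hmain : FL [m, t, t, t] (zN (N + 1)) = c • Fm m (zN N) := by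
    have : FL [m, t, t, t] = Fm m * (Fm t) ^ 3 := by
      simp only [FL, List.map_cons, List.map_nil, List.prod_cons, List.prod_nil, mul_one]
      rw [pow_succ, pow_two, mul_assoc]
    rw [this, Module.End.mul_apply, hF, map_smul]
  have hm' : t - (s : ℤ) = m := by omega
  have hp1 : FL [t, m, t, t] = FL [m, t, t, t] := FL_perm _ _ (List.Perm.swap _ _ _)
  have hp2 : FL [t, t, m, t] = FL [m, t, t, t] :=
    FL_perm _ _ ((List.Perm.cons _ (List.Perm.swap _ _ _)).trans (List.Perm.swap _ _ _))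
  have hp3 : FL [t, t, t, m] = FL [m, t, t, t] :=
    FL_perm _ _ (((List.Perm.cons _ (List.Perm.cons _ (List.Perm.swap _ _ _))).trans
        (List.Perm.cons _ (List.Perm.swap _ _ _))).trans (List.Perm.swap _ _ _))
  have hsingle : ∀ i : Fin 4, T (Pi.single i s) = c • Fm m (zN N) := by
    have ht0 : t - ((0 : ℕ) : ℤ) = t := by simp
    have hp : ∀ (q : Fin 4 → ℕ) (a b c' d : ℕ), q 0 = a → q 1 = b → q 2 = c' → q 3 = d →
        FL [t - (a : ℤ), t - (b : ℤ), t - (c' : ℤ), t - (d : ℤ)] = FL [m, t, t, t] →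
        T q = c • Fm m (zN N) := by
      intro q a b c' d e0 e1 e2 e3 h
      rw [hTF, e0, e1, e2, e3, h, hmain]
    intro i
    fin_cases i
    · exact hp _ s 0 0 0 rfl rfl rfl rfl (by rw [hm', ht0])
    · exact hp _ 0 s 0 0 rfl rfl rfl rfl (by rw [hm', ht0]; exact hp1)
    · exact hp _ 0 0 s 0 rfl rfl rfl rfl (by rw [hm', ht0]; exact hp2)
    · exact hp _ 0 0 0 s rfl rfl rfl rfl (by rw [hm', ht0]; exact hp3)
  have hsplit := Finset.sum_filter_add_sum_filter_not (Finset.Nat.antidiagonalTuple 4 s)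
    (fun q => ∃ i, q i = s) T
  have himg : (Finset.Nat.antidiagonalTuple 4 s).filter (fun q => ∃ i, q i = s)
      = Finset.univ.image (fun i : Fin 4 => (Pi.single i s : Fin 4 → ℕ)) := by
    ext q
    simp only [Finset.mem_filter, Finset.Nat.mem_antidiagonalTuple, Finset.mem_image,
      Finset.mem_univ, true_and]
    constructor
    · rintro ⟨h1, i, hi⟩
      refine ⟨i, ?_⟩
      funext j
      by_cases hj : j = i
      · subst hj; simp [hi]
      · rw [Pi.single_eq_of_ne hj]
        have h2 := Finset.sum_erase_add Finset.univ q (Finset.mem_univ i)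
        have h3 : q j ≤ ∑ x ∈ Finset.univ.erase i, q x :=
          Finset.single_le_sum (f := q) (fun _ _ => Nat.zero_le _)
            (Finset.mem_erase.mpr ⟨hj, Finset.mem_univ j⟩)
        omega
    · rintro ⟨i, rfl⟩
      refine ⟨?_, i, by simp⟩
      rw [Finset.sum_pi_single']
      simp
  have hinj : Set.InjOn (fun i : Fin 4 => (Pi.single i s : Fin 4 → ℕ)) (Finset.univ : Finset (Fin 4)) := by
    intro i _ j _ hij
    by_contra hne
    have := congrFun hij i
    simp only [Pi.single_eq_same] at this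
    rw [Pi.single_eq_of_ne hne] at this
    exact hs0 this
  rw [himg, Finset.sum_image hinj, Finset.sum_congr rfl (fun i _ => hsingle i), hrel,
    Finset.sum_const, Finset.card_univ, Fintype.card_fin] at hsplit
  have hW : ∑ q ∈ (Finset.Nat.antidiagonalTuple 4 s).filter (fun q => ¬ ∃ i, q i = s), T q ∈
      Submodule.span Rp {x | ∃ l : List ℤ, dfc l < (2 - m).toNat ∧ x = FL l (zN (N + 1))} := by
    apply Submodule.sum_mem
    intro q hq
    apply Submodule.subset_span
    refine ⟨_, ?_, hTF q⟩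
    rw [Finset.mem_filter, Finset.Nat.mem_antidiagonalTuple] at hq
    obtain ⟨h1, h2⟩ := hq
    push Not at h2
    rw [Fin.sum_univ_four] at h1
    have a0 := h2 0
    have a1 := h2 1
    have a2 := h2 2
    have a3 := h2 3
    simp only [dfc, List.map_cons, List.map_nil, List.sum_cons, List.sum_nil]
    omega
  have hfin : Fm m (zN N) = (⟨-(4 * c)⁻¹, Rp.neg_mem (raise1_inv_qraise1 c hc)⟩ : Rp) •
      ∑ q ∈ (Finset.Nat.antidiagonalTuple 4 s).filter (fun q => ¬ ∃ i, q i = s), T q := by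
    have h4 : ∑ q ∈ (Finset.Nat.antidiagonalTuple 4 s).filter (fun q => ¬ ∃ i, q i = s), T q
        = (-(4 * c)) • Fm m (zN N) := by
      have h5 : (4 : ℕ) • (c • Fm m (zN N)) = (4 * c) • Fm m (zN N) := by
        rw [mul_smul, ← Nat.cast_smul_eq_nsmul ℂ]
        norm_num
      rw [h5] at hsplit
      rw [neg_smul]
      exact eq_neg_of_add_eq_zero_right hsplit
    rw [h4, Subring.smul_def, smul_smul]
    have : (-(4 * c)⁻¹) * (-(4 * c)) = 1 := by
      field_simp
    simp only [this, one_smul]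
  rw [hfin]
  exact Submodule.smul_mem _ _ hW

end Pool.Agent.Helper840.AE
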