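import Pool.Agent.Helper840.AE.FockDefs
import Pool.Agent.Helper840.AE.FockDefs2
import Pool.Agent.Helper840.AE.P_raise1
import Pool.Agent.Helper840.AE.P_F3_zN
import Pool.Agent.Helper840.AE.P_FL_perm
import Pool.Agent.Helper840.AE.P_GN_mono

set_option autoImplicit false

namespace Pool.Agent.Helper840.AE

theorem FL_append'_qraiseAll (l l' : List ℤ) : FL (l ++ l') = FL l * FL l' := by
  simp [FL, List.map_append, List.prod_append]

theorem dfc_append'_qraiseAll (l l' : List ℤ) : dfc (l ++ l') = dfc l + dfc l' := by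
  simp [dfc, List.map_append, List.sum_append]

theorem dfc_perm'_qraiseAll {l l' : List ℤ} (h : l.Perm l') : dfc l = dfc l' := by
  unfold dfc
  exact (h.map _).sum_eq

theorem GN_mono'_qraiseAll {M N : ℕ} (h : M ≤ N) : GN M ≤ GN N :=
  monotone_nat_of_le_succ GN_mono h

theorem raise_pos_qraiseAll (n : ℕ) : ∀ l : List ℤ, dfc l = n → ∀ N : ℕ, 1 ≤ N →
    ∃ N' : ℕ, FL l (zN N) ∈ GN N' := by
  induction n using Nat.strong_induction_on with
  | _ n ih =>
    intro l hl N hN
    by_cases hall : ∀ a ∈ l, 2 ≤ a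
    · exact ⟨N, Submodule.subset_span ⟨l, hall, rfl⟩⟩
    · push Not at hall
      obtain ⟨m, hml, hm2⟩ := hall
      have hperm : l.Perm (l.erase m ++ [m]) :=
        (List.perm_cons_erase hml).trans (List.perm_append_singleton m (l.erase m)).symm
      have hdfc : dfc l = dfc (l.erase m) + (2 - m).toNat := by
        rw [dfc_perm'_qraiseAll hperm, dfc_append'_qraiseAll]
        simp [dfc]
      rw [FL_perm l _ hperm, FL_append'_qraiseAll]
      have h1 : FL [m] = Fm m := by simp [FL]
      rw [h1, Module.End.mul_apply]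
      have key : ∀ x ∈ Submodule.span Rp
          {x | ∃ l : List ℤ, dfc l < (2 - m).toNat ∧ x = FL l (zN (N + 1))},
          ∃ N' : ℕ, FL (l.erase m) x ∈ GN N' := by
        intro x hx
        induction hx using Submodule.span_induction with
        | mem x hx =>
          obtain ⟨l2, hl2, rfl⟩ := hx
          rw [← Module.End.mul_apply, ← FL_append'_qraiseAll]
          exact ih (dfc (l.erase m ++ l2)) (by rw [dfc_append'_qraiseAll]; omega) _ rfl (N + 1) (by omega)
        | zero => exact ⟨0, by rw [map_zero]; exact Submodule.zero_mem _⟩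
        | add x y _ _ hx hy =>
          obtain ⟨M1, h1⟩ := hx
          obtain ⟨M2, h2⟩ := hy
          refine ⟨max M1 M2, ?_⟩
          rw [map_add]
          exact Submodule.add_mem _ (GN_mono'_qraiseAll (le_max_left _ _) h1)
            (GN_mono'_qraiseAll (le_max_right _ _) h2)
        | smul a x _ hx =>
          obtain ⟨M, h1⟩ := hx
          refine ⟨M, ?_⟩
          have : FL (l.erase m) (a • x) = a • FL (l.erase m) x :=
            (FL (l.erase m)).map_smul (a : ℂ) x
          rw [this]
          exact Submodule.smul_mem _ a h1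
      exact key _ (raise1 N hN m hm2)

theorem raiseAll (l : List ℤ) (N : ℕ) : ∃ N' : ℕ, FL l (zN N) ∈ GN N' := by
  rcases Nat.eq_zero_or_pos N with h0 | hpos
  · subst h0
    obtain ⟨c, hc, h⟩ := F3_zN 0
    have hc0 : c ≠ 0 := by
      rcases hc with h | h <;> rw [h] <;> norm_num
    have hinv : c⁻¹ ∈ Rp := by
      rcases hc with h | h
      · exact ⟨1, 6, by norm_num, by rw [h]; norm_num⟩
      · exact ⟨-1, 6, by norm_num, by rw [h]; norm_num⟩
    have h1 : zN 0 = c⁻¹ • FL [2, 2, 2] (zN 1) := by
      have h2 : FL [2, 2, 2] = (Fm 2) ^ 3 := by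
        simp [FL, pow_succ, mul_assoc]
      rw [h2]
      have h3 : ((Fm 2) ^ 3) (zN 1) = c • zN 0 := by simpa using h
      rw [h3, smul_smul, inv_mul_cancel₀ hc0, one_smul]
    obtain ⟨N', hN'⟩ := raise_pos_qraiseAll _ (l ++ [2, 2, 2]) rfl 1 le_rfl
    refine ⟨N', ?_⟩
    rw [h1, map_smul, ← Module.End.mul_apply, ← FL_append'_qraiseAll]
    exact Submodule.smul_mem _ (⟨c⁻¹, hinv⟩ : Rp) hN'
  · exact raise_pos_qraiseAll _ l rfl N hpos

end Pool.Agent.Helper840.AE
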