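import Pool.Agent.Helper840.AE.FockDefs
import Pool.Agent.Helper840.AE.FockDefs2
import Pool.Agent.Helper840.AE.P_raiseAll
import Pool.Agent.Helper840.AE.P_GN_mono
import Pool.Agent.Helper840.AE.P_GN_dpow

set_option autoImplicit false

namespace Pool.Agent.Helper840.AE

theorem W_E_le_qW_E (N : ℕ) : GN N ≤ WN N := by
  refine Submodule.span_mono ?_
  rintro x ⟨l, _, hx⟩
  exact ⟨l, hx⟩

theorem W_E_mono_qW_E {a b : ℕ} (h : a ≤ b) : GN a ≤ GN b :=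
  monotone_nat_of_le_succ GN_mono h

theorem W_E_raise_qW_E (N : ℕ) (x : Fk) (hx : x ∈ WN N) : ∃ N' : ℕ, x ∈ GN N' := by
  induction hx using Submodule.span_induction with
  | mem x h =>
    obtain ⟨l, rfl⟩ := h
    exact raiseAll l N
  | zero => exact ⟨0, Submodule.zero_mem _⟩
  | add x y _ _ hx hy =>
    obtain ⟨a, ha⟩ := hx
    obtain ⟨b, hb⟩ := hy
    exact ⟨max a b, Submodule.add_mem _ (W_E_mono_qW_E (le_max_left a b) ha)
      (W_E_mono_qW_E (le_max_right a b) hb)⟩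
  | smul r x _ hx =>
    obtain ⟨a, ha⟩ := hx
    exact ⟨a, Submodule.smul_mem _ r ha⟩

theorem W_E (c : ℤ) (hc : c = -1 ∨ c = 0) (k : ℕ) (N : ℕ) (x : Fk) (hx : x ∈ WN N) :
    ∃ N' : ℕ, ((k.factorial : ℂ)⁻¹) • ((Em c) ^ k) x ∈ WN N' := by
  obtain ⟨N', h⟩ := W_E_raise_qW_E N x hx
  exact ⟨N', W_E_le_qW_E N' (GN_dpow N' c hc k x h)⟩

end Pool.Agent.Helper840.AE
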