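import Pool.Agent.Helper840.AE.FockDefs
import Pool.Agent.Helper840.AE.FockDefs2
import Pool.Agent.Helper840.AE.P_Fr_zN
import Pool.Agent.Helper840.AE.P_Fm_eq

set_option autoImplicit false

namespace Pool.Agent.Helper840.AE

theorem Fm_zN (N : ℕ) (m : ℤ) (h : 2 * (N : ℤ) < m) : Fm m (zN N) = 0 := by
  rw [Fm_eq, LinearMap.sum_apply]
  exact Finset.sum_eq_zero fun r _ => Fr_zN N r m h

end Pool.Agent.Helper840.AE
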