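import Pool.Agent.Helper840.AE.FockDefs
import Pool.Agent.Helper840.AE.FockDefs2
import Pool.Agent.Helper840.AE.P_Fm_comm

set_option autoImplicit false

namespace Pool.Agent.Helper840.AE

theorem evalHom_gen_qevalHom {R B σ : Type*} [CommRing R] [Ring B] [Algebra R B] (g : σ → B)
    (hg : ∀ i j, g i * g j = g j * g i) :
    ∃ φ : MvPolynomial σ R →ₐ[R] B, ∀ j, φ (MvPolynomial.X j) = g j := by
  have hcomm : ∀ a ∈ Set.range g, ∀ b ∈ Set.range g, a * b = b * a := by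
    rintro _ ⟨i, rfl⟩ _ ⟨j, rfl⟩
    exact hg i j
  let _ : CommRing (Algebra.adjoin R (Set.range g)) := Algebra.adjoinCommRingOfComm R hcomm
  let ψ : MvPolynomial σ R →ₐ[R] Algebra.adjoin R (Set.range g) :=
    MvPolynomial.aeval (fun j => (⟨g j, Algebra.subset_adjoin ⟨j, rfl⟩⟩ :
      Algebra.adjoin R (Set.range g)))
  refine ⟨(Algebra.adjoin R (Set.range g)).val.comp ψ, fun j => ?_⟩
  simp [ψ]

theorem evalHom (t : ℤ) : ∃ φ : MvPolynomial ℕ ℂ →ₐ[ℂ] Module.End ℂ Fk,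
    ∀ j : ℕ, φ (MvPolynomial.X j) = Fm (t - j) :=
  evalHom_gen_qevalHom (fun j : ℕ => Fm (t - j)) (fun _ _ => Fm_comm _ _)

end Pool.Agent.Helper840.AE
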