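import Pool.Agent.Helper840.AE.FockDefs
import Pool.Agent.Helper840.AE.FockDefs2

set_option autoImplicit false

namespace Pool.Agent.Helper840.AE

theorem relK_eq_prod_qrelK_eq (k : ℕ) (q : Fin k → ℕ) :
    ∏ i, (MvPolynomial.X (q i) : MvPolynomial ℕ ℂ) =
      MvPolynomial.monomial (∑ i, Finsupp.single (q i) 1) 1 := by
  rw [MvPolynomial.monomial_sum_one]
  rfl

theorem relK_eq_card_qrelK_eq (k : ℕ) (R : Finset ℕ) (κ : ℕ →₀ ℕ) (hk : (κ.sum fun _ m => m) = k)
    (hR : κ.support ⊆ R) :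
    (((Fintype.piFinset (fun _ : Fin k => R)).filter
      (fun q => ∑ i, Finsupp.single (q i) 1 = κ)).card : ℂ) = κ.multinomial := by
  classical
  have h1 : (∑ j ∈ R, (MvPolynomial.X j : MvPolynomial ℕ ℂ)) ^ k =
      ∑ q ∈ Fintype.piFinset (fun _ : Fin k => R),
        MvPolynomial.monomial (∑ i, Finsupp.single (q i) 1) 1 := by
    rw [Finset.sum_pow']
    exact Finset.sum_congr rfl (fun q _ => relK_eq_prod_qrelK_eq k q)
  have h2 := congrArg (MvPolynomial.coeff κ) h1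
  rw [MvPolynomial.coeff_sum] at h2
  simp only [MvPolynomial.coeff_monomial] at h2
  rw [← Finset.sum_filter, Finset.sum_const, nsmul_eq_mul, mul_one] at h2
  rw [← h2]
  have h3 : (∑ j ∈ R, (MvPolynomial.X j : MvPolynomial ℕ ℂ)) =
      Finsupp.linearCombination ℂ MvPolynomial.X (Finsupp.indicator R (fun _ _ => (1 : ℂ))) := by
    rw [Finsupp.linearCombination_apply,
      Finsupp.sum_of_support_subset _ (Finsupp.support_indicator_subset _ _) _ (by simp)]
    refine Finset.sum_congr rfl fun j hj => ?_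
    rw [Finsupp.indicator_of_mem hj, one_smul]
  rw [h3, MvPolynomial.coeff_linearCombination_X_pow, if_pos hk]
  have h4 : (κ.prod fun r m => (Finsupp.indicator R (fun _ _ => (1 : ℂ))) r ^ m) = 1 := by
    refine Finset.prod_eq_one fun r hr => ?_
    show (Finsupp.indicator R (fun _ _ => (1 : ℂ))) r ^ (κ r) = 1
    rw [Finsupp.indicator_of_mem (hR hr), one_pow]
  rw [h4, mul_one]

theorem relK_eq_sum_qrelK_eq {k : ℕ} (q : Fin k → ℕ) (h : ℕ → ℕ → ℕ) (h0 : ∀ a, h a 0 = 0)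
    (hadd : ∀ a b c, h a (b + c) = h a b + h a c) :
    (∑ i, Finsupp.single (q i) 1 : ℕ →₀ ℕ).sum h = ∑ i, h (q i) 1 := by
  rw [← Finsupp.sum_finsetSum_index h0 hadd]
  refine Finset.sum_congr rfl fun i _ => ?_
  rw [Finsupp.sum_single_index (h0 _)]

theorem relK_eq_support_qrelK_eq {k : ℕ} (q : Fin k → ℕ) (j : ℕ)
    (hj : j ∈ (∑ i, Finsupp.single (q i) 1 : ℕ →₀ ℕ).support) : ∃ i, q i = j := by
  by_contra hcon
  push Not at hcon
  rw [Finsupp.mem_support_iff, Finsupp.finsetSum_apply] at hj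
  refine hj (Finset.sum_eq_zero fun i _ => ?_)
  rw [Finsupp.single_apply, if_neg (hcon i)]

theorem relK_eq_filter_qrelK_eq (k s : ℕ) (q0 : Fin k → ℕ) (hq0 : ∑ i, q0 i = s) :
    (Finset.Nat.antidiagonalTuple k s).filter
      (fun q => ∑ i, Finsupp.single (q i) 1 = (∑ i, Finsupp.single (q0 i) 1 : ℕ →₀ ℕ)) =
    (Fintype.piFinset (fun _ : Fin k => Finset.range (s + 1))).filter
      (fun q => ∑ i, Finsupp.single (q i) 1 = (∑ i, Finsupp.single (q0 i) 1 : ℕ →₀ ℕ)) := by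
  ext q
  rw [Finset.mem_filter, Finset.mem_filter, Finset.Nat.mem_antidiagonalTuple,
    Fintype.mem_piFinset]
  constructor
  · rintro ⟨h1, h2⟩
    refine ⟨fun i => ?_, h2⟩
    rw [Finset.mem_range, Nat.lt_succ_iff, ← h1]
    exact Finset.single_le_sum (fun _ _ => Nat.zero_le _) (Finset.mem_univ i)
  · rintro ⟨_, h2⟩
    refine ⟨?_, h2⟩
    have h3 := congrArg (fun κ : ℕ →₀ ℕ => κ.sum (fun a b => b * a)) h2
    rw [relK_eq_sum_qrelK_eq q (fun a b => b * a) (by simp) (by intros; ring),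
      relK_eq_sum_qrelK_eq q0 (fun a b => b * a) (by simp) (by intros; ring)] at h3
    simpa [hq0] using h3

theorem relK_eq (k s : ℕ) :
    (∑ q ∈ Finset.Nat.antidiagonalTuple k s, ∏ i, (MvPolynomial.X (q i) : MvPolynomial ℕ ℂ)) =
      (k.factorial : ℂ) • ∑ κ ∈ (Finset.Nat.antidiagonalTuple k s).image
        (fun q => ∑ i, Finsupp.single (q i) 1), dmono κ := by
  classical
  have h1 : (∑ q ∈ Finset.Nat.antidiagonalTuple k s,
      ∏ i, (MvPolynomial.X (q i) : MvPolynomial ℕ ℂ)) =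
      ∑ q ∈ Finset.Nat.antidiagonalTuple k s, (fun κ : ℕ →₀ ℕ =>
        (MvPolynomial.monomial κ 1 : MvPolynomial ℕ ℂ)) (∑ i, Finsupp.single (q i) 1) :=
    Finset.sum_congr rfl fun q _ => relK_eq_prod_qrelK_eq k q
  rw [h1, Finset.sum_comp (fun κ : ℕ →₀ ℕ => (MvPolynomial.monomial κ 1 : MvPolynomial ℕ ℂ))
    (fun q : Fin k → ℕ => ∑ i, Finsupp.single (q i) 1), Finset.smul_sum]
  refine Finset.sum_congr (by congr) fun κ hκ => ?_
  obtain ⟨q0, hq0, rfl⟩ := Finset.mem_image.1 hκ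
  rw [Finset.Nat.mem_antidiagonalTuple] at hq0
  set κ : ℕ →₀ ℕ := ∑ i, Finsupp.single (q0 i) 1 with hκdef
  have hk : (κ.sum fun _ m => m) = k := by
    rw [hκdef, relK_eq_sum_qrelK_eq q0 (fun _ m => m) (by simp) (by simp)]
    simp
  have hR : κ.support ⊆ Finset.range (s + 1) := by
    intro j hj
    obtain ⟨i, hi⟩ := relK_eq_support_qrelK_eq q0 j hj
    rw [Finset.mem_range, Nat.lt_succ_iff, ← hq0, ← hi]
    exact Finset.single_le_sum (fun _ _ => Nat.zero_le _) (Finset.mem_univ i)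
  have hc := relK_eq_card_qrelK_eq k (Finset.range (s + 1)) κ hk hR
  have hf := relK_eq_filter_qrelK_eq k s q0 hq0
  have hcard : (((Finset.Nat.antidiagonalTuple k s).filter
      (fun q => ∑ i, Finsupp.single (q i) 1 = κ)).card : ℂ) = κ.multinomial := by
    rw [← hc, hκdef, hf]
  have hmul : (κ.multinomial : ℂ) = (k.factorial : ℂ) * κ.prod (fun _ a => ((a.factorial : ℂ))⁻¹) := by
    have h5 := Nat.multinomial_spec κ.support κ
    rw [← Finsupp.multinomial_eq] at h5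
    have h6 : ∑ i ∈ κ.support, κ i = k := hk
    rw [h6] at h5
    have h7 : ((∏ i ∈ κ.support, (κ i).factorial : ℕ) : ℂ) ≠ 0 := by
      rw [Nat.cast_ne_zero]
      exact Finset.prod_ne_zero_iff.2 fun i _ => Nat.factorial_ne_zero _
    have h8 : κ.prod (fun _ a => ((a.factorial : ℂ))⁻¹) =
        ((∏ i ∈ κ.support, (κ i).factorial : ℕ) : ℂ)⁻¹ := by
      rw [Finsupp.prod, Nat.cast_prod, Finset.prod_inv_distrib]
    rw [h8, ← h5]
    push_cast at h7 ⊢
    field_simp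
  rw [dmono, ← Nat.cast_smul_eq_nsmul ℂ, hcard, hmul, MvPolynomial.smul_monomial,
    MvPolynomial.smul_monomial, smul_eq_mul, smul_eq_mul, mul_one]

end Pool.Agent.Helper840.AE
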