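import Pool.Agent.Helper840.AE.FockDefs
import Pool.Agent.Helper840.AE.FockDefs2

set_option autoImplicit false

namespace Pool.Agent.Helper840.AE

theorem relK_succ_qrelK_mem (k s : ℕ) :
    (∑ q ∈ Finset.Nat.antidiagonalTuple (k + 1) s, ∏ i, (MvPolynomial.X (q i) : MvPolynomial ℕ ℂ)) =
      ∑ ab ∈ Finset.HasAntidiagonal.antidiagonal s, MvPolynomial.X ab.1 *
        ∑ q ∈ Finset.Nat.antidiagonalTuple k ab.2, ∏ i, (MvPolynomial.X (q i) : MvPolynomial ℕ ℂ) := by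
  simp_rw [Finset.mul_sum]
  rw [Finset.sum_sigma']
  refine Finset.sum_bij' (fun q _ => (⟨(q 0, ∑ i, Fin.tail q i), Fin.tail q⟩ :
      (_ : ℕ × ℕ) × (Fin k → ℕ))) (fun x _ => Fin.cons x.1.1 x.2) ?_ ?_ ?_ ?_ ?_
  · intro q hq
    rw [Finset.Nat.mem_antidiagonalTuple] at hq
    rw [Finset.mem_sigma, Finset.HasAntidiagonal.mem_antidiagonal, Finset.Nat.mem_antidiagonalTuple]
    refine ⟨?_, rfl⟩
    rw [← hq, Fin.sum_univ_succ]
    rfl
  · rintro ⟨⟨a, b⟩, q⟩ hx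
    rw [Finset.mem_sigma, Finset.HasAntidiagonal.mem_antidiagonal, Finset.Nat.mem_antidiagonalTuple] at hx
    rw [Finset.Nat.mem_antidiagonalTuple, Fin.sum_univ_succ]
    simp only [Fin.cons_zero, Fin.cons_succ]
    obtain ⟨h1, h2⟩ := hx
    simp only at h1 h2
    rw [h2, h1]
  · intro q _
    simp
  · rintro ⟨⟨a, b⟩, q⟩ hx
    rw [Finset.mem_sigma, Finset.HasAntidiagonal.mem_antidiagonal, Finset.Nat.mem_antidiagonalTuple] at hx
    obtain ⟨h1, h2⟩ := hx
    simp only at h1 h2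
    subst h2
    simp
  · intro q _
    rw [Fin.prod_univ_succ]
    rfl

theorem relK_mem (k : ℕ) (hk : 4 ≤ k) (s : ℕ) :
    (∑ q ∈ Finset.Nat.antidiagonalTuple k s, ∏ i, (MvPolynomial.X (q i) : MvPolynomial ℕ ℂ)) ∈
      Ideal.span (Set.range relP) := by
  induction k, hk using Nat.le_induction generalizing s with
  | base => exact Ideal.subset_span ⟨s, rfl⟩
  | succ k hk ih =>
    rw [relK_succ_qrelK_mem]
    exact Ideal.sum_mem _ (fun ab _ => Ideal.mul_mem_left _ _ (ih ab.2))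

end Pool.Agent.Helper840.AE
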