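import Pool.Agent.Helper840.AE.FockDefs
import Pool.Agent.Helper840.AE.FockDefs2
import Pool.Agent.Helper840.AE.P_relK_mem
import Pool.Agent.Helper840.AE.P_relK_eq

set_option autoImplicit false

namespace Pool.Agent.Helper840.AE

/-- helper: weighted sums of an exponent -/
noncomputable def straight_wt_qstraight : (ℕ →₀ ℕ) →+ ℕ :=
  Finsupp.liftAddHom (fun j : ℕ => AddMonoidHom.mulLeft j)

noncomputable def straight_sq_qstraight : (ℕ →₀ ℕ) →+ ℕ :=
  Finsupp.liftAddHom (fun j : ℕ => AddMonoidHom.mulLeft (j ^ 2))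

theorem straight_wt_single_qstraight (j a : ℕ) : straight_wt_qstraight (Finsupp.single j a) = j * a := by
  simp [straight_wt_qstraight]

theorem straight_sq_single_qstraight (j a : ℕ) : straight_sq_qstraight (Finsupp.single j a) = j ^ 2 * a := by
  simp [straight_sq_qstraight]

theorem straight_sq_le_qstraight (κ : ℕ →₀ ℕ) : straight_sq_qstraight κ ≤ straight_wt_qstraight κ ^ 2 := by
  have e1 : straight_sq_qstraight κ = ∑ j ∈ κ.support, j ^ 2 * κ j := by
    simp [straight_sq_qstraight, Finsupp.liftAddHom_apply, Finsupp.sum]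
  have e2 : straight_wt_qstraight κ = ∑ j ∈ κ.support, j * κ j := by
    simp [straight_wt_qstraight, Finsupp.liftAddHom_apply, Finsupp.sum]
  rw [e1]
  calc ∑ j ∈ κ.support, j ^ 2 * κ j ≤ ∑ j ∈ κ.support, straight_wt_qstraight κ * (j * κ j) := by
        refine Finset.sum_le_sum fun j hj => ?_
        have h1 : j * κ j ≤ straight_wt_qstraight κ := by
          rw [e2]
          exact Finset.single_le_sum (f := fun j => j * κ j) (fun _ _ => Nat.zero_le _) hj
        have h2 : 1 ≤ κ j := Nat.one_le_iff_ne_zero.2 (Finsupp.mem_support_iff.1 hj)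
        have h3 : j ≤ straight_wt_qstraight κ := by nlinarith
        calc j ^ 2 * κ j = j * (j * κ j) := by ring
          _ ≤ _ := Nat.mul_le_mul_right _ h3
    _ = straight_wt_qstraight κ ^ 2 := by rw [← Finset.mul_sum, ← e2, sq]

/-- product of the factorials -/
def straight_fac_qstraight (κ : ℕ →₀ ℕ) : ℕ := κ.prod (fun _ a => a.factorial)

theorem straight_fac_ne_qstraight (κ : ℕ →₀ ℕ) : (straight_fac_qstraight κ : ℂ) ≠ 0 := by
  rw [straight_fac_qstraight, Nat.cast_ne_zero, Finsupp.prod]
  exact Finset.prod_ne_zero_iff.2 fun _ _ => Nat.factorial_ne_zero _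

theorem straight_dmono_qstraight (κ : ℕ →₀ ℕ) :
    dmono κ = MvPolynomial.monomial κ ((straight_fac_qstraight κ : ℂ)⁻¹) := by
  rw [dmono, straight_fac_qstraight, Finsupp.prod, Finsupp.prod, Nat.cast_prod, Finset.prod_inv_distrib]

theorem straight_fac_dvd_qstraight (ρ σ : ℕ →₀ ℕ) :
    straight_fac_qstraight ρ * straight_fac_qstraight σ ∣ straight_fac_qstraight (ρ + σ) := by
  classical
  have h : ∀ κ : ℕ →₀ ℕ, κ.support ⊆ ρ.support ∪ σ.support →
      straight_fac_qstraight κ = ∏ i ∈ ρ.support ∪ σ.support, (κ i).factorial := by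
    intro κ hκ
    exact Finsupp.prod_of_support_subset _ hκ _ (fun _ _ => rfl)
  rw [h ρ Finset.subset_union_left, h σ Finset.subset_union_right,
    h (ρ + σ) Finsupp.support_add, ← Finset.prod_mul_distrib]
  exact Finset.prod_dvd_prod_of_dvd _ _ fun i _ => Nat.factorial_mul_factorial_dvd_factorial_add _ _

theorem straight_mul_qstraight (ρ σ : ℕ →₀ ℕ) : ∃ N : ℕ, dmono ρ * dmono σ = N • dmono (ρ + σ) := by
  obtain ⟨N, hN⟩ := straight_fac_dvd_qstraight ρ σ
  refine ⟨N, ?_⟩
  rw [straight_dmono_qstraight, straight_dmono_qstraight, straight_dmono_qstraight, MvPolynomial.monomial_mul,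
    ← map_nsmul]
  congr 1
  rw [nsmul_eq_mul]
  have h1 := straight_fac_ne_qstraight ρ
  have h2 := straight_fac_ne_qstraight σ
  have h3 := straight_fac_ne_qstraight (ρ + σ)
  have hN' : (straight_fac_qstraight (ρ + σ) : ℂ) = straight_fac_qstraight ρ * straight_fac_qstraight σ * N := by
    rw [hN]; push_cast; ring
  have hN0 : (N : ℂ) ≠ 0 := by
    intro h
    rw [h, mul_zero] at hN'
    exact h3 hN'
  rw [hN']
  field_simp

theorem straight_mul_disj_qstraight (ρ σ : ℕ →₀ ℕ) (h : Disjoint ρ.support σ.support) :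
    dmono ρ * dmono σ = dmono (ρ + σ) := by
  rw [straight_dmono_qstraight, straight_dmono_qstraight, straight_dmono_qstraight, MvPolynomial.monomial_mul]
  congr 1
  have : straight_fac_qstraight (ρ + σ) = straight_fac_qstraight ρ * straight_fac_qstraight σ :=
    Finsupp.prod_add_index_of_disjoint h _
  rw [this]
  push_cast
  rw [mul_inv]

/-- the additive subgroup of polynomials which can be straightened -/
noncomputable def straight_G_qstraight : AddSubgroup (MvPolynomial ℕ ℂ) where
  carrier := {x | ∃ c : (ℕ →₀ ℕ) →₀ ℤ, (∀ κ' ∈ c.support, Adm κ') ∧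
    x - c.sum (fun κ' a => (a : ℂ) • dmono κ') ∈ Ideal.span (Set.range relP)}
  zero_mem' := ⟨0, by simp, by simp⟩
  add_mem' := by
    classical
    rintro x y ⟨c, hc, hx⟩ ⟨d, hd, hy⟩
    refine ⟨c + d, ?_, ?_⟩
    · intro κ' h
      rcases Finset.mem_union.1 (Finsupp.support_add h) with h | h
      · exact hc _ h
      · exact hd _ h
    · rw [Finsupp.sum_add_index' (by simp) (by intro a b1 b2; push_cast; rw [add_smul])]
      have := Ideal.add_mem _ hx hy
      convert this using 1
      ring
  neg_mem' := by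
    rintro x ⟨c, hc, hx⟩
    refine ⟨-c, ?_, ?_⟩
    · intro κ' h
      rw [Finsupp.support_neg] at h
      exact hc _ h
    · rw [Finsupp.sum_neg_index (by simp)]
      have := Ideal.neg_mem_iff _ |>.2 hx
      convert this using 1
      simp only [Finsupp.sum]
      push_cast
      simp only [neg_smul, Finset.sum_neg_distrib]
      ring

theorem straight_J_le_qstraight {x : MvPolynomial ℕ ℂ} (hx : x ∈ Ideal.span (Set.range relP)) :
    x ∈ straight_G_qstraight := ⟨0, by simp, by simpa using hx⟩

theorem straight_rel_qstraight (k : ℕ) (hk : 4 ≤ k) (s : ℕ) :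
    (∑ κ ∈ (Finset.Nat.antidiagonalTuple k s).image
        (fun q => ∑ i, Finsupp.single (q i) 1), dmono κ) ∈ Ideal.span (Set.range relP) := by
  have h := relK_mem k hk s
  rw [relK_eq] at h
  have h2 := Ideal.mul_mem_left (Ideal.span (Set.range relP))
    (MvPolynomial.C (((k.factorial : ℂ))⁻¹)) h
  rw [← MvPolynomial.smul_eq_C_mul, smul_smul, inv_mul_cancel₀, one_smul] at h2
  · exact h2
  · exact_mod_cast Nat.factorial_ne_zero k

theorem straight_key_qstraight (j a b : ℕ) (q : Fin (a + b) → ℕ) (hq : ∑ i, q i = j * a + (j + 1) * b) :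
    (∑ i, Finsupp.single (q i) 1 : ℕ →₀ ℕ) = Finsupp.single j a + Finsupp.single (j + 1) b ∨
    j ^ 2 * a + (j + 1) ^ 2 * b < ∑ i, (q i) ^ 2 := by
  classical
  by_cases hall : ∀ i, q i = j ∨ q i = j + 1
  · left
    have h1 : ∀ i, q i = j + (if q i = j + 1 then 1 else 0) := by
      intro i
      rcases hall i with h | h
      · rw [h]; simp
      · rw [h]; simp
    have hcard : (Finset.univ.filter (fun i => q i = j + 1)).card = b := by
      have h2 : ∑ i, q i = ∑ i : Fin (a + b), (j + (if q i = j + 1 then 1 else 0)) :=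
        Finset.sum_congr rfl fun i _ => h1 i
      rw [hq, Finset.sum_add_distrib, Finset.sum_const, Finset.card_univ, Fintype.card_fin,
        smul_eq_mul, ← Finset.card_filter] at h2
      nlinarith
    have hcard2 : (Finset.univ.filter (fun i => ¬ q i = j + 1)).card = a := by
      have := Finset.card_filter_add_card_filter_not (s := (Finset.univ : Finset (Fin (a + b))))
        (fun i => q i = j + 1)
      rw [hcard, Finset.card_univ, Fintype.card_fin] at this
      omega
    rw [← Finset.sum_filter_add_sum_filter_not Finset.univ (fun i => q i = j + 1)]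
    have e1 : ∑ i ∈ Finset.univ.filter (fun i => q i = j + 1), Finsupp.single (q i) 1 =
        (Finsupp.single (j + 1) b : ℕ →₀ ℕ) := by
      rw [Finset.sum_congr rfl (g := fun _ => (Finsupp.single (j + 1) 1 : ℕ →₀ ℕ))
        (fun i hi => by rw [(Finset.mem_filter.1 hi).2])]
      rw [Finset.sum_const, hcard]
      simp
    have e2 : ∑ i ∈ Finset.univ.filter (fun i => ¬ q i = j + 1), Finsupp.single (q i) 1 =
        (Finsupp.single j a : ℕ →₀ ℕ) := by
      rw [Finset.sum_congr rfl (g := fun _ => (Finsupp.single j 1 : ℕ →₀ ℕ))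
        (fun i hi => by rw [(hall i).resolve_right (Finset.mem_filter.1 hi).2])]
      rw [Finset.sum_const, hcard2]
      simp
    rw [e1, e2, add_comm]
  · right
    push Not at hall
    obtain ⟨i0, h1, h2⟩ := hall
    have hnn : ∀ i, (0 : ℤ) ≤ ((q i : ℤ) - j) * ((q i : ℤ) - j - 1) := by
      intro i
      rcases le_or_gt (q i : ℤ) j with h | h
      · nlinarith
      · have : (0 : ℤ) ≤ (q i : ℤ) - j - 1 := by omega
        nlinarith
    have hpos : (0 : ℤ) < ((q i0 : ℤ) - j) * ((q i0 : ℤ) - j - 1) := by
      rcases lt_trichotomy (q i0 : ℤ) j with h | h | h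
      · nlinarith
      · exact absurd (by exact_mod_cast h) h1
      · have h3 : (q i0 : ℤ) ≠ j + 1 := by exact_mod_cast h2
        have : (0 : ℤ) < (q i0 : ℤ) - j - 1 := by omega
        have h4 : (0 : ℤ) < (q i0 : ℤ) - j := by omega
        exact mul_pos h4 this
    have hsum : (0 : ℤ) < ∑ i, ((q i : ℤ) - j) * ((q i : ℤ) - j - 1) :=
      Finset.sum_pos' (fun i _ => hnn i) ⟨i0, Finset.mem_univ _, hpos⟩
    have hexp : ∑ i, ((q i : ℤ) - j) * ((q i : ℤ) - j - 1) =
        (∑ i, (q i : ℤ) ^ 2) - (2 * j + 1) * (∑ i, (q i : ℤ)) + (a + b) * (j * (j + 1)) := by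
      have : ∀ i, ((q i : ℤ) - j) * ((q i : ℤ) - j - 1) =
          (q i : ℤ) ^ 2 - (2 * j + 1) * (q i : ℤ) + (j * (j + 1)) := by intro i; ring
      rw [Finset.sum_congr rfl (fun i _ => this i), Finset.sum_add_distrib,
        Finset.sum_sub_distrib, ← Finset.mul_sum, Finset.sum_const, Finset.card_univ,
        Fintype.card_fin]
      simp
    have hq' : (∑ i, (q i : ℤ)) = j * a + (j + 1) * b := by exact_mod_cast hq
    rw [hexp, hq'] at hsum
    have : ((j ^ 2 * a + (j + 1) ^ 2 * b : ℕ) : ℤ) < ((∑ i, (q i) ^ 2 : ℕ) : ℤ) := by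
      push_cast
      nlinarith
    exact_mod_cast this

theorem straight_mem_qstraight (n : ℕ) : ∀ κ : ℕ →₀ ℕ, straight_wt_qstraight κ ^ 2 - straight_sq_qstraight κ = n →
    dmono κ ∈ straight_G_qstraight := by
  classical
  induction n using Nat.strong_induction_on with
  | _ n ih =>
    intro κ hκ
    by_cases hA : Adm κ
    · refine ⟨Finsupp.single κ 1, ?_, ?_⟩
      · intro κ' h
        rw [Finsupp.support_single_ne_zero _ one_ne_zero, Finset.mem_singleton] at h
        rw [h]; exact hA
      · rw [Finsupp.sum_single_index (by simp)]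
        simp
    unfold Adm at hA
    push Not at hA
    obtain ⟨j, hj⟩ := hA
    set a := κ j with ha
    set b := κ (j + 1) with hb
    set κ0 : ℕ →₀ ℕ := Finsupp.single j a + Finsupp.single (j + 1) b with hκ0
    set κr : ℕ →₀ ℕ := (κ.erase j).erase (j + 1) with hκr
    have hsplit : κ0 + κr = κ := by
      have h1 : (κ.erase j) (j + 1) = b := Finsupp.erase_ne (by omega)
      have h2 := Finsupp.single_add_erase (j + 1) (κ.erase j)
      rw [h1] at h2
      rw [hκ0, hκr, add_assoc, h2]
      exact Finsupp.single_add_erase j κ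
    have hdisj : Disjoint κ0.support κr.support := by
      rw [Finset.disjoint_left]
      intro i hi hi2
      rw [Finsupp.mem_support_iff] at hi2
      have h3 : i ≠ j + 1 := by
        rintro rfl
        exact hi2 (Finsupp.erase_same)
      have h4 : i ≠ j := by
        rintro rfl
        apply hi2
        rw [hκr, Finsupp.erase_ne (by omega), Finsupp.erase_same]
      rw [Finsupp.mem_support_iff] at hi
      apply hi
      rw [hκ0, Finsupp.add_apply, Finsupp.single_eq_of_ne (by omega),
        Finsupp.single_eq_of_ne (by omega), add_zero]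
    set I := (Finset.Nat.antidiagonalTuple (a + b) (j * a + (j + 1) * b)).image
        (fun q => (∑ i, Finsupp.single (q i) 1 : ℕ →₀ ℕ)) with hI
    have hrel := straight_rel_qstraight (a + b) (by omega) (j * a + (j + 1) * b)
    have hmem0 : κ0 ∈ I := by
      rw [hI, Finset.mem_image]
      refine ⟨Fin.append (fun _ : Fin a => j) (fun _ : Fin b => j + 1), ?_, ?_⟩
      · rw [Finset.Nat.mem_antidiagonalTuple, Fin.sum_univ_add]
        simp [mul_comm]
      · rw [Fin.sum_univ_add]
        simp [hκ0]
    have hmul := Ideal.mul_mem_right (dmono κr) _ hrel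
    rw [← hI, ← Finset.add_sum_erase I dmono hmem0, add_mul, straight_mul_disj_qstraight _ _ hdisj, hsplit,
      Finset.sum_mul] at hmul
    have hG1 := straight_J_le_qstraight hmul
    have hG2 : ∑ ρ ∈ I.erase κ0, dmono ρ * dmono κr ∈ straight_G_qstraight := by
      refine AddSubgroup.sum_mem _ fun ρ hρ => ?_
      obtain ⟨hne, hρI⟩ := Finset.mem_erase.1 hρ
      rw [hI, Finset.mem_image] at hρI
      obtain ⟨q, hq, rfl⟩ := hρI
      rw [Finset.Nat.mem_antidiagonalTuple] at hq
      obtain ⟨N, hN⟩ := straight_mul_qstraight (∑ i, Finsupp.single (q i) 1) κr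
      rw [hN]
      refine AddSubgroup.nsmul_mem _ ?_ N
      rcases straight_key_qstraight j a b q hq with h | h
      · exact absurd h hne
      · have w1 : straight_wt_qstraight (∑ i, Finsupp.single (q i) 1) = j * a + (j + 1) * b := by
          rw [map_sum, ← hq]
          exact Finset.sum_congr rfl fun i _ => by rw [straight_wt_single_qstraight, mul_one]
        have s1 : straight_sq_qstraight (∑ i, Finsupp.single (q i) 1) = ∑ i, (q i) ^ 2 := by
          rw [map_sum]
          exact Finset.sum_congr rfl fun i _ => by rw [straight_sq_single_qstraight, mul_one]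
        have w0 : straight_wt_qstraight κ0 = j * a + (j + 1) * b := by
          rw [hκ0, map_add, straight_wt_single_qstraight, straight_wt_single_qstraight]
        have s0 : straight_sq_qstraight κ0 = j ^ 2 * a + (j + 1) ^ 2 * b := by
          rw [hκ0, map_add, straight_sq_single_qstraight, straight_sq_single_qstraight]
        have hw : straight_wt_qstraight (∑ i, Finsupp.single (q i) 1 + κr) = straight_wt_qstraight κ := by
          rw [← hsplit, map_add, map_add, w1, w0]
        have hs : straight_sq_qstraight κ < straight_sq_qstraight (∑ i, Finsupp.single (q i) 1 + κr) := by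
          have t1 : straight_sq_qstraight κ = straight_sq_qstraight κ0 + straight_sq_qstraight κr := by rw [← map_add, hsplit]
          rw [t1, map_add straight_sq_qstraight (∑ i, Finsupp.single (q i) 1) κr, s1, s0]
          omega
        have hle := straight_sq_le_qstraight (∑ i, Finsupp.single (q i) 1 + κr)
        exact ih _ (by rw [hw] at hle ⊢; omega) _ rfl
    have := AddSubgroup.sub_mem _ hG1 hG2
    rwa [add_sub_cancel_right] at this

theorem straight (κ : ℕ →₀ ℕ) : ∃ c : (ℕ →₀ ℕ) →₀ ℤ, (∀ κ' ∈ c.support, Adm κ') ∧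
    dmono κ - c.sum (fun κ' a => (a : ℂ) • dmono κ') ∈ Ideal.span (Set.range relP) :=
  straight_mem_qstraight _ κ rfl

end Pool.Agent.Helper840.AE
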