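import Pool.Agent.Helper840.AE.FockDefs
import Pool.Agent.Helper840.AE.FockDefs2
import Pool.Agent.Helper840.AE.P_evalHom
import Pool.Agent.Helper840.AE.P_rel4
import Pool.Agent.Helper840.AE.P_Fr_zN
import Pool.Agent.Helper840.AE.P_Fm_zN
import Pool.Agent.Helper840.AE.P_straight
import Pool.Agent.Helper840.AE.P_FL_perm

set_option autoImplicit false

namespace Pool.Agent.Helper840.AE

theorem spanDp_smul_qspanDp (N : ℕ) (r : ℂ) (hr : r ∈ Rp) (x : Fk) (hx : x ∈ WN N) : r • x ∈ WN N := by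
  have h := (WN N).smul_mem (⟨r, hr⟩ : Rp) hx
  exact h

theorem spanDp_fact_qspanDp (a : ℕ) (ha : a ≤ 3) : ((a.factorial : ℂ))⁻¹ ∈ Rp := by
  refine ⟨1, a.factorial, ?_, ?_⟩
  · interval_cases a <;> decide
  · push_cast
    exact mul_inv_cancel₀ (Nat.cast_ne_zero.2 (Nat.factorial_ne_zero a))

theorem spanDp_int_qspanDp (a : ℤ) : (a : ℂ) ∈ Rp := intCast_mem Rp a

theorem spanDp_mono_qspanDp (t : ℤ) (φ : MvPolynomial ℕ ℂ →ₐ[ℂ] Module.End ℂ Fk)
    (hφ : ∀ j : ℕ, φ (MvPolynomial.X j) = Fm (t - j)) (κ : ℕ →₀ ℕ) :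
    ∃ l : List ℤ, φ (MvPolynomial.monomial κ 1) = FL l := by
  induction κ using Finsupp.induction_linear with
  | zero =>
    refine ⟨[], ?_⟩
    rw [show (MvPolynomial.monomial 0 1 : MvPolynomial ℕ ℂ) = 1 from rfl, map_one]
    rfl
  | add κ κ' h h' =>
    obtain ⟨l, hl⟩ := h
    obtain ⟨l', hl'⟩ := h'
    refine ⟨l ++ l', ?_⟩
    rw [← one_mul (1 : ℂ), ← MvPolynomial.monomial_mul, map_mul, hl, hl']
    simp only [FL, List.map_append, List.prod_append]
  | single j n =>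
    refine ⟨List.replicate n (t - j), ?_⟩
    rw [← MvPolynomial.X_pow_eq_monomial, map_pow, hφ]
    simp only [FL, List.map_replicate, List.prod_replicate]

theorem spanDp_ideal_qspanDp (N : ℕ) (φ : MvPolynomial ℕ ℂ →ₐ[ℂ] Module.End ℂ Fk)
    (hφ : ∀ j : ℕ, φ (MvPolynomial.X j) = Fm (2 * (N : ℤ) - j)) (p : MvPolynomial ℕ ℂ)
    (hp : p ∈ Ideal.span (Set.range relP)) : φ p (zN N) = 0 := by
  refine Submodule.span_induction (p := fun p _ => φ p (zN N) = 0) ?_ ?_ ?_ ?_ hp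
  · rintro _ ⟨s, rfl⟩
    have h := rel4 (2 * (N : ℤ)) (zN N) (fun r m hm => Fr_zN N r m hm) s
    rw [← h]
    unfold relP
    rw [map_sum, LinearMap.sum_apply]
    apply Finset.sum_congr rfl
    intro q _
    rw [Fin.prod_univ_four, map_mul, map_mul, map_mul, hφ, hφ, hφ, hφ]
  · simp
  · intro x y _ _ hx hy
    rw [map_add, LinearMap.add_apply, hx, hy, add_zero]
  · intro a x _ hx
    rw [smul_eq_mul, map_mul, Module.End.mul_apply, hx, map_zero]

theorem spanDp_dmono_qspanDp (N : ℕ) (φ : MvPolynomial ℕ ℂ →ₐ[ℂ] Module.End ℂ Fk)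
    (hφ : ∀ j : ℕ, φ (MvPolynomial.X j) = Fm (2 * (N : ℤ) - j)) (κ : ℕ →₀ ℕ) (hκ : Adm κ) :
    φ (dmono κ) (zN N) ∈ WN N := by
  obtain ⟨l, hl⟩ := spanDp_mono_qspanDp (2 * (N : ℤ)) φ hφ κ
  have h1 : dmono κ = (κ.prod (fun _ a => ((a.factorial : ℂ))⁻¹)) •
      (MvPolynomial.monomial κ 1 : MvPolynomial ℕ ℂ) := by
    rw [MvPolynomial.smul_monomial, smul_eq_mul, mul_one]
    rfl
  rw [h1, map_smul, hl, LinearMap.smul_apply]
  apply spanDp_smul_qspanDp
  · apply Rp.prod_mem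
    intro j _
    apply spanDp_fact_qspanDp
    have := hκ j
    omega
  · exact Submodule.subset_span ⟨l, rfl⟩

theorem spanDp (N : ℕ) (m : ℤ) (k : ℕ) :
    ((k.factorial : ℂ)⁻¹) • ((Fm m) ^ k) (zN N) ∈ WN N := by
  by_cases hm : 2 * (N : ℤ) < m
  · cases k with
    | zero =>
      have h1 : ((Nat.factorial 0 : ℂ)⁻¹) • ((Fm m) ^ 0) (zN N) = FL [] (zN N) := by
        simp [FL]
      rw [h1]
      exact Submodule.subset_span ⟨[], rfl⟩
    | succ k =>
      rw [pow_succ, Module.End.mul_apply, Fm_zN N m hm, map_zero, smul_zero]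
      exact (WN N).zero_mem
  · obtain ⟨j, hj⟩ : ∃ j : ℕ, m = 2 * (N : ℤ) - j := ⟨(2 * (N : ℤ) - m).toNat, by omega⟩
    obtain ⟨φ, hφ⟩ := evalHom (2 * (N : ℤ))
    obtain ⟨c, hc, hcm⟩ := straight (Finsupp.single j k)
    have h1 : φ (dmono (Finsupp.single j k)) = ((k.factorial : ℂ)⁻¹) • (Fm m) ^ k := by
      unfold dmono
      rw [Finsupp.prod_single_index (by simp)]
      have : (MvPolynomial.monomial (Finsupp.single j k) ((k.factorial : ℂ)⁻¹) : MvPolynomial ℕ ℂ) =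
          ((k.factorial : ℂ)⁻¹) • (MvPolynomial.X j) ^ k := by
        rw [MvPolynomial.X_pow_eq_monomial, MvPolynomial.smul_monomial, smul_eq_mul, mul_one]
      rw [this, map_smul, map_pow, hφ, hj]
    have h2 := spanDp_ideal_qspanDp N φ hφ _ hcm
    rw [map_sub, LinearMap.sub_apply, sub_eq_zero, h1, LinearMap.smul_apply] at h2
    rw [h2, Finsupp.sum, map_sum, LinearMap.sum_apply]
    apply Submodule.sum_mem
    intro κ' hκ'
    rw [map_smul, LinearMap.smul_apply]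
    exact spanDp_smul_qspanDp N _ (spanDp_int_qspanDp _) _ (spanDp_dmono_qspanDp N φ hφ κ' (hc κ' hκ'))

end Pool.Agent.Helper840.AE
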