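import Pool.Agent.Helper840.AE.FockDefs
import Pool.Agent.Helper840.AE.FockDefs2
import Pool.Agent.Helper840.AE.P_spanDp
import Pool.Agent.Helper840.AE.P_FL_perm
import Pool.Agent.Helper840.AE.P_Fm_comm

set_option autoImplicit false

namespace Pool.Agent.Helper840.AE

theorem FL_append_aux_qW_F (l l' : List ℤ) : FL (l ++ l') = FL l * FL l' := by
  simp [FL]

theorem Fm_FL_commute_aux_qW_F (m : ℤ) (l : List ℤ) : Commute (Fm m) (FL l) := by
  unfold FL
  refine Commute.list_prod_right _ _ ?_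
  intro y hy
  obtain ⟨a, _, rfl⟩ := List.mem_map.mp hy
  exact Fm_comm m a

theorem WN_FL_aux_qW_F (N : ℕ) (l : List ℤ) (x : Fk) (hx : x ∈ WN N) : FL l x ∈ WN N := by
  unfold WN at hx ⊢
  induction hx using Submodule.span_induction with
  | mem x h =>
    obtain ⟨l', rfl⟩ := h
    refine Submodule.subset_span ⟨l ++ l', ?_⟩
    rw [FL_append_aux_qW_F, Module.End.mul_apply]
  | zero => rw [map_zero]; exact Submodule.zero_mem _
  | add x y _ _ hx hy => rw [map_add]; exact Submodule.add_mem _ hx hy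
  | smul a x _ hx =>
    have : FL l (a • x) = a • FL l x := by
      rw [Subring.smul_def, Subring.smul_def, map_smul]
    rw [this]; exact Submodule.smul_mem _ _ hx

theorem W_F (m : ℤ) (k : ℕ) (N : ℕ) (x : Fk) (hx : x ∈ WN N) :
    ((k.factorial : ℂ)⁻¹) • ((Fm m) ^ k) x ∈ WN N := by
  have hx0 := hx
  unfold WN at hx ⊢
  induction hx using Submodule.span_induction with
  | mem x h =>
    obtain ⟨l, rfl⟩ := h
    have h1 : ((k.factorial : ℂ)⁻¹) • ((Fm m) ^ k) (FL l (zN N)) =
        FL l (((k.factorial : ℂ)⁻¹) • ((Fm m) ^ k) (zN N)) := by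
      rw [map_smul, ← Module.End.mul_apply, ← Module.End.mul_apply,
        ((Fm_FL_commute_aux_qW_F m l).pow_left k).eq]
    rw [h1]
    exact WN_FL_aux_qW_F N l _ (spanDp N m k)
  | zero => rw [map_zero, smul_zero]; exact Submodule.zero_mem _
  | add x y hx' hy' hx hy =>
    rw [map_add, smul_add]; exact Submodule.add_mem _ (hx hx') (hy hy')
  | smul a x hx' hx =>
    have : ((k.factorial : ℂ)⁻¹) • ((Fm m) ^ k) (a • x) = a • ((k.factorial : ℂ)⁻¹) • ((Fm m) ^ k) x := by
      rw [Subring.smul_def, Subring.smul_def, map_smul, smul_comm]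
    rw [this]; exact Submodule.smul_mem _ _ (hx hx')

end Pool.Agent.Helper840.AE
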