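import Pool.Agent.Helper840.AE.FockDefs
import Pool.Agent.Helper840.AE.P_X_ket
import Pool.Agent.Helper840.AE.P_X_box
import Pool.Agent.Helper840.AE.P_S_apply
import Pool.Agent.Helper840.AE.P_S_supp
import Pool.Agent.Helper840.AE.P_S_ext

set_option autoImplicit false

namespace Pool.Agent.Helper840.AE

/-- the eigenvalue of the diagonal operator -/
noncomputable def Dg_S_e_qDg_S (w : Site → ℂ) (D : Finset Site) : ℂ :=
  ∑ i ∈ D, (if i.2 < 0 then - w i else w i)

theorem Dg_S_ket_qDg_S (w : Site → ℂ) (D : Finset Site) : Dg w (ket D) = Dg_S_e_qDg_S w D • ket D := by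
  unfold Dg ket Dg_S_e_qDg_S
  rw [Finsupp.linearCombination_single, one_smul]

theorem Dg_S_S_qDg_S (d : ℤ) (g : Site → ℂ) (D : Finset Site) :
    S d g (ket D) = ∑ i ∈ box (bd D + d.natAbs), g i • X (sh d i) i (ket D) := by
  have h := Finsupp.linearCombination_single ℂ
    (v := fun D => ∑ i ∈ box (bd D + d.natAbs), g i • X (sh d i) i (ket D)) (1 : ℂ) D
  rw [one_smul] at h
  exact h

theorem Dg_S_tog_qDg_S (w : Site → ℂ) (i : Site) (D : Finset Site) :
    Dg_S_e_qDg_S w (tog i D) = Dg_S_e_qDg_S w D + (if occ D i then - w i else w i) := by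
  unfold Dg_S_e_qDg_S tog
  by_cases hi : i ∈ D
  · rw [if_pos hi]
    have h1 := Finset.add_sum_erase D (fun i => (if i.2 < 0 then - w i else w i)) hi
    rw [← h1]
    by_cases h2 : i.2 < 0
    · have ho : ¬ occ D i := by unfold occ; simp [h2, hi]
      rw [if_neg ho, if_pos h2]; ring
    · have ho : occ D i := by unfold occ; simp [h2, hi]
      rw [if_pos ho, if_neg h2]; ring
  · rw [if_neg hi, Finset.sum_insert hi]
    by_cases h2 : i.2 < 0
    · have ho : occ D i := by unfold occ; simp [h2, hi]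
      rw [if_pos ho, if_pos h2]; ring
    · have ho : ¬ occ D i := by unfold occ; simp [h2, hi]
      rw [if_neg ho, if_neg h2]; ring

theorem Dg_S_occ_qDg_S (i j : Site) (h : j ≠ i) (D : Finset Site) : occ (tog i D) j ↔ occ D j := by
  have h1 : j ∈ tog i D ↔ j ∈ D := by
    unfold tog
    split_ifs with hi
    · rw [Finset.mem_erase]; tauto
    · rw [Finset.mem_insert]; tauto
  unfold occ
  rw [h1]

theorem Dg_S_X_qDg_S (d : ℤ) (hd : d ≠ 0) (w : Site → ℂ) (i : Site) (D : Finset Site) :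
    Dg w (X (sh d i) i (ket D)) = (Dg_S_e_qDg_S w D + (w (sh d i) - w i)) • X (sh d i) i (ket D) := by
  have hne : sh d i ≠ i := by
    intro h0
    have h1 := congrArg Prod.snd h0
    simp only [sh] at h1
    omega
  obtain ⟨ε, -, hX⟩ := X_ket (sh d i) i hne D
  rw [hX]
  by_cases hc : occ D i ∧ ¬ occ D (sh d i)
  · rw [if_pos hc, map_smul, Dg_S_ket_qDg_S, Dg_S_tog_qDg_S, Dg_S_tog_qDg_S]
    have h2 : ¬ occ (tog i D) (sh d i) := by rw [Dg_S_occ_qDg_S _ _ hne]; exact hc.2
    rw [if_neg h2, if_pos hc.1, smul_smul, smul_smul]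
    congr 1
    ring
  · rw [if_neg hc, map_zero, smul_zero]

theorem Dg_S (d : ℤ) (hd : d ≠ 0) (w g : Site → ℂ) :
    Dg w * S d g - S d g * Dg w = S d (fun i => (w (sh d i) - w i) * g i) := by
  apply S_ext
  intro D
  rw [LinearMap.sub_apply, Module.End.mul_apply, Module.End.mul_apply, Dg_S_ket_qDg_S, map_smul,
    Dg_S_S_qDg_S, Dg_S_S_qDg_S, map_sum, Finset.smul_sum, ← Finset.sum_sub_distrib]
  refine Finset.sum_congr rfl fun i _ => ?_
  rw [map_smul, Dg_S_X_qDg_S d hd, smul_smul, smul_smul, ← sub_smul]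
  congr 1
  ring

end Pool.Agent.Helper840.AE
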