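import Pool.Agent.Helper840.AE.FockDefs
import Pool.Agent.Helper840.AE.FockDefs2
import Pool.Agent.Helper840.AE.P_Dg_S

set_option autoImplicit false

namespace Pool.Agent.Helper840.AE

theorem W_H_Dg_ket_qW_H (w : Site → ℂ) (D : Finset Site) :
    Dg w (ket D) = (∑ i ∈ D, (if i.2 < 0 then - w i else w i)) • ket D := by
  unfold Dg ket
  rw [Finsupp.linearCombination_single, one_smul]

theorem W_H_val_qW_H {N : ℕ} {i : Site} (hi : i ∈ DN N) :
    (if i.2 < 0 then - chi i else chi i) = 1 := by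
  unfold DN at hi
  rw [Finset.mem_product, Finset.mem_union, Finset.mem_image, Finset.mem_image] at hi
  obtain ⟨_, ⟨k, hk, h⟩ | ⟨k, hk, h⟩⟩ := hi
  · rw [Finset.mem_Icc] at hk
    have h1 : ¬ i.2 < 0 := by omega
    have h2 : i.2 % 2 = 1 := by omega
    simp [chi, h1, h2]
  · rw [Finset.mem_Icc] at hk
    have h1 : i.2 < 0 := by omega
    have h2 : ¬ i.2 % 2 = 1 := by omega
    simp [chi, h1, h2]

theorem W_H_z1_qW_H (N : ℕ) : Dg chi (zN N) = ((DN N).card : ℂ) • zN N := by
  unfold zN
  rw [W_H_Dg_ket_qW_H, Finset.sum_congr rfl (fun i hi => W_H_val_qW_H hi)]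
  simp

theorem W_H_z0_qW_H (N : ℕ) : Dg (fun j => - chi j) (zN N) = (-((DN N).card : ℂ)) • zN N := by
  unfold zN
  rw [W_H_Dg_ket_qW_H]
  have : ∀ i ∈ DN N, (if i.2 < 0 then - (- chi i) else - chi i) = -1 := by
    intro i hi
    have h := W_H_val_qW_H hi
    split_ifs at h ⊢ with h1
    · rw [h]
    · rw [h]
  rw [Finset.sum_congr rfl this]
  simp

theorem W_H_comm_qW_H (w : Site → ℂ) (c : ℂ) (hw : ∀ (i : Site) (m : ℤ), i.2 % 2 = 1 →
    w (sh (1 - 2 * m) i) - w i = c) (m : ℤ) (x : Fk) :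
    Dg w (Fm m x) = Fm m (Dg w x) + c • Fm m x := by
  have h := Dg_S (1 - 2 * m) (by omega) w podd
  have h2 : (fun i => (w (sh (1 - 2 * m) i) - w i) * podd i) = fun i => c * podd i := by
    funext i
    by_cases hi : i.2 % 2 = 1
    · rw [hw i m hi]
    · simp [podd, hi]
  have h3 : S (1 - 2 * m) (fun i => c * podd i) = c • S (1 - 2 * m) podd := by
    apply Finsupp.lhom_ext'
    intro D
    apply LinearMap.ext_ring
    unfold S
    rw [LinearMap.comp_apply, LinearMap.comp_apply, LinearMap.smul_apply, Finsupp.lsingle_apply,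
      Finsupp.linearCombination_single, Finsupp.linearCombination_single, one_smul, one_smul,
      Finset.smul_sum]
    apply Finset.sum_congr rfl
    intro i _
    rw [mul_smul]
  rw [h2, h3] at h
  have h4 := congrArg (fun T : Module.End ℂ Fk => T x) h
  simp only [LinearMap.sub_apply, Module.End.mul_apply, LinearMap.smul_apply] at h4
  unfold Fm
  rw [← h4]; abel

theorem W_H_word_qW_H (w : Site → ℂ) (c c0 : ℂ) (hw : ∀ (i : Site) (m : ℤ), i.2 % 2 = 1 →
    w (sh (1 - 2 * m) i) - w i = c) (N : ℕ) (hz : Dg w (zN N) = c0 • zN N) (l : List ℤ) :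
    Dg w (FL l (zN N)) = (c0 + l.length * c) • FL l (zN N) := by
  induction l with
  | nil => simp [FL, hz]
  | cons a l ih =>
    have h : FL (a :: l) (zN N) = Fm a (FL l (zN N)) := by
      simp [FL]
    rw [h, W_H_comm_qW_H w c hw, ih, map_smul, ← add_smul, List.length_cons]
    congr 1
    push_cast
    ring

theorem W_H_prod_qW_H (A : Module.End ℂ Fk) (x : Fk) (n : ℂ) (h : A x = n • x) (k : ℕ) :
    ((List.range k).map (fun j : ℕ => A - (j : ℂ) • 1)).prod x =
      (∏ j ∈ Finset.range k, (n - j)) • x := by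
  induction k with
  | zero => simp
  | succ k ih =>
    rw [List.range_succ, List.map_append, List.prod_append, List.map_singleton,
      List.prod_singleton, Module.End.mul_apply, LinearMap.sub_apply, h, LinearMap.smul_apply,
      Module.End.one_apply, ← sub_smul, map_smul, ih, Finset.prod_range_succ, smul_smul, mul_comm]

theorem W_H_choose_qW_H (n : ℤ) (k : ℕ) :
    ∏ j ∈ Finset.range k, (n - j) = k.factorial * Ring.choose n k := by
  have h1 := Ring.descPochhammer_eq_factorial_smul_choose n k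
  rw [← Polynomial.eval_eq_smeval, descPochhammer_eval_eq_prod_range, nsmul_eq_mul] at h1
  exact h1

theorem W_H_int_qW_H (i : Fin 2) (N : ℕ) (l : List ℤ) :
    ∃ n : ℤ, opH i (FL l (zN N)) = (n : ℂ) • FL l (zN N) := by
  have hchi : ∀ (i : Site) (m : ℤ), i.2 % 2 = 1 → chi (sh (1 - 2 * m) i) - chi i = -2 := by
    intro i m hi
    have h1 : ¬ (sh (1 - 2 * m) i).2 % 2 = 1 := by
      simp only [sh]; omega
    simp only [chi, hi, h1, if_true, if_false]
    norm_num
  fin_cases i
  · refine ⟨-((DN N).card : ℤ) + l.length * 2, ?_⟩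
    have h := W_H_word_qW_H (fun j => - chi j) 2 (-((DN N).card : ℂ)) (by
      intro i m hi
      have := hchi i m hi
      linear_combination -this) N (W_H_z0_qW_H N) l
    have ho : opH 0 = Dg (fun j => - chi j) := by simp [opH]
    show opH 0 _ = _
    rw [ho, h]
    push_cast
    rfl
  · refine ⟨((DN N).card : ℤ) + l.length * (-2) + 3, ?_⟩
    have h := W_H_word_qW_H chi (-2) ((DN N).card : ℂ) hchi N (W_H_z1_qW_H N) l
    simp only [opH]
    rw [if_neg (by decide), LinearMap.add_apply, h, LinearMap.smul_apply, Module.End.one_apply,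
      ← add_smul]
    push_cast
    rfl

theorem W_H_mem_int_qW_H (n : ℤ) : (n : ℂ) ∈ Rp := ⟨n, 1, by norm_num, by simp⟩

theorem W_H (i : Fin 2) (k : ℕ) (N : ℕ) (x : Fk) (hx : x ∈ WN N) :
    ((k.factorial : ℂ)⁻¹) •
      ((List.range k).map (fun j : ℕ => opH i - (j : ℂ) • 1)).prod x ∈ WN N := by
  unfold WN at hx ⊢
  induction hx using Submodule.span_induction with
  | mem x hx =>
    obtain ⟨l, rfl⟩ := hx
    obtain ⟨n, hn⟩ := W_H_int_qW_H i N l
    rw [W_H_prod_qW_H _ _ _ hn, smul_smul]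
    have h1 : (∏ j ∈ Finset.range k, ((n : ℂ) - j)) = k.factorial * (Ring.choose n k : ℤ) := by
      have := congrArg (fun z : ℤ => (z : ℂ)) (W_H_choose_qW_H n k)
      push_cast at this
      exact this
    rw [h1, ← mul_assoc, inv_mul_cancel₀ (by exact_mod_cast k.factorial_ne_zero), one_mul]
    have h2 : ((Ring.choose n k : ℤ) : ℂ) • FL l (zN N) =
        (⟨_, W_H_mem_int_qW_H (Ring.choose n k)⟩ : Rp) • FL l (zN N) := rfl
    rw [h2]
    exact Submodule.smul_mem _ _ (Submodule.subset_span ⟨l, rfl⟩)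
  | zero => simp
  | add x y _ _ hx hy =>
    rw [map_add, smul_add]
    exact Submodule.add_mem _ hx hy
  | smul a x _ hx =>
    have h1 : a • x = (a : ℂ) • x := rfl
    rw [h1, map_smul, smul_comm]
    exact Submodule.smul_mem _ a hx

end Pool.Agent.Helper840.AE
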