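import Pool.Agent.Helper840.AE.FockDefs2

/-!
Data of the certificate and coded vectors.
-/

set_option autoImplicit false

namespace Pool.Agent.Helper840.AE

/-- The state with code `c`: the site `(r, s)`, `-10 ≤ s ≤ 9`, belongs to it if the bit
`20 r + s + 10` of `c` is one. -/
noncomputable def stOf (c : ℕ) : Finset Site :=
  (box 10).filter (fun i => i.2 ≤ 9 ∧ Nat.testBit c (20 * i.1.val + (i.2 + 10).toNat) = true)

/-- The vector with a given list of coded states and coefficients. -/
noncomputable def vecOf (l : List (ℕ × ℤ)) : Fk :=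
  (l.map (fun p => (p.2 : ℂ) • ket (stOf p.1))).sum

/-- The product of the lowering operators of a word, the first letter applied last. -/
noncomputable def FW (J : List (Fin 2)) : Module.End ℂ Fk := (J.map opF).prod

/-- The product of the raising operators of the reversed word. -/
noncomputable def EW (J : List (Fin 2)) : Module.End ℂ Fk := (J.reverse.map opE).prod

/-- The two bits (positions `k`, `k + 1`, as a number `< 4`) which allow a particle to move from
`s` to `s + 1`, where `k = s + 10` modulo `20`. -/
def patF (k : ℕ) : ℕ := if k % 20 < 9 then 2 else if k % 20 = 9 then 0 else 1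

/-- The two bits which allow a particle to move from `s + 1` to `s`. -/
def patE (k : ℕ) : ℕ := if k % 20 < 9 then 1 else if k % 20 = 9 then 3 else 2

/-- The sign of a move. -/
def sgnK (k : ℕ) : ℤ := if k % 20 < 10 then -1 else 1

/-- The terms of a coded vector which move at the bit `k`. -/
def mvK (pat : ℕ → ℕ) (k : ℕ) : List (ℕ × ℤ) → List (ℕ × ℤ)
  | [] => []
  | (c, x) :: l => if (c >>> k) % 4 = pat k then (c ^^^ (3 <<< k), sgnK k * x) :: mvK pat k l
      else mvK pat k l

/-- Merge of two coded vectors (sorted by code), adding coefficients. -/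
def mrg : ℕ → List (ℕ × ℤ) → List (ℕ × ℤ) → List (ℕ × ℤ)
  | 0, a, b => a ++ b
  | _ + 1, [], b => b
  | _ + 1, a, [] => a
  | n + 1, (c, x) :: a, (c', x') :: b =>
      if c < c' then (c, x) :: mrg n a ((c', x') :: b)
      else if c' < c then (c', x') :: mrg n ((c, x) :: a) b
      else (c, x + x') :: mrg n a b

/-- The coded operator: the sum of the moves at the bits in the list. -/
def mvL (pat : ℕ → ℕ) (l : List (ℕ × ℤ)) : List ℕ → List (ℕ × ℤ)
  | [] => []
  | k :: ks => mrg 4000 (mvK pat k l) (mvL pat l ks)

/-- The bits at which `e_i`, `f_i` move particles. -/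
def ksOf (i : Fin 2) : List ℕ :=
  if i = 0 then [0, 2, 4, 6, 8, 10, 12, 14, 16, 18, 20, 22, 24, 26, 28, 30, 32, 34, 36, 38,
    40, 42, 44, 46, 48, 50, 52, 54, 56, 58]
  else [1, 3, 5, 7, 9, 11, 13, 15, 17, 21, 23, 25, 27, 29, 31, 33, 35, 37,
    41, 43, 45, 47, 49, 51, 53, 55, 57]

/-- The coded operator `f_i`. -/
def cF (i : Fin 2) (l : List (ℕ × ℤ)) : List (ℕ × ℤ) := mvL patF l (ksOf i)

/-- The coded operator `e_i`. -/
def cE (i : Fin 2) (l : List (ℕ × ℤ)) : List (ℕ × ℤ) := mvL patE l (ksOf i)

/-- The code is below `2^60` and the bits `0` and `19` of each row vanish. -/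
def okC (c : ℕ) : Bool := c < 2 ^ 60 && c &&& (1 + 2 ^ 19 + 2 ^ 20 + 2 ^ 39 + 2 ^ 40 + 2 ^ 59) == 0

/-- The coded vector multiplied by an integer. -/
def scl (a : ℤ) (l : List (ℕ × ℤ)) : List (ℕ × ℤ) := l.map (fun p => (p.1, a * p.2))

/-- The coded vector of a lowering word applied to the vacuum. -/
def wvec (J : List (Fin 2)) : List (ℕ × ℤ) := J.foldr cF [(0, 1)]

/-- All codes met in the computation of a word are inside the window. -/
def okW : List (Fin 2) → Bool
  | [] => true
  | i :: J => okW J && (wvec J).all (fun p => okC p.1)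

/-- The value of `Dg chi` on the state with code `c`. -/
def hval (c : ℕ) : ℤ :=
  ((List.range 60).map (fun k => if c.testBit k then
    (if k % 20 < 10 then (if k % 2 = 1 then -1 else 1) else (if k % 2 = 1 then 1 else -1))
    else 0)).sum

/-- The value of `Dg wd` on the state with code `c`. -/
def dval (c : ℕ) : ℤ :=
  ((List.range 60).map (fun k => if c.testBit k then
    (if k % 20 < 10 then (((k % 20 : ℕ) : ℤ) - 9) / 2 else -((((k % 20 : ℕ) : ℤ) - 9) / 2))
    else 0)).sum

/-- The codes are strictly increasing. -/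
def incr : List (ℕ × ℤ) → Bool
  | [] => true
  | [_] => true
  | p :: q :: l => p.1 < q.1 && incr (q :: l)

end Pool.Agent.Helper840.AE
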