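import Pool.Agent.Helper840.AE.FockDefs

set_option autoImplicit false

namespace Pool.Agent.Helper840.AE

theorem Bf_add_left'_qBf_add_left (x x' y : Fk) : Bf (x + x') y = Bf x y + Bf x' y := by
  unfold Bf
  rw [Finsupp.sum_add_index']
  · intro D; simp
  · intro D a b; ring

theorem Bf_smul_left'_qBf_add_left (x y : Fk) (a : ℂ) : Bf (a • x) y = a * Bf x y := by
  unfold Bf
  rw [Finsupp.sum_smul_index (by intro i; simp)]
  simp only [Finsupp.sum, Finset.mul_sum]
  apply Finset.sum_congr rfl
  intro D _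
  ring

theorem Bf_symm'_qBf_add_left (x y : Fk) : Bf x y = Bf y x := by
  unfold Bf
  rw [Finsupp.sum_of_support_subset (s := x.support ∪ y.support) x Finset.subset_union_left _
      (by intro i _; simp),
    Finsupp.sum_of_support_subset (s := x.support ∪ y.support) y Finset.subset_union_right _
      (by intro i _; simp)]
  apply Finset.sum_congr rfl
  intro D _
  ring

theorem Bf_bilin (x x' y y' : Fk) (a : ℂ) : Bf (x + x') y = Bf x y + Bf x' y ∧
    Bf x (y + y') = Bf x y + Bf x y' ∧ Bf (a • x) y = a * Bf x y ∧ Bf x (a • y) = a * Bf x y ∧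
    Bf x y = Bf y x := by
  refine ⟨Bf_add_left'_qBf_add_left x x' y, ?_, Bf_smul_left'_qBf_add_left x y a, ?_, Bf_symm'_qBf_add_left x y⟩
  · rw [Bf_symm'_qBf_add_left x (y + y'), Bf_add_left'_qBf_add_left, Bf_symm'_qBf_add_left y x, Bf_symm'_qBf_add_left y' x]
  · rw [Bf_symm'_qBf_add_left x (a • y), Bf_smul_left'_qBf_add_left, Bf_symm'_qBf_add_left y x]

end Pool.Agent.Helper840.AE
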