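import Pool.Agent.Helper840.AE.FockDefs
import Pool.Agent.Helper840.AE.CertDefs

set_option autoImplicit false

namespace Pool.Agent.Helper840.AE

theorem mem_stOf (c : ℕ) (r : Fin 3) (s : ℤ) : (r, s) ∈ stOf c ↔
    -10 ≤ s ∧ s ≤ 9 ∧ Nat.testBit c (20 * r.val + (s + 10).toNat) = true := by
  unfold stOf box
  rw [Finset.mem_filter, Finset.mem_product, Finset.mem_Icc]
  simp only [Finset.mem_univ, true_and]
  constructor
  · rintro ⟨⟨h1, h2⟩, h3, h4⟩
    refine ⟨?_, h3, h4⟩
    push_cast at h1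
    exact h1
  · rintro ⟨h1, h3, h4⟩
    refine ⟨⟨?_, ?_⟩, h3, h4⟩
    · push_cast
      exact h1
    · push_cast
      linarith

end Pool.Agent.Helper840.AE
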