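import Pool.Agent.Helper840.AE.FockDefs
import Pool.Agent.Helper840.AE.CertDefs
import Pool.Agent.Helper840.AE.P_mem_stOf

set_option autoImplicit false

namespace Pool.Agent.Helper840.AE

theorem stOf_inj (c c' : ℕ) (h : c < 2 ^ 60) (h' : c' < 2 ^ 60) (hh : stOf c = stOf c') :
    c = c' := by
  apply Nat.eq_of_testBit_eq
  intro j
  by_cases hj : j < 60
  · have hr : j / 20 < 3 := by omega
    have h1 := mem_stOf c ⟨j / 20, hr⟩ (((j % 20 : ℕ) : ℤ) - 10)
    have h2 := mem_stOf c' ⟨j / 20, hr⟩ (((j % 20 : ℕ) : ℤ) - 10)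
    have e : (((j % 20 : ℕ) : ℤ) - 10 + 10).toNat = j % 20 := by
      rw [sub_add_cancel]; exact Int.toNat_natCast _
    have e2 : 20 * (j / 20) + j % 20 = j := by omega
    have b1 : (-10 : ℤ) ≤ ((j % 20 : ℕ) : ℤ) - 10 := by omega
    have b2 : ((j % 20 : ℕ) : ℤ) - 10 ≤ 9 := by omega
    simp only [e, e2, b1, b2, true_and] at h1 h2
    rw [hh] at h1
    rw [h1] at h2
    exact Bool.eq_iff_iff.2 h2
  · push Not at hj
    have hp : 2 ^ 60 ≤ 2 ^ j := Nat.pow_le_pow_right (by norm_num) hj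
    rw [Nat.testBit_lt_two_pow (lt_of_lt_of_le h hp), Nat.testBit_lt_two_pow (lt_of_lt_of_le h' hp)]

end Pool.Agent.Helper840.AE
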