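import Pool.Agent.Helper840.AE.FockDefs
import Pool.Agent.Helper840.AE.CertDefs
import Pool.Agent.Helper840.AE.P_Bf_add_left
import Pool.Agent.Helper840.AE.P_stOf_inj

set_option autoImplicit false

namespace Pool.Agent.Helper840.AE

theorem Bf_vec_okC_qBf_vec {c : ℕ} (h : okC c = true) : c < 2 ^ 60 := by
  unfold okC at h
  rw [Bool.and_eq_true] at h
  exact of_decide_eq_true h.1

theorem Bf_vec_lt_qBf_vec (l : List (ℕ × ℤ)) : ∀ p : ℕ × ℤ, incr (p :: l) = true →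
    (incr l = true) ∧ ∀ q ∈ l, p.1 < q.1 := by
  induction l with
  | nil =>
    intro p _
    exact ⟨rfl, fun q hq => absurd hq (List.not_mem_nil)⟩
  | cons q l ih =>
    intro p hp
    have hp' : (decide (p.1 < q.1) && incr (q :: l)) = true := hp
    rw [Bool.and_eq_true] at hp'
    have h1 : p.1 < q.1 := of_decide_eq_true hp'.1
    obtain ⟨_, h3⟩ := ih q hp'.2
    refine ⟨hp'.2, ?_⟩
    intro r hr
    rcases List.mem_cons.1 hr with rfl | hr
    · exact h1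
    · exact h1.trans (h3 r hr)

theorem Bf_vec_cons_qBf_vec (p : ℕ × ℤ) (l : List (ℕ × ℤ)) :
    vecOf (p :: l) = (p.2 : ℂ) • ket (stOf p.1) + vecOf l := by
  unfold vecOf
  rw [List.map_cons, List.sum_cons]

theorem Bf_vec_zero_qBf_vec (l : List (ℕ × ℤ)) (c : ℕ) (hc : c < 2 ^ 60)
    (h : ∀ q ∈ l, q.1 < 2 ^ 60 ∧ q.1 ≠ c) : vecOf l (stOf c) = 0 := by
  induction l with
  | nil =>
    unfold vecOf
    simp
  | cons p l ih =>
    rw [Bf_vec_cons_qBf_vec, Finsupp.add_apply, ih (fun q hq => h q (List.mem_cons_of_mem p hq)),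
      add_zero, Finsupp.smul_apply]
    have hp := h p List.mem_cons_self
    have hne : stOf p.1 ≠ stOf c := fun heq => hp.2 (stOf_inj p.1 c hp.1 hc heq)
    unfold ket
    rw [Finsupp.single_eq_of_ne (Ne.symm hne), smul_zero]

theorem Bf_vec_ket_qBf_vec (D : Finset Site) (v : Fk) : Bf (ket D) v = v D := by
  unfold Bf ket
  rw [Finsupp.sum_single_index (by simp), one_mul]

theorem Bf_vec (l : List (ℕ × ℤ)) (h : l.all (fun p => okC p.1) = true) (hi : incr l = true) :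
    Bf (vecOf l) (vecOf l) = (((l.map (fun p => p.2 * p.2)).sum : ℤ) : ℂ) := by
  induction l with
  | nil =>
    unfold vecOf Bf
    simp
  | cons p l ih =>
    rw [List.all_cons, Bool.and_eq_true] at h
    obtain ⟨hi1, hi2⟩ := Bf_vec_lt_qBf_vec l p hi
    have hpc : p.1 < 2 ^ 60 := Bf_vec_okC_qBf_vec h.1
    have hv : vecOf l (stOf p.1) = 0 := by
      apply Bf_vec_zero_qBf_vec l p.1 hpc
      intro q hq
      have h1 : okC q.1 = true := (List.all_eq_true.1 h.2) q hq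
      exact ⟨Bf_vec_okC_qBf_vec h1, (hi2 q hq).ne'⟩
    have hih := ih h.2 hi1
    rw [Bf_vec_cons_qBf_vec, List.map_cons, List.sum_cons]
    have b1 := (Bf_bilin ((p.2 : ℂ) • ket (stOf p.1)) (vecOf l)
      ((p.2 : ℂ) • ket (stOf p.1) + vecOf l) 0 1).1
    have b2 := (Bf_bilin ((p.2 : ℂ) • ket (stOf p.1)) 0
      ((p.2 : ℂ) • ket (stOf p.1)) (vecOf l) 1).2.1
    have b3 := (Bf_bilin (vecOf l) 0
      ((p.2 : ℂ) • ket (stOf p.1)) (vecOf l) 1).2.1
    have b4 := (Bf_bilin (vecOf l) 0 ((p.2 : ℂ) • ket (stOf p.1)) 0 1).2.2.2.2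
    have b5 := (Bf_bilin (ket (stOf p.1)) 0 (vecOf l) 0 (p.2 : ℂ)).2.2.1
    have b6 := (Bf_bilin (ket (stOf p.1)) 0 ((p.2 : ℂ) • ket (stOf p.1)) 0 (p.2 : ℂ)).2.2.1
    have b7 := (Bf_bilin (ket (stOf p.1)) 0 (ket (stOf p.1)) 0 (p.2 : ℂ)).2.2.2.1
    have b8 : Bf (ket (stOf p.1)) (vecOf l) = 0 := by rw [Bf_vec_ket_qBf_vec, hv]
    have b9 : Bf (ket (stOf p.1)) (ket (stOf p.1)) = 1 := by
      rw [Bf_vec_ket_qBf_vec]
      unfold ket
      rw [Finsupp.single_eq_same]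
    rw [b1, b2, b3, b4, b5, b6, b7, b8, b9, hih]
    push_cast
    ring

end Pool.Agent.Helper840.AE
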