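import Pool.Agent.Helper840.AE.FockDefs
import Pool.Agent.Helper840.AE.CertDefs
import Pool.Agent.Helper840.AE.P_X_ket
import Pool.Agent.Helper840.AE.P_mem_stOf

set_option autoImplicit false

namespace Pool.Agent.Helper840.AE

theorem mem_tog'_qX_stOf_up (i j : Site) (D : Finset Site) :
    j ∈ tog i D ↔ (if j = i then i ∉ D else j ∈ D) := by
  unfold tog
  by_cases hij : j = i
  · subst hij
    by_cases h : j ∈ D <;> simp [h]
  · by_cases h : i ∈ D <;> simp [h, hij]

theorem tb3'_qX_stOf_up (k m : ℕ) : Nat.testBit (3 <<< k) m = decide (m = k ∨ m = k + 1) := by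
  rw [Nat.testBit_shiftLeft]
  have h : Nat.testBit 3 (m - k) = decide (m - k < 2) := Nat.testBit_two_pow_sub_one 2 (m - k)
  rw [h, ← Bool.decide_and]
  apply decide_eq_decide.2
  omega

theorem sh4'_qX_stOf_up (c k : ℕ) : (c >>> k) % 4 =
    (if Nat.testBit c k = true then 1 else 0) + 2 * (if Nat.testBit c (k + 1) = true then 1 else 0) := by
  rw [Nat.testBit_eq_decide_div_mod_eq, Nat.testBit_eq_decide_div_mod_eq,
    Nat.shiftRight_eq_div_pow, pow_succ, ← Nat.div_div_eq_div_mul]
  generalize c / 2 ^ k = q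
  simp only [decide_eq_true_eq]
  split_ifs <;> omega

theorem ann_ket'_qX_stOf_up (i : Site) (D : Finset Site) :
    ann i (ket D) = if occ D i then ((-1 : ℂ) ^ cnt i D) • ket (tog i D) else 0 := by
  unfold ann ket
  rw [Finsupp.linearCombination_single, one_smul]

theorem cre_ket'_qX_stOf_up (i : Site) (D : Finset Site) :
    cre i (ket D) = if occ D i then 0 else ((-1 : ℂ) ^ cnt i D) • ket (tog i D) := by
  unfold cre ket
  rw [Finsupp.linearCombination_single, one_smul]

theorem cnt_succ'_qX_stOf_up (r : Fin 3) (s : ℤ) (E : Finset Site) :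
    cnt (r, s + 1) E = cnt (r, s) E + (if (r, s) ∈ E then 1 else 0) := by
  unfold cnt
  have h1 : E.filter (fun j : Site => j.1 < (r, s + 1).1 ∨ (j.1 = (r, s + 1).1 ∧ j.2 < (r, s + 1).2))
      = E.filter (fun j : Site => j.1 < (r, s).1 ∨ (j.1 = (r, s).1 ∧ j.2 < (r, s).2)) ∪
        E.filter (fun j : Site => j = (r, s)) := by
    ext ⟨r', s'⟩
    simp only [Finset.mem_filter, Finset.mem_union, Prod.mk.injEq]
    constructor
    · rintro ⟨h, h' | ⟨h', h''⟩⟩
      · exact Or.inl ⟨h, Or.inl h'⟩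
      · rcases lt_or_eq_of_le (Int.lt_add_one_iff.1 h'') with h3 | h3
        · exact Or.inl ⟨h, Or.inr ⟨h', h3⟩⟩
        · exact Or.inr ⟨h, h', h3⟩
    · rintro (⟨h, h' | ⟨h', h''⟩⟩ | ⟨h, h', h''⟩)
      · exact ⟨h, Or.inl h'⟩
      · exact ⟨h, Or.inr ⟨h', by omega⟩⟩
      · exact ⟨h, Or.inr ⟨h', by omega⟩⟩
  have h2 : Disjoint (E.filter (fun j : Site => j.1 < (r, s).1 ∨ (j.1 = (r, s).1 ∧ j.2 < (r, s).2)))
        (E.filter (fun j : Site => j = (r, s))) := by
    rw [Finset.disjoint_left]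
    rintro ⟨r', s'⟩ h3 h4
    simp only [Finset.mem_filter, Prod.mk.injEq] at h3 h4
    obtain ⟨-, rfl, rfl⟩ := h4
    rcases h3.2 with h5 | h5
    · exact absurd h5 (lt_irrefl _)
    · exact absurd h5.2 (lt_irrefl _)
  rw [h1, Finset.card_union_of_disjoint h2]
  congr 1
  rw [Finset.filter_eq']
  split_ifs <;> simp

theorem cnt_tog'_qX_stOf_up (i : Site) (D : Finset Site) : cnt i (tog i D) = cnt i D := by
  unfold cnt
  congr 1
  ext j
  simp only [Finset.mem_filter]
  constructor
  · rintro ⟨h, h'⟩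
    refine ⟨?_, h'⟩
    rw [mem_tog'_qX_stOf_up] at h
    rw [if_neg] at h
    · exact h
    · rintro rfl
      rcases h' with h5 | h5
      · exact absurd h5 (lt_irrefl _)
      · exact absurd h5.2 (lt_irrefl _)
  · rintro ⟨h, h'⟩
    refine ⟨?_, h'⟩
    rw [mem_tog'_qX_stOf_up, if_neg]
    · exact h
    · rintro rfl
      rcases h' with h5 | h5
      · exact absurd h5 (lt_irrefl _)
      · exact absurd h5.2 (lt_irrefl _)

theorem X_up'_qX_stOf_up (r : Fin 3) (s : ℤ) (D : Finset Site) :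
    X (r, s + 1) (r, s) (ket D) = if occ D (r, s) ∧ ¬ occ D (r, s + 1) then
      (((if (r, s) ∈ D then 1 else -1) : ℤ) : ℂ) • ket (tog (r, s + 1) (tog (r, s) D)) else 0 := by
  have hne : ((r, s + 1) : Site) ≠ (r, s) := by
    intro h
    have := (Prod.mk.inj h).2
    omega
  have hocc : occ (tog (r, s) D) (r, s + 1) ↔ occ D (r, s + 1) := by
    unfold occ
    rw [mem_tog'_qX_stOf_up, if_neg hne]
  unfold X
  rw [Module.End.mul_apply, ann_ket'_qX_stOf_up]
  by_cases h1 : occ D (r, s)
  · rw [if_pos h1, map_smul, cre_ket'_qX_stOf_up]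
    by_cases h2 : occ D (r, s + 1)
    · rw [if_pos (hocc.2 h2), smul_zero, if_neg]
      exact fun h => h.2 h2
    · rw [if_neg (fun h => h2 (hocc.1 h)), if_pos ⟨h1, h2⟩, smul_smul, ← pow_add, cnt_succ'_qX_stOf_up, cnt_tog'_qX_stOf_up]
      congr 1
      have hm : (r, s) ∈ tog (r, s) D ↔ (r, s) ∉ D := by rw [mem_tog'_qX_stOf_up, if_pos rfl]
      by_cases h3 : (r, s) ∈ D
      · have h4 : (r, s) ∉ tog (r, s) D := fun h => hm.1 h h3
        rw [if_neg h4, if_pos h3, add_zero, ← two_mul, pow_mul]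
        simp
      · rw [if_pos (hm.2 h3), if_neg h3, ← add_assoc, ← two_mul, pow_succ, pow_mul]
        simp
  · rw [if_neg h1, map_zero, if_neg]
    exact fun h => h1 h.1

theorem stOf_xor'_qX_stOf_up (c : ℕ) (r : Fin 3) (s : ℤ) (h1 : -10 ≤ s) (h2 : s ≤ 8) (k : ℕ)
    (hk : k = 20 * r.val + (s + 10).toNat) :
    stOf (c ^^^ (3 <<< k)) = tog (r, s + 1) (tog (r, s) (stOf c)) := by
  have hne : ((r, s + 1) : Site) ≠ (r, s) := by
    intro h
    have := (Prod.mk.inj h).2
    omega
  have hk1 : k + 1 = 20 * r.val + (s + 1 + 10).toNat := by omega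
  ext ⟨r', s'⟩
  rw [mem_stOf, mem_tog'_qX_stOf_up, mem_tog'_qX_stOf_up, if_neg hne, mem_tog'_qX_stOf_up]
  by_cases e1 : ((r', s') : Site) = (r, s + 1)
  · rw [if_pos e1]
    obtain ⟨rfl, rfl⟩ := Prod.mk.inj e1
    rw [mem_stOf, ← hk1, Nat.testBit_xor, tb3'_qX_stOf_up]
    have e2 : decide (k + 1 = k ∨ k + 1 = k + 1) = true := by simp
    rw [e2]
    constructor
    · rintro ⟨-, -, h⟩ ⟨-, -, h'⟩
      rw [h'] at h
      simp at h
    · intro h
      refine ⟨by omega, by omega, ?_⟩
      have : c.testBit (k + 1) = false := by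
        by_contra h3
        exact h ⟨by omega, by omega, by simpa using h3⟩
      rw [this]; rfl
  · rw [if_neg e1]
    by_cases e2 : ((r', s') : Site) = (r, s)
    · rw [if_pos e2]
      obtain ⟨rfl, rfl⟩ := Prod.mk.inj e2
      rw [mem_stOf, ← hk, Nat.testBit_xor, tb3'_qX_stOf_up]
      have e2 : decide (k = k ∨ k = k + 1) = true := by simp
      rw [e2]
      constructor
      · rintro ⟨-, -, h⟩ ⟨-, -, h'⟩
        rw [h'] at h
        simp at h
      · intro h
        refine ⟨by omega, by omega, ?_⟩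
        have : c.testBit k = false := by
          by_contra h3
          exact h ⟨by omega, by omega, by simpa using h3⟩
        rw [this]; rfl
    · rw [if_neg e2, mem_stOf]
      apply and_congr_right
      intro h3
      apply and_congr_right
      intro h4
      have e3 : ¬ (20 * r'.val + (s' + 10).toNat = k ∨ 20 * r'.val + (s' + 10).toNat = k + 1) := by
        rintro (h | h)
        · apply e2
          have h5 : r'.val = r.val := by omega
          have h6 : s' = s := by omega
          rw [Fin.ext h5, h6]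
        · apply e1
          have h5 : r'.val = r.val := by omega
          have h6 : s' = s + 1 := by omega
          rw [Fin.ext h5, h6]
      rw [Nat.testBit_xor, tb3'_qX_stOf_up, decide_eq_false e3, Bool.xor_false]

/-- one move upwards on a coded state -/
theorem X_stOf_up (c : ℕ) (r : Fin 3) (s : ℤ) (h1 : -10 ≤ s) (h2 : s ≤ 8) (k : ℕ)
    (hk : k = 20 * r.val + (s + 10).toNat) :
    X (sh 1 (r, s)) (r, s) (ket (stOf c)) =
      if (c >>> k) % 4 = patF k then ((sgnK k : ℤ) : ℂ) • ket (stOf (c ^^^ (3 <<< k))) else 0 := by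
  have hk1 : k + 1 = 20 * r.val + (s + 1 + 10).toNat := by omega
  have hm0 : (r, s) ∈ stOf c ↔ Nat.testBit c k = true := by
    rw [mem_stOf, ← hk]
    exact ⟨fun h => h.2.2, fun h => ⟨h1, by omega, h⟩⟩
  have hm1 : (r, s + 1) ∈ stOf c ↔ Nat.testBit c (k + 1) = true := by
    rw [mem_stOf, ← hk1]
    exact ⟨fun h => h.2.2, fun h => ⟨by omega, by omega, h⟩⟩
  show X (r, s + 1) (r, s) (ket (stOf c)) = _
  rw [X_up'_qX_stOf_up, stOf_xor'_qX_stOf_up c r s h1 h2 k hk, sh4'_qX_stOf_up]
  have ho0 : occ (stOf c) (r, s) ↔ if s < 0 then ¬ Nat.testBit c k = true else Nat.testBit c k = true := by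
    unfold occ
    rw [hm0]
  have ho1 : occ (stOf c) (r, s + 1) ↔
      if s + 1 < 0 then ¬ Nat.testBit c (k + 1) = true else Nat.testBit c (k + 1) = true := by
    unfold occ
    rw [hm1]
  have hmod : k % 20 = (s + 10).toNat := by omega
  simp only [ho0, ho1, hm0]
  unfold patF sgnK
  rw [hmod]
  rcases lt_trichotomy s (-1) with h | h | h
  · have a1 : s < 0 := by omega
    have a2 : s + 1 < 0 := by omega
    have a3 : (s + 10).toNat < 9 := by omega
    have a4 : (s + 10).toNat < 10 := by omega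
    simp only [a1, a2, a3, a4, if_true]
    cases hb0 : Nat.testBit c k <;> cases hb1 : Nat.testBit c (k + 1) <;> simp
  · subst h
    have a1 : (-1 : ℤ) < 0 := by omega
    have a2 : ¬ ((-1 : ℤ) + 1 < 0) := by omega
    have a3 : ¬ (((-1 : ℤ) + 10).toNat < 9) := by omega
    have a4 : ((-1 : ℤ) + 10).toNat < 10 := by omega
    have a5 : ((-1 : ℤ) + 10).toNat = 9 := by omega
    simp only [a1, a2, a3, a4, a5, if_true, if_false]
    cases hb0 : Nat.testBit c k <;> cases hb1 : Nat.testBit c (k + 1) <;> simp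
  · have a1 : ¬ (s < 0) := by omega
    have a2 : ¬ (s + 1 < 0) := by omega
    have a3 : ¬ ((s + 10).toNat < 9) := by omega
    have a4 : ¬ ((s + 10).toNat < 10) := by omega
    have a5 : ¬ ((s + 10).toNat = 9) := by omega
    simp only [a1, a2, a3, a4, a5, if_false]
    cases hb0 : Nat.testBit c k <;> cases hb1 : Nat.testBit c (k + 1) <;> simp

end Pool.Agent.Helper840.AE
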