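import Pool.Agent.Helper840.AE.FockDefs
import Pool.Agent.Helper840.AE.CertDefs

set_option autoImplicit false

namespace Pool.Agent.Helper840.AE

theorem vecOf_nil_qvecOf_mrg : vecOf [] = 0 := by
  unfold vecOf
  simp

theorem vecOf_cons_qvecOf_mrg (p : ℕ × ℤ) (l : List (ℕ × ℤ)) :
    vecOf (p :: l) = (p.2 : ℂ) • ket (stOf p.1) + vecOf l := by
  unfold vecOf
  rw [List.map_cons, List.sum_cons]

theorem vecOf_append_qvecOf_mrg (a b : List (ℕ × ℤ)) : vecOf (a ++ b) = vecOf a + vecOf b := by
  unfold vecOf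
  rw [List.map_append, List.sum_append]

theorem vecOf_mrg (n : ℕ) (a b : List (ℕ × ℤ)) : vecOf (mrg n a b) = vecOf a + vecOf b := by
  induction n generalizing a b with
  | zero =>
    rw [mrg]
    exact vecOf_append_qvecOf_mrg a b
  | succ n ih =>
    rcases a with _ | ⟨⟨c, x⟩, a⟩
    · rw [mrg, vecOf_nil_qvecOf_mrg, zero_add]
    · rcases b with _ | ⟨⟨c', x'⟩, b⟩
      · rw [mrg, vecOf_nil_qvecOf_mrg, add_zero]
        simp
      · rw [mrg]
        split_ifs with h1 h2
        · rw [vecOf_cons_qvecOf_mrg, ih, vecOf_cons_qvecOf_mrg (c, x) a]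
          abel
        · rw [vecOf_cons_qvecOf_mrg, ih, vecOf_cons_qvecOf_mrg (c', x') b]
          abel
        · have h3 : c = c' := le_antisymm (not_lt.1 h2) (not_lt.1 h1)
          subst h3
          rw [vecOf_cons_qvecOf_mrg, ih, vecOf_cons_qvecOf_mrg (c, x) a, vecOf_cons_qvecOf_mrg (c, x') b]
          push_cast
          rw [add_smul]
          abel

end Pool.Agent.Helper840.AE
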