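import Pool.Agent.Helper840.AE.FockDefs
import Pool.Agent.Helper840.AE.CertDefs
import Pool.Agent.Helper840.AE.P_S_apply
import Pool.Agent.Helper840.AE.P_X_box
import Pool.Agent.Helper840.AE.P_X_stOf_up
import Pool.Agent.Helper840.AE.P_mem_stOf
import Pool.Agent.Helper840.AE.P_vecOf_mrg

set_option autoImplicit false

namespace Pool.Agent.Helper840.AE

/-- the term of a coded move -/
noncomputable def cFterm_qcF_vec (c k : ℕ) : Fk :=
  if (c >>> k) % 4 = patF k then ((sgnK k : ℤ) : ℂ) • ket (stOf (c ^^^ (3 <<< k))) else 0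

theorem cF_bd_qcF_vec (c : ℕ) : bd (stOf c) ≤ 10 := by
  unfold bd
  refine Finset.sup_le ?_
  rintro ⟨r, s⟩ hi
  rw [mem_stOf] at hi
  obtain ⟨h1, h2, -⟩ := hi
  simp only
  omega

theorem cF_ann_ket_qcF_vec (j : Site) (D : Finset Site) :
    ann j (ket D) = if occ D j then ((-1 : ℂ) ^ cnt j D) • ket (tog j D) else 0 := by
  unfold ann
  rw [ket, Finsupp.linearCombination_single, one_smul]

theorem cF_cre_ket_qcF_vec (j : Site) (D : Finset Site) :
    cre j (ket D) = if occ D j then 0 else ((-1 : ℂ) ^ cnt j D) • ket (tog j D) := by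
  unfold cre
  rw [ket, Finsupp.linearCombination_single, one_smul]

theorem cF_okC_qcF_vec (c : ℕ) (h : okC c = true) (r : Fin 3) :
    Nat.testBit c (20 * r.val) = false ∧ Nat.testBit c (20 * r.val + 19) = false := by
  unfold okC at h
  rw [Bool.and_eq_true] at h
  obtain ⟨-, h2⟩ := h
  rw [beq_iff_eq] at h2
  have key : ∀ k : ℕ, Nat.testBit (c &&& (1 + 2 ^ 19 + 2 ^ 20 + 2 ^ 39 + 2 ^ 40 + 2 ^ 59)) k = false := by
    intro k
    rw [h2]
    exact Nat.zero_testBit k
  have h0 := key 0
  have h19 := key 19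
  have h20 := key 20
  have h39 := key 39
  have h40 := key 40
  have h59 := key 59
  rw [Nat.testBit_and] at h0 h19 h20 h39 h40 h59
  have e0 : Nat.testBit (1 + 2 ^ 19 + 2 ^ 20 + 2 ^ 39 + 2 ^ 40 + 2 ^ 59) 0 = true := by decide
  have e19 : Nat.testBit (1 + 2 ^ 19 + 2 ^ 20 + 2 ^ 39 + 2 ^ 40 + 2 ^ 59) 19 = true := by decide
  have e20 : Nat.testBit (1 + 2 ^ 19 + 2 ^ 20 + 2 ^ 39 + 2 ^ 40 + 2 ^ 59) 20 = true := by decide
  have e39 : Nat.testBit (1 + 2 ^ 19 + 2 ^ 20 + 2 ^ 39 + 2 ^ 40 + 2 ^ 59) 39 = true := by decide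
  have e40 : Nat.testBit (1 + 2 ^ 19 + 2 ^ 20 + 2 ^ 39 + 2 ^ 40 + 2 ^ 59) 40 = true := by decide
  have e59 : Nat.testBit (1 + 2 ^ 19 + 2 ^ 20 + 2 ^ 39 + 2 ^ 40 + 2 ^ 59) 59 = true := by decide
  rw [e0, Bool.and_true] at h0
  rw [e19, Bool.and_true] at h19
  rw [e20, Bool.and_true] at h20
  rw [e39, Bool.and_true] at h39
  rw [e40, Bool.and_true] at h40
  rw [e59, Bool.and_true] at h59
  fin_cases r
  · exact ⟨h0, h19⟩
  · exact ⟨h20, h39⟩
  · exact ⟨h40, h59⟩

theorem cF_low_qcF_vec (c : ℕ) (h : okC c = true) (r : Fin 3) (s : ℤ) (hs : s = -11) :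
    X (sh 1 (r, s)) (r, s) (ket (stOf c)) = 0 := by
  subst hs
  unfold X
  rw [Module.End.mul_apply, cF_ann_ket_qcF_vec]
  have hocc : occ (stOf c) (r, -11) := by
    unfold occ
    rw [if_pos (by norm_num)]
    rw [mem_stOf]
    omega
  rw [if_pos hocc, map_smul, cF_cre_ket_qcF_vec]
  have h10 : (r, (-10 : ℤ)) ∉ stOf c := by
    rw [mem_stOf]
    rintro ⟨-, -, h3⟩
    have := (cF_okC_qcF_vec c h r).1
    have e : ((-10 : ℤ) + 10).toNat = 0 := by norm_num
    rw [e, add_zero, this] at h3
    exact Bool.noConfusion h3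
  have h11 : (r, (-11 : ℤ)) ∉ stOf c := by
    rw [mem_stOf]
    omega
  have hsh : sh 1 ((r, -11) : Site) = (r, (-10 : ℤ)) := by
    unfold sh
    norm_num
  rw [hsh]
  have hocc2 : occ (tog (r, -11) (stOf c)) (r, -10) := by
    unfold occ
    rw [if_pos (by norm_num)]
    unfold tog
    rw [if_neg h11, Finset.mem_insert]
    rintro (h | h)
    · have := congrArg Prod.snd h
      norm_num at this
    · exact h10 h
  rw [if_pos hocc2, smul_zero]

theorem cF_high_qcF_vec (c : ℕ) (h : okC c = true) (r : Fin 3) (s : ℤ) (hs : 9 ≤ s) :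
    X (sh 1 (r, s)) (r, s) (ket (stOf c)) = 0 := by
  unfold X
  rw [Module.End.mul_apply, cF_ann_ket_qcF_vec]
  have hocc : ¬ occ (stOf c) (r, s) := by
    unfold occ
    rw [if_neg (by simp only; omega)]
    rw [mem_stOf]
    rintro ⟨-, h2, h3⟩
    have hs9 : s = 9 := le_antisymm h2 hs
    subst hs9
    have := (cF_okC_qcF_vec c h r).2
    have e : ((9 : ℤ) + 10).toNat = 19 := by decide
    rw [e, this] at h3
    exact Bool.noConfusion h3
  rw [if_neg hocc, map_zero]

/-- the operator on one coded state -/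
theorem cF_one_qcF_vec (i : Fin 2) (c : ℕ) (h : okC c = true) :
    opF i (ket (stOf c)) = ((ksOf i).map (fun k => cFterm_qcF_vec c k)).sum := by
  have hmid : ∀ (r : Fin 3) (s : ℤ), -10 ≤ s → s ≤ 8 →
      X (sh 1 (r, s)) (r, s) (ket (stOf c)) = cFterm_qcF_vec c (20 * r.val + (s + 10).toNat) := by
    intro r s h1 h2
    rw [X_stOf_up c r s h1 h2 _ rfl]
    rfl
  have hS : ∀ g : Site → ℂ, S 1 g (ket (stOf c)) =
      ∑ r : Fin 3, ∑ s ∈ Finset.Icc (-11 : ℤ) 11, g (r, s) • X (sh 1 (r, s)) (r, s) (ket (stOf c)) := by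
    intro g
    rw [S_apply 1 one_ne_zero g (ket (stOf c)) 11]
    · unfold box
      rw [Finset.sum_product]
      norm_num
    · intro D hD
      have : D = stOf c := by
        unfold ket at hD
        have := Finsupp.support_single_subset hD
        simpa using this
      rw [this]
      have := cF_bd_qcF_vec c
      norm_num
      omega
  fin_cases i
  · have h0 : opF (0 : Fin 2) = S 1 pev := by
      unfold opF
      exact if_pos rfl
    show opF (0 : Fin 2) (ket (stOf c)) = _
    rw [h0, hS]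
    have hin : ∀ r : Fin 3, ∑ s ∈ Finset.Icc (-11 : ℤ) 11,
        pev (r, s) • X (sh 1 (r, s)) (r, s) (ket (stOf c)) =
        ∑ s ∈ ({-10, -8, -6, -4, -2, 0, 2, 4, 6, 8} : Finset ℤ),
          cFterm_qcF_vec c (20 * r.val + (s + 10).toNat) := by
      intro r
      have hsub : ({-10, -8, -6, -4, -2, 0, 2, 4, 6, 8} : Finset ℤ) ⊆ Finset.Icc (-11 : ℤ) 11 := by
        decide
      rw [← Finset.sum_subset hsub]
      · apply Finset.sum_congr rfl
        intro s hs
        have hev : s % 2 = 0 ∧ -10 ≤ s ∧ s ≤ 8 := by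
          simp only [Finset.mem_insert, Finset.mem_singleton] at hs
          omega
        rw [hmid r s hev.2.1 hev.2.2]
        unfold pev
        rw [if_pos hev.1, one_smul]
      · intro s hs hns
        rw [Finset.mem_Icc] at hs
        simp only [Finset.mem_insert, Finset.mem_singleton, not_or] at hns
        rcases (by omega : s = -11 ∨ 9 ≤ s ∨ s % 2 ≠ 0) with h1 | h1 | h1
        · rw [cF_low_qcF_vec c h r s h1, smul_zero]
        · rw [cF_high_qcF_vec c h r s h1, smul_zero]
        · unfold pev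
          rw [if_neg h1, zero_smul]
    rw [Finset.sum_congr rfl (fun r _ => hin r)]
    rw [Fin.sum_univ_three]
    show _ = ((ksOf 0).map (fun k => cFterm_qcF_vec c k)).sum
    have hks : ksOf 0 = [0, 2, 4, 6, 8, 10, 12, 14, 16, 18, 20, 22, 24, 26, 28, 30, 32, 34, 36, 38,
      40, 42, 44, 46, 48, 50, 52, 54, 56, 58] := rfl
    rw [hks]
    generalize cFterm_qcF_vec c = T
    have hexp : ∀ f : ℤ → Fk, ∑ s ∈ ({-10, -8, -6, -4, -2, 0, 2, 4, 6, 8} : Finset ℤ), f s =
        f (-10) + (f (-8) + (f (-6) + (f (-4) + (f (-2) + (f 0 + (f 2 + (f 4 + (f 6 + f 8)))))))) := by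
      intro f
      rw [Finset.sum_insert (by decide), Finset.sum_insert (by decide), Finset.sum_insert (by decide),
        Finset.sum_insert (by decide), Finset.sum_insert (by decide), Finset.sum_insert (by decide),
        Finset.sum_insert (by decide), Finset.sum_insert (by decide), Finset.sum_insert (by decide),
        Finset.sum_singleton]
    rw [hexp, hexp, hexp]
    simp only [List.map_cons, List.map_nil, List.sum_cons, List.sum_nil, add_zero, add_assoc]
    rfl
  · have h0 : opF (1 : Fin 2) = S 1 podd := by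
      unfold opF
      exact if_neg (by decide)
    show opF (1 : Fin 2) (ket (stOf c)) = _
    rw [h0, hS]
    have hin : ∀ r : Fin 3, ∑ s ∈ Finset.Icc (-11 : ℤ) 11,
        podd (r, s) • X (sh 1 (r, s)) (r, s) (ket (stOf c)) =
        ∑ s ∈ ({-9, -7, -5, -3, -1, 1, 3, 5, 7} : Finset ℤ),
          cFterm_qcF_vec c (20 * r.val + (s + 10).toNat) := by
      intro r
      have hsub : ({-9, -7, -5, -3, -1, 1, 3, 5, 7} : Finset ℤ) ⊆ Finset.Icc (-11 : ℤ) 11 := by
        decide
      rw [← Finset.sum_subset hsub]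
      · apply Finset.sum_congr rfl
        intro s hs
        have hev : s % 2 = 1 ∧ -10 ≤ s ∧ s ≤ 8 := by
          simp only [Finset.mem_insert, Finset.mem_singleton] at hs
          omega
        rw [hmid r s hev.2.1 hev.2.2]
        unfold podd
        rw [if_pos hev.1, one_smul]
      · intro s hs hns
        rw [Finset.mem_Icc] at hs
        simp only [Finset.mem_insert, Finset.mem_singleton, not_or] at hns
        rcases (by omega : s = -11 ∨ 9 ≤ s ∨ s % 2 ≠ 1) with h1 | h1 | h1
        · rw [cF_low_qcF_vec c h r s h1, smul_zero]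
        · rw [cF_high_qcF_vec c h r s h1, smul_zero]
        · unfold podd
          rw [if_neg h1, zero_smul]
    rw [Finset.sum_congr rfl (fun r _ => hin r)]
    rw [Fin.sum_univ_three]
    show _ = ((ksOf 1).map (fun k => cFterm_qcF_vec c k)).sum
    have hks : ksOf 1 = [1, 3, 5, 7, 9, 11, 13, 15, 17, 21, 23, 25, 27, 29, 31, 33, 35, 37,
      41, 43, 45, 47, 49, 51, 53, 55, 57] := rfl
    rw [hks]
    generalize cFterm_qcF_vec c = T
    have hexp : ∀ f : ℤ → Fk, ∑ s ∈ ({-9, -7, -5, -3, -1, 1, 3, 5, 7} : Finset ℤ), f s =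
        f (-9) + (f (-7) + (f (-5) + (f (-3) + (f (-1) + (f 1 + (f 3 + (f 5 + f 7))))))) := by
      intro f
      rw [Finset.sum_insert (by decide), Finset.sum_insert (by decide), Finset.sum_insert (by decide),
        Finset.sum_insert (by decide), Finset.sum_insert (by decide), Finset.sum_insert (by decide),
        Finset.sum_insert (by decide), Finset.sum_insert (by decide),
        Finset.sum_singleton]
    rw [hexp, hexp, hexp]
    simp only [List.map_cons, List.map_nil, List.sum_cons, List.sum_nil, add_zero, add_assoc]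
    rfl

theorem vecOf_nil'_qcF_vec : vecOf [] = 0 := by
  unfold vecOf
  rw [List.map_nil, List.sum_nil]

theorem vecOf_cons'_qcF_vec (p : ℕ × ℤ) (l : List (ℕ × ℤ)) :
    vecOf (p :: l) = (p.2 : ℂ) • ket (stOf p.1) + vecOf l := by
  unfold vecOf
  rw [List.map_cons, List.sum_cons]

theorem vecOf_mvK_qcF_vec (k : ℕ) (l : List (ℕ × ℤ)) :
    vecOf (mvK patF k l) = (l.map (fun p => (p.2 : ℂ) • cFterm_qcF_vec p.1 k)).sum := by
  induction l with
  | nil => 
    rw [List.map_nil, List.sum_nil]
    show vecOf [] = 0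
    exact vecOf_nil'_qcF_vec
  | cons p l ih =>
    obtain ⟨c, x⟩ := p
    rw [List.map_cons, List.sum_cons, ← ih]
    have hm : mvK patF k ((c, x) :: l) = if (c >>> k) % 4 = patF k then
      (c ^^^ (3 <<< k), sgnK k * x) :: mvK patF k l else mvK patF k l := rfl
    rw [hm]
    unfold cFterm_qcF_vec
    simp only
    by_cases hc : (c >>> k) % 4 = patF k
    · rw [if_pos hc, if_pos hc, vecOf_cons'_qcF_vec]
      simp only
      rw [smul_smul]
      congr 2
      push_cast
      ring
    · rw [if_neg hc, if_neg hc, smul_zero, zero_add]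

theorem vecOf_mvL_qcF_vec (l : List (ℕ × ℤ)) (ks : List ℕ) :
    vecOf (mvL patF l ks) =
      (l.map (fun p => (p.2 : ℂ) • (ks.map (fun k => cFterm_qcF_vec p.1 k)).sum)).sum := by
  induction ks with
  | nil =>
    have : vecOf (mvL patF l []) = 0 := vecOf_nil'_qcF_vec
    rw [this]
    symm
    apply List.sum_eq_zero
    intro x hx
    rw [List.mem_map] at hx
    obtain ⟨p, -, rfl⟩ := hx
    rw [List.map_nil, List.sum_nil, smul_zero]
  | cons k ks ih =>
    have : mvL patF l (k :: ks) = mrg 4000 (mvK patF k l) (mvL patF l ks) := rfl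
    rw [this, vecOf_mrg, ih, vecOf_mvK_qcF_vec, ← List.sum_map_add]
    congr 1
    apply List.map_congr_left
    intro p _
    rw [List.map_cons, List.sum_cons, smul_add]

theorem cF_vec (i : Fin 2) (l : List (ℕ × ℤ)) (h : l.all (fun p => okC p.1) = true) :
    opF i (vecOf l) = vecOf (cF i l) := by
  unfold cF
  rw [vecOf_mvL_qcF_vec]
  induction l with
  | nil => 
    rw [vecOf_nil'_qcF_vec, map_zero, List.map_nil, List.sum_nil]
  | cons p l ih =>
    rw [List.all_cons, Bool.and_eq_true] at h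
    rw [vecOf_cons'_qcF_vec, map_add, map_smul, ih h.2, cF_one_qcF_vec i p.1 h.1, List.map_cons, List.sum_cons]

end Pool.Agent.Helper840.AE
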