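import Pool.Agent.Helper840.AE.FockDefs
import Pool.Agent.Helper840.AE.CertDefs
import Pool.Agent.Helper840.AE.P_cF_vec

set_option autoImplicit false

namespace Pool.Agent.Helper840.AE

theorem FW_vec_DN0_qFW_vec : DN 0 = ∅ := by
  unfold DN
  have h : (Finset.Icc (1 : ℤ) ((0 : ℕ) : ℤ)) = ∅ := by
    apply Finset.Icc_eq_empty
    norm_num
  rw [h]
  simp

theorem FW_vec_st0_qFW_vec : stOf 0 = ∅ := by
  unfold stOf
  apply Finset.filter_eq_empty_iff.2
  intro i _ hi
  rw [Nat.zero_testBit] at hi
  exact absurd hi.2 (by decide)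

theorem FW_vec (J : List (Fin 2)) (h : okW J = true) : FW J (zN 0) = vecOf (wvec J) := by
  induction J with
  | nil =>
    have h1 : FW [] = 1 := rfl
    have h2 : wvec [] = [(0, 1)] := rfl
    rw [h1, h2]
    unfold zN vecOf
    rw [FW_vec_DN0_qFW_vec]
    simp only [List.map_cons, List.map_nil, List.sum_cons, List.sum_nil, FW_vec_st0_qFW_vec, add_zero,
      Int.cast_one, one_smul]
    rfl
  | cons i J ih =>
    have h1 : FW (i :: J) = opF i * FW J := by
      unfold FW
      rw [List.map_cons, List.prod_cons]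
    have h2 : wvec (i :: J) = cF i (wvec J) := rfl
    have h3 : okW J = true ∧ (wvec J).all (fun p => okC p.1) = true := by
      have h' : (okW J && (wvec J).all (fun p => okC p.1)) = true := h
      rw [Bool.and_eq_true] at h'
      exact h'
    rw [h1, h2, ← cF_vec i _ h3.2, ← ih h3.1]
    rfl

end Pool.Agent.Helper840.AE
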