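import Pool.Agent.Helper840.AE.FockDefs
import Pool.Agent.Helper840.AE.CertDefs
import Pool.Agent.Helper840.AE.P_mem_stOf

set_option autoImplicit false

namespace Pool.Agent.Helper840.AE

theorem hv_list_sum_qH_vec (f : ℕ → ℤ) (n : ℕ) :
    ((List.range n).map f).sum = ∑ k ∈ Finset.range n, f k := by
  induction n with
  | zero => simp
  | succ n ih => rw [List.range_succ, List.map_append, List.sum_append, ih, Finset.sum_range_succ]
                 simp

/-- the value of the diagonal operator on a coded state -/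
noncomputable def hvSv_qH_vec (w : Site → ℂ) (c : ℕ) : ℂ :=
  ∑ i ∈ stOf c, (if i.2 < 0 then - w i else w i)

theorem hvSv_eq_qH_vec (w : Site → ℂ) (v : ℕ → ℤ)
    (hv : ∀ r : Fin 3, ∀ t : ℕ, t < 20 →
      (if ((t : ℤ) - 10) < 0 then - w (r, (t : ℤ) - 10) else w (r, (t : ℤ) - 10)) =
        ((v (20 * r.val + t) : ℤ) : ℂ)) (c : ℕ) :
    hvSv_qH_vec w c = ((((List.range 60).map (fun k => if c.testBit k then v k else 0)).sum : ℤ) : ℂ) := by
  rw [hv_list_sum_qH_vec, ← Finset.sum_filter, Int.cast_sum]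
  unfold hvSv_qH_vec
  apply Finset.sum_nbij (fun i : Site => 20 * i.1.val + (i.2 + 10).toNat)
  · rintro ⟨r, s⟩ hi
    rw [mem_stOf] at hi
    obtain ⟨h1, h2, h3⟩ := hi
    rw [Finset.mem_filter, Finset.mem_range]
    refine ⟨?_, h3⟩
    have := r.isLt
    show 20 * r.val + (s + 10).toNat < 60
    omega
  · rintro ⟨r, s⟩ hi ⟨r', s'⟩ hi' heq
    have hi := (mem_stOf c r s).1 hi
    have hi' := (mem_stOf c r' s').1 hi'
    obtain ⟨h1, h2, -⟩ := hi
    obtain ⟨h1', h2', -⟩ := hi'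
    have heq' : 20 * r.val + (s + 10).toNat = 20 * r'.val + (s' + 10).toNat := heq
    have hr : r.val = r'.val := by omega
    have hs : s = s' := by omega
    rw [Fin.ext hr, hs]
  · intro k hk
    have hk' := Finset.mem_filter.1 (Finset.mem_coe.1 hk)
    obtain ⟨h1, h2⟩ := hk'
    rw [Finset.mem_range] at h1
    have hlt : k / 20 < 3 := by omega
    have hkk : 20 * (k / 20) + (((k % 20 : ℕ) : ℤ) - 10 + 10).toNat = k := by omega
    refine ⟨(⟨k / 20, hlt⟩, ((k % 20 : ℕ) : ℤ) - 10), ?_, ?_⟩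
    · rw [Finset.mem_coe, mem_stOf]
      refine ⟨by omega, by omega, ?_⟩
      show Nat.testBit c (20 * (k / 20) + (((k % 20 : ℕ) : ℤ) - 10 + 10).toNat) = true
      rw [hkk]
      exact h2
    · exact hkk
  · rintro ⟨r, s⟩ hi
    rw [mem_stOf] at hi
    obtain ⟨h1, h2, h3⟩ := hi
    obtain ⟨t, ht⟩ := Int.eq_ofNat_of_zero_le (by omega : 0 ≤ s + 10)
    have hs : s = (t : ℤ) - 10 := by omega
    have ht2 : (s + 10).toNat = t := by omega
    have h := hv r t (by omega)
    show (if s < 0 then - w (r, s) else w (r, s)) = ((v (20 * r.val + (s + 10).toNat) : ℤ) : ℂ)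
    rw [ht2, hs]
    exact h

theorem hvSv_neg_qH_vec (w : Site → ℂ) (c : ℕ) : hvSv_qH_vec (fun j => - w j) c = - hvSv_qH_vec w c := by
  unfold hvSv_qH_vec
  rw [← Finset.sum_neg_distrib]
  apply Finset.sum_congr rfl
  intro i _
  split_ifs <;> rfl

theorem hvSv_chi_qH_vec (c : ℕ) : hvSv_qH_vec chi c = ((hval c : ℤ) : ℂ) := by
  unfold hval
  apply hvSv_eq_qH_vec chi (fun k => (if k % 20 < 10 then (if k % 2 = 1 then -1 else 1)
    else (if k % 2 = 1 then 1 else -1)))
  intro r t ht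
  have h1 : (20 * r.val + t) % 20 = t := by omega
  have h2 : (20 * r.val + t) % 2 = t % 2 := by omega
  simp only [h1, h2, chi]
  split_ifs <;> first | (exfalso; omega) | simp

theorem hvSv_wd_qH_vec (c : ℕ) : hvSv_qH_vec wd c = ((dval c : ℤ) : ℂ) := by
  unfold dval
  apply hvSv_eq_qH_vec wd (fun k => (if k % 20 < 10 then (((k % 20 : ℕ) : ℤ) - 9) / 2
    else -((((k % 20 : ℕ) : ℤ) - 9) / 2)))
  intro r t ht
  have h1 : (20 * r.val + t) % 20 = t := by omega
  simp only [h1, wd]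
  have h2 : (t : ℤ) - 10 + 1 = (t : ℤ) - 9 := by ring
  rw [h2]
  split_ifs
  · rw [neg_neg]
  · exfalso; omega
  · exfalso; omega
  · rw [Int.cast_neg]

theorem hv_Dg_ket_qH_vec (w : Site → ℂ) (D : Finset Site) :
    Dg w (ket D) = (∑ i ∈ D, (if i.2 < 0 then - w i else w i)) • ket D := by
  unfold Dg ket
  rw [Finsupp.linearCombination_single, one_smul]

theorem hv_Dg_vec_qH_vec (w : Site → ℂ) (a : ℂ) (l : List (ℕ × ℤ)) (h : ∀ p ∈ l, hvSv_qH_vec w p.1 = a) :
    Dg w (vecOf l) = a • vecOf l := by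
  induction l with
  | nil => simp [vecOf]
  | cons p l ih =>
    have h1 : vecOf (p :: l) = (p.2 : ℂ) • ket (stOf p.1) + vecOf l := by
      simp [vecOf]
    rw [h1, map_add, map_smul, hv_Dg_ket_qH_vec, ih (fun p hp => h p (List.mem_cons_of_mem _ hp))]
    have h2 := h p List.mem_cons_self
    unfold hvSv_qH_vec at h2
    rw [h2, smul_add, smul_comm]

theorem H_vec (l : List (ℕ × ℤ)) (a b : ℤ) (h : l.all (fun p => okC p.1) = true)
    (ha : l.all (fun p => hval p.1 == a) = true) (hb : l.all (fun p => dval p.1 == b) = true) :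
    opH 0 (vecOf l) = ((-a : ℤ) : ℂ) • vecOf l ∧ opH 1 (vecOf l) = ((a + 3 : ℤ) : ℂ) • vecOf l ∧
      opD 0 (vecOf l) = (b : ℂ) • vecOf l := by
  have ha' : ∀ p ∈ l, hval p.1 = a := by
    intro p hp
    have := List.all_eq_true.1 ha p hp
    simpa using this
  have hb' : ∀ p ∈ l, dval p.1 = b := by
    intro p hp
    have := List.all_eq_true.1 hb p hp
    simpa using this
  refine ⟨?_, ?_, ?_⟩
  · have h1 : opH 0 = Dg (fun j => - chi j) := by
      unfold opH
      rw [if_pos rfl]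
    rw [h1, hv_Dg_vec_qH_vec _ ((-a : ℤ) : ℂ)]
    intro p hp
    rw [hvSv_neg_qH_vec, hvSv_chi_qH_vec, ha' p hp, Int.cast_neg]
  · have h1 : opH 1 = Dg chi + (3 : ℂ) • 1 := by
      unfold opH
      rw [if_neg (by decide)]
    rw [h1, LinearMap.add_apply, hv_Dg_vec_qH_vec chi (a : ℂ) l (fun p hp => by rw [hvSv_chi_qH_vec, ha' p hp])]
    rw [LinearMap.smul_apply, Module.End.one_apply, ← add_smul]
    push_cast
    rfl
  · have h1 : opD 0 = Dg wd := by
      unfold opD
      rw [zero_smul, add_zero]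
    rw [h1, hv_Dg_vec_qH_vec wd (b : ℂ) l (fun p hp => by rw [hvSv_wd_qH_vec, hb' p hp])]

end Pool.Agent.Helper840.AE
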