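import Pool.Agent.Helper840.AE.FockDefs
import Pool.Agent.Helper840.AE.CertDefs

set_option autoImplicit false

namespace Pool.Agent.Helper840.AE

theorem IntV_vec (l : List (ℕ × ℤ)) (h : l.all (fun p => okC p.1) = true) : IntV (vecOf l) := by
  clear h
  induction l with
  | nil =>
    intro D
    exact ⟨0, by simp [vecOf]⟩
  | cons p l ih =>
    intro D
    obtain ⟨n, hn⟩ := ih D
    have h1 : vecOf (p :: l) = (p.2 : ℂ) • ket (stOf p.1) + vecOf l := by
      simp [vecOf]
    by_cases hD : stOf p.1 = D
    · refine ⟨p.2 + n, ?_⟩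
      rw [h1, Finsupp.add_apply, hn, Finsupp.smul_apply, ket, hD, Finsupp.single_eq_same]
      push_cast
      simp
    · refine ⟨n, ?_⟩
      rw [h1, Finsupp.add_apply, hn, Finsupp.smul_apply, ket, Finsupp.single_eq_of_ne (Ne.symm hD)]
      simp

end Pool.Agent.Helper840.AE
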