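import Pool.Agent.Helper840.AE.FockDefs
import Pool.Agent.Helper840.AE.CertDefs
import Pool.Agent.Helper840.AE.P_X_ket
import Pool.Agent.Helper840.AE.P_mem_stOf

set_option autoImplicit false

namespace Pool.Agent.Helper840.AE

theorem X_stOf_dn_mem_tog_qX_stOf_dn (i x : Site) (D : Finset Site) : x ∈ tog i D ↔ ¬ (x = i ↔ x ∈ D) := by
  unfold tog
  by_cases hx : x = i
  · subst hx
    split_ifs with h
    · simp [h]
    · simp [h]
  · split_ifs with h
    · simp [hx]
    · simp [hx]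

theorem X_stOf_dn_ann_qX_stOf_dn (j : Site) (D : Finset Site) :
    ann j (ket D) = if occ D j then ((-1 : ℂ) ^ cnt j D) • ket (tog j D) else 0 := by
  unfold ann ket
  rw [Finsupp.linearCombination_single, one_smul]

theorem X_stOf_dn_cre_qX_stOf_dn (j : Site) (D : Finset Site) :
    cre j (ket D) = if occ D j then 0 else ((-1 : ℂ) ^ cnt j D) • ket (tog j D) := by
  unfold cre ket
  rw [Finsupp.linearCombination_single, one_smul]

theorem X_stOf_dn_cnt_qX_stOf_dn (r : Fin 3) (s : ℤ) (D : Finset Site) :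
    cnt (r, s + 1) D = cnt (r, s) D + if (r, s) ∈ D then 1 else 0 := by
  unfold cnt
  rw [Finset.card_filter, Finset.card_filter, ← Finset.sum_ite_eq' D (r, s) (fun _ => 1),
    ← Finset.sum_add_distrib]
  apply Finset.sum_congr rfl
  rintro ⟨a, b⟩ _
  simp only [Prod.mk.injEq]
  by_cases h1 : a < r
  · have : a ≠ r := ne_of_lt h1
    simp [h1, this]
  · by_cases h2 : a = r
    · subst h2
      simp only [lt_self_iff_false, true_and, false_or]
      by_cases h3 : b < s
      · have h4 : b < s + 1 := by omega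
        have h5 : b ≠ s := by omega
        simp [h3, h4, h5]
      · by_cases h5 : b = s
        · subst h5
          simp
        · have h4 : ¬ b < s + 1 := by omega
          simp [h3, h4, h5]
    · simp [h1, h2]

theorem X_stOf_dn_cnt_tog_qX_stOf_dn (r : Fin 3) (s : ℤ) (D : Finset Site) :
    cnt (r, s) (tog (r, s + 1) D) = cnt (r, s) D := by
  unfold cnt
  congr 1
  ext ⟨a, b⟩
  simp only [Finset.mem_filter, X_stOf_dn_mem_tog_qX_stOf_dn, Prod.mk.injEq]
  constructor
  · rintro ⟨h1, h2⟩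
    refine ⟨?_, h2⟩
    have h3 : ¬ (a = r ∧ b = s + 1) := by
      rintro ⟨rfl, rfl⟩
      rcases h2 with h2 | h2
      · exact lt_irrefl _ h2
      · omega
    by_contra h4
    exact h1 ⟨fun h => absurd h h3, fun h => absurd h h4⟩
  · rintro ⟨h1, h2⟩
    refine ⟨?_, h2⟩
    have h3 : ¬ (a = r ∧ b = s + 1) := by
      rintro ⟨rfl, rfl⟩
      rcases h2 with h2 | h2
      · exact lt_irrefl _ h2
      · omega
    intro h4
    exact h3 (h4.2 h1)

theorem X_stOf_dn_X_qX_stOf_dn (r : Fin 3) (s : ℤ) (D : Finset Site) :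
    X (r, s) (r, s + 1) (ket D) =
      if occ D (r, s + 1) ∧ ¬ occ D (r, s) then
        ((-1 : ℂ) ^ (if (r, s) ∈ D then 1 else 0)) • ket (tog (r, s) (tog (r, s + 1) D)) else 0 := by
  have hocc : occ (tog (r, s + 1) D) (r, s) ↔ occ D (r, s) := by
    unfold occ
    have h1 : (r, s) ∈ tog (r, s + 1) D ↔ (r, s) ∈ D := by
      rw [X_stOf_dn_mem_tog_qX_stOf_dn]
      have : (r, s) ≠ (r, s + 1) := by simp
      simp [this]
    rw [h1]
  unfold X
  rw [Module.End.mul_apply, X_stOf_dn_ann_qX_stOf_dn]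
  by_cases h1 : occ D (r, s + 1)
  · rw [if_pos h1, map_smul, X_stOf_dn_cre_qX_stOf_dn]
    by_cases h2 : occ D (r, s)
    · rw [if_pos (hocc.2 h2), if_neg (fun h => h.2 h2), smul_zero]
    · rw [if_neg (fun h => h2 (hocc.1 h)), if_pos ⟨h1, h2⟩, smul_smul, X_stOf_dn_cnt_tog_qX_stOf_dn,
        X_stOf_dn_cnt_qX_stOf_dn]
      congr 1
      rw [← pow_add, show cnt (r, s) D + (if (r, s) ∈ D then 1 else 0) + cnt (r, s) D =
        2 * cnt (r, s) D + (if (r, s) ∈ D then 1 else 0) by ring, pow_add, pow_mul]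
      simp
  · rw [if_neg h1, map_zero, if_neg (fun h => h1 h.1)]

theorem X_stOf_dn_mod_qX_stOf_dn (c k : ℕ) :
    (c >>> k) % 4 = (Nat.testBit c k).toNat + 2 * (Nat.testBit c (k + 1)).toNat := by
  have h0 : Nat.testBit c k = decide ((c >>> k) % 2 = 1) := by
    rw [← Nat.testBit_zero, Nat.testBit_shiftRight]; simp
  have h1 : Nat.testBit c (k + 1) = decide (((c >>> k) / 2) % 2 = 1) := by
    rw [← Nat.testBit_zero, ← Nat.testBit_succ, Nat.testBit_shiftRight]
  rw [h0, h1]
  generalize c >>> k = m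
  rcases Nat.mod_two_eq_zero_or_one m with h | h <;>
    rcases Nat.mod_two_eq_zero_or_one (m / 2) with h' | h' <;> simp [h, h'] <;> omega

theorem X_stOf_dn_bit3_qX_stOf_dn (k n : ℕ) : Nat.testBit (3 <<< k) n = decide (k ≤ n ∧ n < k + 2) := by
  rw [Nat.testBit_shiftLeft, show (3 : ℕ) = 2 ^ 2 - 1 by norm_num, Nat.testBit_two_pow_sub_one]
  by_cases h1 : k ≤ n
  · by_cases h2 : n < k + 2
    · have h3 : n - k < 2 := by omega
      simp [h1, h2, h3]
    · have h3 : ¬ n - k < 2 := by omega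
      simp [h1, h2, h3]
  · simp [h1]

theorem X_stOf_dn_st_qX_stOf_dn (c : ℕ) (r : Fin 3) (s : ℤ) (h1 : -10 ≤ s) (h2 : s ≤ 8) (k : ℕ)
    (hk : k = 20 * r.val + (s + 10).toNat) :
    tog (r, s) (tog (r, s + 1) (stOf c)) = stOf (c ^^^ (3 <<< k)) := by
  ext ⟨a, b⟩
  rw [X_stOf_dn_mem_tog_qX_stOf_dn, X_stOf_dn_mem_tog_qX_stOf_dn, mem_stOf, mem_stOf, Nat.testBit_xor, X_stOf_dn_bit3_qX_stOf_dn]
  simp only [Prod.mk.injEq]
  by_cases hb : -10 ≤ b ∧ b ≤ 9
  · obtain ⟨hb1, hb2⟩ := hb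
    have e1 : (a = r ∧ b = s) ↔ 20 * a.val + (b + 10).toNat = k := by
      constructor
      · rintro ⟨rfl, rfl⟩; exact hk.symm
      · intro h
        have h3 : a.val = r.val := by omega
        refine ⟨Fin.ext h3, by omega⟩
    have e2 : (a = r ∧ b = s + 1) ↔ 20 * a.val + (b + 10).toNat = k + 1 := by
      constructor
      · rintro ⟨rfl, rfl⟩; omega
      · intro h
        have h3 : a.val = r.val := by omega
        refine ⟨Fin.ext h3, by omega⟩
    rw [e1, e2]
    generalize 20 * a.val + (b + 10).toNat = n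
    have e3 : (k ≤ n ∧ n < k + 2) ↔ (n = k ∨ n = k + 1) := by omega
    simp only [hb1, hb2, true_and, e3]
    by_cases g1 : n = k
    · have g2 : ¬ n = k + 1 := by omega
      rcases hh : Nat.testBit c n with _ | _ <;> simp [g1]
    · by_cases g2 : n = k + 1
      · rcases hh : Nat.testBit c n with _ | _ <;> simp [g2]
      · rcases hh : Nat.testBit c n with _ | _ <;> simp [g1, g2]
  · have e1 : ¬ (a = r ∧ b = s) := by
      rintro ⟨_, rfl⟩; exact hb ⟨h1, by omega⟩
    have e2 : ¬ (a = r ∧ b = s + 1) := by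
      rintro ⟨_, rfl⟩; exact hb ⟨by omega, by omega⟩
    have e3 : ∀ q : Prop, ¬ (-10 ≤ b ∧ b ≤ 9 ∧ q) := fun q h => hb ⟨h.1, h.2.1⟩
    simp [e1, e2, e3]

/-- one move downwards on a coded state -/
theorem X_stOf_dn (c : ℕ) (r : Fin 3) (s : ℤ) (h1 : -10 ≤ s) (h2 : s ≤ 8) (k : ℕ)
    (hk : k = 20 * r.val + (s + 10).toNat) :
    X (r, s) (sh 1 (r, s)) (ket (stOf c)) =
      if (c >>> k) % 4 = patE k then ((sgnK k : ℤ) : ℂ) • ket (stOf (c ^^^ (3 <<< k))) else 0 := by
  have hsh : sh 1 (r, s) = (r, s + 1) := rfl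
  rw [hsh, X_stOf_dn_X_qX_stOf_dn, X_stOf_dn_st_qX_stOf_dn c r s h1 h2 k hk, X_stOf_dn_mod_qX_stOf_dn]
  have hi : (r, s) ∈ stOf c ↔ Nat.testBit c k = true := by
    rw [mem_stOf, ← hk]
    exact ⟨fun h => h.2.2, fun h => ⟨h1, by omega, h⟩⟩
  have hj : (r, s + 1) ∈ stOf c ↔ Nat.testBit c (k + 1) = true := by
    rw [mem_stOf]
    have : 20 * r.val + (s + 1 + 10).toNat = k + 1 := by omega
    rw [this]
    exact ⟨fun h => h.2.2, fun h => ⟨by omega, by omega, h⟩⟩
  have hkm : k % 20 = (s + 10).toNat := by omega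
  unfold patE sgnK occ
  simp only [hi, hj, hkm]
  rcases lt_trichotomy s (-1) with hs | hs | hs
  · have g1 : s < 0 := by omega
    have g2 : s + 1 < 0 := by omega
    have g3 : (s + 10).toNat < 9 := by omega
    have g4 : (s + 10).toNat < 10 := by omega
    simp only [g1, g2, g3, g4, if_true]
    rcases hb0 : Nat.testBit c k with _ | _ <;> rcases hb1 : Nat.testBit c (k + 1) with _ | _ <;>
      simp
  · subst hs
    have g3 : ((-1 : ℤ) + 10).toNat = 9 := by decide
    simp only [g3]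
    rcases hb0 : Nat.testBit c k with _ | _ <;> rcases hb1 : Nat.testBit c (k + 1) with _ | _ <;>
      simp
  · have g1 : ¬ s < 0 := by omega
    have g2 : ¬ s + 1 < 0 := by omega
    have g3 : ¬ (s + 10).toNat < 9 := by omega
    have g5 : ¬ (s + 10).toNat = 9 := by omega
    have g4 : ¬ (s + 10).toNat < 10 := by omega
    simp only [g1, g2, g3, g4, g5, if_false]
    rcases hb0 : Nat.testBit c k with _ | _ <;> rcases hb1 : Nat.testBit c (k + 1) with _ | _ <;>
      simp

end Pool.Agent.Helper840.AE
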