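import Pool.Agent.Helper840.AE.FockDefs
import Pool.Agent.Helper840.AE.CertDefs
import Pool.Agent.Helper840.AE.P_S_apply
import Pool.Agent.Helper840.AE.P_X_box
import Pool.Agent.Helper840.AE.P_X_stOf_dn
import Pool.Agent.Helper840.AE.P_mem_stOf
import Pool.Agent.Helper840.AE.P_vecOf_mrg

set_option autoImplicit false

namespace Pool.Agent.Helper840.AE

theorem j12920_vec_cons_qcE_vec (p : ℕ × ℤ) (l : List (ℕ × ℤ)) :
    vecOf (p :: l) = (p.2 : ℂ) • ket (stOf p.1) + vecOf l := by
  simp [vecOf]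

/-- one term -/
noncomputable def j12920_T_qcE_vec (k c : ℕ) : Fk :=
  if (c >>> k) % 4 = patE k then ((sgnK k : ℤ) : ℂ) • ket (stOf (c ^^^ (3 <<< k))) else 0

theorem j12920_mvK_qcE_vec (k : ℕ) (l : List (ℕ × ℤ)) :
    vecOf (mvK patE k l) = (l.map (fun p => (p.2 : ℂ) • j12920_T_qcE_vec k p.1)).sum := by
  induction l with
  | nil => simp [mvK, vecOf]
  | cons p l ih =>
    obtain ⟨c, x⟩ := p
    rw [mvK, List.map_cons, List.sum_cons, ← ih]
    by_cases h : (c >>> k) % 4 = patE k
    · rw [if_pos h, j12920_vec_cons_qcE_vec]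
      unfold j12920_T_qcE_vec
      rw [if_pos h, smul_smul]
      push_cast
      rw [mul_comm]
    · rw [if_neg h]
      unfold j12920_T_qcE_vec
      rw [if_neg h, smul_zero, zero_add]

theorem j12920_mvL_qcE_vec (l : List (ℕ × ℤ)) (ks : List ℕ) :
    vecOf (mvL patE l ks) =
      (l.map (fun p => (p.2 : ℂ) • (ks.map (fun k => j12920_T_qcE_vec k p.1)).sum)).sum := by
  induction ks with
  | nil => simp [mvL, vecOf]
  | cons k ks ih =>
    rw [mvL, vecOf_mrg, ih, j12920_mvK_qcE_vec, ← List.sum_map_add]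
    congr 1
    refine List.map_congr_left fun p _ => ?_
    rw [List.map_cons, List.sum_cons, smul_add]

theorem j12920_op_qcE_vec (A : Module.End ℂ Fk) (l : List (ℕ × ℤ)) :
    A (vecOf l) = (l.map (fun p => (p.2 : ℂ) • A (ket (stOf p.1)))).sum := by
  induction l with
  | nil => simp [vecOf]
  | cons p l ih =>
    rw [j12920_vec_cons_qcE_vec, map_add, map_smul, ih, List.map_cons, List.sum_cons]

theorem j12920_X_ket_qcE_vec (i j : Site) (D : Finset Site)
    (h : ¬ occ D j ∨ occ (tog j D) i) : X i j (ket D) = 0 := by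
  have h1 : ann j (ket D) = if occ D j then ((-1 : ℂ) ^ cnt j D) • ket (tog j D) else 0 := by
    unfold ann ket
    rw [Finsupp.linearCombination_single, one_smul]
  have h2 : X i j (ket D) = cre i (ann j (ket D)) := rfl
  rw [h2, h1]
  by_cases hj : occ D j
  · rw [if_pos hj, map_smul]
    have h3 : occ (tog j D) i := h.resolve_left (not_not.2 hj)
    have h4 : cre i (ket (tog j D)) = 0 := by
      unfold cre ket
      rw [Finsupp.linearCombination_single, one_smul, if_pos h3]
    rw [h4, smul_zero]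
  · rw [if_neg hj, map_zero]

theorem j12920_van_hi_qcE_vec (c : ℕ) (r : Fin 3) (s : ℤ) (hs : 10 ≤ s) (i : Site) :
    X i (r, s) (ket (stOf c)) = 0 := by
  apply j12920_X_ket_qcE_vec
  left
  unfold occ
  rw [if_neg (by simp only; omega), mem_stOf]
  rintro ⟨_, h, _⟩
  omega

theorem j12920_van_lo_qcE_vec (c : ℕ) (r : Fin 3) (s : ℤ) (hs : s ≤ -10) :
    X (r, s - 1) (r, s) (ket (stOf c)) = 0 := by
  apply j12920_X_ket_qcE_vec
  right
  have h1 : (r, s - 1) ∉ stOf c := by
    rw [mem_stOf]
    rintro ⟨h, _, _⟩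
    omega
  have h2 : ((r, s - 1) : Site) ≠ (r, s) := by
    intro h
    have := congrArg Prod.snd h
    simp only at this
    omega
  unfold occ
  rw [if_pos (by simp only; omega)]
  unfold tog
  split_ifs
  · intro h
    exact h1 (Finset.mem_of_mem_erase h)
  · intro h
    rcases Finset.mem_insert.1 h with h | h
    · exact h2 h
    · exact h1 h

theorem j12920_bd_qcE_vec (c : ℕ) : bd (stOf c) ≤ 10 := by
  unfold bd
  refine Finset.sup_le ?_
  rintro ⟨r, s⟩ hi
  rw [mem_stOf] at hi
  simp only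
  omega

theorem j12920_S_qcE_vec (c : ℕ) (g : Site → ℂ) (q : ℕ) (hg : ∀ (r : Fin 3) (m : ℕ),
    g (r, (m : ℤ) - 9) = if m % 2 = q then 1 else 0) :
    S (-1) g (ket (stOf c)) = ∑ r : Fin 3, ∑ m ∈ Finset.range 19,
      (if m % 2 = q then j12920_T_qcE_vec (20 * r.val + m) c else 0) := by
  rw [S_apply (-1) (by norm_num) g (ket (stOf c)) 11]
  swap
  · intro D hD
    have h1 : D = stOf c := by
      have := Finsupp.support_single_subset hD
      simpa using this
    rw [h1]
    have := j12920_bd_qcE_vec c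
    simp only [Int.natAbs_neg, Int.natAbs_one]
    omega
  unfold box
  rw [Finset.sum_product]
  refine Finset.sum_congr rfl fun r _ => ?_
  have hinj : Set.InjOn (fun m : ℕ => (m : ℤ) - 9) (Finset.range 19 : Finset ℕ) := by
    intro a _ b _ hab
    simp only at hab
    omega
  have hsub : (Finset.range 19).image (fun m : ℕ => (m : ℤ) - 9) ⊆
      Finset.Icc (-((11 : ℕ) : ℤ)) ((11 : ℕ) : ℤ) := by
    intro s hs
    rw [Finset.mem_image] at hs
    obtain ⟨m, hm, rfl⟩ := hs
    rw [Finset.mem_range] at hm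
    rw [Finset.mem_Icc]
    omega
  rw [← Finset.sum_subset hsub, Finset.sum_image hinj]
  · refine Finset.sum_congr rfl fun m hm => ?_
    rw [Finset.mem_range] at hm
    have e1 : sh (-1) (r, (m : ℤ) - 9) = (r, (m : ℤ) - 10) := by
      unfold sh
      simp only [Prod.mk.injEq, true_and]
      ring
    have e2 : ((r, (m : ℤ) - 9) : Site) = sh 1 (r, (m : ℤ) - 10) := by
      unfold sh
      simp only [Prod.mk.injEq, true_and]
      ring
    have e3 := X_stOf_dn c r ((m : ℤ) - 10) (by omega) (by omega) (20 * r.val + m) (by omega)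
    rw [← e2] at e3
    rw [e1, e3, hg r m]
    unfold j12920_T_qcE_vec
    by_cases hq : m % 2 = q
    · rw [if_pos hq, if_pos hq, one_smul]
    · rw [if_neg hq, if_neg hq, zero_smul]
  · intro s hs hs'
    rw [Finset.mem_Icc] at hs
    have h1 : s ≤ -10 ∨ 10 ≤ s := by
      by_contra hc
      push Not at hc
      apply hs'
      rw [Finset.mem_image]
      refine ⟨(s + 9).toNat, ?_, ?_⟩
      · rw [Finset.mem_range]
        omega
      · omega
    rcases h1 with h1 | h1
    · have e1 : sh (-1) (r, s) = (r, s - 1) := by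
        unfold sh
        simp only [Prod.mk.injEq, true_and]
        ring
      rw [e1, j12920_van_lo_qcE_vec c r s h1, smul_zero]
    · rw [j12920_van_hi_qcE_vec c r s h1, smul_zero]

theorem j12920_sum0_qcE_vec (T : ℕ → Fk) : ∑ r : Fin 3, ∑ m ∈ Finset.range 19,
    (if m % 2 = 0 then T (20 * r.val + m) else 0) = ((ksOf 0).map T).sum := by
  simp [Fin.sum_univ_three, Finset.sum_range_succ, ksOf]
  abel

theorem j12920_sum1_qcE_vec (T : ℕ → Fk) : ∑ r : Fin 3, ∑ m ∈ Finset.range 19,
    (if m % 2 = 1 then T (20 * r.val + m) else 0) = ((ksOf 1).map T).sum := by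
  simp [Fin.sum_univ_three, Finset.sum_range_succ, ksOf]
  abel

theorem cE_vec (i : Fin 2) (l : List (ℕ × ℤ)) (h : l.all (fun p => okC p.1) = true) :
    opE i (vecOf l) = vecOf (cE i l) := by
  unfold cE
  rw [j12920_mvL_qcE_vec, j12920_op_qcE_vec]
  congr 1
  refine List.map_congr_left fun p _ => ?_
  congr 1
  have hi : i = 0 ∨ i = 1 := by omega
  rcases hi with rfl | rfl
  · have h1 : opE 0 = S (-1) podd := by simp [opE]
    rw [h1, j12920_S_qcE_vec p.1 podd 0, j12920_sum0_qcE_vec (fun k => j12920_T_qcE_vec k p.1)]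
    intro r m
    unfold podd
    have h2 : (((m : ℤ) - 9) % 2 = 1) ↔ (m % 2 = 0) := by omega
    simp only [h2]
  · have h1 : opE 1 = S (-1) pev := by simp [opE]
    rw [h1, j12920_S_qcE_vec p.1 pev 1, j12920_sum1_qcE_vec (fun k => j12920_T_qcE_vec k p.1)]
    intro r m
    unfold pev
    have h2 : (((m : ℤ) - 9) % 2 = 0) ↔ (m % 2 = 1) := by omega
    simp only [h2]

end Pool.Agent.Helper840.AE
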