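import Pool.Agent.Helper840.AE.FockDefs
import Pool.Agent.Helper840.AE.CertDefs

set_option autoImplicit false

namespace Pool.Agent.Helper840.AE

theorem vecOf_nil_12912_qvecOf_basic : vecOf [] = 0 := by
  simp [vecOf]

theorem vecOf_cons_12912_qvecOf_basic (p : ℕ × ℤ) (l : List (ℕ × ℤ)) :
    vecOf (p :: l) = (p.2 : ℂ) • ket (stOf p.1) + vecOf l := by
  simp only [vecOf, List.map_cons, List.sum_cons]

theorem vecOf_append_12912_qvecOf_basic (l l' : List (ℕ × ℤ)) : vecOf (l ++ l') = vecOf l + vecOf l' := by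
  simp only [vecOf, List.map_append, List.sum_append]

theorem vecOf_scl_12912_qvecOf_basic (a : ℤ) (l : List (ℕ × ℤ)) : vecOf (scl a l) = (a : ℂ) • vecOf l := by
  induction l with
  | nil =>
    have h : scl a [] = [] := rfl
    rw [h, vecOf_nil_12912_qvecOf_basic, smul_zero]
  | cons p l ih =>
    have h : scl a (p :: l) = (p.1, a * p.2) :: scl a l := rfl
    rw [h, vecOf_cons_12912_qvecOf_basic, vecOf_cons_12912_qvecOf_basic, ih, smul_add, smul_smul]
    push_cast
    rfl

theorem vecOf_zero_12912_qvecOf_basic (l : List (ℕ × ℤ)) (h : (l.all (fun p => p.2 == 0)) = true) :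
    vecOf l = 0 := by
  induction l with
  | nil => exact vecOf_nil_12912_qvecOf_basic
  | cons p l ih =>
    rw [List.all_cons, Bool.and_eq_true] at h
    obtain ⟨h1, h2⟩ := h
    have h3 : p.2 = 0 := by simpa using h1
    rw [vecOf_cons_12912_qvecOf_basic, ih h2, h3, Int.cast_zero, zero_smul, add_zero]

theorem vecOf_basic (l l' : List (ℕ × ℤ)) (a : ℤ) : vecOf (l ++ l') = vecOf l + vecOf l' ∧
    vecOf (scl a l) = (a : ℂ) • vecOf l ∧ ((l.all (fun p => p.2 == 0)) = true → vecOf l = 0) := by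
  exact ⟨vecOf_append_12912_qvecOf_basic l l', vecOf_scl_12912_qvecOf_basic a l, vecOf_zero_12912_qvecOf_basic l⟩

end Pool.Agent.Helper840.AE
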