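import Pool.Agent.Helper840.AE.FockDefs
import Pool.Agent.Helper840.AE.CertDefs
import Pool.Agent.Helper840.AE.CertData
import Pool.Agent.Helper840.AE.P_vecOf_mrg
import Pool.Agent.Helper840.AE.P_vecOf_basic
import Pool.Agent.Helper840.AE.P_cF_vec
import Pool.Agent.Helper840.AE.P_cE_vec
import Pool.Agent.Helper840.AE.P_FW_vec
import Pool.Agent.Helper840.AE.P_H_vec
import Pool.Agent.Helper840.AE.P_Bf_vec
import Pool.Agent.Helper840.AE.P_IntV_vec

set_option autoImplicit false

namespace Pool.Agent.Helper840.AE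

theorem cert_ok_qcert : wdat.all (fun p => okC p.1) = true := by decide +kernel

theorem cert_e0_qcert : (cE 0 wdat).all (fun p => p.2 == 0) = true := by decide +kernel

theorem cert_e1_qcert : (cE 1 wdat).all (fun p => p.2 == 0) = true := by decide +kernel

theorem cert_h_qcert : wdat.all (fun p => hval p.1 == -2) = true := by decide +kernel

theorem cert_d_qcert : wdat.all (fun p => dval p.1 == -4) = true := by decide +kernel

theorem cert_inc_qcert : incr wdat = true := by decide +kernel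

theorem cert_nrm_qcert : (wdat.map (fun p => p.2 * p.2)).sum = 1420710 := by decide +kernel

theorem cert_okw_qcert : cwds.all (fun p => okW p.1) = true := by decide +kernel

theorem cert_mod_qcert : ((mrg 4000 wtot (scl (-1) wdat)).all (fun p => p.2 % 23 == 0)) = true := by
  decide +kernel

theorem cert_ne_qcert : ∀ p ∈ cwds, p.1 ≠ [] := by decide

theorem vecOf_nil'_qcert : vecOf [] = 0 := rfl

theorem vecOf_cons'_qcert (p : ℕ × ℤ) (l : List (ℕ × ℤ)) :
    vecOf (p :: l) = (p.2 : ℂ) • ket (stOf p.1) + vecOf l := by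
  unfold vecOf
  rw [List.map_cons, List.sum_cons]

theorem IntV_vecOf'_qcert (l : List (ℕ × ℤ)) : IntV (vecOf l) := by
  classical
  induction l with
  | nil => exact fun D => ⟨0, by rw [vecOf_nil'_qcert]; simp⟩
  | cons p l ih =>
    intro D
    obtain ⟨n, hn⟩ := ih D
    rw [vecOf_cons'_qcert, Finsupp.add_apply, hn, Finsupp.smul_apply]
    unfold ket
    rw [Finsupp.single_apply]
    split_ifs
    · exact ⟨p.2 + n, by push_cast; rw [smul_eq_mul, mul_one]⟩
    · exact ⟨n, by rw [smul_zero, zero_add]⟩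

theorem vecOf_div'_qcert (l : List (ℕ × ℤ)) (h : l.all (fun p => p.2 % 23 == 0) = true) :
    vecOf l = (23 : ℂ) • vecOf (l.map (fun p => (p.1, p.2 / 23))) := by
  induction l with
  | nil => rw [List.map_nil, vecOf_nil'_qcert, smul_zero]
  | cons p l ih =>
    rw [List.all_cons, Bool.and_eq_true] at h
    rw [List.map_cons, vecOf_cons'_qcert, vecOf_cons'_qcert, smul_add, ← ih h.2]
    congr 1
    have h1 : p.2 % 23 = 0 := by simpa using h.1
    have h2 : p.2 = 23 * (p.2 / 23) := by omega
    rw [smul_smul]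
    congr 1
    conv_lhs => rw [h2]
    push_cast
    ring

theorem vecOf_scl'_qcert (a : ℤ) (l : List (ℕ × ℤ)) : vecOf (scl a l) = (a : ℂ) • vecOf l :=
  (vecOf_basic l [] a).2.1

theorem words_vec'_qcert (L : List (List (Fin 2) × ℤ)) (h : L.all (fun p => okW p.1) = true) :
    (L.map (fun p => (p.2 : ℂ) • FW p.1 (zN 0))).sum =
      vecOf (L.foldr (fun p acc => mrg 4000 (scl p.2 (wvec p.1)) acc) []) := by
  induction L with
  | nil => rw [List.map_nil, List.sum_nil, List.foldr_nil, vecOf_nil'_qcert]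
  | cons p L ih =>
    rw [List.all_cons, Bool.and_eq_true] at h
    rw [List.map_cons, List.sum_cons, List.foldr_cons, vecOf_mrg, vecOf_scl'_qcert, ih h.2,
      FW_vec p.1 h.1]

theorem words_tot'_qcert : (cwds.map (fun p => (p.2 : ℂ) • FW p.1 (zN 0))).sum = vecOf wtot :=
  words_vec'_qcert cwds cert_okw_qcert

/-- the certificate: a singular vector `w` with integer coefficients, congruent modulo 23 to an
integral combination of lowering words applied to the vacuum, with norm not divisible by 23^2 -/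
theorem cert : IntV (vecOf wdat) ∧ (∀ i, opE i (vecOf wdat) = 0) ∧
    opH 0 (vecOf wdat) = (2 : ℂ) • vecOf wdat ∧ opH 1 (vecOf wdat) = (1 : ℂ) • vecOf wdat ∧
    opD 0 (vecOf wdat) = (-4 : ℂ) • vecOf wdat ∧
    Bf (vecOf wdat) (vecOf wdat) = 1420710 ∧
    (∀ p ∈ cwds, p.1 ≠ []) ∧
    ∃ t : Fk, IntV t ∧
      (cwds.map (fun p => (p.2 : ℂ) • FW p.1 (zN 0))).sum = vecOf wdat + (23 : ℂ) • t := by
  obtain ⟨h1, h2, h3⟩ := H_vec wdat (-2) (-4) cert_ok_qcert cert_h_qcert cert_d_qcert
  refine ⟨IntV_vecOf'_qcert wdat, ?_, ?_, ?_, ?_, ?_, cert_ne_qcert, ?_⟩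
  · intro i
    rw [cE_vec i wdat cert_ok_qcert]
    apply (vecOf_basic _ [] 0).2.2
    fin_cases i
    · exact cert_e0_qcert
    · exact cert_e1_qcert
  · rw [h1]; norm_num
  · rw [h2]; norm_num
  · rw [h3]; norm_num
  · rw [Bf_vec wdat cert_ok_qcert cert_inc_qcert, cert_nrm_qcert]; norm_num
  · refine ⟨vecOf ((mrg 4000 wtot (scl (-1) wdat)).map (fun p => (p.1, p.2 / 23))), IntV_vecOf'_qcert _, ?_⟩
    rw [← vecOf_div'_qcert _ cert_mod_qcert, vecOf_mrg, vecOf_scl'_qcert, words_tot'_qcert]
    push_cast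
    rw [neg_smul, one_smul]
    abel

end Pool.Agent.Helper840.AE
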