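import Pool.Agent.Helper840.AE.AlgDefs
import Pool.Agent.Helper840.AE.ExtDefs

set_option autoImplicit false

namespace Pool.Agent.Helper840.AE

universe u

open scoped TensorProduct

theorem lat_cyclic (lam : Fin 2 → ℕ) (x : Lat lam) : ∃ u : UZ, x = u • vZ lam := by
  obtain ⟨x1, hx⟩ := x
  obtain ⟨u, hu⟩ := Submodule.mem_span_singleton.mp hx
  exact ⟨u, Subtype.ext hu.symm⟩

end Pool.Agent.Helper840.AE
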