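import Pool.Agent.Helper840.AE.AlgDefs
import Pool.Agent.Helper840.AE.ExtDefs

set_option autoImplicit false

namespace Pool.Agent.Helper840.AE

universe u

open scoped TensorProduct

theorem lat_tf (lam : Fin 2 → ℕ) (n : ℤ) (x : Lat lam) (hn : n ≠ 0) (h : n • x = 0) : x = 0 := by
  let φ : Lat lam →+ LC lam := (VZ lam).subtype.toAddMonoidHom
  have hinj : Function.Injective φ := Subtype.val_injective
  have h1 : n • φ x = 0 := by rw [← map_zsmul, h, map_zero]
  have hn' : (n : ℂ) ≠ 0 := by exact_mod_cast hn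
  have h2 : (algebraMap ℂ UA (n : ℂ)) • φ x = 0 := by
    rw [map_intCast, Int.cast_smul_eq_zsmul, h1]
  have h3 : φ x = 0 := by
    calc φ x = (1 : UA) • φ x := (one_smul _ _).symm
      _ = (algebraMap ℂ UA ((n : ℂ)⁻¹) * algebraMap ℂ UA (n : ℂ)) • φ x := by
          rw [← map_mul, inv_mul_cancel₀ hn', map_one]
      _ = 0 := by rw [mul_smul, h2, smul_zero]
  apply hinj
  rw [h3, map_zero]

end Pool.Agent.Helper840.AE
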