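import Pool.Agent.Helper840.AE.AlgDefs
import Pool.Agent.Helper840.AE.ExtDefs
import Pool.Agent.Helper840.AE.P_lat_cyclic
import Pool.Agent.Helper840.AE.P_lat_tf

set_option autoImplicit false

namespace Pool.Agent.Helper840.AE

universe u

open scoped TensorProduct

/-- the maps of the extension of lattices -/
theorem Lm_maps (lam mu : Fin 2 → ℕ) (w : Lat mu)
    (K1 : ∀ y : UZ, y • vZ lam = 0 → ∃ m : Lat mu, y • w = (23 : ℤ) • m) :
    ∃ (i : Lat mu →ₗ[ℤ] LmT lam mu w) (q : LmT lam mu w →ₗ[ℤ] Lat lam),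
      (∀ m, (i m).1 = ((23 : ℤ) • m, 0)) ∧ (∀ x, q x = x.1.2) ∧
      (∀ (u : UZ) x, i (u • x) = u • i x) ∧ (∀ (u : UZ) x, q (u • x) = u • q x) ∧
      Function.Injective i ∧ Function.Surjective q ∧ LinearMap.range i = LinearMap.ker q := by
  have hmem : ∀ m : Lat mu, (((23 : ℤ) • m, (0 : Lat lam)) : Lat mu × Lat lam) ∈ Lm lam mu w := by
    intro m
    obtain ⟨u, rfl⟩ := lat_cyclic mu m
    have h1 : (((23 : ℤ) • vZ mu, (0 : Lat lam)) : Lat mu × Lat lam) ∈ Lm lam mu w :=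
      Submodule.subset_span (by simp)
    have h2 := (Lm lam mu w).smul_mem u h1
    have h3 : u • (((23 : ℤ) • vZ mu, (0 : Lat lam)) : Lat mu × Lat lam) =
        ((23 : ℤ) • (u • vZ mu), 0) := by
      rw [Prod.smul_mk, smul_zero, smul_comm]
    rwa [h3] at h2
  let iM : Lat mu →+ Lm lam mu w := AddMonoidHom.mk' (fun m => ⟨((23:ℤ) • m, 0), hmem m⟩) (by
    intro a b
    apply Subtype.ext
    show (((23:ℤ) • (a + b), (0 : Lat lam)) : Lat mu × Lat lam) =
      ((23:ℤ) • a, 0) + ((23:ℤ) • b, 0)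
    rw [smul_add, Prod.mk_add_mk, add_zero])
  let i : Lat mu →ₗ[ℤ] LmT lam mu w := iM.toIntLinearMap
  let qM : Lm lam mu w →+ Lat lam := AddMonoidHom.mk' (fun x => x.1.2) (by
    intro a b; rfl)
  let q : LmT lam mu w →ₗ[ℤ] Lat lam := qM.toIntLinearMap
  have hi : ∀ m, (i m).1 = ((23 : ℤ) • m, 0) := fun m => rfl
  have hq : ∀ x, q x = x.1.2 := fun x => rfl
  refine ⟨i, q, hi, hq, ?_, ?_, ?_, ?_, ?_⟩
  · intro u x
    apply Subtype.ext
    show (((23:ℤ) • (u • x), (0 : Lat lam)) : Lat mu × Lat lam) = u • (((23:ℤ) • x, 0))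
    rw [Prod.smul_mk, smul_zero, smul_comm]
  · intro u x
    rfl
  · intro a b hab
    have h1 : (i a).1 = (i b).1 := by rw [hab]
    rw [hi, hi] at h1
    have h2 : (23 : ℤ) • a = (23 : ℤ) • b := congrArg Prod.fst h1
    have h3 : (23 : ℤ) • (a - b) = 0 := by rw [smul_sub, h2, sub_self]
    exact sub_eq_zero.1 (lat_tf mu 23 (a - b) (by norm_num) h3)
  · intro x
    obtain ⟨u, rfl⟩ := lat_cyclic lam x
    have h1 : ((w, vZ lam) : Lat mu × Lat lam) ∈ Lm lam mu w := Submodule.subset_span (by simp)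
    exact ⟨⟨u • (w, vZ lam), (Lm lam mu w).smul_mem u h1⟩, rfl⟩
  · apply le_antisymm
    · rintro x ⟨m, rfl⟩
      rw [LinearMap.mem_ker, hq, hi]
    · intro x hx
      rw [LinearMap.mem_ker, hq] at hx
      have hx2 : x.1 ∈ Submodule.span UZ {(((23 : ℤ) • vZ mu, 0) : Lat mu × Lat lam), (w, vZ lam)} :=
        x.2
      rw [Submodule.mem_span_pair] at hx2
      obtain ⟨a, b, hab⟩ := hx2
      have h2 : x.1.2 = b • vZ lam := by
        rw [← hab]; simp
      rw [h2] at hx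
      obtain ⟨m, hm⟩ := K1 b hx
      refine ⟨a • vZ mu + m, ?_⟩
      apply Subtype.ext
      rw [hi]
      apply Prod.ext
      · have h3 : x.1.1 = a • ((23 : ℤ) • vZ mu) + b • w := by rw [← hab]; rfl
        show (23 : ℤ) • (a • vZ mu + m) = x.1.1
        rw [h3, hm, smul_add, smul_comm]
      · show (0 : Lat lam) = x.1.2
        rw [h2, hx]

end Pool.Agent.Helper840.AE
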