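import Pool.Agent.Helper840.AE.AlgDefs
import Pool.Agent.Helper840.AE.ExtDefs
import Pool.Agent.Helper840.AE.P_lat_cyclic
import Pool.Agent.Helper840.AE.P_lat_tf

set_option autoImplicit false

namespace Pool.Agent.Helper840.AE

universe u

open scoped TensorProduct

/-- the second generator of the lattice -/
noncomputable def nsg352_qnonsplit (lam mu : Fin 2 → ℕ) (w : Lat mu) : LmT lam mu w :=
  ⟨(w, vZ lam), Submodule.subset_span (by simp)⟩

theorem ns_dvd352_qnonsplit (lam mu : Fin 2 → ℕ) (w : Lat mu)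
    (η0 : Lat mu →+ ℤ) (h1 : ∀ y : UZ, (23 : ℤ) ∣ η0 (y • w)) (x : LmT lam mu w) :
    (23 : ℤ) ∣ η0 x.1.1 := by
  have hx : x.1 ∈ Submodule.span UZ {(((23 : ℤ) • vZ mu, 0) : Lat mu × Lat lam), (w, vZ lam)} := x.2
  obtain ⟨a, b, hab⟩ := Submodule.mem_span_pair.1 hx
  have h2 : x.1.1 = (23 : ℤ) • (a • vZ mu) + b • w := by
    rw [← hab]
    show a • ((23 : ℤ) • vZ mu) + b • w = _
    rw [smul_comm]
  rw [h2, map_add, map_zsmul, smul_eq_mul]
  exact dvd_add (dvd_mul_right _ _) (h1 b)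

/-- the functional on the lattice -/
noncomputable def nsE352_qnonsplit (lam mu : Fin 2 → ℕ) (w : Lat mu)
    (η0 : Lat mu →+ ℤ) (h1 : ∀ y : UZ, (23 : ℤ) ∣ η0 (y • w)) : LmT lam mu w →ₗ[ℤ] ℤ :=
  (AddMonoidHom.mk' (fun x : LmT lam mu w => η0 x.1.1 / 23) (fun x y => by
    have e1 : (x + y).1.1 = x.1.1 + y.1.1 := rfl
    show η0 (x + y).1.1 / 23 = η0 x.1.1 / 23 + η0 y.1.1 / 23
    rw [e1, map_add, Int.add_ediv_of_dvd_left (ns_dvd352_qnonsplit lam mu w η0 h1 x)])).toIntLinearMap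

theorem nsE_mul352_qnonsplit (lam mu : Fin 2 → ℕ) (w : Lat mu)
    (η0 : Lat mu →+ ℤ) (h1 : ∀ y : UZ, (23 : ℤ) ∣ η0 (y • w)) (x : LmT lam mu w) :
    23 * nsE352_qnonsplit lam mu w η0 h1 x = η0 x.1.1 := by
  show 23 * (η0 x.1.1 / 23) = η0 x.1.1
  exact Int.mul_ediv_cancel' (ns_dvd352_qnonsplit lam mu w η0 h1 x)

theorem nonsplit (F : Type u) [Field F] [CharP F 23] (lam mu : Fin 2 → ℕ) (w : Lat mu)
    (η0 : Lat mu →+ ℤ) (h1 : ∀ y : UZ, (23 : ℤ) ∣ η0 (y • w)) (tY : UZ)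
    (h2 : tY • vZ lam = 0) (h3 : ¬ (529 : ℤ) ∣ η0 (tY • w)) (h4 : ∀ m, (23 : ℤ) ∣ η0 (tY • m))
    (i : Lat mu →ₗ[ℤ] LmT lam mu w) (q : LmT lam mu w →ₗ[ℤ] Lat lam)
    (hi : ∀ m, (i m).1 = ((23 : ℤ) • m, 0)) (hq : ∀ x, q x = x.1.2)
    (hiu : ∀ (u : UZ) x, i (u • x) = u • i x)
    (hex : LinearMap.range (i.baseChange F) = LinearMap.ker (q.baseChange F))
    (s : F ⊗[ℤ] Lat lam →ₗ[F] F ⊗[ℤ] LmT lam mu w)
    (hs : ∀ u x, s (tensorAct F (Lat lam) u x) = tensorAct F (LmT lam mu w) u (s x))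
    (hsq : ∀ x, q.baseChange F (s x) = x) : False := by
  set η := nsE352_qnonsplit lam mu w η0 h1 with hη
  set g := nsg352_qnonsplit lam mu w with hg
  have hηi : ∀ m, η (i m) = η0 m := by
    intro m
    have h5 := nsE_mul352_qnonsplit lam mu w η0 h1 (i m)
    rw [hi m] at h5
    have h6 : η0 (((23 : ℤ) • m, (0 : Lat lam)) : Lat mu × Lat lam).1 = 23 * η0 m := by
      show η0 ((23 : ℤ) • m) = _
      rw [map_zsmul, smul_eq_mul]
    rw [h6] at h5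
    exact mul_left_cancel₀ (by norm_num : (23 : ℤ) ≠ 0) h5
  set ηF : F ⊗[ℤ] LmT lam mu w →ₗ[F] F :=
    (TensorProduct.AlgebraTensorModule.rid ℤ F F).toLinearMap ∘ₗ η.baseChange F with hηF
  have hηFt : ∀ (a : F) (x : LmT lam mu w), ηF (a ⊗ₜ[ℤ] x) = (η x : F) * a := by
    intro a x
    rw [hηF]
    simp
  -- the difference
  have hqg : q g = vZ lam := hq g
  have hker : s ((1 : F) ⊗ₜ[ℤ] vZ lam) - (1 : F) ⊗ₜ[ℤ] g ∈ LinearMap.ker (q.baseChange F) := by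
    rw [LinearMap.mem_ker, map_sub, hsq, LinearMap.baseChange_tmul, hqg, sub_self]
  rw [← hex] at hker
  obtain ⟨z, hz⟩ := hker
  have hact : ∀ (u : UZ) (a : F) (x : LmT lam mu w),
      tensorAct F (LmT lam mu w) u (a ⊗ₜ[ℤ] x) = a ⊗ₜ[ℤ] (u • x) := by
    intro u a x
    rfl
  have hact2 : ∀ (u : UZ) (a : F) (x : Lat mu),
      tensorAct F (Lat mu) u (a ⊗ₜ[ℤ] x) = a ⊗ₜ[ℤ] (u • x) := by
    intro u a x
    rfl
  have hact3 : ∀ (u : UZ) (a : F) (x : Lat lam),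
      tensorAct F (Lat lam) u (a ⊗ₜ[ℤ] x) = a ⊗ₜ[ℤ] (u • x) := by
    intro u a x
    rfl
  have hL : tensorAct F (LmT lam mu w) tY (s ((1 : F) ⊗ₜ[ℤ] vZ lam)) = 0 := by
    rw [← hs, hact3, h2, TensorProduct.tmul_zero, map_zero]
  have hR : ηF (tensorAct F (LmT lam mu w) tY (i.baseChange F z)) = 0 := by
    clear hz
    induction z using TensorProduct.induction_on with
    | zero => simp
    | tmul a m =>
      rw [LinearMap.baseChange_tmul, hact, ← hiu, hηFt, hηi]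
      obtain ⟨c, hc⟩ := h4 m
      rw [hc]
      push_cast
      have h23 : (23 : F) = 0 := by
        have := CharP.cast_eq_zero F 23
        exact_mod_cast this
      rw [h23]
      ring
    | add x y hx hy => rw [map_add, map_add, map_add, hx, hy, add_zero]
  rw [hz, map_sub, hL, hact, map_sub, map_zero, hηFt, zero_sub, mul_one, neg_eq_zero] at hR
  rw [CharP.intCast_eq_zero_iff F 23] at hR
  obtain ⟨c, hc⟩ := hR
  have h7 := nsE_mul352_qnonsplit lam mu w η0 h1 (tY • g)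
  have h8 : (tY • g).1.1 = tY • w := rfl
  rw [h8] at h7
  apply h3
  refine ⟨c, ?_⟩
  rw [← h7, ← hη, hc]
  push_cast
  ring

end Pool.Agent.Helper840.AE
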