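import Pool.Agent.Helper840.AE.AlgDefs
import Pool.Agent.Helper840.AE.ExtDefs

set_option autoImplicit false

namespace Pool.Agent.Helper840.AE

universe u

open scoped TensorProduct

theorem lTensor_inj_of_flat_aux_qtensor_exact {R : Type*} [CommRing R] {L M A B C : Type*} [AddCommGroup M] [Module R M]
    [AddCommGroup A] [Module R A] [AddCommGroup B] [Module R B] [AddCommGroup C] [Module R C]
    [AddCommGroup L] [Module R L] [Module.Flat R L] (p : L →ₗ[R] M) (hp : Function.Surjective p)
    [Module.Flat R C] (i : A →ₗ[R] B) (q : B →ₗ[R] C) (hi : Function.Injective i)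
    (he : Function.Exact i q) (hq : Function.Surjective q) :
    Function.Injective (i.lTensor M) := by
  classical
  let K := LinearMap.ker p
  have hKp : Function.Exact K.subtype p := LinearMap.exact_subtype_ker_map p
  rw [injective_iff_map_eq_zero]
  intro z hz
  obtain ⟨z', hz'⟩ := (LinearMap.rTensor_surjective A hp) z
  have h1 : (p.rTensor B) ((i.lTensor L) z') = 0 := by
    have : (p.rTensor B) ((i.lTensor L) z') = (i.lTensor M) ((p.rTensor A) z') := by
      rw [← LinearMap.comp_apply, ← LinearMap.comp_apply, LinearMap.rTensor_comp_lTensor,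
        LinearMap.lTensor_comp_rTensor]
    rw [this, hz', hz]
  obtain ⟨w', hw'⟩ := (rTensor_exact B hKp hp _).1 h1
  have h2 : (q.lTensor K) w' = 0 := by
    have hinj : Function.Injective ((K.subtype).rTensor C) :=
      Module.Flat.rTensor_preserves_injective_linearMap _ K.injective_subtype
    apply hinj
    rw [map_zero, ← LinearMap.comp_apply, LinearMap.rTensor_comp_lTensor,
      ← LinearMap.lTensor_comp_rTensor, LinearMap.comp_apply, hw', ← LinearMap.comp_apply,
      ← LinearMap.lTensor_comp, he.linearMap_comp_eq_zero]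
    simp
  obtain ⟨z'', hz''⟩ := (lTensor_exact K he hq _).1 h2
  have h3 : z' = (K.subtype.rTensor A) z'' := by
    have hinj : Function.Injective (i.lTensor L) :=
      Module.Flat.lTensor_preserves_injective_linearMap _ hi
    apply hinj
    rw [← hw', ← hz'', ← LinearMap.comp_apply, ← LinearMap.comp_apply,
      LinearMap.rTensor_comp_lTensor, LinearMap.lTensor_comp_rTensor]
  rw [← hz', h3, ← LinearMap.comp_apply, ← LinearMap.rTensor_comp, hKp.linearMap_comp_eq_zero]
  simp

theorem lTensor_inj_of_flat_qtensor_exact {R : Type*} [CommRing R] {M A B C : Type*} [AddCommGroup M] [Module R M]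
    [AddCommGroup A] [Module R A] [AddCommGroup B] [Module R B] [AddCommGroup C] [Module R C]
    [Module.Flat R C] (i : A →ₗ[R] B) (q : B →ₗ[R] C) (hi : Function.Injective i)
    (he : Function.Exact i q) (hq : Function.Surjective q) :
    Function.Injective (i.lTensor M) := by
  classical
  let p : (M →₀ R) →ₗ[R] M := Finsupp.linearCombination R (id : M → M)
  have hp : Function.Surjective p := fun m => ⟨Finsupp.single m 1, by simp [p]⟩
  exact lTensor_inj_of_flat_aux_qtensor_exact p hp i q hi he hq

theorem tensor_exact (F : Type u) [Field F] (A B C : Type) [AddCommGroup A] [AddCommGroup B]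
    [AddCommGroup C] (i : A →ₗ[ℤ] B) (q : B →ₗ[ℤ] C) (hi : Function.Injective i)
    (hq : Function.Surjective q) (he : LinearMap.range i = LinearMap.ker q)
    (hC : ∀ (n : ℤ) (x : C), n ≠ 0 → n • x = 0 → x = 0) :
    Function.Injective (i.baseChange F) ∧ Function.Surjective (q.baseChange F) ∧
      LinearMap.range (i.baseChange F) = LinearMap.ker (q.baseChange F) := by
  have hex : Function.Exact i q := LinearMap.exact_iff.2 he.symm
  have hflat : Module.Flat ℤ C := by
    rw [IsDedekindDomain.flat_iff_torsion_eq_bot, eq_bot_iff]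
    rintro x ⟨⟨n, hn⟩, hnx⟩
    exact hC n x (nonZeroDivisors.ne_zero hn) hnx
  refine ⟨?_, ?_, ?_⟩
  · have := lTensor_inj_of_flat_qtensor_exact (M := F) i q hi hex hq
    exact this
  · exact LinearMap.lTensor_surjective F hq
  · have := lTensor_exact F hex hq
    ext x
    constructor
    · rintro ⟨y, rfl⟩
      exact (this _).2 ⟨y, rfl⟩
    · intro hx
      obtain ⟨y, hy⟩ := (this x).1 hx
      exact ⟨y, hy⟩

end Pool.Agent.Helper840.AE
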