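import Pool.Agent.Helper840.AE.AlgDefs
import Pool.Agent.Helper840.AE.ExtDefs

set_option autoImplicit false

namespace Pool.Agent.Helper840.AE

universe u

open scoped TensorProduct

theorem tensor_hom (F : Type u) [Field F] (M M' : Type) [AddCommGroup M] [Module UZ M]
    [AddCommGroup M'] [Module UZ M'] (φ : M →ₗ[ℤ] M') (h : ∀ (u : UZ) x, φ (u • x) = u • φ x) :
    IsHom (F := F) (E := F ⊗[ℤ] M) (E' := F ⊗[ℤ] M') (tensorAct F M) (tensorAct F M')
      (φ.baseChange F) := by
  intro u x
  induction x using TensorProduct.induction_on with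
  | zero => simp only [map_zero]
  | add x y hx hy => simp only [map_add, hx, hy]
  | tmul a m =>
    show (φ.baseChange F) (((actZ M u).baseChange F) (a ⊗ₜ[ℤ] m)) =
      ((actZ M' u).baseChange F) ((φ.baseChange F) (a ⊗ₜ[ℤ] m))
    rw [LinearMap.baseChange_tmul, LinearMap.baseChange_tmul, LinearMap.baseChange_tmul,
      LinearMap.baseChange_tmul]
    congr 1
    exact h u m

end Pool.Agent.Helper840.AE
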