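import Pool.Agent.Helper840.AE.AlgDefs
import Pool.Agent.Helper840.AE.ExtDefs

set_option autoImplicit false

namespace Pool.Agent.Helper840.AE

universe u

open scoped TensorProduct

theorem tensor_integrable (F : Type u) [Field F] (M : Type) [AddCommGroup M] [Module UZ M]
    (h : ∀ (i : Fin 2) (x : M), ∃ K : ℕ, ∀ k ≥ K, eZ i k • x = 0 ∧ fZ i k • x = 0) :
    Integrable (F := F) (E := F ⊗[ℤ] M) (tensorAct F M) := by
  have htm : ∀ (u : UZ) (a : F) (m : M), tensorAct F M u (a ⊗ₜ[ℤ] m) = a ⊗ₜ[ℤ] (u • m) :=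
    fun u a m => rfl
  intro i x
  induction x using TensorProduct.induction_on with
  | zero => exact ⟨0, fun k _ => ⟨map_zero _, map_zero _⟩⟩
  | tmul a m =>
    obtain ⟨K, hK⟩ := h i m
    refine ⟨K, fun k hk => ⟨?_, ?_⟩⟩
    · rw [htm, (hK k hk).1, TensorProduct.tmul_zero]
    · rw [htm, (hK k hk).2, TensorProduct.tmul_zero]
  | add x y hx hy =>
    obtain ⟨K, hK⟩ := hx
    obtain ⟨K', hK'⟩ := hy
    refine ⟨max K K', fun k hk => ⟨?_, ?_⟩⟩
    · rw [map_add, (hK k ((le_max_left _ _).trans hk)).1,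
        (hK' k ((le_max_right _ _).trans hk)).1, add_zero]
    · rw [map_add, (hK k ((le_max_left _ _).trans hk)).2,
        (hK' k ((le_max_right _ _).trans hk)).2, add_zero]

end Pool.Agent.Helper840.AE
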