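import Pool.Agent.Helper840.AE.AlgDefs
import Pool.Agent.Helper840.AE.ExtDefs

set_option autoImplicit false

namespace Pool.Agent.Helper840.AE

universe u

open scoped TensorProduct

theorem tensor_weight (F : Type u) [Field F] (M : Type) [AddCommGroup M] [Module UZ M] (ℓ : ℕ)
    (h : ∀ x : M, x ∈ AddSubgroup.closure {y : M | ∃ n : Fin 2 → ℤ, n 0 + n 1 = ℓ ∧
      ∀ (i : Fin 2) (k : ℕ), hZ i k • y = (Ring.choose (n i) k : ℤ) • y}) :
    IsWeightModule (F := F) (E := F ⊗[ℤ] M) ℓ (tensorAct F M) := by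
  have hact : ∀ (u : UZ) (a : F) (x : M), tensorAct F M u (a ⊗ₜ[ℤ] x) = a ⊗ₜ[ℤ] (u • x) := by
    intro u a x
    show ((actZ M u).baseChange F) (a ⊗ₜ[ℤ] x) = _
    rw [LinearMap.baseChange_tmul]
    rfl
  show Submodule.span F {x | ∃ n : Fin 2 → ℤ, n 0 + n 1 = ℓ ∧ HasWeight (tensorAct F M) n x} = ⊤
  set Sp := Submodule.span F {x | ∃ n : Fin 2 → ℤ, n 0 + n 1 = ℓ ∧ HasWeight (tensorAct F M) n x}
    with hSp
  have h1 : ∀ x : M, (1 : F) ⊗ₜ[ℤ] x ∈ Sp := by
    intro x
    have hx := h x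
    induction hx using AddSubgroup.closure_induction with
    | mem y hy =>
      obtain ⟨n, hn, hy⟩ := hy
      refine Submodule.subset_span ⟨n, hn, fun i k => ?_⟩
      rw [hact, hy, TensorProduct.tmul_smul, Int.cast_smul_eq_zsmul]
    | zero => rw [TensorProduct.tmul_zero]; exact Sp.zero_mem
    | add y z _ _ hy hz => rw [TensorProduct.tmul_add]; exact Sp.add_mem hy hz
    | neg y _ hy => rw [TensorProduct.tmul_neg]; exact Sp.neg_mem hy
  rw [eq_top_iff]
  intro z _
  induction z using TensorProduct.induction_on with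
  | zero => exact Sp.zero_mem
  | tmul a x =>
    have h2 : a ⊗ₜ[ℤ] x = a • ((1 : F) ⊗ₜ[ℤ] x) := by
      rw [TensorProduct.smul_tmul', smul_eq_mul, mul_one]
    rw [h2]
    exact Sp.smul_mem a (h1 x)
  | add y z hy hz => exact Sp.add_mem (hy trivial) (hz trivial)

end Pool.Agent.Helper840.AE
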