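import Pool.Agent.Helper840.AE.AlgDefs
import Pool.Agent.Helper840.AE.ExtDefs
import Pool.Agent.Helper840.AE.P_lat_tf
import Pool.Agent.Helper840.AE.P_tensor_exact
import Pool.Agent.Helper840.AE.P_tensor_integrable
import Pool.Agent.Helper840.AE.P_tensor_weight
import Pool.Agent.Helper840.AE.P_tensor_hom
import Pool.Agent.Helper840.AE.P_Lm_maps
import Pool.Agent.Helper840.AE.P_nonsplit

set_option autoImplicit false

namespace Pool.Agent.Helper840.AE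

universe u

open scoped TensorProduct

theorem ext_main (F : Type u) [Field F] [CharP F 23] (ℓ : ℕ) (lam mu : Fin 2 → ℕ) (w : Lat mu)
    (K1 : ∀ y : UZ, y • vZ lam = 0 → ∃ m : Lat mu, y • w = (23 : ℤ) • m)
    (η0 : Lat mu →+ ℤ) (h1 : ∀ y : UZ, (23 : ℤ) ∣ η0 (y • w)) (tY : UZ)
    (h2 : tY • vZ lam = 0) (h3 : ¬ (529 : ℤ) ∣ η0 (tY • w)) (h4 : ∀ m, (23 : ℤ) ∣ η0 (tY • m))
    (hint : ∀ (i : Fin 2) (x : LmT lam mu w), ∃ K : ℕ, ∀ k ≥ K, eZ i k • x = 0 ∧ fZ i k • x = 0)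
    (hwt : ∀ x : LmT lam mu w, x ∈ AddSubgroup.closure {y : LmT lam mu w |
      ∃ n : Fin 2 → ℤ, n 0 + n 1 = ℓ ∧
        ∀ (i : Fin 2) (k : ℕ), hZ i k • y = (Ring.choose (n i) k : ℤ) • y}) :
    ¬ ExtZero F ℓ lam mu := by
  intro hExt
  obtain ⟨i, q, hi, hq, hiu, hqu, hinj, hsurj, hex⟩ := Lm_maps lam mu w K1
  obtain ⟨t1, t2, t3⟩ := tensor_exact F (Lat mu) (LmT lam mu w) (Lat lam) i q hinj hsurj hex
    (fun n x hn hx => lat_tf lam n x hn hx)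
  obtain ⟨s, hs, hsq⟩ := hExt (F ⊗[ℤ] LmT lam mu w) (tensorAct F (LmT lam mu w))
    (i.baseChange F) (q.baseChange F) (tensor_integrable F _ hint) (tensor_weight F _ ℓ hwt)
    (tensor_hom F _ _ i hiu) (tensor_hom F _ _ q hqu) t1 t2 t3
  exact nonsplit F lam mu w η0 h1 tY h2 h3 h4 i q hi hq hiu t3 s hs hsq

end Pool.Agent.Helper840.AE
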