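import Pool.Agent.Helper840.AE.FockDefs
import Pool.Agent.Helper840.AE.FockDefs2
import Pool.Agent.Helper840.AE.P_EF
import Pool.Agent.Helper840.AE.P_HF
import Pool.Agent.Helper840.AE.P_HE

set_option autoImplicit false

namespace Pool.Agent.Helper840.AE

theorem loop_mem_Fm0_qloop_mem : Fm 0 = opF 1 := by
  unfold Fm opF
  simp

theorem loop_mem_Fm1_qloop_mem : Fm 1 = opE 0 := by
  unfold Fm opE
  norm_num

theorem loop_mem_Em0_qloop_mem : Em 0 = opE 1 := by
  unfold Em opE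
  simp

theorem loop_mem_Em1_qloop_mem : Em (-1) = opF 0 := by
  unfold Em opF
  norm_num

theorem loop_mem_half_qloop_mem : ((2 : ℂ)⁻¹) ∈ Rp := ⟨1, 2, by norm_num, by push_cast; norm_num⟩

theorem loop_mem_smul_qloop_mem (P : Submodule Rp Fk) (c : ℂ) (hc : c ∈ Rp) (x : Fk) (hx : x ∈ P) :
    c • x ∈ P := P.smul_mem ⟨c, hc⟩ hx

theorem loop_mem (P : Submodule Rp Fk) (hE : ∀ i x, x ∈ P → opE i x ∈ P)
    (hF : ∀ i x, x ∈ P → opF i x ∈ P) :
    (∀ (m : ℤ) x, x ∈ P → Fm m x ∈ P) ∧ (∀ (a : ℤ) x, x ∈ P → Em a x ∈ P) := by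
  have hF0 : ∀ x, x ∈ P → Fm 0 x ∈ P := fun x hx => by
    rw [loop_mem_Fm0_qloop_mem]
    exact hF 1 x hx
  have hF1 : ∀ x, x ∈ P → Fm 1 x ∈ P := fun x hx => by
    rw [loop_mem_Fm1_qloop_mem]
    exact hE 0 x hx
  have hE0 : ∀ x, x ∈ P → Em 0 x ∈ P := fun x hx => by
    rw [loop_mem_Em0_qloop_mem]
    exact hE 1 x hx
  have hE1 : ∀ x, x ∈ P → Em (-1) x ∈ P := fun x hx => by
    rw [loop_mem_Em1_qloop_mem]
    exact hF 0 x hx
  have hH1 : ∀ x, x ∈ P → Hm 1 x ∈ P := fun x hx => by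
    have h := EF 0 1 (by norm_num)
    rw [zero_add] at h
    rw [← h, LinearMap.sub_apply, Module.End.mul_apply, Module.End.mul_apply]
    exact P.sub_mem (hE0 _ (hF1 x hx)) (hF1 _ (hE0 x hx))
  have hH2 : ∀ x, x ∈ P → Hm (-1) x ∈ P := fun x hx => by
    have h := EF (-1) 0 (by norm_num)
    rw [add_zero] at h
    rw [← h, LinearMap.sub_apply, Module.End.mul_apply, Module.End.mul_apply]
    exact P.sub_mem (hE1 _ (hF0 x hx)) (hF0 _ (hE1 x hx))
  have hstepF : ∀ a : ℤ, a ≠ 0 → (∀ x, x ∈ P → Hm a x ∈ P) → ∀ m : ℤ,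
      (∀ x, x ∈ P → Fm m x ∈ P) → ∀ x, x ∈ P → Fm (a + m) x ∈ P := by
    intro a ha hHa m hm x hx
    have h := HF a m ha
    have h1 : Fm (a + m) x = (2 : ℂ)⁻¹ • (Fm m (Hm a x) - Hm a (Fm m x)) := by
      have h2 : (Hm a * Fm m - Fm m * Hm a) x = ((-2 : ℂ) • Fm (a + m)) x := by rw [h]
      rw [LinearMap.sub_apply, Module.End.mul_apply, Module.End.mul_apply,
        LinearMap.smul_apply] at h2
      have h3 : Fm m (Hm a x) - Hm a (Fm m x) = (2 : ℂ) • Fm (a + m) x := by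
        rw [← neg_sub, h2, neg_smul, neg_neg]
      rw [h3, smul_smul, inv_mul_cancel₀ two_ne_zero, one_smul]
    rw [h1]
    exact loop_mem_smul_qloop_mem P _ loop_mem_half_qloop_mem _ (P.sub_mem (hm _ (hHa x hx)) (hHa _ (hm x hx)))
  have hstepE : ∀ a : ℤ, a ≠ 0 → (∀ x, x ∈ P → Hm a x ∈ P) → ∀ m : ℤ,
      (∀ x, x ∈ P → Em m x ∈ P) → ∀ x, x ∈ P → Em (a + m) x ∈ P := by
    intro a ha hHa m hm x hx
    have h := HE a m ha
    have h1 : Em (a + m) x = (2 : ℂ)⁻¹ • (Hm a (Em m x) - Em m (Hm a x)) := by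
      have h2 : (Hm a * Em m - Em m * Hm a) x = ((2 : ℂ) • Em (a + m)) x := by rw [h]
      rw [LinearMap.sub_apply, Module.End.mul_apply, Module.End.mul_apply,
        LinearMap.smul_apply] at h2
      rw [h2, smul_smul, inv_mul_cancel₀ two_ne_zero, one_smul]
    rw [h1]
    exact loop_mem_smul_qloop_mem P _ loop_mem_half_qloop_mem _ (P.sub_mem (hHa _ (hm x hx)) (hm _ (hHa x hx)))
  constructor
  · intro m
    induction m using Int.induction_on with
    | zero => exact hF0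
    | succ i ih =>
      have := hstepF 1 one_ne_zero hH1 i ih
      rwa [add_comm] at this
    | pred i ih =>
      have := hstepF (-1) (by norm_num) hH2 (-(i : ℤ)) ih
      have e : (-1 : ℤ) + -(i : ℤ) = -(i : ℤ) - 1 := by ring
      rwa [e] at this
  · intro m
    induction m using Int.induction_on with
    | zero => exact hE0
    | succ i ih =>
      have := hstepE 1 one_ne_zero hH1 i ih
      rwa [add_comm] at this
    | pred i ih =>
      have := hstepE (-1) (by norm_num) hH2 (-(i : ℤ)) ih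
      have e : (-1 : ℤ) + -(i : ℤ) = -(i : ℤ) - 1 := by ring
      rwa [e] at this

end Pool.Agent.Helper840.AE
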