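import Pool.Agent.Helper840.AE.FockDefs
import Pool.Agent.Helper840.AE.FockDefs2

set_option autoImplicit false

namespace Pool.Agent.Helper840.AE

theorem rows_of_adm_four_qrows_of_adm (x a b z : ℤ) (zs : List ℤ) (h1 : x ≤ a) (h2 : a ≤ b) (h3 : b ≤ z)
    (hc : ∀ m, (x :: a :: b :: z :: zs).count m + (x :: a :: b :: z :: zs).count (m + 1) ≤ 3) :
    x + 2 ≤ z := by
  by_contra hlt
  have hcnt := hc x
  have ha : a = x ∨ a = x + 1 := by omega
  have hb : b = x ∨ b = x + 1 := by omega
  have hz : z = x ∨ z = x + 1 := by omega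
  rcases ha with rfl | rfl <;> rcases hb with rfl | rfl <;> rcases hz with rfl | rfl <;>
    simp [List.count_cons] at hcnt <;> omega

theorem rows_of_adm_sorted_qrows_of_adm (l : List ℤ) (hs : l.Pairwise (· ≤ ·))
    (hc : ∀ m, l.count m + l.count (m + 1) ≤ 3) :
    ∃ R0 R1 R2 : List ℤ, R0.head? = l[0]? ∧ R1.head? = l[1]? ∧ R2.head? = l[2]? ∧
      R0.Pairwise (fun x y => x + 2 ≤ y) ∧ R1.Pairwise (fun x y => x + 2 ≤ y) ∧
      R2.Pairwise (fun x y => x + 2 ≤ y) ∧ (R0 ++ R1 ++ R2).Perm l := by
  induction l with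
  | nil => exact ⟨[], [], [], by simp, by simp, by simp, by simp, by simp, by simp, by simp⟩
  | cons x l' ih =>
    rw [List.pairwise_cons] at hs
    obtain ⟨R0, R1, R2, e0, e1, e2, p0, p1, p2, hp⟩ := ih hs.2 (by
      intro m
      have := hc m
      rw [List.count_cons, List.count_cons] at this
      omega)
    refine ⟨x :: R2, R0, R1, by simp, by simpa using e0, by simpa using e1, ?_, p0, p1, ?_⟩
    · rw [List.pairwise_cons]
      refine ⟨?_, p2⟩
      intro y hy
      rcases R2 with _ | ⟨z, zs⟩
      · simp at hy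
      · have hz : x + 2 ≤ z := by
          rcases l' with _ | ⟨a, l'⟩
          · simp at e2
          rcases l' with _ | ⟨b, l'⟩
          · simp at e2
          rcases l' with _ | ⟨c, l'⟩
          · simp at e2
          have hcz : z = c := by simpa using e2
          subst hcz
          have ha : x ≤ a := hs.1 a (by simp)
          have hab : a ≤ b := (List.pairwise_cons.1 hs.2).1 b (by simp)
          have hbc : b ≤ z := (List.pairwise_cons.1 (List.pairwise_cons.1 hs.2).2).1 z (by simp)
          exact rows_of_adm_four_qrows_of_adm x a b z l' ha hab hbc hc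
        rcases List.mem_cons.1 hy with h | h
        · rw [h]; exact hz
        · have := (List.pairwise_cons.1 p2).1 y h
          omega
    · have h1 : (x :: R2 ++ R0 ++ R1).Perm (x :: (R0 ++ R1 ++ R2)) := by
        rw [List.cons_append, List.cons_append, List.append_assoc]
        exact List.Perm.cons x List.perm_append_comm
      exact h1.trans (List.Perm.cons x hp)

theorem rows_of_adm (t : ℤ) (κ : List ℤ) (h : AdmL t κ) :
    ∃ R : Fin 3 → List ℤ, (∀ r, goodRow t (R r)) ∧ (R 0 ++ R 1 ++ R 2).Perm κ := by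
  obtain ⟨h1, h2⟩ := h
  have hperm : (κ.insertionSort (· ≤ ·)).Perm κ := List.perm_insertionSort _ _
  obtain ⟨R0, R1, R2, -, -, -, p0, p1, p2, hp⟩ := rows_of_adm_sorted_qrows_of_adm
    (κ.insertionSort (· ≤ ·)) (List.pairwise_insertionSort _ _) (by
      intro m
      rw [hperm.count_eq, hperm.count_eq]
      exact h2 m)
  have hpp := hp.trans hperm
  refine ⟨![R0, R1, R2], ?_, hpp⟩
  intro r
  fin_cases r
  · exact ⟨p0, fun x hx => h1 x (hpp.subset (by simp [show x ∈ R0 from hx]))⟩
  · exact ⟨p1, fun x hx => h1 x (hpp.subset (by simp [show x ∈ R1 from hx]))⟩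
  · exact ⟨p2, fun x hx => h1 x (hpp.subset (by simp [show x ∈ R2 from hx]))⟩

end Pool.Agent.Helper840.AE
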