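import Pool.Agent.Helper840.AE.FockDefs
import Pool.Agent.Helper840.AE.FockDefs2
import Pool.Agent.Helper840.AE.P_evalHom
import Pool.Agent.Helper840.AE.P_rel4
import Pool.Agent.Helper840.AE.P_Fr_zN
import Pool.Agent.Helper840.AE.P_Fm_zN
import Pool.Agent.Helper840.AE.P_straight
import Pool.Agent.Helper840.AE.P_FL_perm

set_option autoImplicit false

namespace Pool.Agent.Helper840.AE

/-- the product of the variables of a list -/
noncomputable def spanAdm_P_qspanAdm (t : ℤ) (l : List ℤ) : MvPolynomial ℕ ℂ :=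
  (l.map (fun m => (MvPolynomial.X ((t - m).toNat) : MvPolynomial ℕ ℂ))).prod

/-- the exponent vector of a list -/
noncomputable def spanAdm_k_qspanAdm (t : ℤ) (l : List ℤ) : ℕ →₀ ℕ :=
  (l.map (fun m => (Finsupp.single ((t - m).toNat) 1 : ℕ →₀ ℕ))).sum

lemma spanAdm_P_eq_qspanAdm (t : ℤ) (l : List ℤ) :
    spanAdm_P_qspanAdm t l = MvPolynomial.monomial (spanAdm_k_qspanAdm t l) 1 := by
  induction l with
  | nil => simp [spanAdm_P_qspanAdm, spanAdm_k_qspanAdm]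
  | cons m l ih =>
    unfold spanAdm_P_qspanAdm spanAdm_k_qspanAdm at ih ⊢
    rw [List.map_cons, List.prod_cons, ih, List.map_cons, List.sum_cons, MvPolynomial.X,
      MvPolynomial.monomial_mul, one_mul]

lemma spanAdm_phi_qspanAdm (t : ℤ) (φ : MvPolynomial ℕ ℂ →ₐ[ℂ] Module.End ℂ Fk)
    (hφ : ∀ j : ℕ, φ (MvPolynomial.X j) = Fm (t - j)) (l : List ℤ) (hl : ∀ m ∈ l, m ≤ t) :
    φ (spanAdm_P_qspanAdm t l) = FL l := by
  unfold spanAdm_P_qspanAdm FL
  rw [map_list_prod, List.map_map]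
  congr 1
  apply List.map_congr_left
  intro m hm
  simp only [Function.comp]
  have := hl m hm
  rw [hφ, Int.toNat_of_nonneg (by omega)]
  congr 1; ring

/-- the product of the factorials -/
noncomputable def spanAdm_n_qspanAdm (κ : ℕ →₀ ℕ) : ℕ := κ.prod (fun _ a => a.factorial)

lemma spanAdm_n_ne_qspanAdm (κ : ℕ →₀ ℕ) : (spanAdm_n_qspanAdm κ : ℂ) ≠ 0 := by
  unfold spanAdm_n_qspanAdm Finsupp.prod
  rw [Nat.cast_ne_zero]
  exact Finset.prod_ne_zero_iff.2 (fun _ _ => Nat.factorial_ne_zero _)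

lemma spanAdm_dmono_qspanAdm (κ : ℕ →₀ ℕ) :
    MvPolynomial.monomial κ (1 : ℂ) = (spanAdm_n_qspanAdm κ : ℂ) • dmono κ := by
  unfold dmono spanAdm_n_qspanAdm
  rw [MvPolynomial.smul_monomial, smul_eq_mul]
  congr 1
  unfold Finsupp.prod
  push_cast
  rw [← Finset.prod_mul_distrib]
  symm
  apply Finset.prod_eq_one
  intro i _
  exact mul_inv_cancel₀ (Nat.cast_ne_zero.2 (Nat.factorial_ne_zero _))

lemma spanAdm_dmono'_qspanAdm (κ : ℕ →₀ ℕ) :
    dmono κ = (spanAdm_n_qspanAdm κ : ℂ)⁻¹ • MvPolynomial.monomial κ (1 : ℂ) := by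
  rw [spanAdm_dmono_qspanAdm, smul_smul, inv_mul_cancel₀ (spanAdm_n_ne_qspanAdm κ), one_smul]

lemma spanAdm_sum_apply_qspanAdm (L : List ℕ) (j : ℕ) :
    ((L.map (fun i => (Finsupp.single i 1 : ℕ →₀ ℕ))).sum : ℕ →₀ ℕ) j = L.count j := by
  induction L with
  | nil => simp
  | cons a L ih =>
    rw [List.map_cons, List.sum_cons, Finsupp.add_apply, ih, List.count_cons, add_comm]
    congr 1
    rw [Finsupp.single_apply]
    by_cases h : a = j
    · simp [h]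
    · simp [h]

/-- the list of an exponent vector -/
noncomputable def spanAdm_L_qspanAdm (t : ℤ) (κ : ℕ →₀ ℕ) : List ℤ :=
  (Finsupp.toMultiset κ).toList.map (fun j : ℕ => t - (j : ℤ))

lemma spanAdm_L_le_qspanAdm (t : ℤ) (κ : ℕ →₀ ℕ) : ∀ m ∈ spanAdm_L_qspanAdm t κ, m ≤ t := by
  intro m hm
  unfold spanAdm_L_qspanAdm at hm
  obtain ⟨j, _, rfl⟩ := List.mem_map.1 hm
  omega

lemma spanAdm_count_qspanAdm (κ : ℕ →₀ ℕ) (j : ℕ) : (Finsupp.toMultiset κ).toList.count j = κ j := by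
  rw [← Multiset.coe_count, Multiset.coe_toList, Finsupp.count_toMultiset]

lemma spanAdm_L_count_qspanAdm (t : ℤ) (κ : ℕ →₀ ℕ) (j : ℕ) :
    (spanAdm_L_qspanAdm t κ).count (t - (j : ℤ)) = κ j := by
  unfold spanAdm_L_qspanAdm
  rw [List.count_map_of_injective _ (fun j : ℕ => t - (j : ℤ)) (by intro a b h; simp at h; exact h)]
  exact spanAdm_count_qspanAdm κ j

lemma spanAdm_L_count0_qspanAdm (t : ℤ) (κ : ℕ →₀ ℕ) (m : ℤ) (hm : t < m) :
    (spanAdm_L_qspanAdm t κ).count m = 0 := by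
  rw [List.count_eq_zero]
  intro h
  have := spanAdm_L_le_qspanAdm t κ m h
  omega

lemma spanAdm_k_L_qspanAdm (t : ℤ) (κ : ℕ →₀ ℕ) : spanAdm_k_qspanAdm t (spanAdm_L_qspanAdm t κ) = κ := by
  unfold spanAdm_k_qspanAdm spanAdm_L_qspanAdm
  rw [List.map_map]
  have h : ((fun m : ℤ => (Finsupp.single ((t - m).toNat) 1 : ℕ →₀ ℕ)) ∘
      (fun j : ℕ => t - (j : ℤ))) = (fun i => (Finsupp.single i 1 : ℕ →₀ ℕ)) := by
    funext j
    simp
  rw [h]
  ext j
  rw [spanAdm_sum_apply_qspanAdm, spanAdm_count_qspanAdm]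

lemma spanAdm_AdmL_qspanAdm (t : ℤ) (κ : ℕ →₀ ℕ) (h : Adm κ) : AdmL t (spanAdm_L_qspanAdm t κ) := by
  refine ⟨spanAdm_L_le_qspanAdm t κ, fun m => ?_⟩
  rcases lt_trichotomy m t with hm | hm | hm
  · obtain ⟨j, hj⟩ := Int.eq_ofNat_of_zero_le (a := t - m - 1) (by omega)
    have h1 : m = t - ((j + 1 : ℕ) : ℤ) := by push_cast; omega
    have h2 : m + 1 = t - ((j : ℕ) : ℤ) := by omega
    rw [h2, spanAdm_L_count_qspanAdm, h1, spanAdm_L_count_qspanAdm]
    have := h j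
    omega
  · have h1 : m = t - ((0 : ℕ) : ℤ) := by push_cast; omega
    rw [spanAdm_L_count0_qspanAdm t κ (m + 1) (by omega), h1, spanAdm_L_count_qspanAdm]
    have := h 0
    omega
  · rw [spanAdm_L_count0_qspanAdm t κ (m + 1) (by omega), spanAdm_L_count0_qspanAdm t κ m hm]
    norm_num

lemma spanAdm_23_qspanAdm (κ : ℕ →₀ ℕ) (h : Adm κ) : ¬ 23 ∣ spanAdm_n_qspanAdm κ := by
  unfold spanAdm_n_qspanAdm Finsupp.prod
  intro hd
  obtain ⟨j, _, hj⟩ := (Nat.Prime.prime (by norm_num : Nat.Prime 23)).exists_mem_finset_dvd hd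
  have h1 : κ j ≤ 3 := by have := h j; omega
  have h2 : κ j = 0 ∨ κ j = 1 ∨ κ j = 2 ∨ κ j = 3 := by omega
  have hj2 : 23 ∣ (κ j).factorial := hj
  rcases h2 with h2 | h2 | h2 | h2 <;> rw [h2] at hj2 <;> revert hj2 <;> decide

theorem spanAdm (N : ℕ) (l : List ℤ) : FL l (zN N) ∈
    Submodule.span Rp {x | ∃ l' : List ℤ, AdmL (2 * (N : ℤ)) l' ∧ x = FL l' (zN N)} := by
  set M : Submodule Rp Fk := Submodule.span Rp
    {x | ∃ l' : List ℤ, AdmL (2 * (N : ℤ)) l' ∧ x = FL l' (zN N)} with hM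
  by_cases hl : ∀ m ∈ l, m ≤ 2 * (N : ℤ)
  swap
  · push Not at hl
    obtain ⟨m, hm, hmN⟩ := hl
    have hp : l.Perm (l.erase m ++ [m]) :=
      (List.perm_cons_erase hm).trans (List.perm_append_singleton m (l.erase m)).symm
    have h0 : FL l (zN N) = 0 := by
      rw [FL_perm _ _ hp]
      unfold FL
      rw [List.map_append, List.prod_append]
      simp only [List.map_cons, List.map_nil, List.prod_cons, List.prod_nil, mul_one]
      rw [Module.End.mul_apply, Fm_zN N m hmN, map_zero]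
    rw [h0]
    exact M.zero_mem
  obtain ⟨φ, hφ⟩ := evalHom (2 * (N : ℤ))
  -- the ideal kills zN
  have hkill : ∀ p ∈ Ideal.span (Set.range relP), φ p (zN N) = 0 := by
    intro p hp
    refine Submodule.span_induction (p := fun p _ => φ p (zN N) = 0) ?_ ?_ ?_ ?_ hp
    · rintro _ ⟨s, rfl⟩
      have h4 := rel4 (2 * (N : ℤ)) (zN N) (fun r m hm => Fr_zN N r m hm) s
      unfold relP
      rw [map_sum, LinearMap.sum_apply]
      refine Eq.trans ?_ h4
      apply Finset.sum_congr rfl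
      intro q _
      rw [Fin.prod_univ_four, map_mul, map_mul, map_mul, hφ, hφ, hφ, hφ]
    · simp
    · intro x y _ _ hx hy
      rw [map_add, LinearMap.add_apply, hx, hy, add_zero]
    · intro a x _ hx
      rw [smul_eq_mul, map_mul, Module.End.mul_apply, hx, map_zero]
  have hadm : ∀ κ : ℕ →₀ ℕ, Adm κ → φ (dmono κ) (zN N) ∈ M := by
    intro κ hκ
    have h1 : φ (MvPolynomial.monomial κ (1 : ℂ)) = FL (spanAdm_L_qspanAdm (2 * (N : ℤ)) κ) := by
      rw [← spanAdm_phi_qspanAdm (2 * (N : ℤ)) φ hφ _ (spanAdm_L_le_qspanAdm _ κ), spanAdm_P_eq_qspanAdm, spanAdm_k_L_qspanAdm]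
    rw [spanAdm_dmono'_qspanAdm κ, map_smul, h1, LinearMap.smul_apply]
    have hmem : FL (spanAdm_L_qspanAdm (2 * (N : ℤ)) κ) (zN N) ∈ M :=
      Submodule.subset_span ⟨_, spanAdm_AdmL_qspanAdm _ κ hκ, rfl⟩
    have hr : ((spanAdm_n_qspanAdm κ : ℂ)⁻¹) ∈ Rp :=
      ⟨1, spanAdm_n_qspanAdm κ, spanAdm_23_qspanAdm κ hκ, by
        rw [mul_inv_cancel₀ (spanAdm_n_ne_qspanAdm κ)]; simp⟩
    exact M.smul_mem ⟨_, hr⟩ hmem
  obtain ⟨c, hc, hstr⟩ := straight (spanAdm_k_qspanAdm (2 * (N : ℤ)) l)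
  have hkl := hkill _ hstr
  rw [map_sub, LinearMap.sub_apply, sub_eq_zero] at hkl
  have hFL : FL l (zN N) = (spanAdm_n_qspanAdm (spanAdm_k_qspanAdm (2 * (N : ℤ)) l) : ℂ) •
      φ (dmono (spanAdm_k_qspanAdm (2 * (N : ℤ)) l)) (zN N) := by
    rw [← spanAdm_phi_qspanAdm (2 * (N : ℤ)) φ hφ l hl, spanAdm_P_eq_qspanAdm, spanAdm_dmono_qspanAdm, map_smul,
      LinearMap.smul_apply]
  have hmem : φ (dmono (spanAdm_k_qspanAdm (2 * (N : ℤ)) l)) (zN N) ∈ M := by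
    rw [hkl]
    unfold Finsupp.sum
    rw [map_sum, LinearMap.sum_apply]
    apply M.sum_mem
    intro κ' hκ'
    rw [map_smul, LinearMap.smul_apply]
    have h := M.smul_mem ((c κ' : ℤ) : Rp) (hadm κ' (hc κ' hκ'))
    have h2 : ((c κ' : ℤ) : Rp) • φ (dmono κ') (zN N) = ((c κ' : ℤ) : ℂ) • φ (dmono κ') (zN N) := by
      rw [Subring.smul_def]
      simp
    rw [h2] at h
    exact h
  rw [hFL]
  have h := M.smul_mem ((spanAdm_n_qspanAdm (spanAdm_k_qspanAdm (2 * (N : ℤ)) l) : ℕ) : Rp) hmem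
  have h2 : ((spanAdm_n_qspanAdm (spanAdm_k_qspanAdm (2 * (N : ℤ)) l) : ℕ) : Rp) •
      φ (dmono (spanAdm_k_qspanAdm (2 * (N : ℤ)) l)) (zN N) =
      (spanAdm_n_qspanAdm (spanAdm_k_qspanAdm (2 * (N : ℤ)) l) : ℂ) •
        φ (dmono (spanAdm_k_qspanAdm (2 * (N : ℤ)) l)) (zN N) := by
    rw [Subring.smul_def]
    simp
  rw [h2] at h
  exact h

end Pool.Agent.Helper840.AE
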