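import Pool.Agent.Helper840.AE.FockDefs
import Pool.Agent.Helper840.AE.FockDefs2
import Pool.Agent.Helper840.AE.P_DN_occ

set_option autoImplicit false

namespace Pool.Agent.Helper840.AE

theorem occ_tog_self352_qCst_occ (D : Finset Site) (i : Site) : occ (tog i D) i ↔ ¬ occ D i := by
  unfold occ tog
  by_cases h : i ∈ D <;> by_cases h2 : i.2 < 0 <;> simp [h, h2]

theorem occ_tog_ne352_qCst_occ (D : Finset Site) {i j : Site} (hij : j ≠ i) :
    occ (tog i D) j ↔ occ D j := by
  unfold occ tog
  by_cases h : i ∈ D <;> by_cases h2 : j.2 < 0 <;> simp [h, h2, hij]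

theorem Crow_other352_qCst_occ (N : ℕ) (r : Fin 3) (l : List ℤ) (D : Finset Site) (r' : Fin 3)
    (hr : r' ≠ r) (j : ℤ) : occ (Crow N r l D) (r', j) ↔ occ D (r', j) := by
  induction l with
  | nil => rfl
  | cons x xs ih =>
    show occ (tog (bS N r xs.length x) (tog (aS N r xs.length) (Crow N r xs D))) (r', j) ↔ _
    rw [occ_tog_ne352_qCst_occ, occ_tog_ne352_qCst_occ, ih]
    · intro h
      exact hr (congrArg Prod.fst h)
    · intro h
      exact hr (congrArg Prod.fst h)

theorem gap352_qCst_occ (x : ℤ) (xs : List ℤ) (h : (x :: xs).Pairwise (fun x y => x + 2 ≤ y)) (y : ℤ)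
    (ys : List ℤ) (hs : (y :: ys) <:+ xs) :
    x + 2 * ((xs.length : ℤ) - ys.length) ≤ y ∧ ys.length < xs.length := by
  induction xs generalizing x with
  | nil => simp at hs
  | cons z zs ih =>
    have h1 : x + 2 ≤ z := (List.pairwise_cons.1 h).1 z (by simp)
    rcases List.suffix_cons_iff.1 hs with h2 | h2
    · obtain ⟨rfl, rfl⟩ := List.cons.inj h2
      simp only [List.length_cons]
      push_cast
      constructor
      · linarith
      · omega
    · obtain ⟨h3, h4⟩ := ih z (List.pairwise_cons.1 h).2 h2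
      simp only [List.length_cons]
      push_cast
      constructor
      · linarith
      · omega

theorem top352_qCst_occ (t x : ℤ) (xs : List ℤ) (h : goodRow t (x :: xs)) :
    x + 2 * (xs.length : ℤ) ≤ t := by
  induction xs generalizing x with
  | nil =>
    have := h.2 x (by simp)
    simpa using this
  | cons z zs ih =>
    have h1 : x + 2 ≤ z := (List.pairwise_cons.1 h.1).1 z (by simp)
    have h2 := ih z ⟨(List.pairwise_cons.1 h.1).2, fun w hw => h.2 w (List.mem_cons_of_mem _ hw)⟩
    simp only [List.length_cons]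
    push_cast
    linarith

theorem Crow_row352_qCst_occ (N : ℕ) (r : Fin 3) (D : Finset Site)
    (hD : ∀ k : ℤ, (occ D (r, 2 * k - 1) ↔ k ≤ N) ∧ (occ D (r, 2 * k) ↔ k < -(N : ℤ)))
    (l : List ℤ) (hl : goodRow (2 * (N : ℤ)) l) (k : ℤ) :
    (occ (Crow N r l D) (r, 2 * k - 1) ↔ k ≤ (N : ℤ) - l.length) ∧
    (occ (Crow N r l D) (r, 2 * k) ↔
      (k < -(N : ℤ) ∨ ∃ x xs, (x :: xs) <:+ l ∧ k = (N : ℤ) - xs.length - x)) := by
  induction l generalizing k with
  | nil =>
    refine ⟨?_, ?_⟩
    · simpa [Crow] using (hD k).1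
    · simpa [Crow] using (hD k).2
  | cons x xs ih =>
    have hxs : goodRow (2 * (N : ℤ)) xs :=
      ⟨(List.pairwise_cons.1 hl.1).2, fun w hw => hl.2 w (List.mem_cons_of_mem _ hw)⟩
    have e : Crow N r (x :: xs) D =
      tog (bS N r xs.length x) (tog (aS N r xs.length) (Crow N r xs D)) := rfl
    rw [e]
    constructor
    · rw [occ_tog_ne352_qCst_occ _ (show ((r, 2 * k - 1) : Site) ≠ bS N r xs.length x by
        intro h
        have := congrArg Prod.snd h
        simp only [bS] at this
        omega)]
      by_cases hk : k = (N : ℤ) - xs.length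
      · have e2 : ((r, 2 * k - 1) : Site) = aS N r xs.length := by rw [hk]; rfl
        rw [e2, occ_tog_self352_qCst_occ, ← e2, (ih hxs k).1]
        simp only [List.length_cons]
        push_cast
        constructor
        · intro h; omega
        · intro h; omega
      · rw [occ_tog_ne352_qCst_occ _ (show ((r, 2 * k - 1) : Site) ≠ aS N r xs.length by
          intro h
          have := congrArg Prod.snd h
          simp only [aS] at this
          omega), (ih hxs k).1]
        simp only [List.length_cons]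
        push_cast
        constructor
        · intro h; omega
        · intro h; omega
    · have hne : ∀ k' : ℤ, ((r, 2 * k') : Site) ≠ aS N r xs.length := by
        intro k' h
        have := congrArg Prod.snd h
        simp only [aS] at this
        omega
      by_cases hk : k = (N : ℤ) - xs.length - x
      · have e2 : ((r, 2 * k) : Site) = bS N r xs.length x := by rw [hk]; rfl
        rw [e2, occ_tog_self352_qCst_occ, ← e2, occ_tog_ne352_qCst_occ _ (hne k), (ih hxs k).2]
        constructor
        · intro _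
          exact Or.inr ⟨x, xs, List.suffix_refl _, hk⟩
        · intro _ h
          rcases h with h | ⟨y, ys, hs, hy⟩
          · have := top352_qCst_occ _ x xs hl
            omega
          · have := gap352_qCst_occ x xs hl.1 y ys hs
            omega
      · rw [occ_tog_ne352_qCst_occ _ (show ((r, 2 * k) : Site) ≠ bS N r xs.length x by
          intro h
          have := congrArg Prod.snd h
          simp only [bS] at this
          omega), occ_tog_ne352_qCst_occ _ (hne k), (ih hxs k).2]
        constructor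
        · rintro (h | ⟨y, ys, hs, hy⟩)
          · exact Or.inl h
          · exact Or.inr ⟨y, ys, hs.trans (List.suffix_cons x xs), hy⟩
        · rintro (h | ⟨y, ys, hs, hy⟩)
          · exact Or.inl h
          · rcases List.suffix_cons_iff.1 hs with h2 | h2
            · obtain ⟨rfl, rfl⟩ := List.cons.inj h2
              exact absurd hy hk
            · exact Or.inr ⟨y, ys, h2, hy⟩

/-- occupied sites of the state of a triple of good rows -/
theorem Cst_occ (N : ℕ) (R : Fin 3 → List ℤ) (hR : ∀ r, goodRow (2 * (N : ℤ)) (R r)) (r : Fin 3)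
    (k : ℤ) :
    (occ (Cst N R) (r, 2 * k - 1) ↔ k ≤ (N : ℤ) - (R r).length) ∧
    (occ (Cst N R) (r, 2 * k) ↔
      (k < -(N : ℤ) ∨ ∃ x xs, (x :: xs) <:+ R r ∧ k = (N : ℤ) - xs.length - x)) := by
  have h01 : (0 : Fin 3) ≠ 1 := by decide
  have h02 : (0 : Fin 3) ≠ 2 := by decide
  have h12 : (1 : Fin 3) ≠ 2 := by decide
  have h10 : (1 : Fin 3) ≠ 0 := by decide
  have h20 : (2 : Fin 3) ≠ 0 := by decide
  have h21 : (2 : Fin 3) ≠ 1 := by decide
  unfold Cst
  have hcases : r = 0 ∨ r = 1 ∨ r = 2 := by
    revert r; decide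
  rcases hcases with rfl | rfl | rfl
  · rw [Crow_other352_qCst_occ N 2 (R 2) _ 0 h02, Crow_other352_qCst_occ N 2 (R 2) _ 0 h02,
      Crow_other352_qCst_occ N 1 (R 1) _ 0 h01, Crow_other352_qCst_occ N 1 (R 1) _ 0 h01]
    exact Crow_row352_qCst_occ N 0 _ (fun k => DN_occ N 0 k) _ (hR 0) k
  · rw [Crow_other352_qCst_occ N 2 (R 2) _ 1 h12, Crow_other352_qCst_occ N 2 (R 2) _ 1 h12]
    refine Crow_row352_qCst_occ N 1 _ (fun k => ?_) _ (hR 1) k
    rw [Crow_other352_qCst_occ N 0 (R 0) _ 1 h10, Crow_other352_qCst_occ N 0 (R 0) _ 1 h10]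
    exact DN_occ N 1 k
  · refine Crow_row352_qCst_occ N 2 _ (fun k => ?_) _ (hR 2) k
    rw [Crow_other352_qCst_occ N 1 (R 1) _ 2 h21, Crow_other352_qCst_occ N 1 (R 1) _ 2 h21,
      Crow_other352_qCst_occ N 0 (R 0) _ 2 h20, Crow_other352_qCst_occ N 0 (R 0) _ 2 h20]
    exact DN_occ N 2 k

end Pool.Agent.Helper840.AE
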