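import Pool.Agent.Helper840.AE.FockDefs
import Pool.Agent.Helper840.AE.FockDefs2
import Pool.Agent.Helper840.AE.P_X_ket

set_option autoImplicit false

namespace Pool.Agent.Helper840.AE

theorem aux_mem_tog_qFm_coef (i j : Site) (D : Finset Site) :
    j ∈ tog i D ↔ (if j = i then j ∉ D else j ∈ D) := by
  unfold tog
  by_cases h : i ∈ D
  · rw [if_pos h]
    by_cases hj : j = i
    · subst hj; simp [h]
    · simp [hj]
  · rw [if_neg h]
    by_cases hj : j = i
    · subst hj; simp [h]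
    · simp [hj]

theorem aux_tog_tog_qFm_coef (i : Site) (D : Finset Site) : tog i (tog i D) = D := by
  ext j
  rw [aux_mem_tog_qFm_coef, aux_mem_tog_qFm_coef]
  by_cases hj : j = i
  · simp [hj]
  · simp [hj]

theorem aux_occ_self_qFm_coef (i : Site) (D : Finset Site) : occ (tog i D) i ↔ ¬ occ D i := by
  unfold occ
  by_cases h : i.2 < 0
  · rw [if_pos h, if_pos h, aux_mem_tog_qFm_coef]; simp
  · rw [if_neg h, if_neg h, aux_mem_tog_qFm_coef]; simp

theorem aux_occ_ne_qFm_coef (i j : Site) (hij : j ≠ i) (D : Finset Site) : occ (tog i D) j ↔ occ D j := by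
  unfold occ
  by_cases h : j.2 < 0
  · rw [if_pos h, if_pos h, aux_mem_tog_qFm_coef]; simp [hij]
  · rw [if_neg h, if_neg h, aux_mem_tog_qFm_coef]; simp [hij]

theorem Fm_coef (m : ℤ) (x : Fk) (C : Finset Site) (h : (Fm m x) C ≠ 0) :
    ∃ a : Site, a.2 % 2 = 1 ∧ ¬ occ C a ∧ occ C (sh (1 - 2 * m) a) ∧
      x (tog a (tog (sh (1 - 2 * m) a) C)) ≠ 0 := by
  have e1 : (Fm m x) C = ∑ D ∈ x.support, x D * ∑ i ∈ box (bd D + (1 - 2 * m).natAbs),
      podd i * (X (sh (1 - 2 * m) i) i (ket D)) C := by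
    unfold Fm S
    rw [Finsupp.linearCombination_apply, Finsupp.sum, Finsupp.finsetSum_apply]
    refine Finset.sum_congr rfl fun D _ => ?_
    rw [Finsupp.smul_apply, smul_eq_mul, Finsupp.finsetSum_apply]
    congr 1
  rw [e1] at h
  obtain ⟨D, hD, h2⟩ := Finset.exists_ne_zero_of_sum_ne_zero h
  have hxD : x D ≠ 0 := left_ne_zero_of_mul h2
  obtain ⟨i, hi, h3⟩ := Finset.exists_ne_zero_of_sum_ne_zero (right_ne_zero_of_mul h2)
  have hodd : i.2 % 2 = 1 := by
    by_contra hcon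
    exact (left_ne_zero_of_mul h3) (by unfold podd; rw [if_neg hcon])
  have hX := right_ne_zero_of_mul h3
  have hne : sh (1 - 2 * m) i ≠ i := by
    intro he
    have : i.2 + (1 - 2 * m) = i.2 := congrArg Prod.snd he
    omega
  obtain ⟨ε, -, hε⟩ := X_ket (sh (1 - 2 * m) i) i hne D
  rw [hε] at hX
  by_cases hc : occ D i ∧ ¬ occ D (sh (1 - 2 * m) i)
  · rw [if_pos hc] at hX
    have hC : C = tog (sh (1 - 2 * m) i) (tog i D) := by
      by_contra hcon
      apply hX
      unfold ket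
      rw [Finsupp.smul_apply, Finsupp.single_apply, if_neg (Ne.symm hcon), smul_zero]
    refine ⟨i, hodd, ?_, ?_, ?_⟩
    · rw [hC, aux_occ_ne_qFm_coef _ _ hne.symm, aux_occ_self_qFm_coef]; exact not_not.2 hc.1
    · rw [hC, aux_occ_self_qFm_coef, aux_occ_ne_qFm_coef _ _ hne]; exact hc.2
    · rw [hC, aux_tog_tog_qFm_coef, aux_tog_tog_qFm_coef]; exact hxD
  · rw [if_neg hc] at hX
    exact absurd rfl hX

end Pool.Agent.Helper840.AE
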