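import Pool.Agent.Helper840.AE.FockDefs
import Pool.Agent.Helper840.AE.FockDefs2
import Pool.Agent.Helper840.AE.P_Fm_coef

set_option autoImplicit false

namespace Pool.Agent.Helper840.AE

theorem FL_supp_occ_ne_qFL_supp (D : Finset Site) (i j : Site) (h : i ≠ j) :
    occ (tog j D) i ↔ occ D i := by
  unfold occ tog
  by_cases hj : j ∈ D
  · simp only [hj, if_true, Finset.mem_erase, ne_eq, h, not_false_eq_true, true_and]
  · simp only [hj, if_false, Finset.mem_insert, h, false_or]

/-- an `F`-word applied to `z_N` only empties odd sites and fills even sites -/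
theorem FL_supp (N : ℕ) (l : List ℤ) (D : Finset Site) (h : (FL l (zN N)) D ≠ 0) :
    (∀ i : Site, i.2 % 2 = 1 → occ D i → occ (DN N) i) ∧
      (∀ i : Site, i.2 % 2 = 0 → occ (DN N) i → occ D i) := by
  induction l generalizing D with
  | nil =>
    have h1 : D = DN N := by
      by_contra hne
      apply h
      have h2 : FL [] (zN N) = zN N := by simp [FL]
      rw [h2]
      unfold zN ket
      rw [Finsupp.single_apply, if_neg (fun h3 => hne h3.symm)]
    subst h1
    exact ⟨fun _ _ h => h, fun _ _ h => h⟩
  | cons m l ih =>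
    have h1 : FL (m :: l) (zN N) = Fm m (FL l (zN N)) := by
      simp [FL, Module.End.mul_apply]
    rw [h1] at h
    obtain ⟨a, ha, hna, hb, hx⟩ := Fm_coef m _ D h
    obtain ⟨ih1, ih2⟩ := ih _ hx
    set b := sh (1 - 2 * m) a with hbdef
    have hbp : b.2 % 2 = 0 := by
      rw [hbdef]
      unfold sh
      show (a.2 + (1 - 2 * m)) % 2 = 0
      omega
    constructor
    · intro i hi hocc
      apply ih1 i hi
      have hia : i ≠ a := by rintro rfl; exact hna hocc
      have hib : i ≠ b := by rintro rfl; omega
      rw [FL_supp_occ_ne_qFL_supp _ _ _ hia, FL_supp_occ_ne_qFL_supp _ _ _ hib]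
      exact hocc
    · intro i hi hocc
      by_cases hib : i = b
      · rw [hib]; exact hb
      · have hia : i ≠ a := by rintro rfl; omega
        have h3 := ih2 i hi hocc
        rwa [FL_supp_occ_ne_qFL_supp _ _ _ hia, FL_supp_occ_ne_qFL_supp _ _ _ hib] at h3

end Pool.Agent.Helper840.AE
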