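import Pool.Agent.Helper840.AE.FockDefs
import Pool.Agent.Helper840.AE.FockDefs2
import Pool.Agent.Helper840.AE.P_FL_perm
import Pool.Agent.Helper840.AE.P_FL_supp
import Pool.Agent.Helper840.AE.P_Fm_coef
import Pool.Agent.Helper840.AE.P_DN_occ
import Pool.Agent.Helper840.AE.P_Cst_occ

set_option autoImplicit false

namespace Pool.Agent.Helper840.AE

/-! helper lemmas -/

theorem h170_mem_tog_qtri_ne (i j : Site) (D : Finset Site) : j ∈ tog i D ↔ (if j = i then j ∉ D else j ∈ D) := by
  unfold tog
  by_cases hi : i ∈ D
  · rw [if_pos hi, Finset.mem_erase]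
    by_cases hj : j = i
    · subst hj; simp [hi]
    · simp [hj]
  · rw [if_neg hi, Finset.mem_insert]
    by_cases hj : j = i
    · subst hj; simp [hi]
    · simp [hj]

theorem h170_tog_comm_qtri_ne (i j : Site) (D : Finset Site) : tog i (tog j D) = tog j (tog i D) := by
  by_cases hij : i = j
  · rw [hij]
  ext s
  simp only [h170_mem_tog_qtri_ne]
  by_cases h1 : s = i
  · subst h1
    simp [hij]
  · by_cases h2 : s = j
    · subst h2
      simp [h1]
    · simp [h1, h2]

theorem h170_tog_tog_qtri_ne (i : Site) (D : Finset Site) : tog i (tog i D) = D := by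
  ext s
  simp only [h170_mem_tog_qtri_ne]
  by_cases h1 : s = i <;> simp [h1]

theorem h170_occ_tog_qtri_ne (i j : Site) (D : Finset Site) : occ (tog i D) j ↔ (if j = i then ¬ occ D j else occ D j) := by
  unfold occ
  by_cases h0 : j.2 < 0
  · rw [if_pos h0, if_pos h0, h170_mem_tog_qtri_ne]
    by_cases h1 : j = i <;> simp [h1]
  · rw [if_neg h0, if_neg h0, h170_mem_tog_qtri_ne]

theorem h170_Crow_tog_qtri_ne (N : ℕ) (r : Fin 3) (i : Site) (l : List ℤ) (D : Finset Site) :
    Crow N r l (tog i D) = tog i (Crow N r l D) := by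
  induction l with
  | nil => rfl
  | cons x xs ih =>
    simp only [Crow]
    rw [ih, h170_tog_comm_qtri_ne _ i, h170_tog_comm_qtri_ne _ i]

theorem h170_Cst_update_qtri_ne (N : ℕ) (R : Fin 3 → List ℤ) (r : Fin 3) (y : ℤ) (ys : List ℤ) (h : R r = y :: ys) :
    Cst N R = tog (bS N r ys.length y) (tog (aS N r ys.length) (Cst N (Function.update R r ys))) := by
  fin_cases r
  · simp only [Fin.zero_eta] at h ⊢
    unfold Cst
    rw [h]
    simp only [Crow, h170_Crow_tog_qtri_ne, Function.update_self]
    rfl
  · simp only [Fin.mk_one] at h ⊢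
    unfold Cst
    rw [h]
    simp only [Crow, h170_Crow_tog_qtri_ne, Function.update_self]
    rfl
  · simp only [Fin.reduceFinMk] at h ⊢
    unfold Cst
    rw [h]
    simp only [Crow, h170_Crow_tog_qtri_ne, Function.update_self]
    rfl

theorem h170_perm_update_qtri_ne (R : Fin 3 → List ℤ) (r : Fin 3) (y : ℤ) (ys : List ℤ) (h : R r = y :: ys) :
    (R 0 ++ R 1 ++ R 2).Perm (y :: (Function.update R r ys 0 ++ Function.update R r ys 1 ++ Function.update R r ys 2)) := by
  rw [List.perm_iff_count]
  intro a
  fin_cases r
  · simp only [Fin.zero_eta] at h ⊢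
    have e1 : Function.update R 0 ys 1 = R 1 := rfl
    have e2 : Function.update R 0 ys 2 = R 2 := rfl
    rw [h, Function.update_self, e1, e2]
    simp
  · simp only [Fin.mk_one] at h ⊢
    have e1 : Function.update R 1 ys 0 = R 0 := rfl
    have e2 : Function.update R 1 ys 2 = R 2 := rfl
    rw [h, Function.update_self, e1, e2]
    simp only [List.count_append, List.count_cons]
    omega
  · simp only [Fin.reduceFinMk] at h ⊢
    have e1 : Function.update R 2 ys 0 = R 0 := rfl
    have e2 : Function.update R 2 ys 1 = R 1 := rfl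
    rw [h, Function.update_self, e1, e2]
    simp only [List.count_append, List.count_cons]
    omega

/-- in a good row the entries grow by at least two per step -/
theorem h170_row_qtri_ne (pre : List ℤ) (x : ℤ) (xs : List ℤ) (y : ℤ) (ys : List ℤ)
    (hp : (y :: ys).Pairwise (fun x y => x + 2 ≤ y)) (h : y :: ys = pre ++ x :: xs) :
    y + 2 * pre.length ≤ x := by
  induction pre generalizing y ys with
  | nil =>
    simp only [List.nil_append, List.cons.injEq] at h
    simp [h.1]
  | cons p pre ih =>
    simp only [List.cons_append, List.cons.injEq] at h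
    obtain ⟨h1, h2⟩ := h
    subst h1
    rw [List.pairwise_cons] at hp
    cases ys with
    | nil => simp at h2
    | cons z zs =>
      have h3 := ih z zs hp.2 h2
      have h4 := hp.1 z (by simp)
      simp only [List.length_cons]
      push_cast
      linarith

theorem h170_tri_qtri_ne (N : ℕ) (l : List ℤ) : ∀ (R : Fin 3 → List ℤ), (∀ r, goodRow (2 * (N : ℤ)) (R r)) →
    l.Pairwise (· ≤ ·) → (FL l (zN N)) (Cst N R) ≠ 0 →
    l.Perm (R 0 ++ R 1 ++ R 2) ∨ List.Lex (· < ·) ((R 0 ++ R 1 ++ R 2).insertionSort (· ≤ ·)) l := by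
  induction l with
  | nil =>
    intro R hR _ hl
    left
    have h1 : Cst N R = DN N := by
      by_contra hne
      apply hl
      show (FL [] (zN N)) (Cst N R) = 0
      have : FL [] = 1 := by simp [FL]
      rw [this]
      show (ket (DN N)) (Cst N R) = 0
      unfold ket
      rw [Finsupp.single_apply, if_neg (Ne.symm hne)]
    have h2 : ∀ r, R r = [] := by
      intro r
      have h3 := (Cst_occ N R hR r N).1
      rw [h1] at h3
      have h4 := h3.1 ((DN_occ N r N).1.2 le_rfl)
      have h5 : (R r).length = 0 := by omega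
      exact List.length_eq_zero_iff.1 h5
    rw [h2, h2, h2]
    simp
  | cons m l' ih =>
    intro R hR hs hl
    rw [List.pairwise_cons] at hs
    obtain ⟨hm, hs'⟩ := hs
    have hFL : FL (m :: l') (zN N) = Fm m (FL l' (zN N)) := by
      simp [FL, Module.End.mul_apply]
    rw [hFL] at hl
    obtain ⟨a, ha, hna, hob, hne⟩ := Fm_coef m _ _ hl
    obtain ⟨r, q⟩ := a
    obtain ⟨k, hk⟩ : ∃ k : ℤ, q = 2 * k - 1 := ⟨(q + 1) / 2, by simp only at ha; omega⟩
    subst hk
    have hb : sh (1 - 2 * m) (r, 2 * k - 1) = (r, 2 * (k - m)) := by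
      unfold sh; ext <;> simp; ring
    rw [hb] at hob hne
    obtain ⟨hs1, hs2⟩ := FL_supp N l' _ hne
    have hab : ((r, 2 * k - 1) : Site) ≠ (r, 2 * (k - m)) := by
      intro h
      have := congrArg Prod.snd h
      simp only at this
      omega
    have hoa' : occ (tog (r, 2 * k - 1) (tog (r, 2 * (k - m)) (Cst N R))) (r, 2 * k - 1) := by
      rw [h170_occ_tog_qtri_ne, if_pos rfl, h170_occ_tog_qtri_ne, if_neg hab]
      exact hna
    have hob' : ¬ occ (tog (r, 2 * k - 1) (tog (r, 2 * (k - m)) (Cst N R))) (r, 2 * (k - m)) := by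
      rw [h170_occ_tog_qtri_ne, if_neg (Ne.symm hab), h170_occ_tog_qtri_ne, if_pos rfl]
      exact not_not.2 hob
    have hkN : k ≤ N := (DN_occ N r k).1.1 (hs1 _ (by simp only; omega) hoa')
    have hkm : ¬ (k - m < -(N : ℤ)) := fun h =>
      hob' (hs2 _ (by simp only; omega) ((DN_occ N r (k - m)).2.2 h))
    have hk2 : ¬ (k ≤ (N : ℤ) - (R r).length) := fun h => hna ((Cst_occ N R hR r k).1.2 h)
    rcases (Cst_occ N R hR r (k - m)).2.1 hob with h3 | ⟨x, xs, hsuf, hx⟩
    · exact absurd h3 hkm
    obtain ⟨pre, hpre⟩ := hsuf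
    -- head of the row
    obtain ⟨y, ys, hy⟩ : ∃ y ys, R r = y :: ys := by
      cases hRr : R r with
      | nil => rw [hRr] at hpre; simp at hpre
      | cons y ys => exact ⟨y, ys, rfl⟩
    have hgr := (hR r).1
    rw [hy] at hgr
    have hrow := h170_row_qtri_ne pre x xs y ys hgr (by rw [← hy, hpre])
    have hlen : (R r).length = pre.length + (xs.length + 1) := by
      rw [← hpre, List.length_append, List.length_cons]
    have hlen2 : (R r).length = ys.length + 1 := by rw [hy, List.length_cons]
    have hym : y ≤ m := by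
      have h4 : (pre.length : ℤ) + xs.length = ys.length := by
        have : pre.length + (xs.length + 1) = ys.length + 1 := by rw [← hlen, hlen2]
        omega
      rw [hlen2] at hk2
      push_cast at hk2
      omega
    -- minimum of U
    obtain ⟨U, hU⟩ : ∃ U, U = R 0 ++ R 1 ++ R 2 := ⟨_, rfl⟩
    have hyU : y ∈ U := by
      have : y ∈ R r := by rw [hy]; simp
      rw [hU]
      fin_cases r
      · exact List.mem_append_left _ (List.mem_append_left _ this)
      · exact List.mem_append_left _ (List.mem_append_right _ this)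
      · exact List.mem_append_right _ this
    rw [← hU]
    have hsU : (U.insertionSort (· ≤ ·)).Pairwise (· ≤ ·) := List.pairwise_insertionSort _ U
    have hyS : y ∈ U.insertionSort (· ≤ ·) := by rw [List.mem_insertionSort]; exact hyU
    obtain ⟨u0, us, hus⟩ : ∃ u0 us, U.insertionSort (· ≤ ·) = u0 :: us := by
      cases hc : U.insertionSort (· ≤ ·) with
      | nil => rw [hc] at hyS; simp at hyS
      | cons u0 us => exact ⟨u0, us, rfl⟩
    have hu0 : ∀ z ∈ U, u0 ≤ z := by
      intro z hz
      have hz' : z ∈ U.insertionSort (· ≤ ·) := by rw [List.mem_insertionSort]; exact hz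
      rw [hus] at hz' hsU
      rcases List.mem_cons.1 hz' with h4 | h4
      · rw [h4]
      · exact (List.pairwise_cons.1 hsU).1 z h4
    have hu0y := hu0 y hyU
    rcases lt_or_eq_of_le (hu0y.trans hym) with hlt | heq
    · right
      rw [hus]
      exact List.Lex.rel hlt
    · -- equality
      have hym' : y = m := le_antisymm hym (by rw [← heq]; exact hu0y)
      have h4 : (pre.length : ℤ) + xs.length = ys.length := by
        have : pre.length + (xs.length + 1) = ys.length + 1 := by rw [← hlen, hlen2]
        omega
      have hk3 : k ≥ (N : ℤ) - ys.length := by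
        rw [hlen2] at hk2
        push_cast at hk2
        omega
      have hpre0 : pre.length = 0 := by omega
      have hpre1 : pre = [] := List.length_eq_zero_iff.1 hpre0
      have hkeq : k = (N : ℤ) - ys.length := by
        rw [hpre0] at hrow h4
        simp only [Nat.cast_zero] at hrow h4
        rw [hpre1, List.nil_append, hy] at hpre
        have hxy : x = y := (List.cons.inj hpre).1
        omega
      have hC : tog (r, 2 * k - 1) (tog (r, 2 * (k - m)) (Cst N R)) = Cst N (Function.update R r ys) := by
        rw [h170_Cst_update_qtri_ne N R r y ys hy]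
        have e1 : bS N r ys.length y = (r, 2 * (k - m)) := by unfold bS; rw [hkeq, hym']
        have e2 : aS N r ys.length = (r, 2 * k - 1) := by unfold aS; rw [hkeq]
        rw [e1, e2, h170_tog_tog_qtri_ne, h170_tog_tog_qtri_ne]
      rw [hC] at hne
      have hR' : ∀ r', goodRow (2 * (N : ℤ)) (Function.update R r ys r') := by
        intro r'
        by_cases hr : r' = r
        · subst hr
          rw [Function.update_self]
          have h5 := hR r'
          rw [hy] at h5
          exact ⟨(List.pairwise_cons.1 h5.1).2, fun z hz => h5.2 z (List.mem_cons_of_mem _ hz)⟩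
        · rw [Function.update_of_ne hr]
          exact hR r'
      have hperm := h170_perm_update_qtri_ne R r y ys hy
      rw [← hU] at hperm
      obtain ⟨U', hU'⟩ : ∃ U', U' = Function.update R r ys 0 ++ Function.update R r ys 1 ++ Function.update R r ys 2 := ⟨_, rfl⟩
      rw [← hU', hym'] at hperm
      rcases ih _ hR' hs' hne with h5 | h5
      · left
        rw [← hU'] at h5
        exact (h5.cons m).trans hperm.symm
      · right
        rw [← hU'] at h5
        have h6 : U.insertionSort (· ≤ ·) = m :: U'.insertionSort (· ≤ ·) := by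
          refine List.Perm.eq_of_pairwise' (r := (· ≤ ·)) hsU ?_ ?_
          · rw [List.pairwise_cons]
            refine ⟨fun z hz => ?_, List.pairwise_insertionSort _ U'⟩
            rw [List.mem_insertionSort] at hz
            rw [← heq]
            exact hu0 z (hperm.symm.subset (List.mem_cons_of_mem _ hz))
          · exact (List.perm_insertionSort _ U).trans (hperm.trans ((List.perm_insertionSort _ U').symm.cons m))
        rw [h6]
        exact List.Lex.cons h5

/-- triangularity -/
theorem tri_ne (N : ℕ) (R : Fin 3 → List ℤ) (hR : ∀ r, goodRow (2 * (N : ℤ)) (R r)) (l : List ℤ)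
    (hl : (FL l (zN N)) (Cst N R) ≠ 0) :
    l.Perm (R 0 ++ R 1 ++ R 2) ∨
      List.Lex (· < ·) ((R 0 ++ R 1 ++ R 2).insertionSort (· ≤ ·)) (l.insertionSort (· ≤ ·)) := by
  have hp := List.perm_insertionSort (· ≤ ·) l
  rw [← FL_perm _ _ hp] at hl
  rcases h170_tri_qtri_ne N _ R hR (List.pairwise_insertionSort _ l) hl with h | h
  · exact Or.inl (hp.symm.trans h)
  · exact Or.inr h

end Pool.Agent.Helper840.AE
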