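import Pool.Agent.Helper840.AE.FockDefs
import Pool.Agent.Helper840.AE.FockDefs2
import Pool.Agent.Helper840.AE.P_FL_perm
import Pool.Agent.Helper840.AE.P_FL_supp
import Pool.Agent.Helper840.AE.P_Fm_coef
import Pool.Agent.Helper840.AE.P_DN_occ
import Pool.Agent.Helper840.AE.P_Cst_occ
import Pool.Agent.Helper840.AE.P_X_ket
import Pool.Agent.Helper840.AE.P_X_comm

set_option autoImplicit false

namespace Pool.Agent.Helper840.AE

theorem tri_val_mem_tog_qtri_val (i j : Site) (D : Finset Site) :
    j ∈ tog i D ↔ (if j = i then j ∉ D else j ∈ D) := by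
  unfold tog
  by_cases hji : j = i
  · subst hji
    by_cases h : j ∈ D <;> simp [h]
  · by_cases h : i ∈ D <;> simp [h, hji]

theorem tri_val_tog_tog_qtri_val (i : Site) (D : Finset Site) : tog i (tog i D) = D := by
  ext j
  rw [tri_val_mem_tog_qtri_val, tri_val_mem_tog_qtri_val]
  by_cases hji : j = i <;> simp [hji]

theorem tri_val_tog_comm_qtri_val (i j : Site) (D : Finset Site) : tog i (tog j D) = tog j (tog i D) := by
  ext k
  simp only [tri_val_mem_tog_qtri_val]
  split_ifs <;> tauto

theorem tri_val_occ_tog_qtri_val (i j : Site) (D : Finset Site) :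
    occ (tog i D) j ↔ (if j = i then ¬ occ D j else occ D j) := by
  unfold occ
  rw [tri_val_mem_tog_qtri_val]
  split_ifs <;> tauto

theorem tri_val_Crow_tog_qtri_val (N : ℕ) (r : Fin 3) (l : List ℤ) (i : Site) (D : Finset Site) :
    Crow N r l (tog i D) = tog i (Crow N r l D) := by
  induction l with
  | nil => rfl
  | cons x xs ih =>
    show tog _ (tog _ (Crow N r xs (tog i D))) = tog i (tog _ (tog _ (Crow N r xs D)))
    rw [ih, tri_val_tog_comm_qtri_val _ i, tri_val_tog_comm_qtri_val _ i]

theorem tri_val_Cst_cons_qtri_val (N : ℕ) (R : Fin 3 → List ℤ) (r : Fin 3) (x : ℤ) (xs : List ℤ)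
    (h : R r = x :: xs) :
    Cst N R = tog (bS N r xs.length x) (tog (aS N r xs.length)
      (Cst N (Function.update R r xs))) := by
  have hc : ∀ D, Crow N r (x :: xs) D = tog (bS N r xs.length x) (tog (aS N r xs.length)
      (Crow N r xs D)) := fun D => rfl
  unfold Cst
  fin_cases r
  · simp only [Fin.zero_eta, Fin.isValue] at *
    rw [Function.update_self, Function.update_of_ne (by decide), Function.update_of_ne (by decide),
      h, hc, tri_val_Crow_tog_qtri_val, tri_val_Crow_tog_qtri_val, tri_val_Crow_tog_qtri_val, tri_val_Crow_tog_qtri_val]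
  · simp only [Fin.mk_one, Fin.isValue] at *
    rw [Function.update_self, Function.update_of_ne (by decide), Function.update_of_ne (by decide),
      h, hc, tri_val_Crow_tog_qtri_val, tri_val_Crow_tog_qtri_val]
  · simp only [Fin.reduceFinMk, Fin.isValue] at *
    rw [Function.update_self, Function.update_of_ne (by decide), Function.update_of_ne (by decide),
      h, hc]

/-- the product of the moving operators of a row -/
noncomputable def tri_val_XRow_qtri_val (N : ℕ) (r : Fin 3) : List ℤ → Module.End ℂ Fk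
  | [] => 1
  | x :: xs => X (bS N r xs.length x) (aS N r xs.length) * tri_val_XRow_qtri_val N r xs

/-- the product of the moving operators of a triple of rows -/
noncomputable def tri_val_M_qtri_val (N : ℕ) (R : Fin 3 → List ℤ) : Module.End ℂ Fk :=
  tri_val_XRow_qtri_val N 2 (R 2) * (tri_val_XRow_qtri_val N 1 (R 1) * tri_val_XRow_qtri_val N 0 (R 0))

theorem tri_val_Xcomm_qtri_val (N : ℕ) (r r' : Fin 3) (n n' : ℕ) (x x' : ℤ) :
    X (bS N r n x) (aS N r n) * X (bS N r' n' x') (aS N r' n') =
      X (bS N r' n' x') (aS N r' n') * X (bS N r n x) (aS N r n) := by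
  have h := X_comm (bS N r n x) (aS N r n) (bS N r' n' x') (aS N r' n')
  have h1 : aS N r n ≠ bS N r' n' x' := by
    intro h
    have := congrArg Prod.snd h
    simp only [aS, bS] at this
    omega
  have h2 : bS N r n x ≠ aS N r' n' := by
    intro h
    have := congrArg Prod.snd h
    simp only [aS, bS] at this
    omega
  rw [if_neg h1, if_neg h2] at h
  exact sub_eq_zero.1 (h.trans (sub_self (0 : Module.End ℂ Fk)))

theorem tri_val_XRow_comm_qtri_val (N : ℕ) (r r' : Fin 3) (n : ℕ) (x : ℤ) (l : List ℤ) :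
    tri_val_XRow_qtri_val N r' l * X (bS N r n x) (aS N r n) =
      X (bS N r n x) (aS N r n) * tri_val_XRow_qtri_val N r' l := by
  induction l with
  | nil => simp [tri_val_XRow_qtri_val]
  | cons y ys ih =>
    simp only [tri_val_XRow_qtri_val]
    rw [mul_assoc, ih, ← mul_assoc, ← mul_assoc, tri_val_Xcomm_qtri_val]

theorem tri_val_M_cons_qtri_val (N : ℕ) (R : Fin 3 → List ℤ) (r : Fin 3) (x : ℤ) (xs : List ℤ)
    (h : R r = x :: xs) :
    tri_val_M_qtri_val N R = X (bS N r xs.length x) (aS N r xs.length) *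
      tri_val_M_qtri_val N (Function.update R r xs) := by
  have hc : tri_val_XRow_qtri_val N r (x :: xs) = X (bS N r xs.length x) (aS N r xs.length) *
      tri_val_XRow_qtri_val N r xs := rfl
  unfold tri_val_M_qtri_val
  fin_cases r
  · simp only [Fin.zero_eta, Fin.isValue] at *
    rw [Function.update_self, Function.update_of_ne (by decide), Function.update_of_ne (by decide),
      h, hc]
    rw [← mul_assoc (tri_val_XRow_qtri_val N 1 (R 1)), tri_val_XRow_comm_qtri_val, mul_assoc, ← mul_assoc,
      tri_val_XRow_comm_qtri_val, mul_assoc]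
  · simp only [Fin.mk_one, Fin.isValue] at *
    rw [Function.update_self, Function.update_of_ne (by decide), Function.update_of_ne (by decide),
      h, hc]
    rw [mul_assoc, ← mul_assoc, tri_val_XRow_comm_qtri_val, mul_assoc]
  · simp only [Fin.reduceFinMk, Fin.isValue] at *
    rw [Function.update_self, Function.update_of_ne (by decide), Function.update_of_ne (by decide),
      h, hc, mul_assoc]

theorem tri_val_good_upd_qtri_val (t : ℤ) (R : Fin 3 → List ℤ) (hR : ∀ r, goodRow t (R r)) (r : Fin 3)
    (x : ℤ) (xs : List ℤ) (h : R r = x :: xs) :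
    ∀ r', goodRow t (Function.update R r xs r') := by
  intro r'
  by_cases hr : r' = r
  · subst hr
    rw [Function.update_self]
    have h1 := hR r'
    rw [h] at h1
    exact ⟨(List.pairwise_cons.1 h1.1).2, fun y hy => h1.2 y (List.mem_cons_of_mem _ hy)⟩
  · rw [Function.update_of_ne hr]; exact hR r'

theorem tri_val_ab_ne_qtri_val (N : ℕ) (r r' : Fin 3) (n n' : ℕ) (x : ℤ) : aS N r n ≠ bS N r' n' x := by
  intro h
  have := congrArg Prod.snd h
  simp only [aS, bS] at this
  omega

/-- occupation before the move -/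
theorem tri_val_occ_pre_qtri_val (N : ℕ) (R : Fin 3 → List ℤ) (hR : ∀ r, goodRow (2 * (N : ℤ)) (R r))
    (r : Fin 3) (x : ℤ) (xs : List ℤ) (h : R r = x :: xs) :
    occ (Cst N (Function.update R r xs)) (aS N r xs.length) ∧
      ¬ occ (Cst N (Function.update R r xs)) (bS N r xs.length x) := by
  have hC := tri_val_Cst_cons_qtri_val N R r x xs h
  set D := Cst N (Function.update R r xs)
  have h1 := (Cst_occ N R hR r ((N : ℤ) - xs.length)).1
  have h2 := (Cst_occ N R hR r ((N : ℤ) - xs.length - x)).2
  have e1 : ((r, 2 * ((N : ℤ) - xs.length) - 1) : Site) = aS N r xs.length := rfl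
  have e2 : ((r, 2 * ((N : ℤ) - xs.length - x)) : Site) = bS N r xs.length x := rfl
  rw [e1] at h1
  rw [e2] at h2
  have h3 : ¬ occ (Cst N R) (aS N r xs.length) := by
    rw [h1, h, List.length_cons]
    push_cast
    omega
  have h4 : occ (Cst N R) (bS N r xs.length x) := by
    rw [h2]
    right
    exact ⟨x, xs, by rw [h], rfl⟩
  have hne := tri_val_ab_ne_qtri_val N r r xs.length xs.length x
  rw [hC, tri_val_occ_tog_qtri_val, if_neg hne, tri_val_occ_tog_qtri_val, if_pos rfl] at h3
  rw [hC, tri_val_occ_tog_qtri_val, if_pos rfl, tri_val_occ_tog_qtri_val, if_neg hne.symm] at h4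
  exact ⟨not_not.1 h3, h4⟩

theorem tri_val_X_step_qtri_val (N : ℕ) (R : Fin 3 → List ℤ) (hR : ∀ r, goodRow (2 * (N : ℤ)) (R r))
    (r : Fin 3) (x : ℤ) (xs : List ℤ) (h : R r = x :: xs) :
    ∃ ε : ℤ, (ε = 1 ∨ ε = -1) ∧ X (bS N r xs.length x) (aS N r xs.length)
      (ket (Cst N (Function.update R r xs))) = (ε : ℂ) • ket (Cst N R) := by
  obtain ⟨ε, hε, h1⟩ := X_ket (bS N r xs.length x) (aS N r xs.length)
    (tri_val_ab_ne_qtri_val N r r xs.length xs.length x).symm (Cst N (Function.update R r xs))
  refine ⟨ε, hε, ?_⟩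
  rw [h1, if_pos (tri_val_occ_pre_qtri_val N R hR r x xs h), tri_val_Cst_cons_qtri_val N R r x xs h]

theorem tri_val_sign_qtri_val (N : ℕ) : ∀ (n : ℕ) (R : Fin 3 → List ℤ),
    (∀ r, goodRow (2 * (N : ℤ)) (R r)) → (R 0 ++ R 1 ++ R 2).length = n →
    ∃ ε : ℤ, (ε = 1 ∨ ε = -1) ∧ tri_val_M_qtri_val N R (zN N) = (ε : ℂ) • ket (Cst N R) := by
  intro n
  induction n with
  | zero =>
    intro R hR hn
    have h0 : R 0 = [] ∧ R 1 = [] ∧ R 2 = [] := by
      have := List.length_eq_zero_iff.1 hn
      simpa [and_assoc] using this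
    refine ⟨1, Or.inl rfl, ?_⟩
    unfold tri_val_M_qtri_val Cst
    rw [h0.1, h0.2.1, h0.2.2]
    simp [tri_val_XRow_qtri_val, Crow, zN]
  | succ n ih =>
    intro R hR hn
    have hex : ∃ r x xs, R r = x :: xs := by
      by_contra hcon
      push Not at hcon
      have h0 : ∀ r, R r = [] := by
        intro r
        cases hr : R r with
        | nil => rfl
        | cons x xs => exact absurd hr (hcon r x xs)
      rw [h0, h0, h0] at hn
      simp at hn
    obtain ⟨r, x, xs, h⟩ := hex
    have hlen : (Function.update R r xs 0 ++ Function.update R r xs 1 ++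
        Function.update R r xs 2).length = n := by
      simp only [List.length_append] at hn ⊢
      have hx := congrArg List.length h
      simp only [List.length_cons] at hx
      fin_cases r
      · simp at hx ⊢
        omega
      · simp at hx ⊢
        omega
      · simp at hx ⊢
        omega
    obtain ⟨ε', hε', h1⟩ := ih _ (tri_val_good_upd_qtri_val _ R hR r x xs h) hlen
    obtain ⟨ε, hε, h2⟩ := tri_val_X_step_qtri_val N R hR r x xs h
    refine ⟨ε' * ε, ?_, ?_⟩
    · rcases hε with rfl | rfl <;> rcases hε' with rfl | rfl <;> simp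
    · rw [tri_val_M_cons_qtri_val N R r x xs h, Module.End.mul_apply, h1, map_smul, h2, smul_smul]
      push_cast
      rfl

theorem tri_val_gap_qtri_val (w : List ℤ) : ∀ (m x : ℤ) (xs : List ℤ),
    (w ++ x :: xs).Pairwise (fun x y => x + 2 ≤ y) → (∀ y ∈ w ++ x :: xs, m ≤ y) →
    m + 2 * w.length ≤ x := by
  induction w with
  | nil =>
    intro m x xs _ h
    have := h x (by simp)
    simpa using this
  | cons z w ih =>
    intro m x xs hp h
    rw [List.cons_append, List.pairwise_cons] at hp
    have h1 := ih (z + 2) x xs hp.2 (fun y hy => hp.1 y hy)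
    have h2 := h z (by simp)
    rw [List.length_cons]
    push_cast
    linarith

/-- the only way to reach the state of `R` -/
theorem tri_val_only_qtri_val (N : ℕ) (R : Fin 3 → List ℤ) (hR : ∀ r, goodRow (2 * (N : ℤ)) (R r))
    (m : ℤ) (hm : ∀ r, ∀ y ∈ R r, m ≤ y) (l : List ℤ) (D : Finset Site)
    (hD : (FL l (zN N)) D ≠ 0) (a : Site) (ha : a.2 % 2 = 1) (h1 : ¬ occ (Cst N R) a)
    (h2 : occ (Cst N R) (sh (1 - 2 * m) a)) (h3 : D = tog a (tog (sh (1 - 2 * m) a) (Cst N R))) :
    ∃ r xs, R r = m :: xs ∧ D = Cst N (Function.update R r xs) := by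
  obtain ⟨hs1, hs2⟩ := FL_supp N l D hD
  obtain ⟨r, q⟩ := a
  obtain ⟨k, rfl⟩ : ∃ k : ℤ, q = 2 * k - 1 := ⟨(q + 1) / 2, by simp only at ha; omega⟩
  have hsh : sh (1 - 2 * m) (r, 2 * k - 1) = (r, 2 * (k - m)) := by
    unfold sh
    refine Prod.ext rfl ?_
    show 2 * k - 1 + (1 - 2 * m) = 2 * (k - m)
    ring
  rw [hsh] at h2 h3
  have hne : ((r, 2 * k - 1) : Site) ≠ (r, 2 * (k - m)) := by
    intro h
    have := congrArg Prod.snd h
    simp only at this
    omega
  -- occupation of D
  have hDa : occ D (r, 2 * k - 1) := by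
    rw [h3, tri_val_occ_tog_qtri_val, if_pos rfl, tri_val_occ_tog_qtri_val, if_neg hne]
    exact h1
  have hDb : ¬ occ D (r, 2 * (k - m)) := by
    rw [h3, tri_val_occ_tog_qtri_val, if_neg hne.symm, tri_val_occ_tog_qtri_val, if_pos rfl]
    exact not_not.2 h2
  have hk1 := ((DN_occ N r k).1).1 (hs1 _ ha hDa)
  have hk2 : ¬ (k - m < -(N : ℤ)) := by
    intro h
    exact hDb (hs2 _ (by show 2 * (k - m) % 2 = 0; omega) (((DN_occ N r (k - m)).2).2 h))
  rw [(Cst_occ N R hR r k).1] at h1
  rcases ((Cst_occ N R hR r (k - m)).2).1 h2 with h | ⟨x, xs, ⟨w, hw⟩, hx⟩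
  · exact absurd h hk2
  have hgap := tri_val_gap_qtri_val w m x xs (by rw [hw]; exact (hR r).1) (by rw [hw]; exact hm r)
  have hL : (R r).length = w.length + (xs.length + 1) := by
    rw [← hw]; simp
  have hw0 : w.length = 0 := by
    rw [hL] at h1
    push_cast at h1
    omega
  have hw' : w = [] := List.length_eq_zero_iff.1 hw0
  subst hw'
  have hRr : R r = x :: xs := by rw [← hw]; rfl
  have hxm : x = m := by
    rw [hL] at h1
    push_cast at h1
    simp at hgap
    simp at h1
    omega
  subst hxm
  refine ⟨r, xs, hRr, ?_⟩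
  have hk : k = (N : ℤ) - xs.length := by omega
  have e1 : ((r, 2 * k - 1) : Site) = aS N r xs.length := by rw [hk]; rfl
  have e2 : ((r, 2 * (k - x)) : Site) = bS N r xs.length x := by rw [hk]; rfl
  rw [h3, e1, e2, tri_val_Cst_cons_qtri_val N R r x xs hRr, tri_val_tog_tog_qtri_val, tri_val_tog_tog_qtri_val]

/-- the sites of a move are determined by the two states -/
theorem tri_val_site_unique_qtri_val (i a b c : Site) (D : Finset Site) (hi : i.2 % 2 = 1)
    (ha : a.2 % 2 = 1) (hb : b.2 % 2 = 0) (hc : c.2 % 2 = 0)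
    (h : tog b (tog i D) = tog c (tog a D)) : i = a := by
  by_contra hne
  have hib : i ≠ b := by rintro rfl; omega
  have hic : i ≠ c := by rintro rfl; omega
  have h1 : i ∈ tog b (tog i D) ↔ i ∉ D := by
    rw [tri_val_mem_tog_qtri_val, if_neg hib, tri_val_mem_tog_qtri_val, if_pos rfl]
  have h2 : i ∈ tog c (tog a D) ↔ i ∈ D := by
    rw [tri_val_mem_tog_qtri_val, if_neg hic, tri_val_mem_tog_qtri_val, if_neg hne]
  rw [h] at h1
  rw [h1] at h2
  tauto

theorem tri_val_box_qtri_val (D : Finset Site) (a : Site) (d : ℤ) (h1 : occ D a)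
    (h2 : ¬ occ D (sh d a)) : a ∈ box (bd D + d.natAbs) := by
  have hbd : ∀ i ∈ D, i.2.natAbs ≤ bd D := fun i hi =>
    Finset.le_sup (f := fun i : Site => i.2.natAbs) hi
  unfold box
  rw [Finset.mem_product]
  refine ⟨Finset.mem_univ _, ?_⟩
  rw [Finset.mem_Icc]
  unfold occ at h1 h2
  have hs : (sh d a).2 = a.2 + d := rfl
  by_cases ha : a.2 < 0
  · by_cases hb : (sh d a).2 < 0
    · rw [if_pos hb, not_not] at h2
      have := hbd _ h2
      rw [hs] at this hb
      rw [Nat.cast_add]
      omega
    · rw [hs] at hb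
      rw [Nat.cast_add]
      omega
  · rw [if_neg ha] at h1
    have := hbd _ h1
    rw [Nat.cast_add]
    omega

theorem tri_val_ket_apply_qtri_val (D C : Finset Site) : (ket D) C = if D = C then 1 else 0 := by
  unfold ket
  rw [Finsupp.single_apply]

/-- the matrix entry of `Fm` -/
noncomputable def tri_val_k_qtri_val (m : ℤ) (C D : Finset Site) : ℂ := (Fm m (ket D)) C

theorem tri_val_k_sum_qtri_val (m : ℤ) (C D : Finset Site) :
    tri_val_k_qtri_val m C D = ∑ i ∈ box (bd D + (1 - 2 * m).natAbs),
      podd i * (X (sh (1 - 2 * m) i) i (ket D)) C := by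
  unfold tri_val_k_qtri_val Fm S
  rw [ket, Finsupp.linearCombination_single, one_smul, Finsupp.finsetSum_apply]
  rfl

theorem tri_val_Fm_apply_qtri_val (m : ℤ) (C : Finset Site) (y : Fk) :
    (Fm m y) C = ∑ D ∈ y.support, y D * tri_val_k_qtri_val m C D := by
  unfold tri_val_k_qtri_val
  conv_lhs => rw [← Finsupp.sum_single y]
  rw [Finsupp.sum, map_sum, Finsupp.finsetSum_apply]
  refine Finset.sum_congr rfl fun D _ => ?_
  have : (Finsupp.single D (y D) : Fk) = y D • ket D := by
    unfold ket
    rw [Finsupp.smul_single, smul_eq_mul, mul_one]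
  rw [this, map_smul]
  rfl

theorem tri_val_k_ne_qtri_val (m : ℤ) (C D : Finset Site) (h : tri_val_k_qtri_val m C D ≠ 0) :
    ∃ a : Site, a.2 % 2 = 1 ∧ ¬ occ C a ∧ occ C (sh (1 - 2 * m) a) ∧
      D = tog a (tog (sh (1 - 2 * m) a) C) := by
  obtain ⟨a, h1, h2, h3, h4⟩ := Fm_coef m (ket D) C h
  refine ⟨a, h1, h2, h3, ?_⟩
  rw [tri_val_ket_apply_qtri_val] at h4
  by_contra hne
  rw [if_neg hne] at h4
  exact h4 rfl

theorem tri_val_k_eq_qtri_val (N : ℕ) (R : Fin 3 → List ℤ) (hR : ∀ r, goodRow (2 * (N : ℤ)) (R r))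
    (r : Fin 3) (m : ℤ) (xs : List ℤ) (h : R r = m :: xs) (ε : ℤ)
    (hε : X (bS N r xs.length m) (aS N r xs.length)
      (ket (Cst N (Function.update R r xs))) = (ε : ℂ) • ket (Cst N R)) :
    tri_val_k_qtri_val m (Cst N R) (Cst N (Function.update R r xs)) = ε := by
  have hocc := tri_val_occ_pre_qtri_val N R hR r m xs h
  have hsh : sh (1 - 2 * m) (aS N r xs.length) = bS N r xs.length m := by
    unfold sh aS bS
    refine Prod.ext rfl ?_
    show 2 * ((N : ℤ) - xs.length) - 1 + (1 - 2 * m) = 2 * ((N : ℤ) - xs.length - m)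
    ring
  have hodd : (aS N r xs.length).2 % 2 = 1 := by
    show (2 * ((N : ℤ) - xs.length) - 1) % 2 = 1
    omega
  have hev : (bS N r xs.length m).2 % 2 = 0 := by
    show (2 * ((N : ℤ) - xs.length - m)) % 2 = 0
    omega
  rw [tri_val_k_sum_qtri_val, Finset.sum_eq_single (aS N r xs.length)]
  · rw [hsh, hε]
    have hp : podd (aS N r xs.length) = 1 := by
      unfold podd; rw [if_pos hodd]
    rw [hp, one_mul, Finsupp.smul_apply, tri_val_ket_apply_qtri_val, if_pos rfl, smul_eq_mul, mul_one]
  · intro i _ hi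
    by_cases hi1 : i.2 % 2 = 1
    · have hne : sh (1 - 2 * m) i ≠ i := by
        intro h
        have := congrArg Prod.snd h
        have h' : i.2 + (1 - 2 * m) = i.2 := this
        omega
      obtain ⟨ε', _, h1⟩ := X_ket (sh (1 - 2 * m) i) i hne (Cst N (Function.update R r xs))
      rw [h1]
      split_ifs with hc
      · rw [Finsupp.smul_apply, tri_val_ket_apply_qtri_val, if_neg, smul_zero, mul_zero]
        intro heq
        refine hi (tri_val_site_unique_qtri_val i (aS N r xs.length) (sh (1 - 2 * m) i)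
          (bS N r xs.length m) (Cst N (Function.update R r xs)) hi1 hodd ?_ hev ?_)
        · show (i.2 + (1 - 2 * m)) % 2 = 0
          omega
        · rw [heq, tri_val_Cst_cons_qtri_val N R r m xs h]
      · simp
    · have hp : podd i = 0 := by
        unfold podd; rw [if_neg hi1]
      rw [hp, zero_mul]
  · intro hnot
    exact absurd (tri_val_box_qtri_val _ _ _ hocc.1 (by rw [hsh]; exact hocc.2)) hnot

theorem tri_val_perm_upd_qtri_val (R : Fin 3 → List ℤ) (r : Fin 3) (m : ℤ) (xs : List ℤ)
    (h : R r = m :: xs) :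
    (R 0 ++ R 1 ++ R 2).Perm (m :: (Function.update R r xs 0 ++ Function.update R r xs 1 ++
        Function.update R r xs 2)) := by
  fin_cases r
  · simp only [Fin.zero_eta, Fin.isValue] at *
    rw [Function.update_self, Function.update_of_ne (by decide), Function.update_of_ne (by decide),
      h]
    simp
  · simp only [Fin.mk_one, Fin.isValue] at *
    rw [Function.update_self, Function.update_of_ne (by decide), Function.update_of_ne (by decide),
      h]
    rw [List.append_assoc, List.append_assoc]
    exact List.perm_middle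
  · simp only [Fin.reduceFinMk, Fin.isValue] at *
    rw [Function.update_self, Function.update_of_ne (by decide), Function.update_of_ne (by decide),
      h]
    exact List.perm_middle

theorem tri_val_count_row_qtri_val (t m : ℤ) (l : List ℤ) (hl : goodRow t l) (hm : ∀ y ∈ l, m ≤ y) :
    l.count m = if l.head? = some m then 1 else 0 := by
  cases l with
  | nil => simp
  | cons x xs =>
    have hp := List.pairwise_cons.1 hl.1
    have hxm : m ≤ x := hm x (by simp)
    have h0 : xs.count m = 0 := by
      rw [List.count_eq_zero]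
      intro h
      have := hp.1 m h
      omega
    rw [List.count_cons, h0]
    by_cases hx : x = m
    · simp [hx]
    · simp [hx]

theorem tri_val_count_qtri_val (t m : ℤ) (R : Fin 3 → List ℤ) (hR : ∀ r, goodRow t (R r))
    (hm : ∀ r, ∀ y ∈ R r, m ≤ y) :
    (R 0 ++ R 1 ++ R 2).count m =
      (Finset.univ.filter (fun r : Fin 3 => (R r).head? = some m)).card := by
  rw [Finset.card_filter, Fin.sum_univ_three, List.count_append, List.count_append,
    tri_val_count_row_qtri_val t m _ (hR 0) (hm 0), tri_val_count_row_qtri_val t m _ (hR 1) (hm 1),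
    tri_val_count_row_qtri_val t m _ (hR 2) (hm 2)]

theorem tri_val_main_qtri_val (N : ℕ) : ∀ (n : ℕ) (U : List ℤ), U.length = n →
    ∃ c : ℕ, ¬ (23 ∣ c) ∧ ∀ R : Fin 3 → List ℤ, (∀ r, goodRow (2 * (N : ℤ)) (R r)) →
      (R 0 ++ R 1 ++ R 2).Perm U → ∀ ε : ℂ, tri_val_M_qtri_val N R (zN N) = ε • ket (Cst N R) →
      (FL U (zN N)) (Cst N R) = c * ε := by
  intro n
  induction n with
  | zero =>
    intro U hU
    refine ⟨1, by norm_num, ?_⟩
    intro R hR hP ε hε
    have hU0 := List.length_eq_zero_iff.1 hU
    subst hU0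
    have h0 : R 0 = [] ∧ R 1 = [] ∧ R 2 = [] := by
      have := List.Perm.eq_nil hP
      simpa [and_assoc] using this
    have hM : tri_val_M_qtri_val N R = 1 := by
      unfold tri_val_M_qtri_val
      rw [h0.1, h0.2.1, h0.2.2]
      simp [tri_val_XRow_qtri_val]
    have hF : FL [] = 1 := by simp [FL]
    rw [hM] at hε
    rw [hF]
    rw [hε, Finsupp.smul_apply, tri_val_ket_apply_qtri_val, if_pos rfl]
    simp
  | succ n ih =>
    intro U hU
    by_cases hex : ∃ R : Fin 3 → List ℤ, (∀ r, goodRow (2 * (N : ℤ)) (R r)) ∧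
      (R 0 ++ R 1 ++ R 2).Perm U
    swap
    · refine ⟨1, by norm_num, ?_⟩
      intro R hR hP
      exact absurd ⟨R, hR, hP⟩ hex
    have hne : U.toFinset.Nonempty := by
      rw [List.toFinset_nonempty_iff]
      intro h; rw [h] at hU; simp at hU
    obtain ⟨m, hmU, hmin⟩ := Finset.exists_min_image U.toFinset id hne
    rw [List.mem_toFinset] at hmU
    have hmin' : ∀ y ∈ U, m ≤ y := fun y hy => hmin y (List.mem_toFinset.2 hy)
    have hUp := List.perm_cons_erase hmU
    obtain ⟨c', hc', hmain⟩ := ih (U.erase m) (by rw [List.length_erase_of_mem hmU, hU]; rfl)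
    have hcount : ∀ R : Fin 3 → List ℤ, (∀ r, goodRow (2 * (N : ℤ)) (R r)) →
      (R 0 ++ R 1 ++ R 2).Perm U →
      U.count m = (Finset.univ.filter (fun r : Fin 3 => (R r).head? = some m)).card := by
      intro R hR hP
      rw [← hP.count_eq m]
      refine tri_val_count_qtri_val _ m R hR fun r y hy => hmin' y (hP.subset ?_)
      fin_cases r
      · simp at hy ⊢; tauto
      · simp at hy ⊢; tauto
      · simp at hy ⊢; tauto
    refine ⟨U.count m * c', ?_, ?_⟩
    · intro hdvd
      rcases (Nat.Prime.dvd_mul (by norm_num)).1 hdvd with h | h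
      · obtain ⟨R, hR, hP⟩ := hex
        have h3 : U.count m ≤ 3 := by
          rw [hcount R hR hP]
          exact (Finset.card_le_univ _).trans (by simp)
        have h1 : 0 < U.count m := List.count_pos_iff.2 hmU
        have := Nat.le_of_dvd h1 h
        omega
      · exact hc' h
    · intro R hR hP ε hε
      have hm : ∀ r, ∀ y ∈ R r, m ≤ y := by
        intro r y hy
        refine hmin' y (hP.subset ?_)
        fin_cases r
        · simp at hy ⊢; tauto
        · simp at hy ⊢; tauto
        · simp at hy ⊢; tauto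
      rw [FL_perm _ _ hUp]
      have hFL : FL (m :: U.erase m) = Fm m * FL (U.erase m) := by simp [FL]
      rw [hFL, Module.End.mul_apply, tri_val_Fm_apply_qtri_val]
      set y := FL (U.erase m) (zN N) with hy
      set H := Finset.univ.filter (fun r : Fin 3 => (R r).head? = some m) with hH
      have hHmem : ∀ r ∈ H, R r = m :: (R r).tail := by
        intro r hr
        rw [hH, Finset.mem_filter] at hr
        cases hRr : R r with
        | nil => rw [hRr] at hr; simp at hr
        | cons x xs => rw [hRr] at hr; simp at hr; rw [hr]; rfl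
      let Dr : Fin 3 → Finset Site := fun r => Cst N (Function.update R r (R r).tail)
      have hinj : Set.InjOn Dr H := by
        intro r hr r' hr' heq
        have h1 := tri_val_Cst_cons_qtri_val N R r m _ (hHmem r hr)
        have h2 := tri_val_Cst_cons_qtri_val N R r' m _ (hHmem r' hr')
        have heq' : Cst N (Function.update R r (R r).tail) =
          Cst N (Function.update R r' (R r').tail) := heq
        rw [heq'] at h1
        have h3 := tri_val_site_unique_qtri_val _ _ _ _ _ (by
            show (2 * ((N : ℤ) - (R r).tail.length) - 1) % 2 = 1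
            omega) (by
            show (2 * ((N : ℤ) - (R r').tail.length) - 1) % 2 = 1
            omega) (by
            show (2 * ((N : ℤ) - (R r).tail.length - m)) % 2 = 0
            omega) (by
            show (2 * ((N : ℤ) - (R r').tail.length - m)) % 2 = 0
            omega) (h1.symm.trans h2)
        exact congrArg Prod.fst h3
      have key : ∀ r ∈ H, y (Dr r) * tri_val_k_qtri_val m (Cst N R) (Dr r) = c' * ε := by
        intro r hr
        have hRr := hHmem r hr
        obtain ⟨e, _, he⟩ := tri_val_X_step_qtri_val N R hR r m _ hRr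
        have hk := tri_val_k_eq_qtri_val N R hR r m _ hRr e he
        have hgood := tri_val_good_upd_qtri_val _ R hR r m _ hRr
        obtain ⟨e', _, he'⟩ := tri_val_sign_qtri_val N _ _ hgood rfl
        have hperm := tri_val_perm_upd_qtri_val R r m _ hRr
        have hperm' := (hperm.symm.trans (hP.trans hUp)).cons_inv
        have h1 := hmain _ hgood hperm' e' he'
        have h2 := tri_val_M_cons_qtri_val N R r m _ hRr
        rw [h2, Module.End.mul_apply, he', map_smul, he, smul_smul] at hε
        have h3 := congrArg (fun z : Fk => z (Cst N R)) hε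
        simp only [Finsupp.smul_apply, tri_val_ket_apply_qtri_val, if_pos, smul_eq_mul, mul_one] at h3
        show y (Cst N (Function.update R r (R r).tail)) *
          tri_val_k_qtri_val m (Cst N R) (Cst N (Function.update R r (R r).tail)) = c' * ε
        rw [hk, hy, h1, mul_assoc, h3]
      have hsum1 : ∑ D ∈ y.support, y D * tri_val_k_qtri_val m (Cst N R) D =
          ∑ D ∈ y.support ∪ H.image Dr, y D * tri_val_k_qtri_val m (Cst N R) D := by
        refine Finset.sum_subset Finset.subset_union_left ?_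
        intro D _ hD
        rw [Finsupp.notMem_support_iff.1 hD, zero_mul]
      have hsum2 : ∑ D ∈ H.image Dr, y D * tri_val_k_qtri_val m (Cst N R) D =
          ∑ D ∈ y.support ∪ H.image Dr, y D * tri_val_k_qtri_val m (Cst N R) D := by
        refine Finset.sum_subset Finset.subset_union_right ?_
        intro D _ hD
        by_contra hne0
        have hy0 : y D ≠ 0 := left_ne_zero_of_mul hne0
        have hk0 : tri_val_k_qtri_val m (Cst N R) D ≠ 0 := right_ne_zero_of_mul hne0
        obtain ⟨a, h1, h2, h3, h4⟩ := tri_val_k_ne_qtri_val m _ D hk0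
        obtain ⟨r, xs, h5, h6⟩ := tri_val_only_qtri_val N R hR m hm _ D hy0 a h1 h2 h3 h4
        apply hD
        rw [Finset.mem_image]
        refine ⟨r, ?_, ?_⟩
        · rw [hH, Finset.mem_filter]
          exact ⟨Finset.mem_univ _, by rw [h5]; rfl⟩
        · show Cst N (Function.update R r (R r).tail) = D
          rw [h6, h5]; rfl
      rw [hsum1, ← hsum2, Finset.sum_image hinj, Finset.sum_congr rfl key, Finset.sum_const,
        ← hcount R hR hP]
      rw [nsmul_eq_mul]
      push_cast
      ring

/-- the diagonal entries are units at `23` -/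
theorem tri_val (N : ℕ) (R : Fin 3 → List ℤ) (hR : ∀ r, goodRow (2 * (N : ℤ)) (R r)) :
    ∃ u : ℤ, (FL (R 0 ++ R 1 ++ R 2) (zN N)) (Cst N R) = u ∧ ¬ (23 : ℤ) ∣ u := by
  obtain ⟨c, hc, h⟩ := tri_val_main_qtri_val N _ (R 0 ++ R 1 ++ R 2) rfl
  obtain ⟨ε, hε, h1⟩ := tri_val_sign_qtri_val N _ R hR rfl
  refine ⟨c * ε, ?_, ?_⟩
  · rw [h R hR (List.Perm.refl _) ε h1]
    push_cast
    rfl
  · intro hd
    apply hc
    have h2 : (23 : ℤ) ∣ (c : ℤ) := by
      rcases hε with rfl | rfl
      · simpa using hd
      · simpa using hd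
    exact_mod_cast h2

end Pool.Agent.Helper840.AE
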