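import Pool.Agent.Helper840.AE.FockDefs
import Pool.Agent.Helper840.AE.FockDefs2
import Pool.Agent.Helper840.AE.P_DN_occ
import Pool.Agent.Helper840.AE.P_X_ket
import Pool.Agent.Helper840.AE.P_X_comm

set_option autoImplicit false

namespace Pool.Agent.Helper840.AE

/-- target site in row `r` -/
def sa_qE3_zN (N : ℕ) (r : Fin 3) : Site := (r, 2 * ((N : ℤ) + 1) - 1)
/-- source site in row `r` -/
def sb_qE3_zN (N : ℕ) (r : Fin 3) : Site := (r, 2 * (-(N : ℤ) - 1))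

/-- the intermediate states -/
noncomputable def DT_qE3_zN (N : ℕ) (T : Finset (Fin 3)) : Finset Site :=
  DN N ∪ (T.image (sa_qE3_zN N) ∪ T.image (sb_qE3_zN N))

theorem mem_DT_qE3_zN (N : ℕ) (T : Finset (Fin 3)) (i : Site) :
    i ∈ DT_qE3_zN N T ↔ i ∈ DN N ∨ (i.1 ∈ T ∧ (i.2 = 2 * ((N : ℤ) + 1) - 1 ∨ i.2 = 2 * (-(N : ℤ) - 1))) := by
  unfold DT_qE3_zN
  rw [Finset.mem_union, Finset.mem_union, Finset.mem_image, Finset.mem_image]
  constructor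
  · rintro (h | ⟨r, hr, rfl⟩ | ⟨r, hr, rfl⟩)
    · exact Or.inl h
    · exact Or.inr ⟨hr, Or.inl rfl⟩
    · exact Or.inr ⟨hr, Or.inr rfl⟩
  · rintro (h | ⟨hr, h | h⟩)
    · exact Or.inl h
    · exact Or.inr (Or.inl ⟨i.1, hr, Prod.ext rfl h.symm⟩)
    · exact Or.inr (Or.inr ⟨i.1, hr, Prod.ext rfl h.symm⟩)

theorem DT_sub_qE3_zN (N : ℕ) (T : Finset (Fin 3)) (r : Fin 3) (m : ℤ)
    (h : ¬ (r ∈ T ∧ (m = 2 * ((N : ℤ) + 1) - 1 ∨ m = 2 * (-(N : ℤ) - 1)))) :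
    occ (DT_qE3_zN N T) (r, m) ↔ occ (DN N) (r, m) := by
  have h1 : (r, m) ∈ DT_qE3_zN N T ↔ (r, m) ∈ DN N := by
    rw [mem_DT_qE3_zN]
    exact ⟨fun h2 => h2.elim id (fun h3 => absurd h3 h), Or.inl⟩
  unfold occ
  split_ifs
  · exact not_congr h1
  · exact h1

theorem DT_occ_odd_qE3_zN (N : ℕ) (T : Finset (Fin 3)) (r : Fin 3) (k : ℤ) :
    occ (DT_qE3_zN N T) (r, 2 * k - 1) ↔ (k ≤ N ∨ (r ∈ T ∧ k = N + 1)) := by
  by_cases h : r ∈ T ∧ k = N + 1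
  · obtain ⟨h1, rfl⟩ := h
    constructor
    · intro _
      exact Or.inr ⟨h1, rfl⟩
    · intro _
      unfold occ
      rw [if_neg (by simp only []; omega), mem_DT_qE3_zN]
      exact Or.inr ⟨h1, Or.inl rfl⟩
  · rw [DT_sub_qE3_zN N T r _ (by
      rintro ⟨h1, h2 | h2⟩
      · exact h ⟨h1, by omega⟩
      · omega), (DN_occ N r k).1]
    exact ⟨Or.inl, fun h2 => h2.elim id (fun h3 => absurd h3 h)⟩

theorem DT_occ_even_qE3_zN (N : ℕ) (T : Finset (Fin 3)) (r : Fin 3) (k : ℤ) :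
    occ (DT_qE3_zN N T) (r, 2 * k) ↔ (k < -(N : ℤ) ∧ ¬ (r ∈ T ∧ k = -(N : ℤ) - 1)) := by
  by_cases h : r ∈ T ∧ k = -(N : ℤ) - 1
  · obtain ⟨h1, rfl⟩ := h
    constructor
    · intro h2
      unfold occ at h2
      rw [if_pos (by simp only []; omega)] at h2
      exact absurd ((mem_DT_qE3_zN _ _ _).2 (Or.inr ⟨h1, Or.inr rfl⟩)) h2
    · rintro ⟨_, h2⟩
      exact absurd ⟨h1, rfl⟩ h2
  · rw [DT_sub_qE3_zN N T r _ (by
      rintro ⟨h1, h2 | h2⟩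
      · omega
      · exact h ⟨h1, by omega⟩), (DN_occ N r k).2]
    exact ⟨fun h2 => ⟨h2, h⟩, fun h2 => h2.1⟩

theorem sa_ne_sb_qE3_zN (N : ℕ) (r s : Fin 3) : sa_qE3_zN N r ≠ sb_qE3_zN N s := by
  intro h
  have := congrArg Prod.snd h
  unfold sa_qE3_zN sb_qE3_zN at this
  simp only [] at this
  omega

theorem sa_notin_qE3_zN (N : ℕ) (T : Finset (Fin 3)) (r : Fin 3) (hr : r ∉ T) : sa_qE3_zN N r ∉ DT_qE3_zN N T := by
  intro h
  have h1 : occ (DT_qE3_zN N T) (sa_qE3_zN N r) := by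
    unfold occ
    rw [if_neg (by unfold sa_qE3_zN; simp only []; omega)]
    exact h
  unfold sa_qE3_zN at h1
  rw [DT_occ_odd_qE3_zN] at h1
  rcases h1 with h1 | h1
  · omega
  · exact hr h1.1

theorem sb_notin_qE3_zN (N : ℕ) (T : Finset (Fin 3)) (r : Fin 3) (hr : r ∉ T) : sb_qE3_zN N r ∉ DT_qE3_zN N T := by
  have h1 : occ (DT_qE3_zN N T) (sb_qE3_zN N r) := by
    unfold sb_qE3_zN
    rw [DT_occ_even_qE3_zN]
    exact ⟨by omega, fun h => hr h.1⟩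
  unfold occ at h1
  rw [if_pos (by unfold sb_qE3_zN; simp only []; omega)] at h1
  exact h1

theorem tog_DT_qE3_zN (N : ℕ) (T : Finset (Fin 3)) (r : Fin 3) (hr : r ∉ T) :
    tog (sa_qE3_zN N r) (tog (sb_qE3_zN N r) (DT_qE3_zN N T)) = DT_qE3_zN N (insert r T) := by
  have h1 : tog (sb_qE3_zN N r) (DT_qE3_zN N T) = insert (sb_qE3_zN N r) (DT_qE3_zN N T) := by
    unfold tog
    rw [if_neg (sb_notin_qE3_zN N T r hr)]
  have h2 : sa_qE3_zN N r ∉ insert (sb_qE3_zN N r) (DT_qE3_zN N T) := by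
    rw [Finset.mem_insert]
    rintro (h | h)
    · exact sa_ne_sb_qE3_zN N r r h
    · exact sa_notin_qE3_zN N T r hr h
  rw [h1]
  unfold tog
  rw [if_neg h2]
  ext i
  rw [Finset.mem_insert, Finset.mem_insert, mem_DT_qE3_zN, mem_DT_qE3_zN]
  constructor
  · rintro (rfl | rfl | h | h)
    · exact Or.inr ⟨Finset.mem_insert_self _ _, Or.inl rfl⟩
    · exact Or.inr ⟨Finset.mem_insert_self _ _, Or.inr rfl⟩
    · exact Or.inl h
    · exact Or.inr ⟨Finset.mem_insert_of_mem h.1, h.2⟩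
  · rintro (h | ⟨h1, h2⟩)
    · exact Or.inr (Or.inr (Or.inl h))
    · rcases Finset.mem_insert.1 h1 with h3 | h3
      · rcases h2 with h2 | h2
        · exact Or.inl (Prod.ext h3 h2)
        · exact Or.inr (Or.inl (Prod.ext h3 h2))
      · exact Or.inr (Or.inr (Or.inr ⟨h3, h2⟩))

theorem DT_empty_qE3_zN (N : ℕ) : DT_qE3_zN N ∅ = DN N := by
  ext i
  rw [mem_DT_qE3_zN]
  simp

theorem DT_univ_qE3_zN (N : ℕ) : DT_qE3_zN N Finset.univ = DN (N + 1) := by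
  ext ⟨r, m⟩
  rw [mem_DT_qE3_zN]
  unfold DN
  simp only [Finset.mem_product, Finset.mem_univ, true_and, Finset.mem_union, Finset.mem_image,
    Finset.mem_Icc]
  push_cast
  constructor
  · rintro ((⟨k, hk, rfl⟩ | ⟨k, hk, rfl⟩) | h | h)
    · exact Or.inl ⟨k, by omega, rfl⟩
    · exact Or.inr ⟨k, by omega, rfl⟩
    · exact Or.inl ⟨N + 1, by omega, by omega⟩
    · exact Or.inr ⟨N + 1, by omega, by omega⟩
  · rintro (⟨k, hk, rfl⟩ | ⟨k, hk, rfl⟩)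
    · by_cases hk2 : k ≤ N
      · exact Or.inl (Or.inl ⟨k, by omega, rfl⟩)
      · exact Or.inr (Or.inl (by omega))
    · by_cases hk2 : k ≤ N
      · exact Or.inl (Or.inr ⟨k, by omega, rfl⟩)
      · exact Or.inr (Or.inr (by omega))

/-- the row operator -/
noncomputable def Yr_qE3_zN (N : ℕ) (r : Fin 3) : Module.End ℂ Fk := X (sa_qE3_zN N r) (sb_qE3_zN N r)

theorem Yr_comm_qE3_zN (N : ℕ) (r s : Fin 3) (v : Fk) : Yr_qE3_zN N r (Yr_qE3_zN N s v) = Yr_qE3_zN N s (Yr_qE3_zN N r v) := by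
  have h := X_comm (sa_qE3_zN N r) (sb_qE3_zN N r) (sa_qE3_zN N s) (sb_qE3_zN N s)
  rw [if_neg (fun h => sa_ne_sb_qE3_zN N s r h.symm), if_neg (sa_ne_sb_qE3_zN N r s)] at h
  have h2 := congrArg (fun f : Module.End ℂ Fk => f v) h
  have h3 : X (sa_qE3_zN N r) (sb_qE3_zN N r) (X (sa_qE3_zN N s) (sb_qE3_zN N s) v) - X (sa_qE3_zN N s) (sb_qE3_zN N s) (X (sa_qE3_zN N r) (sb_qE3_zN N r) v)
      = (0 : Fk) - 0 := h2
  rw [sub_zero] at h3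
  exact sub_eq_zero.1 h3

theorem Yr_ket_qE3_zN (N : ℕ) (T : Finset (Fin 3)) (r : Fin 3) (hr : r ∉ T) : ∃ ε : ℤ, (ε = 1 ∨ ε = -1) ∧
    Yr_qE3_zN N r (ket (DT_qE3_zN N T)) = (ε : ℂ) • ket (DT_qE3_zN N (insert r T)) := by
  obtain ⟨ε, hε, h⟩ := X_ket (sa_qE3_zN N r) (sb_qE3_zN N r) (sa_ne_sb_qE3_zN N r r) (DT_qE3_zN N T)
  refine ⟨ε, hε, ?_⟩
  rw [if_pos, tog_DT_qE3_zN N T r hr] at h
  · exact h
  · constructor
    · unfold sb_qE3_zN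
      rw [DT_occ_even_qE3_zN]
      exact ⟨by omega, fun h => hr h.1⟩
    · unfold sa_qE3_zN
      rw [DT_occ_odd_qE3_zN]
      rintro (h | h)
      · omega
      · exact hr h.1

theorem Yr_ket0_qE3_zN (N : ℕ) (T : Finset (Fin 3)) (r : Fin 3) (hr : r ∈ T) :
    Yr_qE3_zN N r (ket (DT_qE3_zN N T)) = 0 := by
  obtain ⟨ε, hε, h⟩ := X_ket (sa_qE3_zN N r) (sb_qE3_zN N r) (sa_ne_sb_qE3_zN N r r) (DT_qE3_zN N T)
  rw [if_neg] at h
  · exact h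
  · rintro ⟨h1, -⟩
    unfold sb_qE3_zN at h1
    rw [DT_occ_even_qE3_zN] at h1
    exact h1.2 ⟨hr, rfl⟩

/-- multiples of the intermediate states -/
def PT_qE3_zN (N : ℕ) (v : Fk) : Prop := ∃ (c : ℂ) (T : Finset (Fin 3)), v = c • ket (DT_qE3_zN N T)

theorem PT_Y_qE3_zN (N : ℕ) (r : Fin 3) (v : Fk) (h : PT_qE3_zN N v) : PT_qE3_zN N (Yr_qE3_zN N r v) := by
  obtain ⟨c, T, rfl⟩ := h
  by_cases hr : r ∈ T
  · refine ⟨0, T, ?_⟩
    rw [map_smul, Yr_ket0_qE3_zN N T r hr, smul_zero, zero_smul]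
  · obtain ⟨ε, -, h⟩ := Yr_ket_qE3_zN N T r hr
    refine ⟨c * ε, insert r T, ?_⟩
    rw [map_smul, h, smul_smul]

theorem PT_sq_qE3_zN (N : ℕ) (r : Fin 3) (v : Fk) (h : PT_qE3_zN N v) : Yr_qE3_zN N r (Yr_qE3_zN N r v) = 0 := by
  obtain ⟨c, T, rfl⟩ := h
  by_cases hr : r ∈ T
  · rw [map_smul, Yr_ket0_qE3_zN N T r hr, smul_zero, map_zero]
  · obtain ⟨ε, -, h⟩ := Yr_ket_qE3_zN N T r hr
    rw [map_smul, h, map_smul, map_smul, Yr_ket0_qE3_zN N _ r (Finset.mem_insert_self _ _), smul_zero,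
      smul_zero]

theorem Em_DT_qE3_zN (N : ℕ) (T : Finset (Fin 3)) :
    Em (-2 * (N : ℤ) - 2) (ket (DT_qE3_zN N T)) = ∑ r, Yr_qE3_zN N r (ket (DT_qE3_zN N T)) := by
  have h0 : (-1 - 2 * (-2 * (N : ℤ) - 2)) = 4 * (N : ℤ) + 3 := by ring
  unfold Em
  rw [h0]
  have h1 : S (4 * (N : ℤ) + 3) pev (ket (DT_qE3_zN N T)) =
      ∑ i ∈ box (bd (DT_qE3_zN N T) + (4 * (N : ℤ) + 3).natAbs),
        pev i • X (sh (4 * (N : ℤ) + 3) i) i (ket (DT_qE3_zN N T)) := by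
    unfold S
    rw [show ket (DT_qE3_zN N T) = Finsupp.single (DT_qE3_zN N T) 1 from rfl, Finsupp.linearCombination_single,
      one_smul]
    rfl
  rw [h1]
  have hinj : Function.Injective (sb_qE3_zN N) := by
    intro r s h
    exact congrArg Prod.fst h
  have hsub : Finset.univ.image (sb_qE3_zN N) ⊆ box (bd (DT_qE3_zN N T) + (4 * (N : ℤ) + 3).natAbs) := by
    intro i hi
    rw [Finset.mem_image] at hi
    obtain ⟨r, -, rfl⟩ := hi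
    unfold box sb_qE3_zN
    rw [Finset.mem_product, Finset.mem_Icc]
    refine ⟨Finset.mem_univ _, ?_, ?_⟩ <;> simp only [] <;> omega
  rw [← Finset.sum_subset hsub]
  · rw [Finset.sum_image (fun r _ s _ h => hinj h)]
    apply Finset.sum_congr rfl
    intro r _
    have h2 : pev (sb_qE3_zN N r) = 1 := by
      unfold pev sb_qE3_zN
      rw [if_pos (by simp only []; omega)]
    have h3 : sh (4 * (N : ℤ) + 3) (sb_qE3_zN N r) = sa_qE3_zN N r := by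
      unfold sh sb_qE3_zN sa_qE3_zN
      refine Prod.ext rfl ?_
      simp only []
      ring
    rw [h2, one_smul, h3]
    rfl
  · rintro ⟨r, m⟩ - hni
    unfold pev
    simp only []
    split_ifs with hm
    · rw [one_smul]
      have hne : sh (4 * (N : ℤ) + 3) ((r, m) : Site) ≠ (r, m) := by
        intro h
        have := congrArg Prod.snd h
        unfold sh at this
        simp only [] at this
        omega
      obtain ⟨ε, -, h⟩ := X_ket _ _ hne (DT_qE3_zN N T)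
      rw [h, if_neg]
      rintro ⟨h4, h5⟩
      obtain ⟨l, rfl⟩ : ∃ l, m = 2 * l := ⟨m / 2, by omega⟩
      rw [DT_occ_even_qE3_zN] at h4
      have h6 : sh (4 * (N : ℤ) + 3) ((r, 2 * l) : Site) = (r, 2 * (l + 2 * N + 2) - 1) := by
        unfold sh
        refine Prod.ext rfl ?_
        simp only []
        ring
      rw [h6, DT_occ_odd_qE3_zN] at h5
      push Not at h5
      have h7 : l = -(N : ℤ) - 1 := by
        have := h5.1
        have := h4.1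
        omega
      apply hni
      rw [Finset.mem_image]
      exact ⟨r, Finset.mem_univ _, by unfold sb_qE3_zN; rw [h7]⟩
    · rw [zero_smul]

theorem Em_PT_qE3_zN (N : ℕ) (v : Fk) (h : PT_qE3_zN N v) :
    Em (-2 * (N : ℤ) - 2) v = Yr_qE3_zN N 0 v + Yr_qE3_zN N 1 v + Yr_qE3_zN N 2 v := by
  obtain ⟨c, T, rfl⟩ := h
  rw [map_smul, Em_DT_qE3_zN, Fin.sum_univ_three]
  simp only [map_smul, smul_add]

theorem E3_zN (N : ℕ) : ∃ c : ℂ, (c = 6 ∨ c = -6) ∧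
    ((Em (-2 * (N : ℤ) - 2)) ^ 3) (zN N) = c • zN (N + 1) := by
  have hz : PT_qE3_zN N (zN N) := ⟨1, ∅, by rw [one_smul, DT_empty_qE3_zN]; rfl⟩
  have h3 : ((Em (-2 * (N : ℤ) - 2)) ^ 3) (zN N) =
      (6 : ℂ) • Yr_qE3_zN N 0 (Yr_qE3_zN N 1 (Yr_qE3_zN N 2 (zN N))) := by
    rw [pow_succ, pow_succ, pow_one, Module.End.mul_apply, Module.End.mul_apply]
    have q0 := PT_Y_qE3_zN N 0 _ hz
    have q1 := PT_Y_qE3_zN N 1 _ hz
    have q2 := PT_Y_qE3_zN N 2 _ hz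
    rw [Em_PT_qE3_zN N _ hz]
    simp only [map_add]
    rw [Em_PT_qE3_zN N _ q0, Em_PT_qE3_zN N _ q1, Em_PT_qE3_zN N _ q2,
      PT_sq_qE3_zN N 0 _ hz, PT_sq_qE3_zN N 1 _ hz, PT_sq_qE3_zN N 2 _ hz, Yr_comm_qE3_zN N 1 0, Yr_comm_qE3_zN N 2 0, Yr_comm_qE3_zN N 2 1]
    simp only [map_add, map_zero]
    have q01 := PT_Y_qE3_zN N 0 _ q1
    have q02 := PT_Y_qE3_zN N 0 _ q2
    have q12 := PT_Y_qE3_zN N 1 _ q2
    rw [Em_PT_qE3_zN N _ q01, Em_PT_qE3_zN N _ q02, Em_PT_qE3_zN N _ q12, PT_sq_qE3_zN N 0 _ q1, PT_sq_qE3_zN N 0 _ q2,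
      PT_sq_qE3_zN N 1 _ q2]
    have e1 : Yr_qE3_zN N 1 (Yr_qE3_zN N 0 (Yr_qE3_zN N 1 (zN N))) = 0 := by
      rw [Yr_comm_qE3_zN N 1 0, PT_sq_qE3_zN N 1 _ hz, map_zero]
    have e2 : Yr_qE3_zN N 2 (Yr_qE3_zN N 0 (Yr_qE3_zN N 1 (zN N))) = Yr_qE3_zN N 0 (Yr_qE3_zN N 1 (Yr_qE3_zN N 2 (zN N))) := by
      rw [Yr_comm_qE3_zN N 2 0, Yr_comm_qE3_zN N 2 1]
    have e3 : Yr_qE3_zN N 1 (Yr_qE3_zN N 0 (Yr_qE3_zN N 2 (zN N))) = Yr_qE3_zN N 0 (Yr_qE3_zN N 1 (Yr_qE3_zN N 2 (zN N))) := by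
      rw [Yr_comm_qE3_zN N 1 0]
    have e4 : Yr_qE3_zN N 2 (Yr_qE3_zN N 0 (Yr_qE3_zN N 2 (zN N))) = 0 := by
      rw [Yr_comm_qE3_zN N 2 0, PT_sq_qE3_zN N 2 _ hz, map_zero]
    have e5 : Yr_qE3_zN N 2 (Yr_qE3_zN N 1 (Yr_qE3_zN N 2 (zN N))) = 0 := by
      rw [Yr_comm_qE3_zN N 2 1, PT_sq_qE3_zN N 2 _ hz, map_zero]
    rw [e1, e2, e3, e4, e5]
    generalize Yr_qE3_zN N 0 (Yr_qE3_zN N 1 (Yr_qE3_zN N 2 (zN N))) = w
    have : (6 : ℂ) • w = w + w + w + w + w + w := by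
      have : (6 : ℂ) = 1 + 1 + 1 + 1 + 1 + 1 := by norm_num
      rw [this]
      simp only [add_smul, one_smul]
    rw [this]
    abel
  obtain ⟨ε2, hε2, h2⟩ := Yr_ket_qE3_zN N ∅ 2 (by simp)
  obtain ⟨ε1, hε1, h1⟩ := Yr_ket_qE3_zN N (insert 2 ∅) 1 (by decide)
  obtain ⟨ε0, hε0, h0⟩ := Yr_ket_qE3_zN N (insert 1 (insert 2 ∅)) 0 (by decide)
  have hu : (insert (0 : Fin 3) (insert 1 (insert 2 ∅))) = (Finset.univ : Finset (Fin 3)) := by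
    decide
  rw [hu, DT_univ_qE3_zN] at h0
  rw [DT_empty_qE3_zN] at h2
  refine ⟨6 * (ε2 * ε1 * ε0 : ℂ), ?_, ?_⟩
  · rcases hε2 with rfl | rfl <;> rcases hε1 with rfl | rfl <;> rcases hε0 with rfl | rfl <;>
      norm_num
  · rw [h3]
    have : zN N = ket (DN N) := rfl
    rw [this, h2, map_smul, map_smul, h1, map_smul, h0]
    rw [smul_smul, smul_smul, smul_smul]
    have : zN (N + 1) = ket (DN (N + 1)) := rfl
    rw [this]
    congr 1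
    ring

end Pool.Agent.Helper840.AE
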