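import Pool.Agent.Helper840.AE.FockDefs
import Pool.Agent.Helper840.AE.FockDefs2
import Pool.Agent.Helper840.AE.P_loop_mem
import Pool.Agent.Helper840.AE.P_E3_zN

set_option autoImplicit false

namespace Pool.Agent.Helper840.AE

theorem zN_mem (P : Submodule Rp Fk) (hE : ∀ i x, x ∈ P → opE i x ∈ P)
    (hF : ∀ i x, x ∈ P → opF i x ∈ P) (h0 : zN 0 ∈ P) (N : ℕ) : zN N ∈ P := by
  obtain ⟨_, hEm⟩ := loop_mem P hE hF
  induction N with
  | zero => exact h0
  | succ N ih =>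
    obtain ⟨c, hc, h⟩ := E3_zN N
    have h1 : ((Em (-2 * (N : ℤ) - 2)) ^ 3) (zN N) ∈ P := by
      rw [pow_succ, pow_two, Module.End.mul_apply, Module.End.mul_apply]
      exact hEm _ _ (hEm _ _ (hEm _ _ ih))
    rw [h] at h1
    have hcR : ∃ e : Rp, (e : ℂ) * c = 1 := by
      rcases hc with rfl | rfl
      · refine ⟨⟨1 / 6, ⟨1, 6, by norm_num, by norm_num⟩⟩, by norm_num⟩
      · refine ⟨⟨-1 / 6, ⟨-1, 6, by norm_num, by norm_num⟩⟩, by norm_num⟩
    obtain ⟨e, he⟩ := hcR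
    have h2 := P.smul_mem e h1
    have h3 : e • (c • zN (N + 1)) = zN (N + 1) := by
      show (e : ℂ) • (c • zN (N + 1)) = zN (N + 1)
      rw [smul_smul, he, one_smul]
    rwa [h3] at h2

end Pool.Agent.Helper840.AE
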