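import Pool.Agent.Helper840.AE.FockDefs
import Pool.Agent.Helper840.AE.FockDefs2
import Pool.Agent.Helper840.AE.P_spanAdm
import Pool.Agent.Helper840.AE.P_loop_mem
import Pool.Agent.Helper840.AE.P_zN_mem
import Pool.Agent.Helper840.AE.P_rows_of_adm
import Pool.Agent.Helper840.AE.P_tri_ne
import Pool.Agent.Helper840.AE.P_tri_val
import Pool.Agent.Helper840.AE.P_FL_perm

set_option autoImplicit false

namespace Pool.Agent.Helper840.AE

theorem sat_smul_qsat (r : Rp) (x : Fk) : r • x = (r : ℂ) • x := rfl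

theorem sat_int_mem_qsat (n : ℤ) : (n : ℂ) ∈ Rp := intCast_mem Rp n

/-- the localisation of `M` at `23` -/
noncomputable def sat_P_qsat (M : AddSubgroup Fk) : Submodule Rp Fk where
  carrier := {y | ∃ b : ℕ, ¬ 23 ∣ b ∧ (b : ℤ) • y ∈ M}
  zero_mem' := ⟨1, by norm_num, by simp [M.zero_mem]⟩
  add_mem' := by
    rintro x y ⟨b, hb, h1⟩ ⟨c, hc, h2⟩
    refine ⟨b * c, ?_, ?_⟩
    · intro h
      rcases (Nat.Prime.dvd_mul (by norm_num)).mp h with h | h
      · exact hb h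
      · exact hc h
    · have h3 : ((b * c : ℕ) : ℤ) • (x + y) = (c : ℤ) • ((b : ℤ) • x) + (b : ℤ) • ((c : ℤ) • y) := by
        rw [smul_smul, smul_smul, smul_add]
        push_cast
        rw [mul_comm (c : ℤ) (b : ℤ)]
      rw [h3]
      exact M.add_mem (M.zsmul_mem h1 _) (M.zsmul_mem h2 _)
  smul_mem' := by
    rintro z y ⟨b, hb, h1⟩
    obtain ⟨a, b', hb', h2⟩ := z.2
    refine ⟨b' * b, ?_, ?_⟩
    · intro h
      rcases (Nat.Prime.dvd_mul (by norm_num)).mp h with h | h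
      · exact hb' h
      · exact hb h
    · have h3 : ((b' * b : ℕ) : ℤ) • (z • y) = a • ((b : ℤ) • y) := by
        rw [sat_smul_qsat]
        ext D
        simp only [Finsupp.smul_apply, zsmul_eq_mul, smul_eq_mul]
        push_cast
        calc (b' : ℂ) * b * ((z : ℂ) * y D) = ((b' : ℂ) * z) * (b * y D) := by ring
          _ = _ := by rw [h2]
      rw [h3]
      exact M.zsmul_mem h1 _

/-- vectors with coefficients in `Rp` -/
noncomputable def sat_I_qsat : Submodule Rp Fk where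
  carrier := {x | ∀ D, x D ∈ Rp}
  zero_mem' := fun D => by simpa using Rp.zero_mem
  add_mem' := fun {x y} hx hy D => by simpa using Rp.add_mem (hx D) (hy D)
  smul_mem' := fun z x hx D => by
    rw [sat_smul_qsat]
    simpa using Rp.mul_mem z.2 (hx D)

theorem sat_I_smul_qsat {c : ℂ} (hc : c ∈ Rp) {x : Fk} (hx : x ∈ sat_I_qsat) : c • x ∈ sat_I_qsat :=
  sat_I_qsat.smul_mem ⟨c, hc⟩ hx

theorem sat_I_lc_qsat (v : Finset Site → Fk) (hv : ∀ D, v D ∈ sat_I_qsat) (x : Fk) (hx : x ∈ sat_I_qsat) :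
    Finsupp.linearCombination ℂ v x ∈ sat_I_qsat := by
  rw [Finsupp.linearCombination_apply]
  refine Submodule.sum_mem _ (fun D _ => ?_)
  exact sat_I_smul_qsat (hx D) (hv D)

theorem sat_ket_qsat (D : Finset Site) : ket D ∈ sat_I_qsat := by
  intro D'
  unfold ket
  rw [Finsupp.single_apply]
  split_ifs
  · exact Rp.one_mem
  · exact Rp.zero_mem

theorem sat_neg_one_pow_qsat (n : ℕ) : ((-1 : ℂ)) ^ n ∈ Rp :=
  Rp.pow_mem (Rp.neg_mem Rp.one_mem) n

theorem sat_ann_qsat (i : Site) (x : Fk) (hx : x ∈ sat_I_qsat) : ann i x ∈ sat_I_qsat := by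
  refine sat_I_lc_qsat _ (fun D => ?_) x hx
  split_ifs
  · exact sat_I_smul_qsat (sat_neg_one_pow_qsat _) (sat_ket_qsat _)
  · exact sat_I_qsat.zero_mem

theorem sat_cre_qsat (i : Site) (x : Fk) (hx : x ∈ sat_I_qsat) : cre i x ∈ sat_I_qsat := by
  refine sat_I_lc_qsat _ (fun D => ?_) x hx
  split_ifs
  · exact sat_I_qsat.zero_mem
  · exact sat_I_smul_qsat (sat_neg_one_pow_qsat _) (sat_ket_qsat _)

theorem sat_X_qsat (i j : Site) (x : Fk) (hx : x ∈ sat_I_qsat) : X i j x ∈ sat_I_qsat :=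
  sat_cre_qsat i _ (sat_ann_qsat j x hx)

theorem sat_S_qsat (d : ℤ) (g : Site → ℂ) (hg : ∀ i, g i ∈ Rp) (x : Fk) (hx : x ∈ sat_I_qsat) :
    S d g x ∈ sat_I_qsat := by
  refine sat_I_lc_qsat _ (fun D => ?_) x hx
  refine Submodule.sum_mem _ (fun i _ => ?_)
  exact sat_I_smul_qsat (hg i) (sat_X_qsat _ _ _ (sat_ket_qsat D))

theorem sat_Fm_qsat (m : ℤ) (x : Fk) (hx : x ∈ sat_I_qsat) : Fm m x ∈ sat_I_qsat := by
  refine sat_S_qsat _ _ (fun i => ?_) x hx
  unfold podd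
  split_ifs
  · exact Rp.one_mem
  · exact Rp.zero_mem

theorem sat_FL_cons_qsat (m : ℤ) (l : List ℤ) (x : Fk) : FL (m :: l) x = Fm m (FL l x) := by
  simp [FL]

theorem sat_FL_qsat (l : List ℤ) (x : Fk) (hx : x ∈ sat_I_qsat) : FL l x ∈ sat_I_qsat := by
  induction l with
  | nil => simpa [FL] using hx
  | cons m l ih =>
    rw [sat_FL_cons_qsat]
    exact sat_Fm_qsat _ _ ih

/-- divisibility by `23` -/
def sat_Div_qsat (w : ℂ) : Prop := ∃ z ∈ Rp, w = 23 * z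

theorem sat_Div_zero_qsat : sat_Div_qsat 0 := ⟨0, Rp.zero_mem, by simp⟩

theorem sat_Div_add_qsat {v w : ℂ} (hv : sat_Div_qsat v) (hw : sat_Div_qsat w) : sat_Div_qsat (v + w) := by
  obtain ⟨a, ha, rfl⟩ := hv
  obtain ⟨b, hb, rfl⟩ := hw
  exact ⟨a + b, Rp.add_mem ha hb, by ring⟩

theorem sat_Div_mul_qsat {v w : ℂ} (hv : sat_Div_qsat v) (hw : w ∈ Rp) : sat_Div_qsat (v * w) := by
  obtain ⟨a, ha, rfl⟩ := hv
  exact ⟨a * w, Rp.mul_mem ha hw, by ring⟩

theorem sat_Div_sub_qsat {v w : ℂ} (hv : sat_Div_qsat v) (hw : sat_Div_qsat w) : sat_Div_qsat (v - w) := by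
  obtain ⟨a, ha, rfl⟩ := hv
  obtain ⟨b, hb, rfl⟩ := hw
  exact ⟨a - b, Rp.sub_mem ha hb, by ring⟩

theorem sat_Div_unit_qsat {c : ℂ} (hc : c ∈ Rp) (u : ℤ) (hu : ¬ (23 : ℤ) ∣ u) (h : sat_Div_qsat (c * u)) :
    sat_Div_qsat c := by
  have hcop : IsCoprime (23 : ℤ) u := by
    rw [Int.isCoprime_iff_gcd_eq_one]
    exact (Int.prime_iff_natAbs_prime.mpr (by norm_num) |>.coprime_iff_not_dvd.mpr hu) |> Int.isCoprime_iff_gcd_eq_one.mp
  obtain ⟨a, b, hab⟩ := hcop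
  have h1 : c = 23 * (c * a) + (c * u) * b := by
    have h2 : (a : ℂ) * 23 + b * u = 1 := by exact_mod_cast hab
    calc c = c * 1 := (mul_one c).symm
      _ = c * ((a : ℂ) * 23 + b * u) := by rw [h2]
      _ = _ := by ring
  rw [h1]
  exact sat_Div_add_qsat ⟨_, Rp.mul_mem hc (sat_int_mem_qsat a), rfl⟩ (sat_Div_mul_qsat h (sat_int_mem_qsat b))

/-- the main claim: all the coefficients are divisible -/
theorem sat_main_qsat (N : ℕ) (c : List ℤ →₀ Rp)
    (hc : ∀ κ ∈ c.support, AdmL (2 * (N : ℤ)) κ ∧ κ.Pairwise (· ≤ ·))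
    (h23 : ∀ D, sat_Div_qsat ((Finsupp.linearCombination Rp (fun κ => FL κ (zN N)) c) D)) :
    ∀ κ, sat_Div_qsat (c κ : ℂ) := by
  classical
  by_contra hcon
  push Not at hcon
  obtain ⟨κ0, hκ0⟩ := hcon
  set B := c.support.filter (fun κ => ¬ sat_Div_qsat (c κ : ℂ)) with hB
  have hmem0 : ∀ κ, ¬ sat_Div_qsat (c κ : ℂ) → κ ∈ c.support := by
    intro κ hκ
    rw [Finsupp.mem_support_iff]
    intro h0
    apply hκ
    rw [h0]
    simpa using sat_Div_zero_qsat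
  have hne : B.Nonempty := ⟨κ0, Finset.mem_filter.mpr ⟨hmem0 κ0 hκ0, hκ0⟩⟩
  obtain ⟨κ, hκB, hmax⟩ := B.exists_max_image id hne
  obtain ⟨hκs, hκbad⟩ := Finset.mem_filter.mp hκB
  obtain ⟨hκadm, hκsort⟩ := hc κ hκs
  obtain ⟨R, hR, hperm⟩ := rows_of_adm (2 * (N : ℤ)) κ hκadm
  have hsortR : (R 0 ++ R 1 ++ R 2).insertionSort (· ≤ ·) = κ := by
    refine List.Perm.eq_of_pairwise' (r := (· ≤ ·)) (List.pairwise_insertionSort _ _) hκsort ?_
    exact (List.perm_insertionSort _ _).trans hperm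
  obtain ⟨u, hu, hu23⟩ := tri_val N R hR
  rw [FL_perm _ _ hperm] at hu
  have hval := h23 (Cst N R)
  rw [Finsupp.linearCombination_apply, Finsupp.sum, Finsupp.finsetSum_apply] at hval
  rw [← Finset.add_sum_erase _ _ hκs] at hval
  have hrest : sat_Div_qsat (∑ κ' ∈ c.support.erase κ, (c κ' • FL κ' (zN N)) (Cst N R)) := by
    refine Finset.sum_induction _ sat_Div_qsat (fun _ _ => sat_Div_add_qsat) sat_Div_zero_qsat ?_
    intro κ' hκ'
    obtain ⟨hne', hs'⟩ := Finset.mem_erase.mp hκ'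
    obtain ⟨_, hsort'⟩ := hc κ' hs'
    rw [sat_smul_qsat, Finsupp.smul_apply, smul_eq_mul]
    by_cases hbad' : sat_Div_qsat (c κ' : ℂ)
    · exact sat_Div_mul_qsat hbad' (sat_FL_qsat κ' _ (sat_ket_qsat _) _)
    · have hz : (FL κ' (zN N)) (Cst N R) = 0 := by
        by_contra hnz
        rcases tri_ne N R hR κ' hnz with h1 | h1
        · exact hne' (List.Perm.eq_of_pairwise' (r := (· ≤ ·)) hsort' hκsort (h1.trans hperm))
        · rw [hsortR, hsort'.insertionSort_eq] at h1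
          have h2 : κ < κ' := h1
          have h3 : κ' ≤ κ := hmax κ' (Finset.mem_filter.mpr ⟨hs', hbad'⟩)
          exact absurd h2 (not_lt.mpr h3)
      rw [hz, mul_zero]
      exact sat_Div_zero_qsat
  have h4 := sat_Div_sub_qsat hval hrest
  rw [add_sub_cancel_right, sat_smul_qsat, Finsupp.smul_apply, smul_eq_mul, hu] at h4
  exact hκbad (sat_Div_unit_qsat (c κ).2 u hu23 h4)

/-- saturation -/
theorem sat (M : AddSubgroup Fk) (hE : ∀ i x, x ∈ M → opE i x ∈ M)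
    (hF : ∀ i x, x ∈ M → opF i x ∈ M) (h0 : zN 0 ∈ M) (hW : ∀ x ∈ M, ∃ N, x ∈ WN N)
    (x : Fk) (hx : x ∈ M) (h23 : ∀ D, ∃ n : ℤ, x D = 23 * n) : ∃ y ∈ M, x = (23 : ℤ) • y := by
  have hPE : ∀ i y, y ∈ sat_P_qsat M → opE i y ∈ sat_P_qsat M := by
    rintro i y ⟨b, hb, h⟩
    exact ⟨b, hb, by rw [← map_zsmul]; exact hE i _ h⟩
  have hPF : ∀ i y, y ∈ sat_P_qsat M → opF i y ∈ sat_P_qsat M := by
    rintro i y ⟨b, hb, h⟩
    exact ⟨b, hb, by rw [← map_zsmul]; exact hF i _ h⟩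
  have hP0 : zN 0 ∈ sat_P_qsat M := ⟨1, by norm_num, by simpa using h0⟩
  have hz := zN_mem (sat_P_qsat M) hPE hPF hP0
  have hloop := (loop_mem (sat_P_qsat M) hPE hPF).1
  have hFL : ∀ (N : ℕ) (l : List ℤ), FL l (zN N) ∈ sat_P_qsat M := by
    intro N l
    induction l with
    | nil => simpa [FL] using hz N
    | cons m l ih => rw [sat_FL_cons_qsat]; exact hloop m _ ih
  obtain ⟨N, hN⟩ := hW x hx
  have h1 : x ∈ Submodule.span Rp ((fun κ : List ℤ => FL κ (zN N)) ''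
      {κ | AdmL (2 * (N : ℤ)) κ ∧ κ.Pairwise (· ≤ ·)}) := by
    have hle1 : WN N ≤ Submodule.span Rp {x | ∃ l' : List ℤ, AdmL (2 * (N : ℤ)) l' ∧ x = FL l' (zN N)} := by
      refine Submodule.span_le.mpr ?_
      rintro _ ⟨l, rfl⟩
      exact spanAdm N l
    have hle2 : Submodule.span Rp {x | ∃ l' : List ℤ, AdmL (2 * (N : ℤ)) l' ∧ x = FL l' (zN N)} ≤
        Submodule.span Rp ((fun κ : List ℤ => FL κ (zN N)) ''
          {κ | AdmL (2 * (N : ℤ)) κ ∧ κ.Pairwise (· ≤ ·)}) := by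
      refine Submodule.span_mono ?_
      rintro _ ⟨l, hl, rfl⟩
      have hp := List.perm_insertionSort (· ≤ ·) l
      refine ⟨l.insertionSort (· ≤ ·), ⟨⟨?_, ?_⟩, List.pairwise_insertionSort _ _⟩, ?_⟩
      · intro m hm
        exact hl.1 m (hp.mem_iff.mp hm)
      · intro m
        rw [hp.count_eq, hp.count_eq]
        exact hl.2 m
      · show FL _ (zN N) = FL _ (zN N)
        rw [FL_perm _ _ hp]
    exact hle2 (hle1 hN)
  obtain ⟨c, hc, hcx⟩ := (Finsupp.mem_span_image_iff_linearCombination Rp).mp h1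
  have hdiv := sat_main_qsat N c (fun κ hκ => (Finsupp.mem_supported _ _).mp hc hκ) (by
    intro D
    rw [hcx]
    obtain ⟨n, hn⟩ := h23 D
    exact ⟨n, sat_int_mem_qsat n, hn⟩)
  choose z hzR hz23 using hdiv
  -- the quotient by `23`
  set y' : Fk := ∑ κ ∈ c.support, (⟨z κ, hzR κ⟩ : Rp) • FL κ (zN N) with hy'
  have hy'P : y' ∈ sat_P_qsat M := Submodule.sum_mem _ (fun κ _ => (sat_P_qsat M).smul_mem _ (hFL N κ))
  have hxy : x = (23 : ℤ) • y' := by
    rw [← hcx, Finsupp.linearCombination_apply, Finsupp.sum, hy', Finset.smul_sum]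
    refine Finset.sum_congr rfl (fun κ _ => ?_)
    rw [sat_smul_qsat, sat_smul_qsat, hz23 κ]
    ext D
    simp only [Finsupp.smul_apply, zsmul_eq_mul, smul_eq_mul]
    push_cast
    ring
  obtain ⟨b, hb, hby⟩ := hy'P
  have hcop : IsCoprime (23 : ℤ) (b : ℤ) := by
    have h2 : Nat.Coprime 23 b := (Nat.Prime.coprime_iff_not_dvd (by norm_num)).mpr hb
    exact_mod_cast Nat.isCoprime_iff_coprime.mpr h2
  obtain ⟨β, α, hαβ⟩ := hcop
  refine ⟨α • ((b : ℤ) • y') + β • x, M.add_mem (M.zsmul_mem hby _) (M.zsmul_mem hx _), ?_⟩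
  ext D
  have h6 : x D = 23 * y' D := by
    have := DFunLike.congr_fun hxy D
    rw [this]
    simp only [Finsupp.smul_apply, zsmul_eq_mul]
    push_cast
    ring
  have h7 : (β : ℂ) * 23 + α * b = 1 := by exact_mod_cast hαβ
  simp only [Finsupp.smul_apply, Finsupp.add_apply, zsmul_eq_mul]
  push_cast
  calc x D = 1 * x D := (one_mul _).symm
    _ = ((β : ℂ) * 23 + α * b) * x D := by rw [h7]
    _ = β * 23 * x D + α * b * x D := by ring
    _ = β * 23 * x D + α * b * (23 * y' D) := by rw [← h6]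
    _ = _ := by ring

end Pool.Agent.Helper840.AE
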