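import Pool.Agent.Helper840.AE.FockDefs
import Pool.Agent.Helper840.AE.FockDefs2
import Pool.Agent.Helper840.AE.P_S_ext

set_option autoImplicit false

namespace Pool.Agent.Helper840.AE

theorem zN0_11926_qvac_op : zN 0 = ket ∅ := by
  unfold zN
  congr 1

theorem ann_ket_11926_qvac_op (i : Site) (D : Finset Site) : ann i (ket D) =
    if occ D i then ((-1 : ℂ) ^ cnt i D) • ket (tog i D) else 0 := by
  unfold ann ket
  rw [Finsupp.linearCombination_single, one_smul]

theorem cre_ket_11926_qvac_op (i : Site) (D : Finset Site) : cre i (ket D) =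
    if occ D i then 0 else ((-1 : ℂ) ^ cnt i D) • ket (tog i D) := by
  unfold cre ket
  rw [Finsupp.linearCombination_single, one_smul]

theorem X_ket_11926_qvac_op (i : Site) : X (sh (-1) i) i (ket ∅) = 0 := by
  show cre (sh (-1) i) (ann i (ket ∅)) = 0
  rw [ann_ket_11926_qvac_op]
  by_cases h : occ ∅ i
  · rw [if_pos h, map_smul, cre_ket_11926_qvac_op]
    have h1 : i.2 < 0 := by
      by_contra hc
      unfold occ at h
      rw [if_neg hc] at h
      exact absurd h (Finset.notMem_empty i)
    have h2 : tog i ∅ = {i} := by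
      unfold tog
      rw [if_neg (Finset.notMem_empty i)]
      rfl
    have h3 : occ (tog i ∅) (sh (-1) i) := by
      rw [h2]
      unfold occ sh
      have h4 : i.2 + -1 < 0 := by omega
      rw [if_pos h4, Finset.mem_singleton]
      intro h5
      have h6 := congrArg Prod.snd h5
      simp only at h6
      omega
    rw [if_pos h3, smul_zero]
  · rw [if_neg h, map_zero]

theorem S_ket_11926_qvac_op (g : Site → ℂ) : S (-1) g (ket ∅) = 0 := by
  unfold S ket
  rw [Finsupp.linearCombination_single, one_smul]
  apply Finset.sum_eq_zero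
  intro i _
  have := X_ket_11926_qvac_op i
  unfold ket at this
  rw [this, smul_zero]

theorem Dg_ket_11926_qvac_op (w : Site → ℂ) : Dg w (ket ∅) = 0 := by
  unfold Dg ket
  rw [Finsupp.linearCombination_single, one_smul, Finset.sum_empty, zero_smul]

/-- the vacuum is a highest weight vector of weight `(0, 3)` -/
theorem vac_op (i : Fin 2) : opE i (zN 0) = 0 ∧
    opH i (zN 0) = (if i = 0 then (0 : ℂ) else 3) • zN 0 ∧ opD 0 (zN 0) = 0 := by
  rw [zN0_11926_qvac_op]
  refine ⟨?_, ?_, ?_⟩
  · unfold opE
    split_ifs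
    · exact S_ket_11926_qvac_op _
    · exact S_ket_11926_qvac_op _
  · unfold opH
    split_ifs
    · rw [Dg_ket_11926_qvac_op, zero_smul]
    · rw [LinearMap.add_apply, Dg_ket_11926_qvac_op, zero_add, LinearMap.smul_apply]
      rfl
  · unfold opD
    rw [LinearMap.add_apply, Dg_ket_11926_qvac_op, zero_add, zero_smul]
    rfl

end Pool.Agent.Helper840.AE
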