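import Pool.Agent.Helper840.AE.Link
import Pool.Agent.Helper840.AE.ExtDefs
import Pool.Agent.Helper840.AE.P_cert
import Pool.Agent.Helper840.AE.P_vac_op
import Pool.Agent.Helper840.AE.P_W_E
import Pool.Agent.Helper840.AE.P_W_F
import Pool.Agent.Helper840.AE.P_W_H
import Pool.Agent.Helper840.AE.P_WN_mono
import Pool.Agent.Helper840.AE.P_sat
import Pool.Agent.Helper840.AE.P_ext_main
import Pool.Agent.Helper840.AE.P_lat_cyclic
import Pool.Agent.Helper840.AE.P_lat_tf

/-!
Assembly: the data of the extension.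
-/

set_option autoImplicit false

namespace Pool.Agent.Helper840.AE

/-- The weight `2 ω_0 + ω_1`. -/
abbrev lamA : Fin 2 → ℕ := weight 3 1

/-- The weight `3 ω_1`. -/
abbrev muA : Fin 2 → ℕ := weight 3 3

/-- The singular vector of the certificate. -/
noncomputable def wv : Fk := vecOf wdat

lemma IntV_wv : IntV wv := cert.1
lemma opE_wv (i : Fin 2) : opE i wv = 0 := cert.2.1 i
lemma opH0_wv : opH 0 wv = (2 : ℂ) • wv := cert.2.2.1
lemma opH1_wv : opH 1 wv = (1 : ℂ) • wv := cert.2.2.2.1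
lemma opD_wv : opD 0 wv = (-4 : ℂ) • wv := cert.2.2.2.2.1
lemma Bf_wv : Bf wv wv = 1420710 := cert.2.2.2.2.2.1
lemma cwds_ne : ∀ p ∈ cwds, p.1 ≠ [] := cert.2.2.2.2.2.2.1

lemma IntV_zN0 : IntV (zN 0) := by
  intro D
  unfold zN ket
  rw [Finsupp.single_apply]
  split_ifs
  · exact ⟨1, by simp⟩
  · exact ⟨0, by simp⟩

lemma zN0_ne : zN 0 ≠ 0 := by
  unfold zN ket
  rw [Ne, Finsupp.single_eq_zero]
  exact one_ne_zero

lemma wv_ne : wv ≠ 0 := by
  intro h
  have h1 := Bf_wv
  rw [h, Bf_zero_left] at h1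
  norm_num at h1

lemma hwMu : HW muA (toC 0 (zN 0)) := by
  refine hw_toC _ _ _ (fun i => (vac_op i).1) (fun i => ?_) (vac_op 0).2.2
  rw [(vac_op i).2.1]
  congr 1
  unfold muA weight
  split_ifs <;> norm_num

lemma hwLam : HW lamA (toC 4 wv) := by
  refine hw_toC _ _ _ opE_wv (fun i => ?_) ?_
  · fin_cases i
    · change opH 0 wv = ((weight 3 1 0 : ℕ) : ℂ) • wv
      rw [opH0_wv]
      congr 1
    · change opH 1 wv = ((weight 3 1 1 : ℕ) : ℂ) • wv
      rw [opH1_wv]
      congr 1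
      norm_num [weight]
  · have h1 := opD_wv
    unfold opD at h1 ⊢
    rw [LinearMap.add_apply, zero_smul, LinearMap.zero_apply, add_zero] at h1
    rw [LinearMap.add_apply, h1, LinearMap.smul_apply, Module.End.one_apply, ← add_smul]
    norm_num

lemma lat_iff {lam : Fin 2 → ℕ} {c : ℂ} {v : Fk} (hv : v ≠ 0) (hI : IntV v)
    (H : HW lam (toC c v)) (u : UZ) : u • vZ lam = 0 ↔ rF 0 (u : UA) v = 0 := by
  rw [← rF_indep c u.2, ← lc_iff hv hI H u.2]
  constructor
  · intro h
    exact congrArg Subtype.val h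
  · intro h
    exact Subtype.ext h

lemma mu_iff (u : UZ) : u • vZ muA = 0 ↔ rF 0 (u : UA) (zN 0) = 0 :=
  lat_iff zN0_ne IntV_zN0 hwMu u

lemma lam_iff (u : UZ) : u • vZ lamA = 0 ↔ rF 0 (u : UA) wv = 0 :=
  lat_iff wv_ne IntV_wv hwLam u

/-- The lowering word as an element of `U_ℤ`. -/
noncomputable def fWZ (J : List (Fin 2)) : UZ := (J.map (fun i => fZ i 1)).prod

/-- The raising word as an element of `U_ℤ`. -/
noncomputable def eWZ (J : List (Fin 2)) : UZ := (J.map (fun i => eZ i 1)).prod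

/-- The combination of lowering words. -/
noncomputable def YZ : UZ := (cwds.map (fun p => p.2 • fWZ p.1)).sum

/-- The adjoint combination of raising words. -/
noncomputable def tYZ : UZ := (cwds.map (fun p => p.2 • eWZ p.1.reverse)).sum

lemma rF_fZ1 (i : Fin 2) : rF 0 ((fZ i 1 : UZ) : UA) = opF i := by
  change rF 0 (dpow (f i) 1) = opF i
  rw [rF_dpow_f]; simp

lemma rF_eZ1 (i : Fin 2) : rF 0 ((eZ i 1 : UZ) : UA) = opE i := by
  change rF 0 (dpow (e i) 1) = opE i
  rw [rF_dpow_e]; simp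

lemma rF_fWZ (J : List (Fin 2)) : rF 0 (fWZ J : UA) = FW J := by
  induction J with
  | nil => unfold fWZ FW; simp
  | cons i J ih =>
    have h1 : fWZ (i :: J) = fZ i 1 * fWZ J := by unfold fWZ; simp
    rw [h1, Subring.coe_mul, map_mul, rF_fZ1, ih]
    unfold FW; simp

lemma rF_eWZ (J : List (Fin 2)) : rF 0 (eWZ J : UA) = (J.map opE).prod := by
  induction J with
  | nil => unfold eWZ; simp
  | cons i J ih =>
    have h1 : eWZ (i :: J) = eZ i 1 * eWZ J := by unfold eWZ; simp
    rw [h1, Subring.coe_mul, map_mul, rF_eZ1, ih]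
    simp

lemma rF_zsmul (n : ℤ) (u : UZ) (x : Fk) :
    rF 0 ((n • u : UZ) : UA) x = (n : ℂ) • rF 0 (u : UA) x := by
  have h1 : ((n • u : UZ) : UA) = (n : ℂ) • (u : UA) := by
    have h2 : ((n • u : UZ) : UA) = (n : UA) * (u : UA) := zsmul_eq_mul (u : UA) n
    rw [h2, Algebra.smul_def (n : ℂ) (u : UA), map_intCast]
  rw [h1, map_smul]; rfl

lemma rF_sumZ {α : Type} (L : List α) (g : α → UZ) (x : Fk) :
    rF 0 (((L.map g).sum : UZ) : UA) x = (L.map (fun p => rF 0 (g p : UA) x)).sum := by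
  induction L with
  | nil => simp
  | cons a L ih =>
    rw [List.map_cons, List.sum_cons, List.map_cons, List.sum_cons, Subring.coe_add, map_add,
      LinearMap.add_apply, ih]

lemma YZ_apply (x : Fk) :
    rF 0 (YZ : UA) x = (cwds.map (fun p => (p.2 : ℂ) • FW p.1 x)).sum := by
  unfold YZ
  rw [rF_sumZ]
  congr 1
  refine List.map_congr_left fun p _ => ?_
  rw [rF_zsmul, rF_fWZ]

lemma exists_t : ∃ t : Fk, IntV t ∧ rF 0 (YZ : UA) (zN 0) = wv + (23 : ℂ) • t := by
  obtain ⟨t, ht, h⟩ := cert.2.2.2.2.2.2.2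
  exact ⟨t, ht, by rw [YZ_apply]; exact h⟩

lemma adj_words (J : List (Fin 2)) : Adj (FW J) ((J.reverse.map opE).prod) := by
  induction J with
  | nil => intro x y; simp [FW]
  | cons i J ih =>
    have h1 : FW (i :: J) = opF i * FW J := by unfold FW; simp
    rw [h1, List.reverse_cons, List.map_append, List.prod_append]
    have h2 := (adj_f i).mul ih
    simpa using h2

lemma adj_Y : Adj (rF 0 (YZ : UA)) (rF 0 (tYZ : UA)) := by
  intro x y
  unfold YZ tYZ
  rw [rF_sumZ, rF_sumZ]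
  generalize cwds = L
  induction L with
  | nil => simp [Bf_zero_left, Bf_zero_right]
  | cons p L ih =>
    rw [List.map_cons, List.sum_cons, List.map_cons, List.sum_cons, Bf_add_left, Bf_add_right, ih]
    congr 1
    rw [rF_zsmul, rF_zsmul, rF_fWZ, rF_eWZ, Bf_smul_left, Bf_smul_right, adj_words]

lemma eWZ_kill (J : List (Fin 2)) (hJ : J ≠ []) (lam : Fin 2 → ℕ) : eWZ J • vZ lam = 0 := by
  obtain ⟨L, i, rfl⟩ : ∃ L i, J = L ++ [i] := ⟨J.dropLast, J.getLast hJ, (List.dropLast_append_getLast hJ).symm⟩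
  have h1 : eWZ (L ++ [i]) = eWZ L * eZ i 1 := by unfold eWZ; simp
  rw [h1, mul_smul]
  have h2 : eZ i 1 • vZ lam = 0 := by
    apply Subtype.ext
    change dpow (e i) 1 • vlam lam = 0
    have h3 : dpow (e i) 1 = e i := by unfold dpow; simp
    rw [h3]
    exact (vlamHW lam).ke i
  rw [h2, smul_zero]

lemma tYZ_kill (lam : Fin 2 → ℕ) : tYZ • vZ lam = 0 := by
  unfold tYZ
  have key : ∀ L : List (List (Fin 2) × ℤ), (∀ p ∈ L, p.1 ≠ []) →
      (L.map (fun p => p.2 • eWZ p.1.reverse)).sum • vZ lam = 0 := by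
    intro L hL
    induction L with
    | nil => simp
    | cons p L ih =>
      rw [List.map_cons, List.sum_cons, add_smul, ih (fun q hq => hL q (List.mem_cons_of_mem _ hq)),
        add_zero, smul_assoc, eWZ_kill _ (by simpa using hL p List.mem_cons_self), smul_zero]
  exact key _ cwds_ne

/-- `U(𝔤)` applied to the singular vector is orthogonal to the vacuum. -/
lemma orth (u : UA) (hu : u ∈ UZ) : Bf (rF 0 u wv) (zN 0) = 0 := by
  have h0 : Bf wv (zN 0) = 0 := by
    have hadj : Adj (opD 0) (opD 0) := by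
      have h1 : opD 0 = Dg wd := by unfold opD; simp
      rw [h1]
      intro x y
      exact Bf_Dg wd x y
    have h2 := hadj wv (zN 0)
    rw [opD_wv, (vac_op 0).2.2, Bf_zero_right, Bf_smul_left] at h2
    have h4 : (-4 : ℂ) ≠ 0 := by norm_num
    exact (mul_eq_zero.mp h2).resolve_left h4
  rw [← rF_indep 4 hu]
  have h1 : toC 4 (rF 4 u wv) ∈ LinearMap.range (Phi (toC 4 wv)) := by
    rw [← smul_toC]
    exact hwLam.range_stable u _ ⟨_, Phi_nil _⟩
  obtain ⟨t, ht⟩ := h1
  have h2 : rF 4 u wv = (show Fk from Phi (toC 4 wv) t) := ht.symm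
  rw [h2]
  clear ht h2
  induction t using Finsupp.induction_linear with
  | zero => rw [map_zero]; exact Bf_zero_left _
  | add x y hx hy =>
    rw [map_add]
    exact (Bf_add_left _ _ _).trans (by rw [hx, hy, add_zero])
  | single J a =>
    rw [Phi_single]
    change Bf (a • (show Fk from (fw J • toC 4 wv))) (zN 0) = _
    rw [Bf_smul_left]
    cases J with
    | nil =>
      rw [fw, one_smul]
      change a * Bf wv (zN 0) = 0
      rw [h0, mul_zero]
    | cons i J =>
      rw [fw, mul_smul]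
      have h3 : (show Fk from (f i • (fw J • toC 4 wv))) =
          opF i (show Fk from (fw J • toC 4 wv)) := by
        change rF 4 (f i) _ = _
        rw [rF_f]
      rw [h3, adj_f i, (vac_op i).1, Bf_zero_right, mul_zero]

end Pool.Agent.Helper840.AE
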