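import Pool.Agent.Helper840.AE.Assembly

/-!
Assembly, part two: saturation, the functional, integrability and weights, and the extension.
-/

set_option autoImplicit false

namespace Pool.Agent.Helper840.AE

lemma coe_subUZ (a b : UZ) : ((a - b : UZ) : UA) = (a : UA) - b := rfl

/-- The image of `U_ℤ` in the Fock space. -/
noncomputable def MZ : AddSubgroup Fk where
  carrier := {x | ∃ u : UZ, x = rF 0 (u : UA) (zN 0)}
  add_mem' := by
    rintro _ _ ⟨u, rfl⟩ ⟨v, rfl⟩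
    exact ⟨u + v, by rw [Subring.coe_add, map_add]; rfl⟩
  zero_mem' := ⟨0, by rw [Subring.coe_zero, map_zero]; rfl⟩
  neg_mem' := by
    rintro _ ⟨u, rfl⟩
    exact ⟨-u, by rw [Subring.coe_neg, map_neg]; rfl⟩

lemma mem_MZ (u : UZ) : rF 0 (u : UA) (zN 0) ∈ MZ := ⟨u, rfl⟩

lemma WN_le {N N' : ℕ} (h : N ≤ N') : WN N ≤ WN N' := by
  induction h with
  | refl => exact le_rfl
  | step _ ih => exact ih.trans (WN_mono _)

lemma zN0_WN : zN 0 ∈ WN 0 := Submodule.subset_span ⟨[], by simp [FL]⟩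

lemma Fm_zero_eq : Fm 0 = opF 1 := by
  unfold Fm opF
  norm_num

lemma Fm_one_eq : Fm 1 = opE 0 := by
  unfold Fm opE
  norm_num

lemma Em_zero_eq : Em 0 = opE 1 := by
  unfold Em opE
  norm_num

lemma Em_neg_one_eq : Em (-1) = opF 0 := by
  unfold Em opF
  norm_num

lemma smul_pow_apply (z : ℂ) (A : Module.End ℂ Fk) (k : ℕ) (x : Fk) :
    (z • A ^ k) x = z • (A ^ k) x := rfl

lemma W_stable {u : UA} (hu : u ∈ UZ) : ∀ N, ∀ x ∈ WN N, ∃ N', rF 0 u x ∈ WN N' := by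
  induction hu using Subring.closure_induction with
  | mem y hy =>
    intro N x hx
    obtain ⟨i, k, rfl | rfl | rfl⟩ := hy
    · rw [rF_dpow_e]
      fin_cases i
      · refine ⟨N, ?_⟩
        have h1 := W_F 1 k N x hx
        rw [Fm_one_eq] at h1
        exact h1
      · obtain ⟨N', h1⟩ := W_E 0 (Or.inr rfl) k N x hx
        rw [Em_zero_eq] at h1
        exact ⟨N', h1⟩
    · rw [rF_dpow_f]
      fin_cases i
      · obtain ⟨N', h1⟩ := W_E (-1) (Or.inl rfl) k N x hx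
        rw [Em_neg_one_eq] at h1
        exact ⟨N', h1⟩
      · refine ⟨N, ?_⟩
        have h1 := W_F 0 k N x hx
        rw [Fm_zero_eq] at h1
        exact h1
    · rw [rF_binom]
      exact ⟨N, W_H i k N x hx⟩
  | zero => intro N x _; exact ⟨0, by rw [map_zero]; exact Submodule.zero_mem _⟩
  | one => intro N x hx; exact ⟨N, by rw [map_one]; exact hx⟩
  | add a b _ _ ha hb =>
    intro N x hx
    obtain ⟨n1, h1⟩ := ha N x hx
    obtain ⟨n2, h2⟩ := hb N x hx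
    refine ⟨max n1 n2, ?_⟩
    rw [map_add]
    exact Submodule.add_mem _ (WN_le (le_max_left _ _) h1) (WN_le (le_max_right _ _) h2)
  | neg a _ ha =>
    intro N x hx
    obtain ⟨n1, h1⟩ := ha N x hx
    exact ⟨n1, by rw [map_neg]; exact Submodule.neg_mem _ h1⟩
  | mul a b _ _ ha hb =>
    intro N x hx
    obtain ⟨n1, h1⟩ := hb N x hx
    obtain ⟨n2, h2⟩ := ha n1 _ h1
    exact ⟨n2, by rw [map_mul]; exact h2⟩

lemma sat_MZ (x : Fk) (hx : x ∈ MZ) (h : ∀ D, ∃ n : ℤ, x D = 23 * n) :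
    ∃ y ∈ MZ, x = (23 : ℤ) • y := by
  refine sat MZ ?_ ?_ ?_ ?_ x hx h
  · rintro i _ ⟨u, rfl⟩
    exact ⟨eZ i 1 * u, by rw [Subring.coe_mul, map_mul, rF_eZ1]; rfl⟩
  · rintro i _ ⟨u, rfl⟩
    exact ⟨fZ i 1 * u, by rw [Subring.coe_mul, map_mul, rF_fZ1]; rfl⟩
  · exact ⟨1, by rw [Subring.coe_one, map_one]; rfl⟩
  · rintro _ ⟨u, rfl⟩
    exact W_stable u.2 0 _ zN0_WN

/-- The vector `w`. -/
noncomputable def wZ : Lat muA := YZ • vZ muA

lemma K1 (y : UZ) (hy : y • vZ lamA = 0) : ∃ m : Lat muA, y • wZ = (23 : ℤ) • m := by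
  obtain ⟨t, ht, hY⟩ := exists_t
  have h1 : rF 0 (y : UA) wv = 0 := (lam_iff y).mp hy
  have h2 : rF 0 ((y * YZ : UZ) : UA) (zN 0) = (23 : ℂ) • rF 0 (y : UA) t := by
    rw [Subring.coe_mul, map_mul, Module.End.mul_apply, hY, map_add, h1, zero_add, map_smul]
  have h3 : IntV (rF 0 (y : UA) t) := IntV_rF 0 y.2 t ht
  obtain ⟨x, ⟨u, rfl⟩, hx⟩ := sat_MZ _ (mem_MZ (y * YZ)) (fun D => by
    obtain ⟨n, hn⟩ := h3 D
    exact ⟨n, by rw [h2, Finsupp.smul_apply, hn]; rfl⟩)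
  refine ⟨u • vZ muA, ?_⟩
  have h4 : (y * YZ - (23 : ℤ) • u) • vZ muA = 0 := by
    rw [mu_iff, coe_subUZ, map_sub, LinearMap.sub_apply, hx, sub_eq_zero, rF_zsmul]
    rw [← Int.cast_smul_eq_zsmul ℂ]
  rw [sub_smul, sub_eq_zero, mul_smul, smul_assoc] at h4
  exact h4

/-- The comparison map from the lattice to the Fock space. -/
noncomputable def jM (x : Lat muA) : Fk :=
  rF 0 ((Classical.choose (lat_cyclic muA x) : UZ) : UA) (zN 0)

lemma jM_spec (u : UZ) : jM (u • vZ muA) = rF 0 (u : UA) (zN 0) := by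
  unfold jM
  have h1 := Classical.choose_spec (lat_cyclic muA (u • vZ muA))
  set a : UZ := Classical.choose (lat_cyclic muA (u • vZ muA))
  have h2 : (u - a) • vZ muA = 0 := by rw [sub_smul, ← h1, sub_self]
  rw [mu_iff, coe_subUZ, map_sub, LinearMap.sub_apply, sub_eq_zero] at h2
  exact h2.symm

lemma jM_add (x y : Lat muA) : jM (x + y) = jM x + jM y := by
  obtain ⟨u, rfl⟩ := lat_cyclic muA x
  obtain ⟨v, rfl⟩ := lat_cyclic muA y
  rw [← add_smul, jM_spec, jM_spec, jM_spec, Subring.coe_add, map_add]; rfl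

lemma jM_smul (y : UZ) (x : Lat muA) : jM (y • x) = rF 0 (y : UA) (jM x) := by
  obtain ⟨u, rfl⟩ := lat_cyclic muA x
  rw [← mul_smul, jM_spec, jM_spec, Subring.coe_mul, map_mul]; rfl

lemma jM_int (x : Lat muA) : IntV (jM x) := by
  obtain ⟨u, rfl⟩ := lat_cyclic muA x
  rw [jM_spec]
  exact IntV_rF 0 u.2 _ IntV_zN0

lemma Bf_zN0 (x : Fk) : Bf x (zN 0) = x (DN 0) := by
  unfold zN ket
  have h1 : ∀ D, (Finsupp.single (DN 0) (1 : ℂ)) D = if DN 0 = D then 1 else 0 := by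
    intro D; rw [Finsupp.single_apply]
  unfold Bf
  rw [Finsupp.sum]
  simp only [h1, mul_ite, mul_one, mul_zero]
  rw [Finset.sum_ite_eq]
  split_ifs with h
  · rfl
  · rw [Finsupp.notMem_support_iff] at h
    exact h.symm

lemma Bf_int {x y : Fk} (hx : IntV x) (hy : IntV y) : ∃ n : ℤ, Bf x y = n := by
  unfold Bf
  rw [Finsupp.sum]
  induction x.support using Finset.induction_on with
  | empty => exact ⟨0, by simp⟩
  | insert D s hD ih =>
    obtain ⟨n, hn⟩ := ih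
    obtain ⟨a, ha⟩ := hx D
    obtain ⟨b, hb⟩ := hy D
    exact ⟨a * b + n, by rw [Finset.sum_insert hD, hn, ha, hb]; push_cast; rfl⟩

/-- The coefficient of the highest weight vector. -/
noncomputable def etaF (x : Lat muA) : ℤ := Classical.choose (jM_int x (DN 0))

lemma etaF_spec (x : Lat muA) : ((etaF x : ℤ) : ℂ) = jM x (DN 0) :=
  (Classical.choose_spec (jM_int x (DN 0))).symm

/-- The functional: the coefficient of the highest weight vector. -/
noncomputable def eta0 : Lat muA →+ ℤ where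
  toFun := etaF
  map_zero' := by
    have h1 := etaF_spec 0
    have h2 : jM 0 = 0 := by
      have := jM_add 0 0
      rw [add_zero] at this
      exact left_eq_add.mp this
    rw [h2, Finsupp.zero_apply] at h1
    exact_mod_cast h1
  map_add' x y := by
    have h1 := etaF_spec (x + y)
    rw [jM_add, Finsupp.add_apply, ← etaF_spec x, ← etaF_spec y] at h1
    exact_mod_cast h1

lemma eta0_spec (x : Lat muA) : ((eta0 x : ℤ) : ℂ) = Bf (jM x) (zN 0) := by
  rw [Bf_zN0]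
  exact etaF_spec x

lemma orth' (u : UZ) : Bf (rF 0 (u : UA) (zN 0)) wv = 0 := by
  obtain ⟨u', hu', hadj⟩ := adj_UZ 0 u.2
  rw [hadj, Bf_comm]
  exact orth u' hu'

lemma eta_h1 (y : UZ) : (23 : ℤ) ∣ eta0 (y • wZ) := by
  obtain ⟨t, ht, hY⟩ := exists_t
  have h1 := eta0_spec (y • wZ)
  rw [jM_smul, wZ, jM_spec, hY, (rF 0 (y : UA)).map_add, (rF 0 (y : UA)).map_smul, Bf_add_left,
    Bf_smul_left, orth y y.2, zero_add] at h1
  obtain ⟨n, hn⟩ := Bf_int (IntV_rF 0 y.2 t ht) IntV_zN0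
  rw [hn] at h1
  exact ⟨n, by exact_mod_cast h1⟩

lemma eta_h4 (m : Lat muA) : (23 : ℤ) ∣ eta0 (tYZ • m) := by
  obtain ⟨t, ht, hY⟩ := exists_t
  have h1 := eta0_spec (tYZ • m)
  obtain ⟨u, rfl⟩ := lat_cyclic muA m
  rw [jM_smul, jM_spec, Bf_comm, ← adj_Y, hY, Bf_comm, Bf_add_right, Bf_smul_right, orth' u,
    zero_add] at h1
  obtain ⟨n, hn⟩ := Bf_int (IntV_rF 0 u.2 _ IntV_zN0) ht
  rw [hn] at h1
  exact ⟨n, by exact_mod_cast h1⟩

lemma eta_h3 : ¬ (529 : ℤ) ∣ eta0 (tYZ • wZ) := by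
  obtain ⟨t, ht, hY⟩ := exists_t
  have h1 := eta0_spec (tYZ • wZ)
  rw [jM_smul, wZ, jM_spec, Bf_comm, ← adj_Y, hY] at h1
  have h2 : Bf (wv + (23 : ℂ) • t) wv = 0 := by
    rw [← hY]; exact orth' YZ
  rw [Bf_add_left, Bf_smul_left, Bf_wv] at h2
  obtain ⟨n, hn⟩ := Bf_int ht ht
  rw [Bf_add_left, Bf_add_right, Bf_add_right, Bf_smul_left, Bf_smul_left, Bf_smul_right,
    Bf_smul_right, Bf_comm wv t, Bf_wv, hn] at h1
  have h3 : ((eta0 (tYZ • wZ) : ℤ) : ℂ) = ((-1420710 + 529 * n : ℤ) : ℂ) := by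
    have h4 : Bf t wv = -61770 := by linear_combination h2 / 23
    rw [wZ, h1, h4]
    push_cast
    ring
  have h5 : eta0 (tYZ • wZ) = -1420710 + 529 * n := by exact_mod_cast h3
  rw [h5]
  omega

end Pool.Agent.Helper840.AE
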