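import Pool.Agent.Helper840.AE.Assembly2

/-!
Assembly, part three: integrability and weights of the lattice, and the theorem.
-/

set_option autoImplicit false

universe u

namespace Pool.Agent.Helper840.AE

lemma lat_int {lam : Fin 2 → ℕ} {c : ℂ} {v : Fk} (hv : v ≠ 0) (hI : IntV v)
    (H : HW lam (toC c v)) (i : Fin 2) (x : Lat lam) :
    ∃ K : ℕ, ∀ k ≥ K, eZ i k • x = 0 ∧ fZ i k • x = 0 := by
  obtain ⟨u, rfl⟩ := lat_cyclic lam x
  obtain ⟨K, hK⟩ := nilp_op i (rF 0 (u : UA) v)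
  refine ⟨K, fun k hk => ⟨?_, ?_⟩⟩
  · rw [← mul_smul, lat_iff hv hI H, Subring.coe_mul, map_mul]
    change rF 0 (dpow (e i) k) (rF 0 (u : UA) v) = 0
    rw [rF_dpow_e, LinearMap.smul_apply, (hK k hk).1, smul_zero]
  · rw [← mul_smul, lat_iff hv hI H, Subring.coe_mul, map_mul]
    change rF 0 (dpow (f i) k) (rF 0 (u : UA) v) = 0
    rw [rF_dpow_f, LinearMap.smul_apply, (hK k hk).2, smul_zero]

lemma Lm_int (i : Fin 2) (x : LmT lamA muA wZ) :
    ∃ K : ℕ, ∀ k ≥ K, eZ i k • x = 0 ∧ fZ i k • x = 0 := by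
  obtain ⟨K1, h1⟩ := lat_int zN0_ne IntV_zN0 hwMu i x.1.1
  obtain ⟨K2, h2⟩ := lat_int wv_ne IntV_wv hwLam i x.1.2
  refine ⟨max K1 K2, fun k hk => ⟨?_, ?_⟩⟩
  · exact Subtype.ext (Prod.ext (h1 k (le_trans (le_max_left _ _) hk)).1
      (h2 k (le_trans (le_max_right _ _) hk)).1)
  · exact Subtype.ext (Prod.ext (h1 k (le_trans (le_max_left _ _) hk)).2
      (h2 k (le_trans (le_max_right _ _) hk)).2)

/-- The vector of a module over `U_ℤ` has weight `n` for the Cartan elements `h_i`. -/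
def WtP {M : Type} [AddCommGroup M] [Module UZ M] (n : Fin 2 → ℤ) (x : M) : Prop :=
  ∀ i, hZ i 1 • x = n i • x

lemma hZ1 (i : Fin 2) : ((hZ i 1 : UZ) : UA) = h i := by
  change binom (h i) 1 = h i
  unfold binom
  simp

/-- The product formula for the binomial elements: `(k+1) C(h, k+1) = C(h, k) (h - k)`. -/
lemma hZ_succ (i : Fin 2) (k : ℕ) :
    ((k + 1 : ℕ) : ℤ) • hZ i (k + 1) = hZ i k * (hZ i 1 - (k : ℤ) • (1 : UZ)) := by
  apply Subtype.ext
  have h1 : ((((k + 1 : ℕ) : ℤ) • hZ i (k + 1) : UZ) : UA) =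
      ((k + 1 : ℕ) : ℂ) • binom (h i) (k + 1) := by
    have h2 : ((((k + 1 : ℕ) : ℤ) • hZ i (k + 1) : UZ) : UA) =
      (((k + 1 : ℕ) : ℤ) : UA) * binom (h i) (k + 1) := zsmul_eq_mul _ _
    rw [h2, Algebra.smul_def, map_natCast, Int.cast_natCast]
  have h3 : (((k : ℤ) • (1 : UZ) : UZ) : UA) = algebraMap ℂ UA (k : ℂ) := by
    have h2 : (((k : ℤ) • (1 : UZ) : UZ) : UA) = ((k : ℤ) : UA) * 1 := zsmul_eq_mul _ _
    rw [h2, mul_one, map_natCast, Int.cast_natCast]
  rw [h1, Subring.coe_mul, coe_subUZ, hZ1, h3]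
  change ((k + 1 : ℕ) : ℂ) • binom (h i) (k + 1) = binom (h i) k * (h i - algebraMap ℂ UA (k : ℂ))
  unfold binom
  rw [List.range_succ, List.map_append, List.prod_append, List.map_singleton, List.prod_singleton,
    smul_mul_assoc, smul_smul]
  congr 1
  rw [Nat.factorial_succ]
  have h4 : ((k.factorial : ℕ) : ℂ) ≠ 0 := by exact_mod_cast Nat.factorial_ne_zero k
  have h5 : ((k : ℂ) + 1) ≠ 0 := by exact_mod_cast Nat.succ_ne_zero k
  push_cast
  field_simp

lemma choose_succ_mul (n : ℤ) (k : ℕ) :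
    ((k + 1 : ℕ) : ℤ) * Ring.choose n (k + 1) = Ring.choose n k * (n - k) := by
  have h1 := Ring.descPochhammer_eq_factorial_smul_choose n (k + 1)
  have h2 := Ring.descPochhammer_eq_factorial_smul_choose n k
  rw [descPochhammer_succ_right, Polynomial.smeval_mul, h2] at h1
  simp only [nsmul_eq_mul, Nat.factorial_succ] at h1
  have h3 : (Polynomial.X - ((k : ℕ) : Polynomial ℤ)).smeval n = n - k := by
    rw [Polynomial.smeval_sub, Polynomial.smeval_X, Polynomial.smeval_natCast, pow_one, pow_zero,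
      nsmul_eq_mul, mul_one]
  rw [h3] at h1
  have h4 : ((k.factorial : ℕ) : ℤ) ≠ 0 := by exact_mod_cast Nat.factorial_ne_zero k
  apply mul_left_cancel₀ h4
  push_cast at h1 ⊢
  linarith

lemma Lm_tf (n : ℤ) (x : LmT lamA muA wZ) (hn : n ≠ 0) (h : n • x = 0) : x = 0 := by
  have h1 : n • x.1.1 = 0 := congrArg (fun y : LmT lamA muA wZ => y.1.1) h
  have h2 : n • x.1.2 = 0 := congrArg (fun y : LmT lamA muA wZ => y.1.2) h
  exact Subtype.ext (Prod.ext (lat_tf _ n _ hn h1) (lat_tf _ n _ hn h2))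

lemma WtP.choose {M : Type} [AddCommGroup M] [Module UZ M]
    (tf : ∀ (n : ℤ) (x : M), n ≠ 0 → n • x = 0 → x = 0)
    {n : Fin 2 → ℤ} {x : M} (H : WtP n x) (i : Fin 2) (k : ℕ) :
    hZ i k • x = (Ring.choose (n i) k : ℤ) • x := by
  induction k with
  | zero =>
    have h1 : hZ i 0 = 1 := by
      apply Subtype.ext
      change binom (h i) 0 = 1
      unfold binom
      simp
    rw [h1, one_smul, Ring.choose_zero_right, one_smul]
  | succ k ih =>
    have h1 : (((k + 1 : ℕ) : ℤ) • hZ i (k + 1)) • x =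
        (hZ i k * (hZ i 1 - (k : ℤ) • (1 : UZ))) • x := congrArg (fun u : UZ => u • x) (hZ_succ i k)
    rw [smul_assoc, mul_smul, sub_smul, H i, smul_assoc, one_smul, ← sub_smul,
      smul_comm (hZ i k) (n i - (k : ℤ)) x, ih, smul_smul, mul_comm (n i - (k : ℤ)),
      ← choose_succ_mul, mul_smul] at h1
    have h2 : ((k + 1 : ℕ) : ℤ) • (hZ i (k + 1) • x - (Ring.choose (n i) (k + 1) : ℤ) • x) = 0 := by
      rw [smul_sub, h1, sub_self]
    have h3 : ((k + 1 : ℕ) : ℤ) ≠ 0 := by exact_mod_cast Nat.succ_ne_zero k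
    exact sub_eq_zero.mp (tf _ _ h3 h2)

lemma h_pow_e (i j : Fin 2) (k : ℕ) :
    h i * (e j) ^ k = (e j) ^ k * h i + (((k : ℤ) * cartan i j : ℤ) : ℂ) • (e j) ^ k := by
  have h1 : h i * e j = e j * h i + ((cartan i j : ℤ) : ℂ) • e j := by
    have h2 := ua_he i j
    have h3 : (cartan i j : ℤ) • e j = ((cartan i j : ℤ) : ℂ) • e j := by
      rw [Algebra.smul_def, map_intCast]
      exact zsmul_eq_mul _ _
    rw [h3] at h2
    unfold cm at h2
    rw [← h2]; abel
  induction k with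
  | zero => simp
  | succ k ih =>
    rw [pow_succ', ← mul_assoc, h1, add_mul, mul_assoc (e j) (h i), ih, mul_add, smul_mul_assoc,
      mul_smul_comm, mul_assoc (e j), add_assoc, ← add_smul]
    congr 2
    push_cast
    ring

lemma h_pow_f (i j : Fin 2) (k : ℕ) :
    h i * (f j) ^ k = (f j) ^ k * h i + ((-((k : ℤ) * cartan i j) : ℤ) : ℂ) • (f j) ^ k := by
  have h1 : h i * f j = f j * h i + ((-cartan i j : ℤ) : ℂ) • f j := by
    have h3 : (cartan i j : ℤ) • f j = ((cartan i j : ℤ) : ℂ) • f j := by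
      rw [Algebra.smul_def, map_intCast]
      exact zsmul_eq_mul _ _
    have h2 : h i * f j - f j * h i = -(((cartan i j : ℤ) : ℂ) • f j) := by
      have h4 := ua_hf i j
      rw [h3] at h4
      exact h4
    have h5 : ((-cartan i j : ℤ) : ℂ) • f j = -(((cartan i j : ℤ) : ℂ) • f j) := by
      push_cast
      module
    rw [h5, ← h2]; abel
  induction k with
  | zero => simp
  | succ k ih =>
    rw [pow_succ', ← mul_assoc, h1, add_mul, mul_assoc (f j) (h i), ih, mul_add, smul_mul_assoc,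
      mul_smul_comm, mul_assoc (f j), add_assoc, ← add_smul]
    congr 2
    push_cast
    ring

lemma hZ_eZ (i j : Fin 2) (k : ℕ) :
    hZ i 1 * eZ j k = eZ j k * hZ i 1 + ((k : ℤ) * cartan i j) • eZ j k := by
  apply Subtype.ext
  have h2 : (((((k : ℤ) * cartan i j) • eZ j k) : UZ) : UA) =
      ((((k : ℤ) * cartan i j : ℤ)) : ℂ) • dpow (e j) k := by
    have h3 : (((((k : ℤ) * cartan i j) • eZ j k) : UZ) : UA) =
      (((k : ℤ) * cartan i j : ℤ) : UA) * dpow (e j) k := zsmul_eq_mul _ _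
    rw [h3, Algebra.smul_def, map_intCast]
  rw [Subring.coe_add, Subring.coe_mul, Subring.coe_mul, hZ1, h2]
  change h i * dpow (e j) k = dpow (e j) k * h i + _ • dpow (e j) k
  unfold dpow
  rw [mul_smul_comm, h_pow_e, smul_add, smul_mul_assoc, smul_comm]

lemma hZ_fZ (i j : Fin 2) (k : ℕ) :
    hZ i 1 * fZ j k = fZ j k * hZ i 1 + (-((k : ℤ) * cartan i j)) • fZ j k := by
  apply Subtype.ext
  have h2 : (((-((k : ℤ) * cartan i j)) • fZ j k : UZ) : UA) =
      ((-((k : ℤ) * cartan i j) : ℤ) : ℂ) • dpow (f j) k := by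
    have h3 : (((-((k : ℤ) * cartan i j)) • fZ j k : UZ) : UA) =
      ((-((k : ℤ) * cartan i j) : ℤ) : UA) * dpow (f j) k := zsmul_eq_mul _ _
    rw [h3, Algebra.smul_def, map_intCast]
  rw [Subring.coe_add, Subring.coe_mul, Subring.coe_mul, hZ1, h2]
  change h i * dpow (f j) k = dpow (f j) k * h i + _ • dpow (f j) k
  unfold dpow
  rw [mul_smul_comm, h_pow_f, smul_add, smul_mul_assoc, smul_comm]

/-- The weight vectors of level `3`. -/
def WS (M : Type) [AddCommGroup M] [Module UZ M] : Set M :=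
  {y | ∃ n : Fin 2 → ℤ, n 0 + n 1 = 3 ∧ WtP n y}

section generic

variable {M : Type} [AddCommGroup M] [Module UZ M]

lemma cartan_sum (j : Fin 2) : cartan 0 j + cartan 1 j = 0 := by
  fin_cases j <;> simp [cartan]

lemma WS_e {y : M} (hy : y ∈ WS M) (j : Fin 2) (k : ℕ) : eZ j k • y ∈ WS M := by
  obtain ⟨n, hn, H⟩ := hy
  refine ⟨fun i => n i + (k : ℤ) * cartan i j, ?_, fun i => ?_⟩
  · have := cartan_sum j
    simp only
    linear_combination hn + (k : ℤ) * this
  · rw [← mul_smul, hZ_eZ, add_smul, mul_smul, H i, smul_comm, smul_assoc, ← add_smul]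

lemma WS_f {y : M} (hy : y ∈ WS M) (j : Fin 2) (k : ℕ) : fZ j k • y ∈ WS M := by
  obtain ⟨n, hn, H⟩ := hy
  refine ⟨fun i => n i + -((k : ℤ) * cartan i j), ?_, fun i => ?_⟩
  · have := cartan_sum j
    simp only
    linear_combination hn - (k : ℤ) * this
  · rw [← mul_smul, hZ_fZ, add_smul, mul_smul, H i, smul_comm, smul_assoc, ← add_smul]

lemma WS_h (tf : ∀ (n : ℤ) (x : M), n ≠ 0 → n • x = 0 → x = 0) {y : M} (hy : y ∈ WS M)
    (j : Fin 2) (k : ℕ) : hZ j k • y ∈ WS M := by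
  obtain ⟨n, hn, H⟩ := hy
  refine ⟨n, hn, fun i => ?_⟩
  rw [H.choose tf j k, smul_comm, H i, smul_comm]

lemma WS_closure (tf : ∀ (n : ℤ) (x : M), n ≠ 0 → n • x = 0 → x = 0) {u : UA} (hu : u ∈ UZ) :
    ∀ y ∈ AddSubgroup.closure (WS M), (⟨u, hu⟩ : UZ) • y ∈ AddSubgroup.closure (WS M) := by
  induction hu using Subring.closure_induction with
  | mem x hx =>
    intro y hy
    induction hy using AddSubgroup.closure_induction with
    | mem y hy =>
      obtain ⟨i, k, rfl | rfl | rfl⟩ := hx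
      · exact AddSubgroup.subset_closure (WS_e hy i k)
      · exact AddSubgroup.subset_closure (WS_f hy i k)
      · exact AddSubgroup.subset_closure (WS_h tf hy i k)
    | zero => rw [smul_zero]; exact AddSubgroup.zero_mem _
    | add a b _ _ ha hb => rw [smul_add]; exact AddSubgroup.add_mem _ ha hb
    | neg a _ ha => rw [smul_neg]; exact AddSubgroup.neg_mem _ ha
  | zero =>
    intro y _
    have : (⟨0, UZ.zero_mem⟩ : UZ) = 0 := rfl
    rw [this, zero_smul]; exact AddSubgroup.zero_mem _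
  | one =>
    intro y hy
    have : (⟨1, UZ.one_mem⟩ : UZ) = 1 := rfl
    rw [this, one_smul]; exact hy
  | add a b ha' hb' ha hb =>
    intro y hy
    have : (⟨a + b, UZ.add_mem ha' hb'⟩ : UZ) = ⟨a, ha'⟩ + ⟨b, hb'⟩ := rfl
    rw [this, add_smul]
    exact AddSubgroup.add_mem _ (ha y hy) (hb y hy)
  | neg a ha' ha =>
    intro y hy
    have : (⟨-a, UZ.neg_mem ha'⟩ : UZ) = -⟨a, ha'⟩ := rfl
    rw [this, neg_smul]
    exact AddSubgroup.neg_mem _ (ha y hy)
  | mul a b ha' hb' ha hb =>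
    intro y hy
    have : (⟨a * b, UZ.mul_mem ha' hb'⟩ : UZ) = ⟨a, ha'⟩ * ⟨b, hb'⟩ := rfl
    rw [this, mul_smul]
    exact ha _ (hb y hy)

end generic

/-- The weight of a word applied to the highest weight vector. -/
lemma fw_weight (lam : Fin 2 → ℕ) (i : Fin 2) (J : List (Fin 2)) :
    h i • (fw J • vlam lam) = (((lam i : ℤ) - (J.map (cartan i)).sum : ℤ) : ℂ) • (fw J • vlam lam) := by
  have h1 := (vlamHW lam).Phi_hT i (Finsupp.single J 1)
  rw [Phi_single, one_smul, hT, gT_single, map_smul, Phi_single, one_smul] at h1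
  rw [← h1]
  congr 1
  unfold ev
  push_cast
  congr 1
  clear h1
  induction J with
  | nil => simp
  | cons j J ih =>
    simp only [List.map_cons, List.sum_cons, ih]

lemma fWZ_coe (J : List (Fin 2)) : ((fWZ J : UZ) : UA) = fw J := by
  induction J with
  | nil => unfold fWZ fw; simp
  | cons i J ih =>
    have h1 : fWZ (i :: J) = fZ i 1 * fWZ J := by unfold fWZ; simp
    rw [h1, Subring.coe_mul, ih, fw]
    change dpow (f i) 1 * fw J = _
    have h3 : dpow (f i) 1 = f i := by unfold dpow; simp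
    rw [h3]

lemma cwds_wt : ∀ p ∈ cwds, (p.1.map (cartan 0)).sum = -2 ∧ (p.1.map (cartan 1)).sum = 2 := by
  decide

lemma wZ_weight (i : Fin 2) : hZ i 1 • wZ = ((lamA i : ℕ) : ℤ) • wZ := by
  have key : ∀ L : List (List (Fin 2) × ℤ), (∀ p ∈ L, (p.1.map (cartan 0)).sum = -2 ∧
      (p.1.map (cartan 1)).sum = 2) →
      hZ i 1 • ((L.map (fun p => p.2 • fWZ p.1)).sum • vZ muA) =
        ((lamA i : ℕ) : ℤ) • ((L.map (fun p => p.2 • fWZ p.1)).sum • vZ muA) := by
    intro L hL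
    induction L with
    | nil => simp
    | cons p L ih =>
      have h0 := hL p List.mem_cons_self
      have h1 : hZ i 1 • (fWZ p.1 • vZ muA) = ((lamA i : ℕ) : ℤ) • (fWZ p.1 • vZ muA) := by
        apply Subtype.ext
        change ((hZ i 1 : UZ) : UA) • (((fWZ p.1 : UZ) : UA) • vlam muA) =
          ((lamA i : ℕ) : ℤ) • (((fWZ p.1 : UZ) : UA) • vlam muA)
        rw [hZ1, fWZ_coe, fw_weight]
        rw [← Int.cast_smul_eq_zsmul ℂ]
        congr 2
        fin_cases i
        · change ((weight 3 3 0 : ℕ) : ℤ) - (p.1.map (cartan 0)).sum = ((weight 3 1 0 : ℕ) : ℤ)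
          rw [h0.1]; norm_num [weight]
        · change ((weight 3 3 1 : ℕ) : ℤ) - (p.1.map (cartan 1)).sum = ((weight 3 1 1 : ℕ) : ℤ)
          rw [h0.2]; norm_num [weight]
      rw [List.map_cons, List.sum_cons, add_smul, smul_add, smul_add,
        ih (fun q hq => hL q (List.mem_cons_of_mem _ hq)), smul_assoc, smul_comm (hZ i 1), h1,
        smul_comm]
  exact key _ cwds_wt

lemma vZ_weight (lam : Fin 2 → ℕ) (i : Fin 2) : hZ i 1 • vZ lam = ((lam i : ℕ) : ℤ) • vZ lam := by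
  apply Subtype.ext
  change ((hZ i 1 : UZ) : UA) • vlam lam = ((lam i : ℕ) : ℤ) • vlam lam
  rw [hZ1, (vlamHW lam).kh i, ← Int.cast_smul_eq_zsmul ℂ]
  congr 1

lemma Lm_wt (x : LmT lamA muA wZ) : x ∈ AddSubgroup.closure (WS (LmT lamA muA wZ)) := by
  have hx := x.2
  unfold Lm at hx
  obtain ⟨a, b, hab⟩ := Submodule.mem_span_pair.mp hx
  set g1 : LmT lamA muA wZ := ⟨((23 : ℤ) • vZ muA, 0), Submodule.subset_span (by simp)⟩ with hg1
  set g2 : LmT lamA muA wZ := ⟨(wZ, vZ lamA), Submodule.subset_span (by simp)⟩ with hg2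
  have h1 : x = a • g1 + b • g2 := Subtype.ext hab.symm
  have m1 : g1 ∈ WS _ := by
    refine ⟨fun i => ((muA i : ℕ) : ℤ), by norm_num [muA, weight], fun i => ?_⟩
    apply Subtype.ext
    change hZ i 1 • (((23 : ℤ) • vZ muA, (0 : Lat lamA))) =
      ((muA i : ℕ) : ℤ) • ((23 : ℤ) • vZ muA, (0 : Lat lamA))
    refine Prod.ext ?_ ?_
    · change hZ i 1 • ((23 : ℤ) • vZ muA) = ((muA i : ℕ) : ℤ) • ((23 : ℤ) • vZ muA)
      rw [smul_comm, vZ_weight, smul_comm]
    · change hZ i 1 • (0 : Lat lamA) = ((muA i : ℕ) : ℤ) • (0 : Lat lamA)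
      rw [smul_zero, smul_zero]
  have m2 : g2 ∈ WS _ := by
    refine ⟨fun i => ((lamA i : ℕ) : ℤ), by norm_num [lamA, weight], fun i => ?_⟩
    apply Subtype.ext
    refine Prod.ext ?_ ?_
    · exact wZ_weight i
    · exact vZ_weight lamA i
  rw [h1]
  exact AddSubgroup.add_mem _ (WS_closure Lm_tf a.2 _ (AddSubgroup.subset_closure m1))
    (WS_closure Lm_tf b.2 _ (AddSubgroup.subset_closure m2))

lemma lat_wt (lam : Fin 2 → ℕ) (hl : (lam 0 : ℤ) + lam 1 = 3) (x : Lat lam) :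
    x ∈ AddSubgroup.closure (WS (Lat lam)) := by
  obtain ⟨u, rfl⟩ := lat_cyclic lam x
  refine WS_closure (lat_tf lam) u.2 _ (AddSubgroup.subset_closure ?_)
  exact ⟨fun i => (lam i : ℤ), hl, vZ_weight lam⟩

lemma weyl_weight (F : Type u) [Field F] (lam : Fin 2 → ℕ) (hl : (lam 0 : ℤ) + lam 1 = 3) :
    IsWeightModule 3 (weylRep F lam) := by
  refine tensor_weight F (Lat lam) 3 fun x => ?_
  refine AddSubgroup.closure_mono ?_ (lat_wt lam hl x)
  rintro y ⟨n, hn, H⟩
  exact ⟨n, by exact_mod_cast hn, fun i k => H.choose (lat_tf lam) i k⟩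

/-- The Weyl module `V(3 ω_1)` is an object of the category. -/
theorem weyl_mu (F : Type u) [Field F] :
    Integrable (weylRep F muA) ∧ IsWeightModule 3 (weylRep F muA) :=
  ⟨tensor_integrable F (Lat muA) fun i x => lat_int zN0_ne IntV_zN0 hwMu i x,
    weyl_weight F muA (by norm_num [muA, weight])⟩

/-- The Weyl module `V(2 ω_0 + ω_1)` is an object of the category. -/
theorem weyl_lam (F : Type u) [Field F] :
    Integrable (weylRep F lamA) ∧ IsWeightModule 3 (weylRep F lamA) :=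
  ⟨tensor_integrable F (Lat lamA) fun i x => lat_int wv_ne IntV_wv hwLam i x,
    weyl_weight F lamA (by norm_num [lamA, weight])⟩

/-- The main theorem for a field of characteristic `23`. -/
theorem not_extZero (F : Type u) [Field F] [CharP F 23] : ¬ ExtZero F 3 lamA muA := by
  refine ext_main F 3 lamA muA wZ K1 eta0 eta_h1 tYZ (tYZ_kill lamA) eta_h3 eta_h4 Lm_int ?_
  intro x
  refine AddSubgroup.closure_mono ?_ (Lm_wt x)
  rintro y ⟨n, hn, H⟩
  exact ⟨n, by exact_mod_cast hn, fun i k => H.choose Lm_tf i k⟩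

end Pool.Agent.Helper840.AE
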