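import Mathlib

/-!
The fermionic Fock space with three rows, quadratic operators, and the shift operators.
-/

set_option autoImplicit false

namespace Pool.Agent.Helper840.AE

/-- Sites of the fermionic Fock space: three rows, positions in `ℤ`. -/
abbrev Site : Type := Fin 3 × ℤ

/-- The Fock space: finite linear combinations of finite sets of sites. In the state `D` the site
`i` is occupied if its position is negative and `i ∉ D`, or its position is nonnegative and
`i ∈ D`. -/
abbrev Fk : Type := Finset Site →₀ ℂ

/-- The basis vector of a state. -/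
noncomputable def ket (D : Finset Site) : Fk := Finsupp.single D 1

/-- The number of elements of `D` before `i` in the lexicographic order. -/
def cnt (i : Site) (D : Finset Site) : ℕ :=
  (D.filter (fun j => j.1 < i.1 ∨ (j.1 = i.1 ∧ j.2 < i.2))).card

/-- The site `i` is occupied in the state `D`. -/
def occ (D : Finset Site) (i : Site) : Prop := if i.2 < 0 then i ∉ D else i ∈ D

instance (D : Finset Site) (i : Site) : Decidable (occ D i) := by
  unfold occ; infer_instance

/-- The state in which the occupation of `i` is changed. -/
def tog (i : Site) (D : Finset Site) : Finset Site := if i ∈ D then D.erase i else insert i D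

/-- Annihilation of a particle at `i`. -/
noncomputable def ann (i : Site) : Module.End ℂ Fk :=
  Finsupp.linearCombination ℂ
    (fun D => if occ D i then ((-1 : ℂ) ^ cnt i D) • ket (tog i D) else 0)

/-- Creation of a particle at `i`. -/
noncomputable def cre (i : Site) : Module.End ℂ Fk :=
  Finsupp.linearCombination ℂ
    (fun D => if occ D i then 0 else ((-1 : ℂ) ^ cnt i D) • ket (tog i D))

/-- The operator moving a particle from `j` to `i`. -/
noncomputable def X (i j : Site) : Module.End ℂ Fk := cre i * ann j

/-- The shift of a site. -/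
def sh (d : ℤ) (i : Site) : Site := (i.1, i.2 + d)

/-- The sites with position between `-R` and `R`. -/
noncomputable def box (R : ℕ) : Finset Site := Finset.univ ×ˢ Finset.Icc (-(R : ℤ)) (R : ℤ)

/-- A bound for the positions in a state. -/
def bd (D : Finset Site) : ℕ := D.sup (fun i => i.2.natAbs)

/-- The operator `∑_i g(i) X (i + d) i` (for `d ≠ 0` all but finitely many terms vanish on a given
state; the sum is over a box which is large enough). -/
noncomputable def S (d : ℤ) (g : Site → ℂ) : Module.End ℂ Fk :=
  Finsupp.linearCombination ℂ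
    (fun D => ∑ i ∈ box (bd D + d.natAbs), g i • X (sh d i) i (ket D))

/-- The diagonal operator with weight function `w`. -/
noncomputable def Dg (w : Site → ℂ) : Module.End ℂ Fk :=
  Finsupp.linearCombination ℂ (fun D => (∑ i ∈ D, (if i.2 < 0 then - w i else w i)) • ket D)

/-- The indicator of odd positions. -/
noncomputable def podd (i : Site) : ℂ := if i.2 % 2 = 1 then 1 else 0

/-- The indicator of even positions. -/
noncomputable def pev (i : Site) : ℂ := if i.2 % 2 = 0 then 1 else 0

/-- `1` on odd and `-1` on even positions. -/
noncomputable def chi (i : Site) : ℂ := if i.2 % 2 = 1 then 1 else -1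

/-- The weight function of the derivation. -/
noncomputable def wd (i : Site) : ℂ := -(((i.2 + 1) / 2 : ℤ) : ℂ)

/-- The Chevalley generators `e_0, e_1`. -/
noncomputable def opE (i : Fin 2) : Module.End ℂ Fk := if i = 0 then S (-1) podd else S (-1) pev

/-- The Chevalley generators `f_0, f_1`. -/
noncomputable def opF (i : Fin 2) : Module.End ℂ Fk := if i = 0 then S 1 pev else S 1 podd

/-- The generators `h_0, h_1`. -/
noncomputable def opH (i : Fin 2) : Module.End ℂ Fk :=
  if i = 0 then Dg (fun j => - chi j) else Dg chi + (3 : ℂ) • 1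

/-- The derivation, shifted by `c`. -/
noncomputable def opD (c : ℂ) : Module.End ℂ Fk := Dg wd + c • 1

/-- The loop generator `F_m` in row `r`. -/
noncomputable def Fr (r : Fin 3) (m : ℤ) : Module.End ℂ Fk :=
  S (1 - 2 * m) (fun i => if i.1 = r ∧ i.2 % 2 = 1 then 1 else 0)

/-- The loop generator `F_m`. -/
noncomputable def Fm (m : ℤ) : Module.End ℂ Fk := S (1 - 2 * m) podd

/-- The loop generator `E_a`. -/
noncomputable def Em (a : ℤ) : Module.End ℂ Fk := S (-1 - 2 * a) pev

/-- The loop generator `H_a`, for `a ≠ 0`. -/
noncomputable def Hm (a : ℤ) : Module.End ℂ Fk := S (-2 * a) chi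

/-- The state of the extremal vector `z_N`. -/
noncomputable def DN (N : ℕ) : Finset Site :=
  Finset.univ ×ˢ ((Finset.Icc (1 : ℤ) N).image (fun k => 2 * k - 1) ∪
    (Finset.Icc (1 : ℤ) N).image (fun k => -2 * k))

/-- The extremal vector `z_N`. -/
noncomputable def zN (N : ℕ) : Fk := ket (DN N)

/-- The product of the `F_m`, `m` in the list. -/
noncomputable def FL (l : List ℤ) : Module.End ℂ Fk := (l.map Fm).prod

/-- The bilinear form for which the states are orthonormal. -/
noncomputable def Bf (x y : Fk) : ℂ := x.sum (fun D a => a * y D)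

/-- Vectors with integer coefficients. -/
def IntV (x : Fk) : Prop := ∀ D, ∃ n : ℤ, x D = n

/-- The numbers `a / b` with `a` an integer and `b` a positive integer prime to `23`. -/
def Rp : Subring ℂ where
  carrier := {z | ∃ a : ℤ, ∃ b : ℕ, ¬ 23 ∣ b ∧ (b : ℂ) * z = a}
  mul_mem' := by
    rintro x y ⟨a, b, hb, h1⟩ ⟨c, d, hd, h2⟩
    refine ⟨a * c, b * d, ?_, ?_⟩
    · intro h
      rcases (Nat.Prime.dvd_mul (by norm_num)).mp h with h | h
      · exact hb h
      · exact hd h
    · push_cast; rw [← h1, ← h2]; ring
  one_mem' := ⟨1, 1, by norm_num, by simp⟩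
  add_mem' := by
    rintro x y ⟨a, b, hb, h1⟩ ⟨c, d, hd, h2⟩
    refine ⟨a * d + c * b, b * d, ?_, ?_⟩
    · intro h
      rcases (Nat.Prime.dvd_mul (by norm_num)).mp h with h | h
      · exact hb h
      · exact hd h
    · push_cast; rw [← h1, ← h2]; ring
  zero_mem' := ⟨0, 1, by norm_num, by simp⟩
  neg_mem' := by
    rintro x ⟨a, b, hb, h1⟩
    exact ⟨-a, b, hb, by push_cast; rw [← h1]; ring⟩

end Pool.Agent.Helper840.AE
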