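import Pool.Agent.Helper840.AE.Verma

/-!
The irreducible module, divided powers and integrality.
-/

set_option autoImplicit false
set_option linter.unusedSectionVars false

namespace Pool.Agent.Helper840.AE

section simple

variable (lam : Fin 2 → ℕ)

lemma lcMk_surj : Function.Surjective (lcMk lam) := (maxSub lam).mkQ_surjective

/-- The functional on the irreducible module. -/
noncomputable def epsL : LC lam →ₗ[ℂ] ℂ :=
  show (Verma lam ⧸ maxSub lam) →ₗ[ℂ] ℂ from
  (((maxSub lam).restrictScalars ℂ).liftQ (eps lam) (fun _ hu => eps_maxSub lam hu)) ∘ₗ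
    (Submodule.Quotient.restrictScalarsEquiv ℂ (maxSub lam)).symm.toLinearMap

lemma epsL_mk (x : Verma lam) : epsL lam (lcMk lam x) = eps lam x := rfl

lemma lcMk_smul (a : ℂ) (x : Verma lam) : lcMk lam (a • x) = a • lcMk lam x := rfl

lemma vlamHW : HW lam (vlam lam) where
  ke i := by
    have h1 := (vacHW lam).ke i
    have h2 := congrArg (lcMk lam) h1
    rw [map_smul, map_zero] at h2
    exact h2
  kh i := by
    have h1 := (vacHW lam).kh i
    have h2 := congrArg (lcMk lam) h1
    rw [map_smul, lcMk_smul] at h2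
    exact h2
  kd := by
    have h1 := (vacHW lam).kd
    have h2 := congrArg (lcMk lam) h1
    rw [map_smul, map_zero] at h2
    exact h2

lemma lcMk_Phi (x : T) : lcMk lam (Phi (vac lam) x) = Phi (vlam lam) x := by
  induction x using Finsupp.induction_linear with
  | zero => simp
  | add x y hx hy => rw [map_add, map_add, map_add, hx, hy]
  | single J a => rw [Phi_single, Phi_single, lcMk_smul, map_smul]; rfl

lemma epsL_Phi (x : T) : epsL lam (Phi (vlam lam) x) = eps0 x := by
  rw [← lcMk_Phi, epsL_mk, eps_Phi]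

lemma PhiL_surj : Function.Surjective (Phi (vlam lam)) := by
  intro x
  obtain ⟨y, rfl⟩ := lcMk_surj lam x
  obtain ⟨t, rfl⟩ := Phi_surj lam y
  exact ⟨t, (lcMk_Phi lam t).symm⟩

lemma epsL_vlam : epsL lam (vlam lam) = 1 := by
  rw [← Phi_nil (vlam lam), epsL_Phi, eps0_nil]

lemma epsL_f (i : Fin 2) (x : LC lam) : epsL lam (f i • x) = 0 := by
  obtain ⟨t, rfl⟩ := PhiL_surj lam x
  rw [← Phi_fT, epsL_Phi, eps0_fT]

end simple


end Pool.Agent.Helper840.AE
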