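import Pool.Agent.Helper840.AE.FockDefs
import Pool.Agent.Helper840.AE.P_Bf_add_left

set_option autoImplicit false

namespace Pool.Agent.Helper840.AE

theorem Bf_Dg_single_qBf_Dg (D : Finset Site) (c : ℂ) (y : Fk) :
    Bf (Finsupp.single D c) y = c * y D := by
  unfold Bf
  rw [Finsupp.sum_single_index]
  simp

theorem Bf_Dg_apply_single_qBf_Dg (w : Site → ℂ) (D : Finset Site) (c : ℂ) :
    Dg w (Finsupp.single D c) =
      Finsupp.single D (c * ∑ i ∈ D, (if i.2 < 0 then - w i else w i)) := by
  unfold Dg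
  rw [Finsupp.linearCombination_single, ket, Finsupp.smul_single, Finsupp.smul_single, smul_eq_mul,
    smul_eq_mul, mul_one]

theorem Bf_Dg_apply_qBf_Dg (w : Site → ℂ) (y : Fk) (D : Finset Site) :
    (Dg w y) D = (∑ i ∈ D, (if i.2 < 0 then - w i else w i)) * y D := by
  classical
  induction y using Finsupp.induction_linear with
  | zero => simp
  | add f g hf hg => rw [map_add, Finsupp.add_apply, hf, hg, Finsupp.add_apply, mul_add]
  | single E c =>
    rw [Bf_Dg_apply_single_qBf_Dg, Finsupp.single_apply, Finsupp.single_apply]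
    split_ifs with h
    · subst h
      ring
    · ring

theorem Bf_Dg (w : Site → ℂ) (x y : Fk) : Bf (Dg w x) y = Bf x (Dg w y) := by
  induction x using Finsupp.induction_linear with
  | zero => simp [Bf]
  | add f g hf hg =>
    rw [map_add, (Bf_bilin (Dg w f) (Dg w g) y y 1).1, (Bf_bilin f g (Dg w y) y 1).1, hf, hg]
  | single E c =>
    rw [Bf_Dg_apply_single_qBf_Dg, Bf_Dg_single_qBf_Dg, Bf_Dg_single_qBf_Dg, Bf_Dg_apply_qBf_Dg]
    ring

end Pool.Agent.Helper840.AE
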