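import Pool.Agent.Helper840.AE.FockDefs

set_option autoImplicit false

namespace Pool.Agent.Helper840.AE

theorem X_self_ann_ket_qX_self (i : Site) (D : Finset Site) :
    ann i (ket D) = if occ D i then ((-1 : ℂ) ^ cnt i D) • ket (tog i D) else 0 := by
  unfold ann
  rw [ket, Finsupp.linearCombination_single, one_smul]

theorem X_self_cre_ket_qX_self (i : Site) (D : Finset Site) :
    cre i (ket D) = if occ D i then 0 else ((-1 : ℂ) ^ cnt i D) • ket (tog i D) := by
  unfold cre
  rw [ket, Finsupp.linearCombination_single, one_smul]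

theorem X_self_occ_tog_qX_self (i : Site) (D : Finset Site) : occ (tog i D) i ↔ ¬ occ D i := by
  unfold occ tog
  by_cases h1 : i.2 < 0 <;> by_cases h2 : i ∈ D <;> simp [h1, h2]

theorem X_self_tog_tog_qX_self (i : Site) (D : Finset Site) : tog i (tog i D) = D := by
  unfold tog
  by_cases h2 : i ∈ D
  · simp [h2]
  · simp [h2]

theorem X_self_cnt_tog_qX_self (i : Site) (D : Finset Site) : cnt i (tog i D) = cnt i D := by
  unfold cnt
  congr 1
  ext j
  simp only [Finset.mem_filter]
  constructor
  · rintro ⟨h1, h2⟩
    refine ⟨?_, h2⟩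
    have hne : j ≠ i := by
      rintro rfl
      simp at h2
    unfold tog at h1
    split_ifs at h1 with h
    · exact Finset.mem_of_mem_erase h1
    · exact (Finset.mem_insert.1 h1).resolve_left hne
  · rintro ⟨h1, h2⟩
    refine ⟨?_, h2⟩
    have hne : j ≠ i := by
      rintro rfl
      simp at h2
    unfold tog
    split_ifs with h
    · exact Finset.mem_erase.2 ⟨hne, h1⟩
    · exact Finset.mem_insert_of_mem h1

theorem X_self (i : Site) (D : Finset Site) : X i i (ket D) = if occ D i then ket D else 0 := by
  unfold X
  rw [Module.End.mul_apply, X_self_ann_ket_qX_self]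
  by_cases h : occ D i
  · rw [if_pos h, if_pos h, map_smul, X_self_cre_ket_qX_self, if_neg (by rw [X_self_occ_tog_qX_self]; simpa using h),
      X_self_tog_tog_qX_self, X_self_cnt_tog_qX_self, smul_smul, ← mul_pow]
    simp
  · rw [if_neg h, if_neg h, map_zero]

end Pool.Agent.Helper840.AE
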