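import Pool.Agent.Helper840.AE.FockDefs
import Pool.Agent.Helper840.AE.P_Bf_add_left
import Pool.Agent.Helper840.AE.P_X_ket
import Pool.Agent.Helper840.AE.P_X_self

set_option autoImplicit false

namespace Pool.Agent.Helper840.AE

theorem BfX_tog_mem_qBf_X (i : Site) (D : Finset Site) : i ∈ tog i D ↔ i ∉ D := by
  unfold tog
  split_ifs with h <;> simp [h]

theorem BfX_tog_mem_ne_qBf_X {i j : Site} (D : Finset Site) (h : j ≠ i) : j ∈ tog i D ↔ j ∈ D := by
  unfold tog
  split_ifs with h' <;> simp [h]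

theorem BfX_tog_tog_qBf_X (i : Site) (D : Finset Site) : tog i (tog i D) = D := by
  ext j
  by_cases h : j = i
  · subst h
    rw [BfX_tog_mem_qBf_X, BfX_tog_mem_qBf_X, not_not]
  · rw [BfX_tog_mem_ne_qBf_X _ h, BfX_tog_mem_ne_qBf_X _ h]

theorem BfX_occ_tog_qBf_X (i : Site) (D : Finset Site) : occ (tog i D) i ↔ ¬ occ D i := by
  unfold occ
  split_ifs with h
  · rw [BfX_tog_mem_qBf_X]
  · rw [BfX_tog_mem_qBf_X]

theorem BfX_cnt_tog_qBf_X (i : Site) (D : Finset Site) : cnt i (tog i D) = cnt i D := by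
  unfold cnt
  congr 1
  ext j
  simp only [Finset.mem_filter]
  constructor
  · rintro ⟨h1, h2⟩
    have hne : j ≠ i := by
      rintro rfl
      rcases h2 with h2 | h2
      · exact lt_irrefl _ h2
      · exact lt_irrefl _ h2.2
    exact ⟨(BfX_tog_mem_ne_qBf_X D hne).1 h1, h2⟩
  · rintro ⟨h1, h2⟩
    have hne : j ≠ i := by
      rintro rfl
      rcases h2 with h2 | h2
      · exact lt_irrefl _ h2
      · exact lt_irrefl _ h2.2
    exact ⟨(BfX_tog_mem_ne_qBf_X D hne).2 h1, h2⟩

theorem BfX_symm_qBf_X (x y : Fk) : Bf x y = Bf y x := (Bf_bilin x x y y 0).2.2.2.2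

theorem BfX_ket_qBf_X (D : Finset Site) (y : Fk) : Bf (ket D) y = y D := by
  unfold Bf ket
  rw [Finsupp.sum_single_index (by simp)]
  simp

theorem BfX_ket'_qBf_X (D : Finset Site) (x : Fk) : Bf x (ket D) = x D := by
  rw [BfX_symm_qBf_X, BfX_ket_qBf_X]

theorem BfX_ann_ket_qBf_X (i : Site) (D : Finset Site) : ann i (ket D) =
    if occ D i then ((-1 : ℂ) ^ cnt i D) • ket (tog i D) else 0 := by
  unfold ann
  conv_lhs => rw [ket]
  rw [Finsupp.linearCombination_single, one_smul]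

theorem BfX_cre_ket_qBf_X (i : Site) (D : Finset Site) : cre i (ket D) =
    if occ D i then 0 else ((-1 : ℂ) ^ cnt i D) • ket (tog i D) := by
  unfold cre
  conv_lhs => rw [ket]
  rw [Finsupp.linearCombination_single, one_smul]

theorem BfX_adj_ket_qBf_X (i : Site) (D D' : Finset Site) :
    Bf (ann i (ket D)) (ket D') = Bf (ket D) (cre i (ket D')) := by
  rw [BfX_ket'_qBf_X, BfX_ket_qBf_X, BfX_ann_ket_qBf_X, BfX_cre_ket_qBf_X]
  by_cases h : tog i D = D'
  · subst h
    have h1 : occ (tog i D) i ↔ ¬ occ D i := BfX_occ_tog_qBf_X i D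
    by_cases ho : occ D i
    · have h2 : ¬ occ (tog i D) i := fun h => (h1.1 h) ho
      rw [if_pos ho, if_neg h2, BfX_tog_tog_qBf_X, BfX_cnt_tog_qBf_X]
      simp [ket]
    · have h2 : occ (tog i D) i := h1.2 ho
      rw [if_neg ho, if_pos h2]
      simp
  · have h' : tog i D' ≠ D := by
      intro h2
      apply h
      rw [← h2, BfX_tog_tog_qBf_X]
    have e1 : (ket (tog i D) : Fk) D' = 0 := by
      rw [ket, Finsupp.single_apply, if_neg h]
    have e2 : (ket (tog i D') : Fk) D = 0 := by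
      rw [ket, Finsupp.single_apply, if_neg h']
    split_ifs <;> simp [e1, e2]

theorem BfX_single_qBf_X (D : Finset Site) (a : ℂ) : (Finsupp.single D a : Fk) = a • ket D := by
  rw [ket, Finsupp.smul_single, smul_eq_mul, mul_one]

theorem BfX_adj_qBf_X (i : Site) (x y : Fk) : Bf (ann i x) y = Bf x (cre i y) := by
  have hz1 : ∀ y : Fk, Bf 0 y = 0 := fun y => by simp [Bf]
  have hz2 : ∀ x : Fk, Bf x 0 = 0 := fun x => by simp [Bf]
  have ha1 : ∀ x x' y : Fk, Bf (x + x') y = Bf x y + Bf x' y := fun x x' y => (Bf_bilin x x' y y 0).1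
  have ha2 : ∀ x y y' : Fk, Bf x (y + y') = Bf x y + Bf x y' :=
    fun x y y' => (Bf_bilin x x y y' 0).2.1
  have hs1 : ∀ (a : ℂ) (x y : Fk), Bf (a • x) y = a * Bf x y :=
    fun a x y => (Bf_bilin x x y y a).2.2.1
  have hs2 : ∀ (a : ℂ) (x y : Fk), Bf x (a • y) = a * Bf x y :=
    fun a x y => (Bf_bilin x x y y a).2.2.2.1
  induction x using Finsupp.induction_linear with
  | zero => rw [map_zero, hz1, hz1]
  | add x x' hx hx' => rw [map_add, ha1, ha1, hx, hx']
  | single D a =>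
    rw [BfX_single_qBf_X, map_smul, hs1, hs1]
    congr 1
    induction y using Finsupp.induction_linear with
    | zero => rw [map_zero, hz2, hz2]
    | add y y' hy hy' => rw [map_add, ha2, ha2, hy, hy']
    | single D' b => rw [BfX_single_qBf_X, map_smul, hs2, hs2, BfX_adj_ket_qBf_X]

theorem Bf_X (i j : Site) (x y : Fk) : Bf (X i j x) y = Bf x (X j i y) := by
  unfold X
  rw [Module.End.mul_apply, Module.End.mul_apply, ← BfX_adj_qBf_X, BfX_symm_qBf_X (cre i (ann j x)) y, ← BfX_adj_qBf_X,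
    BfX_symm_qBf_X (ann i y) (ann j x)]

end Pool.Agent.Helper840.AE
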