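import Pool.Agent.Helper840.AE.FockDefs
import Pool.Agent.Helper840.AE.P_Bf_add_left
import Pool.Agent.Helper840.AE.P_Bf_X
import Pool.Agent.Helper840.AE.P_X_box
import Pool.Agent.Helper840.AE.P_S_apply
import Pool.Agent.Helper840.AE.P_S_supp

set_option autoImplicit false

namespace Pool.Agent.Helper840.AE

theorem Bf_S_ex_qBf_S (T : Module.End ℂ Fk) (y : Fk) (h : T y ≠ 0) :
    ∃ D ∈ y.support, T (ket D) ≠ 0 := by
  by_contra hc
  push Not at hc
  apply h
  have h1 : y = ∑ D ∈ y.support, y D • ket D := by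
    conv_lhs => rw [← Finsupp.sum_single y]
    simp [Finsupp.sum, ket]
  calc T y = T (∑ D ∈ y.support, y D • ket D) := congrArg T h1
    _ = ∑ D ∈ y.support, y D • T (ket D) := by rw [map_sum]; simp
    _ = 0 := Finset.sum_eq_zero (fun D hD => by rw [hc D hD, smul_zero])

theorem Bf_S_mono_qBf_S {R R' : ℕ} (h : R ≤ R') : box R ⊆ box R' := by
  intro i hi
  unfold box at *
  rw [Finset.mem_product, Finset.mem_Icc] at *
  have : (R : ℤ) ≤ R' := by exact_mod_cast h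
  refine ⟨hi.1, ?_, ?_⟩ <;> omega

theorem Bf_S_zl_qBf_S (y : Fk) : Bf 0 y = 0 := by
  have := (Bf_bilin 0 0 y y 0).2.2.1
  simpa using this

theorem Bf_S_zr_qBf_S (y : Fk) : Bf y 0 = 0 := by
  have := (Bf_bilin y y 0 0 0).2.2.2.1
  simpa using this

theorem Bf_S_suml_qBf_S (s : Finset Site) (f : Site → Fk) (y : Fk) :
    Bf (∑ i ∈ s, f i) y = ∑ i ∈ s, Bf (f i) y := by
  classical
  induction s using Finset.induction_on with
  | empty => simp [Bf_S_zl_qBf_S]
  | insert a s ha ih =>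
    rw [Finset.sum_insert ha, Finset.sum_insert ha, (Bf_bilin _ _ y y 0).1, ih]

theorem Bf_S_sumr_qBf_S (s : Finset Site) (f : Site → Fk) (y : Fk) :
    Bf y (∑ i ∈ s, f i) = ∑ i ∈ s, Bf y (f i) := by
  classical
  induction s using Finset.induction_on with
  | empty => simp [Bf_S_zr_qBf_S]
  | insert a s ha ih =>
    rw [Finset.sum_insert ha, Finset.sum_insert ha, (Bf_bilin y y _ _ 0).2.1, ih]

theorem Bf_S_sh_qBf_S (d : ℤ) (i : Site) : sh (-d) (sh d i) = i := by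
  unfold sh; simp

theorem Bf_S_sh'_qBf_S (d : ℤ) (i : Site) : sh d (sh (-d) i) = i := by
  unfold sh; simp

theorem Bf_S (d : ℤ) (hd : d ≠ 0) (g : Site → ℂ) (x y : Fk) :
    Bf (S d g x) y = Bf x (S (-d) (fun i => g (sh (-d) i)) y) := by
  set R : ℕ := (x.support ∪ y.support).sup bd + d.natAbs with hRdef
  have hx : ∀ D ∈ x.support, bd D + d.natAbs ≤ R := by
    intro D hD
    have : bd D ≤ (x.support ∪ y.support).sup bd :=
      Finset.le_sup (f := bd) (Finset.mem_union_left _ hD)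
    omega
  have hy : ∀ D ∈ y.support, bd D + (-d).natAbs ≤ R := by
    intro D hD
    have : bd D ≤ (x.support ∪ y.support).sup bd :=
      Finset.le_sup (f := bd) (Finset.mem_union_right _ hD)
    rw [Int.natAbs_neg]
    omega
  have hd' : -d ≠ 0 := by omega
  rw [S_apply d hd g x R hx, S_apply (-d) hd' _ y R hy, Bf_S_suml_qBf_S, Bf_S_sumr_qBf_S]
  have hF : ∀ k : Site, g (sh (-d) k) * Bf x (X (sh (-d) k) k y) ≠ 0 →
      k ∈ box R ∧ sh (-d) k ∈ box R := by
    intro k hk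
    have h1 : X (sh (-d) k) k y ≠ 0 := by
      intro h0
      apply hk
      rw [h0, Bf_S_zr_qBf_S, mul_zero]
    obtain ⟨D, hD, h2⟩ := Bf_S_ex_qBf_S _ _ h1
    obtain ⟨h3, h4, _⟩ := X_box (-d) hd' k D h2
    exact ⟨Bf_S_mono_qBf_S (hy D hD) h3, Bf_S_mono_qBf_S (hy D hD) h4⟩
  have h1 : ∀ i : Site, Bf (g i • X (sh d i) i x) y
      = g (sh (-d) (sh d i)) * Bf x (X (sh (-d) (sh d i)) (sh d i) y) := by
    intro i
    rw [(Bf_bilin _ x y y _).2.2.1, Bf_X, Bf_S_sh_qBf_S]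
  have h2 : ∀ k : Site, Bf x (g (sh (-d) k) • X (sh (-d) k) k y)
      = g (sh (-d) k) * Bf x (X (sh (-d) k) k y) := by
    intro k
    rw [(Bf_bilin x x _ y _).2.2.2.1]
  rw [Finset.sum_congr rfl (fun i _ => h1 i), Finset.sum_congr rfl (fun i _ => h2 i)]
  refine Finset.sum_bij_ne_zero (fun i _ _ => sh d i) ?_ ?_ ?_ ?_
  · intro i _ hi
    exact (hF _ hi).1
  · intro i _ _ j _ _ hij
    have := congrArg (sh (-d)) hij
    rwa [Bf_S_sh_qBf_S, Bf_S_sh_qBf_S] at this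
  · intro k _ hk
    refine ⟨sh (-d) k, (hF k hk).2, ?_, Bf_S_sh'_qBf_S d k⟩
    rw [Bf_S_sh'_qBf_S]
    exact hk
  · intro i _ _
    rfl

end Pool.Agent.Helper840.AE
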