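import Pool.Agent.Helper840.AE.FockDefs
import Pool.Agent.Helper840.AE.FockDefs2
import Pool.Agent.Helper840.AE.P_Bf_add_left
import Pool.Agent.Helper840.AE.P_Bf_S
import Pool.Agent.Helper840.AE.P_Bf_Dg

set_option autoImplicit false

namespace Pool.Agent.Helper840.AE

theorem Bf_op_sh_qBf_op (e : ℤ) (he : e = 1 ∨ e = -1) :
    (fun i => podd (sh e i)) = pev ∧ (fun i => pev (sh e i)) = podd := by
  constructor
  · funext i
    unfold podd pev sh
    simp only
    rcases he with rfl | rfl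
    · by_cases h : i.2 % 2 = 0
      · rw [if_pos h, if_pos (by omega)]
      · rw [if_neg h, if_neg (by omega)]
    · by_cases h : i.2 % 2 = 0
      · rw [if_pos h, if_pos (by omega)]
      · rw [if_neg h, if_neg (by omega)]
  · funext i
    unfold podd pev sh
    simp only
    rcases he with rfl | rfl
    · by_cases h : i.2 % 2 = 1
      · rw [if_pos h, if_pos (by omega)]
      · rw [if_neg h, if_neg (by omega)]
    · by_cases h : i.2 % 2 = 1
      · rw [if_pos h, if_pos (by omega)]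
      · rw [if_neg h, if_neg (by omega)]

theorem Bf_op_neg_qBf_op (g : Site → ℂ) (x y : Fk) :
    Bf (S (-1) g x) y = Bf x (S 1 (fun i => g (sh 1 i)) y) := by
  have h := Bf_S (-1) (by norm_num) g x y
  rw [neg_neg] at h
  exact h

theorem Bf_op_pos_qBf_op (g : Site → ℂ) (x y : Fk) :
    Bf (S 1 g x) y = Bf x (S (-1) (fun i => g (sh (-1) i)) y) :=
  Bf_S 1 (by norm_num) g x y

/-- contravariance of the form -/
theorem Bf_op (i : Fin 2) (x y : Fk) : Bf (opE i x) y = Bf x (opF i y) ∧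
    Bf (opF i x) y = Bf x (opE i y) ∧ Bf (opH i x) y = Bf x (opH i y) := by
  obtain ⟨p1, e1⟩ := Bf_op_sh_qBf_op 1 (Or.inl rfl)
  obtain ⟨p2, e2⟩ := Bf_op_sh_qBf_op (-1) (Or.inr rfl)
  by_cases hi : i = 0
  · subst hi
    unfold opE opF opH
    simp only [if_true]
    refine ⟨?_, ?_, Bf_Dg _ x y⟩
    · rw [Bf_op_neg_qBf_op, p1]
    · rw [Bf_op_pos_qBf_op, e2]
  · unfold opE opF opH
    simp only [if_neg hi]
    refine ⟨?_, ?_, ?_⟩
    · rw [Bf_op_neg_qBf_op, e1]
    · rw [Bf_op_pos_qBf_op, p2]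
    · have a1 : (Dg chi + (3 : ℂ) • (1 : Module.End ℂ Fk)) x = Dg chi x + (3 : ℂ) • x := rfl
      have a2 : (Dg chi + (3 : ℂ) • (1 : Module.End ℂ Fk)) y = Dg chi y + (3 : ℂ) • y := rfl
      rw [a1, a2]
      have b1 := (Bf_bilin (Dg chi x) ((3 : ℂ) • x) y y 3).1
      have b2 := (Bf_bilin x x (Dg chi y) ((3 : ℂ) • y) 3).2.1
      have b3 := (Bf_bilin x x y y 3).2.2.1
      have b4 := (Bf_bilin x x y y 3).2.2.2.1
      rw [b1, b2, b3, b4, Bf_Dg]

end Pool.Agent.Helper840.AE
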