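import Pool.Agent.Helper840.AE.FockDefs

set_option autoImplicit false

namespace Pool.Agent.Helper840.AE

/-- a vector with integer coefficients and `⟨x, x⟩ = 0` vanishes -/
theorem Bf_pos (x : Fk) (hx : IntV x) (h : Bf x x = 0) : x = 0 := by
  choose n hn using hx
  have h1 : (∑ D ∈ x.support, (n D * n D : ℤ)) = 0 := by
    have h2 : ((∑ D ∈ x.support, (n D * n D : ℤ) : ℤ) : ℂ) = Bf x x := by
      rw [Bf, Finsupp.sum, Int.cast_sum]
      refine Finset.sum_congr rfl fun D _ => ?_
      rw [hn D, Int.cast_mul]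
    rw [h] at h2
    exact_mod_cast h2
  have h3 := (Finset.sum_eq_zero_iff_of_nonneg (fun D _ => mul_self_nonneg (n D))).mp h1
  ext D
  rw [Finsupp.zero_apply]
  by_contra hD
  have h4 := h3 D (Finsupp.mem_support_iff.mpr hD)
  have h5 : n D = 0 := mul_self_eq_zero.mp h4
  apply hD
  rw [hn D, h5, Int.cast_zero]

end Pool.Agent.Helper840.AE
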