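import Pool.Agent.Helper840.AE.FockDefs
import Pool.Agent.Helper840.AE.P_X_ket
import Pool.Agent.Helper840.AE.P_X_self

set_option autoImplicit false

namespace Pool.Agent.Helper840.AE

theorem IntV_zero_qIntV_S : IntV (0 : Fk) := fun D => ⟨0, by simp⟩

theorem IntV_add_qIntV_S {x y : Fk} (hx : IntV x) (hy : IntV y) : IntV (x + y) := by
  intro D
  obtain ⟨m, hm⟩ := hx D
  obtain ⟨n, hn⟩ := hy D
  exact ⟨m + n, by rw [Finsupp.add_apply, hm, hn]; push_cast; ring⟩

theorem IntV_smul_qIntV_S {a : ℂ} (ha : ∃ n : ℤ, a = n) {x : Fk} (hx : IntV x) : IntV (a • x) := by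
  intro D
  obtain ⟨m, hm⟩ := hx D
  obtain ⟨n, hn⟩ := ha
  exact ⟨n * m, by rw [Finsupp.smul_apply, hm, hn, smul_eq_mul]; push_cast; ring⟩

theorem IntV_sum_qIntV_S {ι : Type*} (s : Finset ι) (f : ι → Fk) (h : ∀ i ∈ s, IntV (f i)) :
    IntV (∑ i ∈ s, f i) := by
  classical
  induction s using Finset.induction_on with
  | empty => simpa using IntV_zero_qIntV_S
  | insert a s ha ih =>
    rw [Finset.sum_insert ha]
    exact IntV_add_qIntV_S (h a (Finset.mem_insert_self _ _))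
      (ih fun i hi => h i (Finset.mem_insert_of_mem hi))

theorem IntV_ket_qIntV_S (D : Finset Site) : IntV (ket D) := by
  intro D'
  classical
  by_cases h : D = D'
  · exact ⟨1, by rw [ket, h]; simp⟩
  · exact ⟨0, by rw [ket, Finsupp.single_eq_of_ne (Ne.symm h)]; simp⟩

theorem IntV_X_qIntV_S (i j : Site) (D : Finset Site) : IntV (X i j (ket D)) := by
  by_cases h : i = j
  · subst h
    rw [X_self]
    split_ifs
    · exact IntV_ket_qIntV_S D
    · exact IntV_zero_qIntV_S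
  · obtain ⟨ε, _, hε⟩ := X_ket i j h D
    rw [hε]
    split_ifs
    · exact IntV_smul_qIntV_S ⟨ε, rfl⟩ (IntV_ket_qIntV_S _)
    · exact IntV_zero_qIntV_S

theorem IntV_S (d : ℤ) (g : Site → ℂ) (hg : ∀ i, ∃ n : ℤ, g i = n) (x : Fk) (hx : IntV x) :
    IntV (S d g x) := by
  unfold S
  rw [Finsupp.linearCombination_apply, Finsupp.sum]
  apply IntV_sum_qIntV_S
  intro D _
  apply IntV_smul_qIntV_S (hx D)
  apply IntV_sum_qIntV_S
  intro i _
  exact IntV_smul_qIntV_S (hg i) (IntV_X_qIntV_S _ _ _)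

end Pool.Agent.Helper840.AE
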