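import Pool.Agent.Helper840.AE.FockDefs
import Pool.Agent.Helper840.AE.P_X_comm
import Pool.Agent.Helper840.AE.P_X_ket
import Pool.Agent.Helper840.AE.P_X_box
import Pool.Agent.Helper840.AE.P_S_apply
import Pool.Agent.Helper840.AE.P_S_supp
import Pool.Agent.Helper840.AE.P_IntV_S

set_option autoImplicit false

namespace Pool.Agent.Helper840.AE

theorem sh_ne834_qIntV_dpow (d : ℤ) (hd : d ≠ 0) (i : Site) : sh d i ≠ i := by
  intro h
  have := congrArg Prod.snd h
  simp only [sh] at this
  omega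

theorem occ_tog_self834_qIntV_dpow (i : Site) (D : Finset Site) : occ (tog i D) i ↔ ¬ occ D i := by
  unfold occ tog
  by_cases h1 : i.2 < 0 <;> by_cases h2 : i ∈ D <;> simp [h1, h2]

theorem occ_tog_ne834_qIntV_dpow (i j : Site) (hij : i ≠ j) (D : Finset Site) :
    occ (tog j D) i ↔ occ D i := by
  unfold occ tog
  by_cases h1 : i.2 < 0 <;> by_cases h2 : j ∈ D <;> simp [h1, h2, hij]

/-- the move operators -/
noncomputable def Y834_qIntV_dpow (d : ℤ) (g : Site → ℂ) (i : Site) : Module.End ℂ Fk := g i • X (sh d i) i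

theorem Y_comm834_qIntV_dpow (d : ℤ) (g : Site → ℂ) (hgg : ∀ i, g i * g (sh d i) = 0) (i j : Site) :
    Y834_qIntV_dpow d g i * Y834_qIntV_dpow d g j = Y834_qIntV_dpow d g j * Y834_qIntV_dpow d g i := by
  unfold Y834_qIntV_dpow
  have h := X_comm (sh d i) i (sh d j) j
  have h1 : (g i * g j) • (X (sh d i) i * X (sh d j) j) =
      (g i * g j) • (X (sh d j) j * X (sh d i) i) := by
    by_cases c1 : i = sh d j
    · have : g i * g j = 0 := by rw [c1, mul_comm]; exact hgg j
      rw [this, zero_smul, zero_smul]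
    by_cases c2 : sh d i = j
    · have : g i * g j = 0 := by rw [← c2]; exact hgg i
      rw [this, zero_smul, zero_smul]
    rw [if_neg c1, if_neg c2] at h
    have h4 := h.trans (sub_self (0 : Module.End ℂ Fk))
    have h5 : X (sh d i) i * X (sh d j) j = X (sh d j) j * X (sh d i) i := sub_eq_zero.1 h4
    rw [h5]
  rw [smul_mul_smul_comm, smul_mul_smul_comm, h1, mul_comm (g j) (g i)]

theorem Y_sq834_qIntV_dpow (d : ℤ) (hd : d ≠ 0) (g : Site → ℂ) (i : Site) :
    Y834_qIntV_dpow d g i * Y834_qIntV_dpow d g i = 0 := by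
  have hne := sh_ne834_qIntV_dpow d hd i
  have h1 : X (sh d i) i * X (sh d i) i = 0 := by
    apply Finsupp.lhom_ext'
    intro D
    apply LinearMap.ext_ring
    show X (sh d i) i (X (sh d i) i (ket D)) = 0
    obtain ⟨ε, _, h⟩ := X_ket (sh d i) i hne D
    rw [h]
    split_ifs with hc
    · rw [map_smul]
      obtain ⟨ε', _, h'⟩ := X_ket (sh d i) i hne (tog (sh d i) (tog i D))
      rw [h', if_neg, smul_zero]
      rintro ⟨hc1, _⟩
      rw [occ_tog_ne834_qIntV_dpow _ _ hne.symm, occ_tog_self834_qIntV_dpow] at hc1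
      exact hc1 hc.1
    · exact map_zero _
  unfold Y834_qIntV_dpow
  rw [smul_mul_smul_comm, h1, smul_zero]

theorem X_int834_qIntV_dpow (d : ℤ) (hd : d ≠ 0) (i : Site) (x : Fk) (hx : IntV x) :
    IntV (X (sh d i) i x) := by
  classical
  have h1 := IntV_S d (fun j => if j = i then 1 else 0)
    (fun j => by by_cases h : j = i
                 · exact ⟨1, by simp [h]⟩
                 · exact ⟨0, by simp [h]⟩) x hx
  set N := x.support.sup (fun D => bd D + d.natAbs) + i.2.natAbs with hN
  rw [S_apply d hd _ x N] at h1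
  · rw [Finset.sum_eq_single i] at h1
    · simpa using h1
    · intro j _ hj
      simp [hj]
    · intro h
      exfalso
      apply h
      unfold box
      rw [Finset.mem_product]
      refine ⟨Finset.mem_univ _, ?_⟩
      rw [Finset.mem_Icc]
      have : i.2.natAbs ≤ N := by omega
      constructor <;> omega
  · intro D hD
    have := Finset.le_sup (f := fun D => bd D + d.natAbs) hD
    omega

theorem IntV_add834_qIntV_dpow (x y : Fk) (hx : IntV x) (hy : IntV y) : IntV (x + y) := by
  intro D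
  obtain ⟨a, ha⟩ := hx D
  obtain ⟨b, hb⟩ := hy D
  exact ⟨a + b, by rw [Finsupp.add_apply, ha, hb]; push_cast; rfl⟩

theorem IntV_zero834_qIntV_dpow : IntV 0 := fun D => ⟨0, by simp⟩

theorem Y_int834_qIntV_dpow (d : ℤ) (hd : d ≠ 0) (g : Site → ℂ) (hg : ∀ i, g i = 0 ∨ g i = 1) (i : Site)
    (x : Fk) (hx : IntV x) : IntV (Y834_qIntV_dpow d g i x) := by
  unfold Y834_qIntV_dpow
  rw [LinearMap.smul_apply]
  rcases hg i with h | h
  · rw [h, zero_smul]; exact IntV_zero834_qIntV_dpow
  · rw [h, one_smul]; exact X_int834_qIntV_dpow d hd i x hx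

theorem pow_add834_qIntV_dpow {R : Type*} [Ring R] (A Y : R) (h : A * Y = Y * A) (hY : Y * Y = 0) (k : ℕ) :
    (A + Y) ^ (k + 1) = A ^ (k + 1) + (k + 1 : ℕ) • (A ^ k * Y) := by
  have hc : Commute A Y := h
  induction k with
  | zero => simp
  | succ k ih =>
    rw [pow_succ, ih, add_mul, mul_add, smul_mul_assoc, mul_add, mul_assoc (A ^ k) Y Y, hY, mul_zero,
      add_zero, mul_assoc (A ^ k) Y A, ← h, ← mul_assoc, ← pow_succ, ← pow_succ]
    rw [add_assoc]
    congr 1
    rw [show (k + 1 + 1 : ℕ) = (k + 1) + 1 by rfl, add_smul (k + 1) 1, one_smul, add_comm]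

theorem claim1_834_qIntV_dpow (d : ℤ) (hd : d ≠ 0) (g : Site → ℂ) (hg : ∀ i, g i = 0 ∨ g i = 1)
    (hgg : ∀ i, g i * g (sh d i) = 0) (B : Finset Site) : ∀ (k : ℕ) (x : Fk), IntV x →
    IntV (((k.factorial : ℂ)⁻¹) • ((∑ i ∈ B, Y834_qIntV_dpow d g i) ^ k) x) := by
  classical
  induction B using Finset.induction_on with
  | empty =>
    intro k x hx
    rw [Finset.sum_empty]
    rcases Nat.eq_zero_or_pos k with rfl | hk
    · simpa using hx
    · rw [zero_pow hk.ne', LinearMap.zero_apply, smul_zero]; exact IntV_zero834_qIntV_dpow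
  | insert a B ha ih =>
    intro k x hx
    rw [Finset.sum_insert ha, add_comm]
    rcases k with _ | k
    · simpa using hx
    · have hcomm : (∑ i ∈ B, Y834_qIntV_dpow d g i) * Y834_qIntV_dpow d g a = Y834_qIntV_dpow d g a * (∑ i ∈ B, Y834_qIntV_dpow d g i) := by
        rw [Finset.sum_mul, Finset.mul_sum]
        exact Finset.sum_congr rfl fun i _ => Y_comm834_qIntV_dpow d g hgg i a
      rw [pow_add834_qIntV_dpow (R := Module.End ℂ Fk) _ _ hcomm (Y_sq834_qIntV_dpow d hd g a) k, LinearMap.add_apply,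
        smul_add]
      apply IntV_add834_qIntV_dpow
      · exact ih (k + 1) x hx
      · have h1 := ih k (Y834_qIntV_dpow d g a x) (Y_int834_qIntV_dpow d hd g hg a x hx)
        have h2 : (((k + 1).factorial : ℂ)⁻¹) •
            (((k + 1 : ℕ) • ((∑ i ∈ B, Y834_qIntV_dpow d g i) ^ k * Y834_qIntV_dpow d g a)) x) =
            ((k.factorial : ℂ)⁻¹) • ((∑ i ∈ B, Y834_qIntV_dpow d g i) ^ k) (Y834_qIntV_dpow d g a x) := by
          rw [LinearMap.smul_apply, Module.End.mul_apply, ← Nat.cast_smul_eq_nsmul ℂ, smul_smul,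
            Nat.factorial_succ]
          congr 1
          have : ((k + 1 : ℕ) : ℂ) ≠ 0 := by exact_mod_cast Nat.succ_ne_zero k
          have h3 : (k.factorial : ℂ) ≠ 0 := by exact_mod_cast Nat.factorial_ne_zero k
          push_cast at *
          field_simp
        rw [h2]; exact h1

theorem claim2_834_qIntV_dpow (d : ℤ) (hd : d ≠ 0) (g : Site → ℂ) (x : Fk) (R0 K : ℕ)
    (hR : ∀ D ∈ x.support, bd D ≤ R0) : ∀ m : ℕ, m ≤ K →
    ((S d g) ^ m) x = ((∑ i ∈ box (R0 + K * d.natAbs), Y834_qIntV_dpow d g i) ^ m) x ∧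
      ∀ D ∈ (((S d g) ^ m) x).support, bd D ≤ R0 + m * d.natAbs := by
  intro m
  induction m with
  | zero => intro _; simpa using hR
  | succ m ih =>
    intro hm
    obtain ⟨h1, h2⟩ := ih (by omega)
    have hK : (m + 1) * d.natAbs ≤ K * d.natAbs := Nat.mul_le_mul_right _ hm
    constructor
    · rw [pow_succ', pow_succ', Module.End.mul_apply, Module.End.mul_apply, ← h1,
        S_apply d hd g _ (R0 + K * d.natAbs)]
      · rw [LinearMap.sum_apply]
        rfl
      · intro D hD
        have := h2 D hD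
        rw [add_mul, one_mul] at hK
        omega
    · intro D hD
      rw [pow_succ', Module.End.mul_apply] at hD
      have := S_supp d hd g _ _ h2 D hD
      rw [add_mul, one_mul]
      omega

/-- divided powers of a sum of commuting quadratic moves with square zero preserve integrality -/
theorem IntV_dpow (d : ℤ) (hd : d ≠ 0) (g : Site → ℂ) (hg : ∀ i, g i = 0 ∨ g i = 1)
    (hgg : ∀ i, g i * g (sh d i) = 0) (k : ℕ) (x : Fk) (hx : IntV x) :
    IntV (((k.factorial : ℂ)⁻¹) • ((S d g) ^ k) x) := by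
  have h := claim2_834_qIntV_dpow d hd g x (x.support.sup bd) k (fun D hD => Finset.le_sup hD) k le_rfl
  rw [h.1]
  exact claim1_834_qIntV_dpow d hd g hg hgg _ k x hx

end Pool.Agent.Helper840.AE
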