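import Pool.Agent.Helper840.AE.FockDefs
import Pool.Agent.Helper840.AE.FockDefs2
import Pool.Agent.Helper840.AE.P_IntV_dpow

set_option autoImplicit false

namespace Pool.Agent.Helper840.AE

theorem IntV_op_par1_qIntV_op (i : Site) : podd i * podd (sh (-1) i) = 0 := by
  unfold podd sh
  by_cases h : i.2 % 2 = 1
  · have h2 : ¬ (i.2 + -1) % 2 = 1 := by omega
    simp only [if_neg h2, mul_zero]
  · simp only [if_neg h, zero_mul]

theorem IntV_op_par2_qIntV_op (i : Site) : pev i * pev (sh (-1) i) = 0 := by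
  unfold pev sh
  by_cases h : i.2 % 2 = 0
  · have h2 : ¬ (i.2 + -1) % 2 = 0 := by omega
    simp only [if_neg h2, mul_zero]
  · simp only [if_neg h, zero_mul]

theorem IntV_op_par3_qIntV_op (i : Site) : podd i * podd (sh 1 i) = 0 := by
  unfold podd sh
  by_cases h : i.2 % 2 = 1
  · have h2 : ¬ (i.2 + 1) % 2 = 1 := by omega
    simp only [if_neg h2, mul_zero]
  · simp only [if_neg h, zero_mul]

theorem IntV_op_par4_qIntV_op (i : Site) : pev i * pev (sh 1 i) = 0 := by
  unfold pev sh
  by_cases h : i.2 % 2 = 0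
  · have h2 : ¬ (i.2 + 1) % 2 = 0 := by omega
    simp only [if_neg h2, mul_zero]
  · simp only [if_neg h, zero_mul]

theorem IntV_op_podd01_qIntV_op (i : Site) : podd i = 0 ∨ podd i = 1 := by
  unfold podd; split_ifs <;> simp

theorem IntV_op_pev01_qIntV_op (i : Site) : pev i = 0 ∨ pev i = 1 := by
  unfold pev; split_ifs <;> simp

/-- a diagonal operator -/
def IntV_op_Diag_qIntV_op (A : Module.End ℂ Fk) (lam : Finset Site → ℂ) : Prop :=
  ∀ x D, (A x) D = lam D * x D

theorem IntV_op_Dg_qIntV_op (w : Site → ℂ) :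
    IntV_op_Diag_qIntV_op (Dg w) (fun D => ∑ i ∈ D, (if i.2 < 0 then - w i else w i)) := by
  intro x D
  induction x using Finsupp.induction_linear with
  | zero => simp
  | add f g hf hg => rw [map_add, Finsupp.add_apply, hf, hg, Finsupp.add_apply]; ring
  | single E a =>
    rw [Dg, Finsupp.linearCombination_single, Finsupp.smul_apply, Finsupp.smul_apply, ket]
    by_cases h : E = D
    · subst h
      simp only [Finsupp.single_eq_same, smul_eq_mul]
      ring
    · rw [Finsupp.single_eq_of_ne (Ne.symm h), Finsupp.single_eq_of_ne (Ne.symm h)]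
      simp

theorem IntV_op_prod_qIntV_op {A : Module.End ℂ Fk} {lam : Finset Site → ℂ} (hA : IntV_op_Diag_qIntV_op A lam)
    (l : List ℕ) (x : Fk) (D : Finset Site) :
    ((l.map (fun j : ℕ => A - (j : ℂ) • (1 : Module.End ℂ Fk))).prod x) D =
      (l.map (fun j : ℕ => lam D - (j : ℂ))).prod * x D := by
  induction l generalizing x with
  | nil => simp
  | cons a l ih =>
    rw [List.map_cons, List.prod_cons, Module.End.mul_apply, List.map_cons, List.prod_cons]
    rw [LinearMap.sub_apply, Finsupp.sub_apply, hA, ih, LinearMap.smul_apply,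
      Module.End.one_apply, Finsupp.smul_apply, ih, smul_eq_mul]
    ring

theorem IntV_op_fac_qIntV_op (n : ℤ) (k : ℕ) :
    ∃ c : ℤ, (∏ j ∈ Finset.range k, (n - j)) = k.factorial * c := by
  have h1 : ∏ j ∈ Finset.range k, (n - j) = ∏ j ∈ Finset.range k, ((n - k + 1) + j) := by
    rw [← Finset.prod_range_reflect]
    refine Finset.prod_congr rfl fun j hj => ?_
    rw [Finset.mem_range] at hj
    have : ((k - 1 - j : ℕ) : ℤ) = k - 1 - j := by omega
    rw [this]
    ring
  rw [h1]
  exact Nat.factorial_coe_dvd_prod k (n - k + 1)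

theorem IntV_op_H_qIntV_op {A : Module.End ℂ Fk} {lam : Finset Site → ℂ} (hA : IntV_op_Diag_qIntV_op A lam)
    (hl : ∀ D, ∃ n : ℤ, lam D = n) (k : ℕ) (x : Fk) (hx : IntV x) :
    IntV (((k.factorial : ℂ)⁻¹) •
      ((List.range k).map (fun j : ℕ => A - (j : ℂ) • (1 : Module.End ℂ Fk))).prod x) := by
  intro D
  obtain ⟨n, hn⟩ := hl D
  obtain ⟨m, hm⟩ := hx D
  obtain ⟨c, hc⟩ := IntV_op_fac_qIntV_op n k
  refine ⟨c * m, ?_⟩
  rw [Finsupp.smul_apply, IntV_op_prod_qIntV_op hA, hm, hn, smul_eq_mul]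
  have h1 : ((List.range k).map (fun j : ℕ => (n : ℂ) - (j : ℂ))).prod =
      (k.factorial : ℂ) * (c : ℂ) := by
    have h2 : ((List.range k).map (fun j : ℕ => (n : ℂ) - (j : ℂ))).prod =
        ∏ j ∈ Finset.range k, ((n : ℂ) - (j : ℂ)) := by
      clear hc
      induction k with
      | zero => simp
      | succ k ih => simp [List.range_succ, Finset.prod_range_succ, ih]
    rw [h2]
    exact_mod_cast hc
  rw [h1]
  have h3 : (k.factorial : ℂ) ≠ 0 := by exact_mod_cast k.factorial_ne_zero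
  push_cast
  field_simp

theorem IntV_op_int_qIntV_op (w : Site → ℂ) (hw : ∀ i, ∃ n : ℤ, w i = n) (D : Finset Site) :
    ∃ n : ℤ, (∑ i ∈ D, (if i.2 < 0 then - w i else w i)) = n := by
  have h : (∑ i ∈ D, (if i.2 < 0 then - w i else w i)) ∈ (Int.castRingHom ℂ).range := by
    apply sum_mem
    intro i _
    obtain ⟨n, hn⟩ := hw i
    rw [hn]
    split_ifs
    · exact ⟨-n, by simp⟩
    · exact ⟨n, by simp⟩
  obtain ⟨n, hn⟩ := h
  exact ⟨n, by rw [← hn]; rfl⟩

theorem IntV_op_chi_qIntV_op (i : Site) : ∃ n : ℤ, chi i = n := by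
  unfold chi
  split_ifs
  · exact ⟨1, by simp⟩
  · exact ⟨-1, by simp⟩

/-- the divided powers and the binomial elements preserve the vectors with integer coefficients -/
theorem IntV_op (i : Fin 2) (k : ℕ) (x : Fk) (hx : IntV x) :
    IntV (((k.factorial : ℂ)⁻¹) • ((opE i) ^ k) x) ∧
    IntV (((k.factorial : ℂ)⁻¹) • ((opF i) ^ k) x) ∧
    IntV (((k.factorial : ℂ)⁻¹) •
      ((List.range k).map (fun j : ℕ => opH i - (j : ℂ) • 1)).prod x) := by
  refine ⟨?_, ?_, ?_⟩
  · unfold opE
    split_ifs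
    · exact IntV_dpow (-1) (by norm_num) podd IntV_op_podd01_qIntV_op IntV_op_par1_qIntV_op k x hx
    · exact IntV_dpow (-1) (by norm_num) pev IntV_op_pev01_qIntV_op IntV_op_par2_qIntV_op k x hx
  · unfold opF
    split_ifs
    · exact IntV_dpow 1 (by norm_num) pev IntV_op_pev01_qIntV_op IntV_op_par4_qIntV_op k x hx
    · exact IntV_dpow 1 (by norm_num) podd IntV_op_podd01_qIntV_op IntV_op_par3_qIntV_op k x hx
  · unfold opH
    by_cases h : i = 0
    · simp only [if_pos h]
      refine IntV_op_H_qIntV_op (IntV_op_Dg_qIntV_op _) (IntV_op_int_qIntV_op _ ?_) k x hx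
      intro j
      obtain ⟨n, hn⟩ := IntV_op_chi_qIntV_op j
      exact ⟨-n, by rw [hn]; simp⟩
    · simp only [if_neg h]
      have hD : IntV_op_Diag_qIntV_op (Dg chi + (3 : ℂ) • 1)
          (fun D => (∑ i ∈ D, (if i.2 < 0 then - chi i else chi i)) + 3) := by
        intro x D
        rw [LinearMap.add_apply, Finsupp.add_apply, IntV_op_Dg_qIntV_op, LinearMap.smul_apply,
          Module.End.one_apply, Finsupp.smul_apply, smul_eq_mul]
        ring
      refine IntV_op_H_qIntV_op hD ?_ k x hx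
      intro D
      obtain ⟨n, hn⟩ := IntV_op_int_qIntV_op chi IntV_op_chi_qIntV_op D
      exact ⟨n + 3, by rw [hn]; push_cast; ring⟩

end Pool.Agent.Helper840.AE
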