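import Pool.Agent.Helper840.AE.FockDefs
import Pool.Agent.Helper840.AE.FockDefs2
import Pool.Agent.Helper840.AE.P_Dg_S
import Pool.Agent.Helper840.AE.P_S_smul

set_option autoImplicit false

namespace Pool.Agent.Helper840.AE

theorem opd_op_comm_qopd_op (c : ℂ) (d : ℤ) (hd : d ≠ 0) (g : Site → ℂ) :
    opD c * S d g - S d g * opD c = S d (fun i => (wd (sh d i) - wd i) * g i) := by
  unfold opD
  rw [← Dg_S d hd, add_mul, mul_add, smul_mul_assoc, one_mul, mul_smul_comm, mul_one]
  abel

theorem opd_op_zero_qopd_op (d : ℤ) : S d (fun _ => 0) = 0 := by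
  have h := S_smul d 0 (fun _ => 0)
  rw [zero_smul] at h
  rw [h]
  congr 1
  funext i
  ring

theorem opd_op_e0_qopd_op (i : Site) : (wd (sh (-1) i) - wd i) * podd i = podd i := by
  obtain ⟨r, k⟩ := i
  show ((-(((k + -1 + 1) / 2 : ℤ) : ℂ)) - (-(((k + 1) / 2 : ℤ) : ℂ))) *
    (if k % 2 = 1 then 1 else 0) = if k % 2 = 1 then 1 else 0
  split_ifs with h
  · have : (k + 1) / 2 = (k + -1 + 1) / 2 + 1 := by omega
    rw [this]
    push_cast
    ring
  · ring

theorem opd_op_e1_qopd_op (i : Site) : (wd (sh (-1) i) - wd i) * pev i = 0 := by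
  obtain ⟨r, k⟩ := i
  show ((-(((k + -1 + 1) / 2 : ℤ) : ℂ)) - (-(((k + 1) / 2 : ℤ) : ℂ))) *
    (if k % 2 = 0 then 1 else 0) = 0
  split_ifs with h
  · have : (k + 1) / 2 = (k + -1 + 1) / 2 := by omega
    rw [this]
    ring
  · ring

theorem opd_op_f0_qopd_op (i : Site) : (wd (sh 1 i) - wd i) * pev i = (-1) * pev i := by
  obtain ⟨r, k⟩ := i
  show ((-(((k + 1 + 1) / 2 : ℤ) : ℂ)) - (-(((k + 1) / 2 : ℤ) : ℂ))) *
    (if k % 2 = 0 then 1 else 0) = (-1) * (if k % 2 = 0 then 1 else 0)
  split_ifs with h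
  · have : (k + 1 + 1) / 2 = (k + 1) / 2 + 1 := by omega
    rw [this]
    push_cast
    ring
  · ring

theorem opd_op_f1_qopd_op (i : Site) : (wd (sh 1 i) - wd i) * podd i = 0 := by
  obtain ⟨r, k⟩ := i
  show ((-(((k + 1 + 1) / 2 : ℤ) : ℂ)) - (-(((k + 1) / 2 : ℤ) : ℂ))) *
    (if k % 2 = 1 then 1 else 0) = 0
  split_ifs with h
  · have : (k + 1 + 1) / 2 = (k + 1) / 2 := by omega
    rw [this]
    ring
  · ring

theorem opd_op (c : ℂ) (j : Fin 2) :
    opD c * opE j - opE j * opD c = (if j = 0 then opE j else 0) ∧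
    opD c * opF j - opF j * opD c = -(if j = 0 then opF j else 0) := by
  have h10 : ¬ ((1 : Fin 2) = 0) := by decide
  have hj : j = 0 ∨ j = 1 := by
    revert j
    decide
  rcases hj with rfl | rfl
  · have hE : opE 0 = S (-1) podd := by simp [opE]
    have hF : opF 0 = S 1 pev := by simp [opF]
    rw [hE, hF, if_pos rfl, if_pos rfl, opd_op_comm_qopd_op c (-1) (by norm_num),
      opd_op_comm_qopd_op c 1 (by norm_num)]
    constructor
    · congr 1
      funext i
      exact opd_op_e0_qopd_op i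
    · rw [← neg_one_smul ℂ (S 1 pev), S_smul]
      congr 1
      funext i
      exact opd_op_f0_qopd_op i
  · have hE : opE 1 = S (-1) pev := by simp [opE]
    have hF : opF 1 = S 1 podd := by simp [opF]
    rw [hE, hF, if_neg h10, if_neg h10, opd_op_comm_qopd_op c (-1) (by norm_num),
      opd_op_comm_qopd_op c 1 (by norm_num)]
    constructor
    · rw [← opd_op_zero_qopd_op (-1)]
      congr 1
      funext i
      exact opd_op_e1_qopd_op i
    · have h0 : (S 1 fun i => (wd (sh 1 i) - wd i) * podd i) = 0 := by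
        rw [← opd_op_zero_qopd_op 1]
        congr 1
        funext i
        exact opd_op_f1_qopd_op i
      rw [h0]
      exact (neg_zero (G := Module.End ℂ Fk)).symm

end Pool.Agent.Helper840.AE
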