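import Pool.Agent.Helper840.AE.FockDefs
import Pool.Agent.Helper840.AE.P_X_comm
import Pool.Agent.Helper840.AE.P_S_apply
import Pool.Agent.Helper840.AE.P_S_supp
import Pool.Agent.Helper840.AE.P_X_self
import Pool.Agent.Helper840.AE.P_S_ext

set_option autoImplicit false

namespace Pool.Agent.Helper840.AE

theorem mem_box_aux_qS_comm_one (R : ℕ) (i : Site) : i ∈ box R ↔ -(R:ℤ) ≤ i.2 ∧ i.2 ≤ R := by
  unfold box
  simp [Finset.mem_product]

theorem sh_neg_aux_qS_comm_one (k : Site) : sh (-1) (sh 1 k) = k := by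
  ext <;> simp [sh]

theorem sh_pos_aux_qS_comm_one (k : Site) : sh 1 (sh (-1) k) = k := by
  ext <;> simp [sh]

theorem mem_bd_aux_qS_comm_one (D : Finset Site) (i : Site) (hi : i ∈ D) : i.2.natAbs ≤ bd D := by
  unfold bd
  exact Finset.le_sup (f := fun i : Site => i.2.natAbs) hi

theorem ket_supp_aux_qS_comm_one (D : Finset Site) (D' : Finset Site) (h : D' ∈ (ket D).support) : D' = D := by
  unfold ket at h
  rw [Finsupp.support_single_ne_zero _ one_ne_zero] at h
  simpa using h

/-- the integer indicator parts -/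
theorem occ_aux_qS_comm_one (D : Finset Site) (k : Site) :
    (if occ D k then (1:ℂ) else 0) =
      (if k.2 < 0 then (1:ℂ) else 0) + (if k.2 < 0 then (-1:ℂ) else 1) * (if k ∈ D then 1 else 0) := by
  unfold occ
  by_cases h1 : k.2 < 0 <;> by_cases h2 : k ∈ D <;> simp [h1, h2]

theorem dg_aux_qS_comm_one (w : Site → ℂ) (D : Finset Site) :
    Dg w (ket D) = (∑ i ∈ D, (if i.2 < 0 then - w i else w i)) • ket D := by
  unfold Dg
  conv_lhs => rw [ket]
  rw [Finsupp.linearCombination_single, one_smul]

theorem S_comm_one (g g' : Site → ℂ) :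
    S (-1) g * S 1 g' - S 1 g' * S (-1) g =
      Dg (fun i => g (sh 1 i) * g' i - g i * g' (sh (-1) i)) +
        (∑ r : Fin 3, g (r, 0) * g' (r, -1)) • 1 := by
  apply S_ext
  intro D
  set R : ℕ := bd D + 3 with hR
  have hket : ∀ D' ∈ (ket D).support, bd D' ≤ bd D := fun D' h => by
    rw [ket_supp_aux_qS_comm_one D D' h]
  have h1 : S 1 g' (ket D) = ∑ k ∈ box R, g' k • X (sh 1 k) k (ket D) :=
    S_apply 1 (by norm_num) g' (ket D) R (fun D' h => by have := hket D' h; simp; omega)
  have h2 : S (-1) g (ket D) = ∑ k ∈ box R, g k • X (sh (-1) k) k (ket D) :=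
    S_apply (-1) (by norm_num) g (ket D) R (fun D' h => by have := hket D' h; simp; omega)
  have h3 : S (-1) g (S 1 g' (ket D)) = ∑ i ∈ box R, g i • X (sh (-1) i) i (S 1 g' (ket D)) :=
    S_apply (-1) (by norm_num) g _ R (fun D' h => by
      have := S_supp 1 (by norm_num) g' (ket D) (bd D) hket D' h
      simp at this ⊢; omega)
  have h4 : S 1 g' (S (-1) g (ket D)) = ∑ i ∈ box R, g' i • X (sh 1 i) i (S (-1) g (ket D)) :=
    S_apply 1 (by norm_num) g' _ R (fun D' h => by
      have := S_supp (-1) (by norm_num) g (ket D) (bd D) hket D' h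
      simp at this ⊢; omega)
  have e1 : S (-1) g (S 1 g' (ket D)) =
      ∑ k ∈ box R, ∑ i ∈ box R, (g i * g' k) • (X (sh (-1) i) i * X (sh 1 k) k) (ket D) := by
    rw [h3, h1, Finset.sum_comm]
    refine Finset.sum_congr rfl fun i _ => ?_
    rw [map_sum, Finset.smul_sum]
    refine Finset.sum_congr rfl fun k _ => ?_
    rw [map_smul, smul_smul]; rfl
  have e2 : S 1 g' (S (-1) g (ket D)) =
      ∑ k ∈ box R, ∑ i ∈ box R, (g i * g' k) • (X (sh 1 k) k * X (sh (-1) i) i) (ket D) := by
    rw [h4, h2]
    refine Finset.sum_congr rfl fun k _ => ?_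
    rw [map_sum, Finset.smul_sum]
    refine Finset.sum_congr rfl fun i _ => ?_
    rw [map_smul, smul_smul, mul_comm]; rfl
  have e3 : S (-1) g (S 1 g' (ket D)) - S 1 g' (S (-1) g (ket D)) =
      ∑ k ∈ box R, ∑ i ∈ box R, (if i = sh 1 k then
        (g (sh 1 k) * g' k) • ((X k k) (ket D) - (X (sh 1 k) (sh 1 k)) (ket D)) else 0) := by
    rw [e1, e2, ← Finset.sum_sub_distrib]
    refine Finset.sum_congr rfl fun k _ => ?_
    rw [← Finset.sum_sub_distrib]
    refine Finset.sum_congr rfl fun i _ => ?_
    rw [← smul_sub, ← LinearMap.sub_apply, X_comm]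
    by_cases hik : i = sh 1 k
    · subst hik
      rw [if_pos rfl, if_pos (sh_neg_aux_qS_comm_one k), if_pos rfl, sh_neg_aux_qS_comm_one]
      rfl
    · have hik2 : ¬ (sh (-1) i = k) := by
        intro h
        apply hik
        rw [← h, sh_pos_aux_qS_comm_one]
      rw [if_neg hik, if_neg hik2, if_neg hik]
      simp
  have nk : ∀ k : Site, X k k (ket D) = (if occ D k then (1:ℂ) else 0) • ket D := by
    intro k
    rw [X_self]
    by_cases h : occ D k <;> simp [h]
  have e4 : S (-1) g (S 1 g' (ket D)) - S 1 g' (S (-1) g (ket D)) =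
      (∑ k ∈ box R, (g (sh 1 k) * g' k) *
        ((if occ D k then (1:ℂ) else 0) - (if occ D (sh 1 k) then (1:ℂ) else 0))) • ket D := by
    rw [e3, Finset.sum_smul]
    refine Finset.sum_congr rfl fun k hk => ?_
    rw [Finset.sum_ite_eq']
    by_cases hk1 : sh 1 k ∈ box R
    · rw [if_pos hk1, nk, nk, ← sub_smul, smul_smul]
    · rw [if_neg hk1]
      rw [mem_box_aux_qS_comm_one] at hk hk1
      have hk2 : k.2 = R := by
        simp only [sh] at hk1
        omega
      have ha : ¬ occ D k := by
        unfold occ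
        have : ¬ (k.2 < 0) := by omega
        rw [if_neg this]
        intro hD
        have := mem_bd_aux_qS_comm_one D k hD
        omega
      have hb : ¬ occ D (sh 1 k) := by
        unfold occ
        have : ¬ ((sh 1 k).2 < 0) := by simp only [sh]; omega
        rw [if_neg this]
        intro hD
        have := mem_bd_aux_qS_comm_one D _ hD
        simp only [sh] at this
        omega
      rw [if_neg ha, if_neg hb]; simp
  have e5 : (∑ k ∈ box R, (g (sh 1 k) * g' k) *
        ((if occ D k then (1:ℂ) else 0) - (if occ D (sh 1 k) then (1:ℂ) else 0))) =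
      (∑ i ∈ D, (if i.2 < 0 then - (g (sh 1 i) * g' i - g i * g' (sh (-1) i))
        else (g (sh 1 i) * g' i - g i * g' (sh (-1) i)))) + ∑ r : Fin 3, g (r, 0) * g' (r, -1) := by
    have hD : D ⊆ box R := by
      intro i hi
      have := mem_bd_aux_qS_comm_one D i hi
      rw [mem_box_aux_qS_comm_one]; omega
    have hD' : ∀ i ∈ D, sh (-1) i ∈ box R := by
      intro i hi
      have := mem_bd_aux_qS_comm_one D i hi
      rw [mem_box_aux_qS_comm_one]; simp only [sh]; omega
    have p1 : ∑ k ∈ box R, (g (sh 1 k) * g' k) *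
        ((if k.2 < 0 then (1:ℂ) else 0) - (if (sh 1 k).2 < 0 then (1:ℂ) else 0)) =
        ∑ r : Fin 3, g (r, 0) * g' (r, -1) := by
      have : ∑ r : Fin 3, g (r, 0) * g' (r, -1) =
          ∑ k ∈ (Finset.univ.image (fun r : Fin 3 => ((r, -1) : Site))), g (sh 1 k) * g' k := by
        rw [Finset.sum_image]
        · refine Finset.sum_congr rfl fun r _ => ?_
          simp [sh]
        · intro a _ b _ h
          simpa using h
      rw [this]
      symm
      have hsub : (Finset.univ.image (fun r : Fin 3 => ((r, -1) : Site))) ⊆ box R := by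
        intro k hk
        simp only [Finset.mem_image, Finset.mem_univ, true_and] at hk
        obtain ⟨r, rfl⟩ := hk
        rw [mem_box_aux_qS_comm_one]; simp; omega
      rw [← Finset.sum_subset hsub]
      · refine Finset.sum_congr rfl fun k hk => ?_
        simp only [Finset.mem_image, Finset.mem_univ, true_and] at hk
        obtain ⟨r, rfl⟩ := hk
        simp [sh]
      · intro k _ hk
        have hk2 : k.2 ≠ -1 := by
          intro h
          apply hk
          simp only [Finset.mem_image, Finset.mem_univ, true_and]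
          exact ⟨k.1, by ext <;> simp [h]⟩
        have : (if k.2 < 0 then (1:ℂ) else 0) = (if (sh 1 k).2 < 0 then (1:ℂ) else 0) := by
          simp only [sh]
          by_cases h : k.2 < 0
          · rw [if_pos h, if_pos (by omega)]
          · rw [if_neg h, if_neg (by omega)]
        rw [this, sub_self, mul_zero]
    have p2 : ∑ k ∈ box R, (g (sh 1 k) * g' k) *
        ((if k.2 < 0 then (-1:ℂ) else 1) * (if k ∈ D then 1 else 0)) =
        ∑ i ∈ D, (g (sh 1 i) * g' i) * (if i.2 < 0 then (-1:ℂ) else 1) := by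
      rw [← Finset.sum_subset hD]
      · refine Finset.sum_congr rfl fun k hk => ?_
        rw [if_pos hk, mul_one]
      · intro k _ hk
        rw [if_neg hk]; simp
    have p3 : ∑ k ∈ box R, (g (sh 1 k) * g' k) *
        ((if (sh 1 k).2 < 0 then (-1:ℂ) else 1) * (if (sh 1 k) ∈ D then 1 else 0)) =
        ∑ i ∈ D, (g i * g' (sh (-1) i)) * (if i.2 < 0 then (-1:ℂ) else 1) := by
      have hinj : Set.InjOn (sh (-1)) (D : Set Site) := by
        intro a _ b _ h
        have := congrArg (sh 1) h
        rwa [sh_pos_aux_qS_comm_one, sh_pos_aux_qS_comm_one] at this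
      have : ∑ i ∈ D, (g i * g' (sh (-1) i)) * (if i.2 < 0 then (-1:ℂ) else 1) =
          ∑ k ∈ D.image (sh (-1)), (g (sh 1 k) * g' k) * (if (sh 1 k).2 < 0 then (-1:ℂ) else 1) := by
        rw [Finset.sum_image (fun a ha b hb h => hinj ha hb h)]
        refine Finset.sum_congr rfl fun i _ => ?_
        rw [sh_pos_aux_qS_comm_one]
      rw [this]
      have hsub : D.image (sh (-1)) ⊆ box R := by
        intro k hk
        rw [Finset.mem_image] at hk
        obtain ⟨i, hi, rfl⟩ := hk
        exact hD' i hi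
      rw [← Finset.sum_subset hsub]
      · refine Finset.sum_congr rfl fun k hk => ?_
        rw [Finset.mem_image] at hk
        obtain ⟨i, hi, rfl⟩ := hk
        rw [sh_pos_aux_qS_comm_one, if_pos hi, mul_one]
      · intro k _ hk
        have : sh 1 k ∉ D := by
          intro h
          apply hk
          rw [Finset.mem_image]
          exact ⟨sh 1 k, h, sh_neg_aux_qS_comm_one k⟩
        rw [if_neg this]; simp
    have split : ∑ k ∈ box R, (g (sh 1 k) * g' k) *
        ((if occ D k then (1:ℂ) else 0) - (if occ D (sh 1 k) then (1:ℂ) else 0)) =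
        (∑ k ∈ box R, (g (sh 1 k) * g' k) *
        ((if k.2 < 0 then (1:ℂ) else 0) - (if (sh 1 k).2 < 0 then (1:ℂ) else 0))) +
        (∑ k ∈ box R, (g (sh 1 k) * g' k) *
        ((if k.2 < 0 then (-1:ℂ) else 1) * (if k ∈ D then 1 else 0))) -
        (∑ k ∈ box R, (g (sh 1 k) * g' k) *
        ((if (sh 1 k).2 < 0 then (-1:ℂ) else 1) * (if (sh 1 k) ∈ D then 1 else 0))) := by
      rw [← Finset.sum_add_distrib, ← Finset.sum_sub_distrib]
      refine Finset.sum_congr rfl fun k _ => ?_
      rw [occ_aux_qS_comm_one, occ_aux_qS_comm_one]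
      ring
    rw [split, p1, p2, p3]
    have : ∑ i ∈ D, (if i.2 < 0 then - (g (sh 1 i) * g' i - g i * g' (sh (-1) i))
        else (g (sh 1 i) * g' i - g i * g' (sh (-1) i))) =
        ∑ i ∈ D, (g (sh 1 i) * g' i) * (if i.2 < 0 then (-1:ℂ) else 1) -
        ∑ i ∈ D, (g i * g' (sh (-1) i)) * (if i.2 < 0 then (-1:ℂ) else 1) := by
      rw [← Finset.sum_sub_distrib]
      refine Finset.sum_congr rfl fun i _ => ?_
      split_ifs <;> ring
    rw [this]
    ring
  calc (S (-1) g * S 1 g' - S 1 g' * S (-1) g) (ket D)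
      = S (-1) g (S 1 g' (ket D)) - S 1 g' (S (-1) g (ket D)) := rfl
    _ = _ := by
      rw [e4, e5, LinearMap.add_apply, dg_aux_qS_comm_one, add_smul]
      rfl

end Pool.Agent.Helper840.AE
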