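import Pool.Agent.Helper840.AE.FockDefs
import Pool.Agent.Helper840.AE.FockDefs2
import Pool.Agent.Helper840.AE.P_S_comm_one
import Pool.Agent.Helper840.AE.P_S_comm_zero

set_option autoImplicit false

namespace Pool.Agent.Helper840.AE

theorem podd_zero_aux_qope_opf (d : ℤ) (hd : d % 2 = 1) (i : Site) : podd (sh d i) * podd i = 0 := by
  unfold podd sh
  dsimp only
  by_cases h1 : i.2 % 2 = 1
  · rw [if_neg (by omega), zero_mul]
  · rw [if_neg h1, mul_zero]

theorem pev_zero_aux_qope_opf (d : ℤ) (hd : d % 2 = 1) (i : Site) : pev (sh d i) * pev i = 0 := by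
  unfold pev sh
  dsimp only
  by_cases h1 : i.2 % 2 = 0
  · rw [if_neg (by omega), zero_mul]
  · rw [if_neg h1, mul_zero]

theorem coef_zero_aux_qope_opf (i : Site) :
    podd (sh 1 i) * pev i - podd i * pev (sh (-1) i) = - chi i := by
  unfold podd pev chi sh
  dsimp only
  by_cases h1 : i.2 % 2 = 1
  · rw [if_neg (show ¬ (i.2 + 1) % 2 = 1 by omega), if_pos h1,
      if_pos (show (i.2 + -1) % 2 = 0 by omega), if_pos h1]
    simp
  · rw [if_pos (show (i.2 + 1) % 2 = 1 by omega), if_neg h1, if_pos (show i.2 % 2 = 0 by omega),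
      if_neg h1]
    simp

theorem coef_one_aux_qope_opf (i : Site) :
    pev (sh 1 i) * podd i - pev i * podd (sh (-1) i) = chi i := by
  unfold podd pev chi sh
  dsimp only
  by_cases h1 : i.2 % 2 = 1
  · rw [if_pos h1, if_pos (show (i.2 + 1) % 2 = 0 by omega), if_pos h1,
      if_neg (show ¬ i.2 % 2 = 0 by omega)]
    simp
  · rw [if_neg h1, if_neg h1, if_pos (show i.2 % 2 = 0 by omega),
      if_pos (show (i.2 + -1) % 2 = 1 by omega)]
    simp

theorem ope_opf (i j : Fin 2) :
    opE i * opF j - opF j * opE i = if i = j then opH i else 0 := by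
  have h00 : opE 0 * opF 0 - opF 0 * opE 0 = opH 0 := by
    unfold opE opF opH
    rw [if_pos rfl, if_pos rfl, if_pos rfl, S_comm_one]
    have e1 : (fun i => podd (sh 1 i) * pev i - podd i * pev (sh (-1) i)) = fun j => - chi j :=
      funext coef_zero_aux_qope_opf
    have e2 : (∑ r : Fin 3, podd (r, 0) * pev (r, -1)) = 0 := by
      simp [podd]
    rw [e1, e2, zero_smul, add_zero]
  have h11 : opE 1 * opF 1 - opF 1 * opE 1 = opH 1 := by
    unfold opE opF opH
    rw [if_neg (by decide), if_neg (by decide), if_neg (by decide), S_comm_one]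
    have e1 : (fun i => pev (sh 1 i) * podd i - pev i * podd (sh (-1) i)) = chi :=
      funext coef_one_aux_qope_opf
    have e2 : (∑ r : Fin 3, pev (r, 0) * podd (r, -1)) = 3 := by
      simp [podd, pev]
    rw [e1, e2]
  have h01 : opE 0 * opF 1 - opF 1 * opE 0 = 0 := by
    unfold opE opF
    rw [if_pos rfl, if_neg (by decide)]
    have h := S_comm_zero (-1) 1 (by norm_num) (by norm_num) podd podd
      (podd_zero_aux_qope_opf 1 (by norm_num)) (podd_zero_aux_qope_opf (-1) (by norm_num))
    rw [h]
    refine LinearMap.ext fun x => ?_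
    rw [LinearMap.sub_apply]
    exact sub_self _
  have h10 : opE 1 * opF 0 - opF 0 * opE 1 = 0 := by
    unfold opE opF
    rw [if_neg (by decide), if_pos rfl]
    have h := S_comm_zero (-1) 1 (by norm_num) (by norm_num) pev pev
      (pev_zero_aux_qope_opf 1 (by norm_num)) (pev_zero_aux_qope_opf (-1) (by norm_num))
    rw [h]
    refine LinearMap.ext fun x => ?_
    rw [LinearMap.sub_apply]
    exact sub_self _
  fin_cases i <;> fin_cases j
  · exact h00
  · exact h01
  · exact h10
  · exact h11

end Pool.Agent.Helper840.AE
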