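import Pool.Agent.Helper840.AE.FockDefs
import Pool.Agent.Helper840.AE.FockDefs2
import Pool.Agent.Helper840.AE.P_Dg_S
import Pool.Agent.Helper840.AE.P_S_smul

set_option autoImplicit false

namespace Pool.Agent.Helper840.AE

theorem oph_ope_odd_qoph_ope (c : ℂ) :
    Dg (fun j => c * chi j) * S (-1) podd - S (-1) podd * Dg (fun j => c * chi j) =
      (-2 * c) • S (-1) podd := by
  rw [Dg_S (-1) (by norm_num), S_smul]
  congr 1
  funext i
  unfold podd chi sh
  by_cases h : i.2 % 2 = 1
  · have h2 : ¬ (i.2 + -1) % 2 = 1 := by omega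
    simp only [h, h2, if_true, if_false]
    ring
  · simp only [h, if_false]
    ring

theorem oph_ope_ev_qoph_ope (c : ℂ) :
    Dg (fun j => c * chi j) * S (-1) pev - S (-1) pev * Dg (fun j => c * chi j) =
      (2 * c) • S (-1) pev := by
  rw [Dg_S (-1) (by norm_num), S_smul]
  congr 1
  funext i
  unfold pev chi sh
  by_cases h : i.2 % 2 = 0
  · have h2 : (i.2 + -1) % 2 = 1 := by omega
    have h3 : ¬ i.2 % 2 = 1 := by omega
    simp only [h, h2, h3, if_true, if_false]
    norm_num
    ring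
  · simp only [h, if_false]
    ring

theorem oph_ope (i j : Fin 2) :
    opH i * opE j - opE j * opH i = (if i = j then (2 : ℂ) else -2) • opE j := by
  have e0 : (fun j => - chi j) = fun j => (-1 : ℂ) * chi j := by
    funext j
    ring
  have e1 : Dg chi = Dg (fun j => (1 : ℂ) * chi j) := by
    congr 1
    funext j
    ring
  have hs : ∀ A : Module.End ℂ Fk, (Dg chi + (3 : ℂ) • 1) * A - A * (Dg chi + (3 : ℂ) • 1) =
      Dg chi * A - A * Dg chi := by
    intro A
    rw [add_mul, mul_add, smul_mul_assoc, mul_smul_comm, one_mul, mul_one]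
    abel
  fin_cases i <;> fin_cases j
  · show Dg (fun j => - chi j) * S (-1) podd - S (-1) podd * Dg (fun j => - chi j) =
      (2 : ℂ) • S (-1) podd
    rw [e0, oph_ope_odd_qoph_ope]
    norm_num
  · show Dg (fun j => - chi j) * S (-1) pev - S (-1) pev * Dg (fun j => - chi j) =
      (-2 : ℂ) • S (-1) pev
    rw [e0, oph_ope_ev_qoph_ope]
    norm_num
  · show (Dg chi + (3 : ℂ) • 1) * S (-1) podd - S (-1) podd * (Dg chi + (3 : ℂ) • 1) =
      (-2 : ℂ) • S (-1) podd
    rw [hs, e1, oph_ope_odd_qoph_ope]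
    norm_num
  · show (Dg chi + (3 : ℂ) • 1) * S (-1) pev - S (-1) pev * (Dg chi + (3 : ℂ) • 1) =
      (2 : ℂ) • S (-1) pev
    rw [hs, e1, oph_ope_ev_qoph_ope]
    norm_num

end Pool.Agent.Helper840.AE
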