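import Pool.Agent.Helper840.AE.FockDefs
import Pool.Agent.Helper840.AE.FockDefs2
import Pool.Agent.Helper840.AE.P_Dg_S
import Pool.Agent.Helper840.AE.P_S_smul

set_option autoImplicit false

namespace Pool.Agent.Helper840.AE

theorem oph_opf_key_qoph_opf (w g : Site → ℂ) (c : ℂ)
    (h : ∀ i, (w (sh 1 i) - w i) * g i = c * g i) :
    Dg w * S 1 g - S 1 g * Dg w = c • S 1 g := by
  rw [Dg_S 1 one_ne_zero, S_smul]
  congr 1
  funext i
  exact h i

theorem oph_opf_shift_qoph_opf (x y : Module.End ℂ Fk) :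
    (x + (3 : ℂ) • 1) * y - y * (x + (3 : ℂ) • 1) = x * y - y * x := by
  rw [add_mul, mul_add, smul_mul_assoc, mul_smul_comm, one_mul, mul_one]
  abel

theorem oph_opf_chi_odd_qoph_opf (k : Site) (h : k.2 % 2 = 1) : chi (sh 1 k) = -1 ∧ chi k = 1 := by
  unfold chi sh
  constructor
  · rw [if_neg]
    show ¬ (k.2 + 1) % 2 = 1
    omega
  · rw [if_pos h]

theorem oph_opf_chi_even_qoph_opf (k : Site) (h : k.2 % 2 = 0) : chi (sh 1 k) = 1 ∧ chi k = -1 := by
  unfold chi sh
  constructor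
  · rw [if_pos]
    show (k.2 + 1) % 2 = 1
    omega
  · rw [if_neg]
    omega

theorem oph_opf (i j : Fin 2) :
    opH i * opF j - opF j * opH i = (if i = j then (-2 : ℂ) else 2) • opF j := by
  fin_cases i <;> fin_cases j
  · show opH 0 * opF 0 - opF 0 * opH 0 = (if (0 : Fin 2) = 0 then (-2 : ℂ) else 2) • opF 0
    rw [if_pos rfl]
    unfold opH opF
    rw [if_pos rfl, if_pos rfl]
    refine oph_opf_key_qoph_opf _ _ _ fun k => ?_
    unfold pev
    split_ifs with h
    · obtain ⟨h1, h2⟩ := oph_opf_chi_even_qoph_opf k h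
      rw [h1, h2]; norm_num
    · simp
  · show opH 0 * opF 1 - opF 1 * opH 0 = (if (0 : Fin 2) = 1 then (-2 : ℂ) else 2) • opF 1
    rw [if_neg (by decide)]
    unfold opH opF
    rw [if_pos rfl, if_neg (by decide)]
    refine oph_opf_key_qoph_opf _ _ _ fun k => ?_
    unfold podd
    split_ifs with h
    · obtain ⟨h1, h2⟩ := oph_opf_chi_odd_qoph_opf k h
      rw [h1, h2]; norm_num
    · simp
  · show opH 1 * opF 0 - opF 0 * opH 1 = (if (1 : Fin 2) = 0 then (-2 : ℂ) else 2) • opF 0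
    rw [if_neg (by decide)]
    unfold opH opF
    rw [if_neg (by decide), if_pos rfl, oph_opf_shift_qoph_opf]
    refine oph_opf_key_qoph_opf _ _ _ fun k => ?_
    unfold pev
    split_ifs with h
    · obtain ⟨h1, h2⟩ := oph_opf_chi_even_qoph_opf k h
      rw [h1, h2]; norm_num
    · simp
  · show opH 1 * opF 1 - opF 1 * opH 1 = (if (1 : Fin 2) = 1 then (-2 : ℂ) else 2) • opF 1
    rw [if_pos rfl]
    unfold opH opF
    rw [if_neg (by decide), if_neg (by decide), oph_opf_shift_qoph_opf]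
    refine oph_opf_key_qoph_opf _ _ _ fun k => ?_
    unfold podd
    split_ifs with h
    · obtain ⟨h1, h2⟩ := oph_opf_chi_odd_qoph_opf k h
      rw [h1, h2]; norm_num
    · simp

end Pool.Agent.Helper840.AE
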