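import Pool.Agent.Helper840.AE.FockDefs

set_option autoImplicit false

namespace Pool.Agent.Helper840.AE

theorem Dg_Dg (w w' : Site → ℂ) : Dg w * Dg w' = Dg w' * Dg w := by
  apply Finsupp.lhom_ext
  intro D b
  have h : ∀ (v : Site → ℂ) (c : ℂ), Dg v (Finsupp.single D c) =
      (∑ i ∈ D, (if i.2 < 0 then - v i else v i)) • Finsupp.single D c := by
    intro v c
    unfold Dg ket
    rw [Finsupp.linearCombination_single, smul_comm]
    congr 1
    rw [Finsupp.smul_single, smul_eq_mul, mul_one]
  rw [Module.End.mul_apply, Module.End.mul_apply, h, h, map_smul, map_smul, h, h, smul_comm]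

end Pool.Agent.Helper840.AE
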