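import Pool.Agent.Helper840.AE.FockDefs
import Pool.Agent.Helper840.AE.FockDefs2
import Pool.Agent.Helper840.AE.P_Dg_Dg

set_option autoImplicit false

namespace Pool.Agent.Helper840.AE

theorem oph_oph_form_qoph_oph (i : Fin 2) : ∃ (w : Site → ℂ) (s : ℂ), opH i = Dg w + s • 1 := by
  unfold opH
  split_ifs
  · exact ⟨_, 0, by rw [zero_smul, add_zero]⟩
  · exact ⟨_, 3, rfl⟩

theorem oph_oph_comm_qoph_oph (w w' : Site → ℂ) (s t : ℂ) :
    (Dg w + s • (1 : Module.End ℂ Fk)) * (Dg w' + t • 1) =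
      (Dg w' + t • 1) * (Dg w + s • 1) := by
  have h : Commute (Dg w) (Dg w') := Dg_Dg w w'
  have h1 : Commute (Dg w + s • (1 : Module.End ℂ Fk)) (Dg w' + t • 1) := by
    apply Commute.add_left
    · exact h.add_right ((Commute.one_right _).smul_right t)
    · exact (Commute.one_left _).smul_left s
  exact h1

theorem oph_oph (i j : Fin 2) (c : ℂ) :
    opH i * opH j = opH j * opH i ∧ opH i * opD c = opD c * opH i := by
  obtain ⟨w, s, h1⟩ := oph_oph_form_qoph_oph i
  obtain ⟨w', t, h2⟩ := oph_oph_form_qoph_oph j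
  refine ⟨?_, ?_⟩
  · rw [h1, h2]
    exact oph_oph_comm_qoph_oph w w' s t
  · rw [h1]
    exact oph_oph_comm_qoph_oph w wd s c

end Pool.Agent.Helper840.AE
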