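import Pool.Agent.Helper840.AE.FockDefs
import Pool.Agent.Helper840.AE.FockDefs2
import Pool.Agent.Helper840.AE.P_S_comm
import Pool.Agent.Helper840.AE.P_S_smul

set_option autoImplicit false

namespace Pool.Agent.Helper840.AE

theorem so_S_zero_qserre_ope (d : ℤ) (g : Site → ℂ) (hg : ∀ i, g i = 0) : S d g = 0 := by
  have h := S_smul d 0 g
  rw [zero_smul] at h
  have h2 : (fun i => 0 * g i) = g := by
    funext i; rw [hg i, mul_zero]
  rw [h2] at h
  exact h.symm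

theorem so_gen_qserre_ope (p q : Site → ℂ)
    (h : ∀ i, p (sh (-3) i) * (p (sh (-2) i) * (p (sh (-1) i) * q i - q (sh (-1) i) * p i) -
        (p (sh (-1) (sh (-1) i)) * q (sh (-1) i) - q (sh (-1) (sh (-1) i)) * p (sh (-1) i)) * p i) -
      (p (sh (-2) (sh (-1) i)) * (p (sh (-1) (sh (-1) i)) * q (sh (-1) i) -
          q (sh (-1) (sh (-1) i)) * p (sh (-1) i)) -
        (p (sh (-1) (sh (-1) (sh (-1) i))) * q (sh (-1) (sh (-1) i)) -
          q (sh (-1) (sh (-1) (sh (-1) i))) * p (sh (-1) (sh (-1) i))) * p (sh (-1) i)) * p i = 0)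
    (c1 c2 : Module.End ℂ Fk)
    (h1 : c1 = S (-1) p * S (-1) q - S (-1) q * S (-1) p)
    (h2 : c2 = S (-1) p * c1 - c1 * S (-1) p) :
    S (-1) p * c2 - c2 * S (-1) p = 0 := by
  have e1 := S_comm (-1) (-1) (by norm_num) (by norm_num) (by norm_num) p q
  rw [← h1] at e1
  norm_num only at e1
  have e2 := S_comm (-1) (-2) (by norm_num) (by norm_num) (by norm_num) p
    (fun i => p (sh (-1) i) * q i - q (sh (-1) i) * p i)
  rw [← e1, ← h2] at e2
  norm_num only at e2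
  have e3 := S_comm (-1) (-3) (by norm_num) (by norm_num) (by norm_num) p
    (fun i => p (sh (-2) i) * (p (sh (-1) i) * q i - q (sh (-1) i) * p i) -
        (p (sh (-1) (sh (-1) i)) * q (sh (-1) i) - q (sh (-1) (sh (-1) i)) * p (sh (-1) i)) * p i)
  rw [← e2] at e3
  rw [e3]
  exact so_S_zero_qserre_ope _ _ h

theorem so_podd1_qserre_ope {i : Site} (h : i.2 % 2 = 1) : podd i = 1 := if_pos h

theorem so_podd0_qserre_ope {i : Site} (h : i.2 % 2 = 0) : podd i = 0 := if_neg (by omega)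

theorem so_pev1_qserre_ope {i : Site} (h : i.2 % 2 = 1) : pev i = 0 := if_neg (by omega)

theorem so_pev0_qserre_ope {i : Site} (h : i.2 % 2 = 0) : pev i = 1 := if_pos h

theorem so_sites_qserre_ope (i : Site) :
    (i.2 % 2 = 0 ∧ (sh (-1) i).2 % 2 = 1 ∧ (sh (-2) i).2 % 2 = 0 ∧ (sh (-3) i).2 % 2 = 1 ∧
      (sh (-1) (sh (-1) i)).2 % 2 = 0 ∧ (sh (-2) (sh (-1) i)).2 % 2 = 1 ∧
      (sh (-1) (sh (-1) (sh (-1) i))).2 % 2 = 1) ∨
    (i.2 % 2 = 1 ∧ (sh (-1) i).2 % 2 = 0 ∧ (sh (-2) i).2 % 2 = 1 ∧ (sh (-3) i).2 % 2 = 0 ∧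
      (sh (-1) (sh (-1) i)).2 % 2 = 1 ∧ (sh (-2) (sh (-1) i)).2 % 2 = 0 ∧
      (sh (-1) (sh (-1) (sh (-1) i))).2 % 2 = 0) := by
  simp only [sh]
  omega

theorem serre_ope (i j : Fin 2) (hij : i ≠ j) (c1 c2 : Module.End ℂ Fk)
    (h1 : c1 = opE i * opE j - opE j * opE i) (h2 : c2 = opE i * c1 - c1 * opE i) :
    opE i * c2 - c2 * opE i = 0 := by
  have hcases : (i = 0 ∧ j = 1) ∨ (i = 1 ∧ j = 0) := by omega
  have ho0 : opE 0 = S (-1) podd := rfl
  have ho1 : opE 1 = S (-1) pev := rfl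
  rcases hcases with ⟨rfl, rfl⟩ | ⟨rfl, rfl⟩
  · rw [ho0, ho1] at h1
    rw [ho0] at h2 ⊢
    refine so_gen_qserre_ope podd pev ?_ c1 c2 h1 h2
    intro i
    rcases so_sites_qserre_ope i with ⟨b0, b1, b2, b3, b4, b5, b6⟩ | ⟨b0, b1, b2, b3, b4, b5, b6⟩
    · rw [so_podd0_qserre_ope b0, so_podd1_qserre_ope b1, so_podd0_qserre_ope b2, so_podd1_qserre_ope b3, so_podd0_qserre_ope b4, so_podd1_qserre_ope b5,
        so_podd1_qserre_ope b6, so_pev0_qserre_ope b0, so_pev1_qserre_ope b1, so_pev0_qserre_ope b4, so_pev1_qserre_ope b6]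
      norm_num
    · rw [so_podd1_qserre_ope b0, so_podd0_qserre_ope b1, so_podd1_qserre_ope b2, so_podd0_qserre_ope b3, so_podd1_qserre_ope b4, so_podd0_qserre_ope b5,
        so_podd0_qserre_ope b6, so_pev1_qserre_ope b0, so_pev0_qserre_ope b1, so_pev1_qserre_ope b4, so_pev0_qserre_ope b6]
      norm_num
  · rw [ho0, ho1] at h1
    rw [ho1] at h2 ⊢
    refine so_gen_qserre_ope pev podd ?_ c1 c2 h1 h2
    intro i
    rcases so_sites_qserre_ope i with ⟨b0, b1, b2, b3, b4, b5, b6⟩ | ⟨b0, b1, b2, b3, b4, b5, b6⟩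
    · rw [so_podd0_qserre_ope b0, so_podd1_qserre_ope b1, so_podd0_qserre_ope b4, so_podd1_qserre_ope b6,
        so_pev0_qserre_ope b0, so_pev1_qserre_ope b1, so_pev0_qserre_ope b2, so_pev1_qserre_ope b3, so_pev0_qserre_ope b4, so_pev1_qserre_ope b5, so_pev1_qserre_ope b6]
      norm_num
    · rw [so_podd1_qserre_ope b0, so_podd0_qserre_ope b1, so_podd1_qserre_ope b4, so_podd0_qserre_ope b6,
        so_pev1_qserre_ope b0, so_pev0_qserre_ope b1, so_pev1_qserre_ope b2, so_pev0_qserre_ope b3, so_pev1_qserre_ope b4, so_pev0_qserre_ope b5, so_pev0_qserre_ope b6]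
      norm_num

end Pool.Agent.Helper840.AE
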