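import Pool.Agent.Helper840.AE.FockDefs
import Pool.Agent.Helper840.AE.FockDefs2
import Pool.Agent.Helper840.AE.P_S_comm
import Pool.Agent.Helper840.AE.P_S_smul

set_option autoImplicit false

namespace Pool.Agent.Helper840.AE

theorem serre_opf_gen_qserre_opf (g g' : Site → ℂ)
    (h : ∀ k : Site, g (sh (1 + (1 + 1)) k) * (g (sh (1 + 1) k) * (g (sh 1 k) * g' k - g' (sh 1 k) * g k) -
      (g (sh 1 (sh 1 k)) * g' (sh 1 k) - g' (sh 1 (sh 1 k)) * g (sh 1 k)) * g k) -
      (g (sh (1 + 1) (sh 1 k)) * (g (sh 1 (sh 1 k)) * g' (sh 1 k) - g' (sh 1 (sh 1 k)) * g (sh 1 k)) -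
      (g (sh 1 (sh 1 (sh 1 k))) * g' (sh 1 (sh 1 k)) - g' (sh 1 (sh 1 (sh 1 k))) * g (sh 1 (sh 1 k))) *
        g (sh 1 k)) * g k = 0)
    (c1 c2 : Module.End ℂ Fk)
    (h1 : c1 = S 1 g * S 1 g' - S 1 g' * S 1 g) (h2 : c2 = S 1 g * c1 - c1 * S 1 g) :
    S 1 g * c2 - c2 * S 1 g = 0 := by
  rw [S_comm 1 1 (by norm_num) (by norm_num) (by norm_num)] at h1
  rw [h1, S_comm 1 (1 + 1) (by norm_num) (by norm_num) (by norm_num)] at h2
  rw [h2, S_comm 1 (1 + (1 + 1)) (by norm_num) (by norm_num) (by norm_num)]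
  have e : S (1 + (1 + (1 + 1))) (fun k : Site => (0 : ℂ) * g k) = 0 := by
    rw [← S_smul, zero_smul]
  rw [← e]
  congr 1
  funext k
  rw [zero_mul]
  exact h k

theorem serre_opf (i j : Fin 2) (hij : i ≠ j) (c1 c2 : Module.End ℂ Fk)
    (h1 : c1 = opF i * opF j - opF j * opF i) (h2 : c2 = opF i * c1 - c1 * opF i) :
    opF i * c2 - c2 * opF i = 0 := by
  have hpar : ∀ k : Site, k.2 % 2 = 0 ∨ k.2 % 2 = 1 := fun k => Int.emod_two_eq_zero_or_one k.2
  fin_cases i <;> fin_cases j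
  · exact absurd rfl hij
  · have e0 : opF 0 = S 1 pev := by simp [opF]
    have e1 : opF 1 = S 1 podd := by simp [opF]
    refine serre_opf_gen_qserre_opf pev podd ?_ c1 c2 h1 h2
    intro k
    rcases hpar k with hk | hk
    · have k1 : (k.2 + 1) % 2 = 1 := by omega
      have k2 : (k.2 + 1 + 1) % 2 = 0 := by omega
      have k2' : (k.2 + (1 + 1)) % 2 = 0 := by omega
      have k3 : (k.2 + (1 + (1 + 1))) % 2 = 1 := by omega
      have k3' : (k.2 + 1 + (1 + 1)) % 2 = 1 := by omega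
      have k3'' : (k.2 + 1 + 1 + 1) % 2 = 1 := by omega
      simp only [pev, podd, sh, hk, k1, k2, k2', k3, k3', k3'']
      norm_num
    · have k1 : (k.2 + 1) % 2 = 0 := by omega
      have k2 : (k.2 + 1 + 1) % 2 = 1 := by omega
      have k2' : (k.2 + (1 + 1)) % 2 = 1 := by omega
      have k3 : (k.2 + (1 + (1 + 1))) % 2 = 0 := by omega
      have k3' : (k.2 + 1 + (1 + 1)) % 2 = 0 := by omega
      have k3'' : (k.2 + 1 + 1 + 1) % 2 = 0 := by omega
      simp only [pev, podd, sh, hk, k1, k2, k2', k3, k3', k3'']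
      norm_num
  · refine serre_opf_gen_qserre_opf podd pev ?_ c1 c2 h1 h2
    intro k
    rcases hpar k with hk | hk
    · have k1 : (k.2 + 1) % 2 = 1 := by omega
      have k2 : (k.2 + 1 + 1) % 2 = 0 := by omega
      have k2' : (k.2 + (1 + 1)) % 2 = 0 := by omega
      have k3 : (k.2 + (1 + (1 + 1))) % 2 = 1 := by omega
      have k3' : (k.2 + 1 + (1 + 1)) % 2 = 1 := by omega
      have k3'' : (k.2 + 1 + 1 + 1) % 2 = 1 := by omega
      simp only [pev, podd, sh, hk, k1, k2, k2', k3, k3', k3'']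
      norm_num
    · have k1 : (k.2 + 1) % 2 = 0 := by omega
      have k2 : (k.2 + 1 + 1) % 2 = 1 := by omega
      have k2' : (k.2 + (1 + 1)) % 2 = 1 := by omega
      have k3 : (k.2 + (1 + (1 + 1))) % 2 = 0 := by omega
      have k3' : (k.2 + 1 + (1 + 1)) % 2 = 0 := by omega
      have k3'' : (k.2 + 1 + 1 + 1) % 2 = 0 := by omega
      simp only [pev, podd, sh, hk, k1, k2, k2', k3, k3', k3'']
      norm_num
  · exact absurd rfl hij

end Pool.Agent.Helper840.AE
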