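import Pool.Agent.Helper840.AE.Form
import Pool.Agent.Helper840.AE.CertDefs
import Pool.Agent.Helper840.AE.P_ope_opf
import Pool.Agent.Helper840.AE.P_oph_ope
import Pool.Agent.Helper840.AE.P_oph_opf
import Pool.Agent.Helper840.AE.P_oph_oph
import Pool.Agent.Helper840.AE.P_opd_op
import Pool.Agent.Helper840.AE.P_serre_ope
import Pool.Agent.Helper840.AE.P_serre_opf
import Pool.Agent.Helper840.AE.P_Bf_op
import Pool.Agent.Helper840.AE.P_Bf_pos
import Pool.Agent.Helper840.AE.P_IntV_op
import Pool.Agent.Helper840.AE.P_nilp_op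

/-!
The action of the affine algebra on the Fock space and the comparison with the irreducible
highest weight modules.
-/

set_option autoImplicit false

namespace Pool.Agent.Helper840.AE

lemma zs_two (A : Module.End ℂ Fk) : (2 : ℤ) • A = (2 : ℂ) • A := by
  rw [two_smul ℂ A, two_zsmul]

lemma zs_neg_two (A : Module.End ℂ Fk) : (-2 : ℤ) • A = (-2 : ℂ) • A := by
  refine LinearMap.ext fun x => ?_
  simp only [LinearMap.smul_apply]
  module

/-- The operators of the generators. -/
noncomputable def opG (c : ℂ) : Gen → Module.End ℂ Fk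
  | .e i => opE i
  | .f i => opF i
  | .h i => opH i
  | .d => opD c

/-- The action of the free algebra. -/
noncomputable def rF0 (c : ℂ) : FreeAlgebra ℂ Gen →ₐ[ℂ] Module.End ℂ Fk :=
  FreeAlgebra.lift ℂ (opG c)

lemma rF0_gn (c : ℂ) (x : Gen) : rF0 c (gn x) = opG c x := by
  rw [rF0, gn, FreeAlgebra.lift_ι_apply]

lemma rF0_cm (c : ℂ) (a b : FreeAlgebra ℂ Gen) : rF0 c (cm a b) = cm (rF0 c a) (rF0 c b) := by
  simp only [cm, map_sub, map_mul]

lemma rF0_rel (c : ℂ) {a b : FreeAlgebra ℂ Gen} (H : Rel a b) : rF0 c a = rF0 c b := by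
  cases H with
  | hh i j =>
    rw [rF0_cm, rF0_gn, rF0_gn, map_zero]
    exact sub_eq_zero.mpr (oph_oph i j c).1
  | hd i =>
    rw [rF0_cm, rF0_gn, rF0_gn, map_zero]
    exact sub_eq_zero.mpr (oph_oph i 0 c).2
  | ef i j =>
    rw [rF0_cm, rF0_gn, rF0_gn]
    have h1 := ope_opf i j
    split_ifs with hij
    · rw [if_pos hij] at h1
      rw [rF0_gn]; exact h1
    · rw [if_neg hij] at h1
      rw [map_zero]; exact h1
  | he i j =>
    rw [rF0_cm, rF0_gn, rF0_gn, map_zsmul, rF0_gn]
    have h1 := oph_ope i j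
    have h2 : (if i = j then (2 : ℂ) else -2) • opE j = cartan i j • opE j := by
      rw [cartan]
      split_ifs
      · exact (zs_two _).symm
      · exact (zs_neg_two _).symm
    exact h1.trans h2
  | hf i j =>
    rw [rF0_cm, rF0_gn, rF0_gn, map_neg, map_zsmul, rF0_gn]
    have h1 := oph_opf i j
    have h2 : (if i = j then (-2 : ℂ) else 2) • opF j = -(cartan i j • opF j) := by
      rw [cartan]
      split_ifs
      · rw [zs_two]; module
      · rw [zs_neg_two]; module
    exact h1.trans h2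
  | de j =>
    rw [rF0_cm, rF0_gn, rF0_gn]
    have h1 := (opd_op c j).1
    split_ifs with hj
    · rw [if_pos hj] at h1
      rw [rF0_gn]; exact h1
    · rw [if_neg hj] at h1
      rw [map_zero]; exact h1
  | df j =>
    rw [rF0_cm, rF0_gn, rF0_gn, map_neg]
    have h1 := (opd_op c j).2
    split_ifs with hj
    · rw [if_pos hj] at h1
      rw [rF0_gn]; exact h1
    · rw [if_neg hj] at h1
      rw [map_zero]; exact h1
  | serre_e i j hij =>
    rw [rF0_cm, rF0_cm, rF0_cm, rF0_gn, rF0_gn, map_zero]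
    exact serre_ope i j hij _ _ rfl rfl
  | serre_f i j hij =>
    rw [rF0_cm, rF0_cm, rF0_cm, rF0_gn, rF0_gn, map_zero]
    exact serre_opf i j hij _ _ rfl rfl

/-- The action of `U(𝔤)` on the Fock space. -/
noncomputable def rF (c : ℂ) : UA →ₐ[ℂ] Module.End ℂ Fk :=
  show RingQuot Rel →ₐ[ℂ] Module.End ℂ Fk from
    RingQuot.liftAlgHom ℂ ⟨rF0 c, fun _ _ H => rF0_rel c H⟩

lemma rF_toUA (c : ℂ) (x : FreeAlgebra ℂ Gen) : rF c (toUA x) = rF0 c x :=
  RingQuot.liftAlgHom_mkAlgHom_apply ℂ (rF0 c) _ x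

lemma rF_e (c : ℂ) (i : Fin 2) : rF c (e i) = opE i := by rw [e, rF_toUA, rF0_gn]; rfl
lemma rF_f (c : ℂ) (i : Fin 2) : rF c (f i) = opF i := by rw [f, rF_toUA, rF0_gn]; rfl
lemma rF_h (c : ℂ) (i : Fin 2) : rF c (h i) = opH i := by rw [h, rF_toUA, rF0_gn]; rfl
lemma rF_d (c : ℂ) : rF c d = opD c := by rw [d, rF_toUA, rF0_gn]; rfl

lemma rF_dpow_e (c : ℂ) (i : Fin 2) (k : ℕ) :
    rF c (dpow (e i) k) = ((k.factorial : ℂ)⁻¹) • (opE i) ^ k := by
  rw [dpow, map_smul, map_pow, rF_e]

lemma rF_dpow_f (c : ℂ) (i : Fin 2) (k : ℕ) :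
    rF c (dpow (f i) k) = ((k.factorial : ℂ)⁻¹) • (opF i) ^ k := by
  rw [dpow, map_smul, map_pow, rF_f]

lemma rF_binom (c : ℂ) (i : Fin 2) (k : ℕ) :
    rF c (binom (h i) k) = ((k.factorial : ℂ)⁻¹) •
      ((List.range k).map (fun j : ℕ => opH i - (j : ℂ) • 1)).prod := by
  rw [binom, map_smul, map_list_prod, List.map_map]
  congr 3
  funext j
  simp only [Function.comp_apply, map_sub, rF_h]
  rw [AlgHom.commutes, Algebra.algebraMap_eq_smul_one]

/-- Elements of `U_ℤ` act independently of `c`. -/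
lemma rF_indep (c : ℂ) {u : UA} (hu : u ∈ UZ) : rF c u = rF 0 u := by
  induction hu using Subring.closure_induction with
  | mem x hx =>
    obtain ⟨i, k, rfl | rfl | rfl⟩ := hx
    · rw [rF_dpow_e, rF_dpow_e]
    · rw [rF_dpow_f, rF_dpow_f]
    · rw [rF_binom, rF_binom]
  | zero => rw [map_zero, map_zero]
  | one => rw [map_one, map_one]
  | add x y _ _ hx hy => rw [map_add, map_add, hx, hy]
  | neg x _ hx => rw [map_neg, map_neg, hx]
  | mul x y _ _ hx hy => rw [map_mul, map_mul, hx, hy]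

lemma IntV.add {x y : Fk} (hx : IntV x) (hy : IntV y) : IntV (x + y) := by
  intro D
  obtain ⟨a, ha⟩ := hx D
  obtain ⟨b, hb⟩ := hy D
  exact ⟨a + b, by rw [Finsupp.add_apply, ha, hb]; push_cast; rfl⟩

lemma IntV.neg {x : Fk} (hx : IntV x) : IntV (-x) := by
  intro D
  obtain ⟨a, ha⟩ := hx D
  exact ⟨-a, by rw [Finsupp.neg_apply, ha]; push_cast; rfl⟩

lemma IntV.zero : IntV 0 := fun D => ⟨0, by simp⟩

/-- `U_ℤ` preserves integrality. -/
lemma IntV_rF (c : ℂ) {u : UA} (hu : u ∈ UZ) : ∀ x : Fk, IntV x → IntV (rF c u x) := by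
  induction hu using Subring.closure_induction with
  | mem x hx =>
    intro y hy
    obtain ⟨i, k, rfl | rfl | rfl⟩ := hx
    · rw [rF_dpow_e]; exact (IntV_op i k y hy).1
    · rw [rF_dpow_f]; exact (IntV_op i k y hy).2.1
    · rw [rF_binom]; exact (IntV_op i k y hy).2.2
  | zero => intro y hy; rw [map_zero]; exact IntV.zero
  | one => intro y hy; rw [map_one]; exact hy
  | add x y _ _ hx hy => intro z hz; rw [map_add]; exact (hx z hz).add (hy z hz)
  | neg x _ hx => intro z hz; rw [map_neg]; exact (hx z hz).neg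
  | mul x y _ _ hx hy => intro z hz; rw [map_mul]; exact hx _ (hy z hz)

/-- The form as a bilinear map. -/
lemma Bf_smul_left (a : ℂ) (x y : Fk) : Bf (a • x) y = a * Bf x y :=
  (Bf_bilin x x y y a).2.2.1

lemma Bf_smul_right (a : ℂ) (x y : Fk) : Bf x (a • y) = a * Bf x y :=
  (Bf_bilin x x y y a).2.2.2.1

lemma Bf_add_left (x x' y : Fk) : Bf (x + x') y = Bf x y + Bf x' y := (Bf_bilin x x' y y 0).1

lemma Bf_add_right (x y y' : Fk) : Bf x (y + y') = Bf x y + Bf x y' := (Bf_bilin x x y y' 0).2.1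

lemma Bf_comm (x y : Fk) : Bf x y = Bf y x := (Bf_bilin x x y y 0).2.2.2.2

lemma Bf_zero_left (y : Fk) : Bf 0 y = 0 := by
  have := Bf_smul_left 0 0 y
  rw [zero_smul, zero_mul] at this
  exact this

lemma Bf_zero_right (y : Fk) : Bf y 0 = 0 := by rw [Bf_comm, Bf_zero_left]

lemma Bf_neg_left (x y : Fk) : Bf (-x) y = - Bf x y := by
  rw [← neg_one_smul ℂ x, Bf_smul_left]; ring

lemma Bf_neg_right (x y : Fk) : Bf x (-y) = - Bf x y := by
  rw [← neg_one_smul ℂ y, Bf_smul_right]; ring

/-- Adjoint pairs of operators. -/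
def Adj (a b : Module.End ℂ Fk) : Prop := ∀ x y, Bf (a x) y = Bf x (b y)

lemma Adj.pow {a b : Module.End ℂ Fk} (H : Adj a b) (k : ℕ) : Adj (a ^ k) (b ^ k) := by
  induction k with
  | zero => intro x y; simp
  | succ k ih =>
    intro x y
    rw [pow_succ, pow_succ', Module.End.mul_apply, Module.End.mul_apply, ih, H]

lemma Adj.smul {a b : Module.End ℂ Fk} (H : Adj a b) (z : ℂ) : Adj (z • a) (z • b) := by
  intro x y
  rw [LinearMap.smul_apply, LinearMap.smul_apply, Bf_smul_left, Bf_smul_right, H]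

lemma Adj.mul {a b a' b' : Module.End ℂ Fk} (H : Adj a b) (H' : Adj a' b') :
    Adj (a * a') (b' * b) := by
  intro x y
  rw [Module.End.mul_apply, Module.End.mul_apply, H, H']

lemma Adj.add {a b a' b' : Module.End ℂ Fk} (H : Adj a b) (H' : Adj a' b') :
    Adj (a + a') (b + b') := by
  intro x y
  rw [LinearMap.add_apply, LinearMap.add_apply, Bf_add_left, Bf_add_right, H, H']

lemma Adj.neg {a b : Module.End ℂ Fk} (H : Adj a b) : Adj (-a) (-b) := by
  intro x y
  rw [LinearMap.neg_apply, LinearMap.neg_apply, Bf_neg_left, Bf_neg_right, H]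

lemma adj_e (i : Fin 2) : Adj (opE i) (opF i) := fun x y => (Bf_op i x y).1
lemma adj_f (i : Fin 2) : Adj (opF i) (opE i) := fun x y => (Bf_op i x y).2.1
lemma adj_h (i : Fin 2) : Adj (opH i) (opH i) := fun x y => (Bf_op i x y).2.2

lemma adj_binom (i : Fin 2) (k : ℕ) :
    Adj ((List.range k).map (fun j : ℕ => opH i - (j : ℂ) • 1)).prod
      ((List.range k).map (fun j : ℕ => opH i - (j : ℂ) • 1)).prod := by
  have hc : ∀ a b : ℕ, (opH i - (a : ℂ) • (1 : Module.End ℂ Fk)) * (opH i - (b : ℂ) • 1) =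
      (opH i - (b : ℂ) • 1) * (opH i - (a : ℂ) • 1) := by
    intro a b
    refine LinearMap.ext fun x => ?_
    simp only [Module.End.mul_apply, LinearMap.sub_apply, LinearMap.smul_apply,
      Module.End.one_apply, map_sub, map_smul, smul_sub]
    rw [smul_comm (a : ℂ) (b : ℂ) x]
    abel
  have hadj : ∀ a : ℕ, Adj (opH i - (a : ℂ) • 1) (opH i - (a : ℂ) • 1) := by
    intro a
    have h1 : Adj (-((a : ℂ) • (1 : Module.End ℂ Fk))) (-((a : ℂ) • 1)) := by
      have h0 : Adj (1 : Module.End ℂ Fk) 1 := fun x y => rfl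
      exact (h0.smul _).neg
    have h2 := (adj_h i).add h1
    have h3 : opH i + -((a : ℂ) • (1 : Module.End ℂ Fk)) = opH i - (a : ℂ) • 1 := by
      abel
    rwa [h3] at h2
  have key : ∀ l : List ℕ, Adj (l.map (fun j : ℕ => opH i - (j : ℂ) • 1)).prod
      (l.map (fun j : ℕ => opH i - (j : ℂ) • 1)).prod ∧
      ∀ a : ℕ, (opH i - (a : ℂ) • 1) * (l.map (fun j : ℕ => opH i - (j : ℂ) • 1)).prod =
        (l.map (fun j : ℕ => opH i - (j : ℂ) • 1)).prod * (opH i - (a : ℂ) • 1) := by
    intro l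
    induction l with
    | nil => exact ⟨by intro x y; simp, by intro a; simp⟩
    | cons b l ih =>
      refine ⟨?_, ?_⟩
      · rw [List.map_cons, List.prod_cons]
        have h1 := (hadj b).mul ih.1
        rw [← ih.2 b] at h1
        exact h1
      · intro a
        rw [List.map_cons, List.prod_cons, ← mul_assoc, hc a b, mul_assoc, ih.2 a, mul_assoc]
  exact (key _).1

/-- Every element of `U_ℤ` has an adjoint in `U_ℤ`. -/
lemma adj_UZ (c : ℂ) {u : UA} (hu : u ∈ UZ) : ∃ u' ∈ UZ, Adj (rF c u) (rF c u') := by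
  induction hu using Subring.closure_induction with
  | mem x hx =>
    obtain ⟨i, k, rfl | rfl | rfl⟩ := hx
    · refine ⟨dpow (f i) k, Subring.subset_closure ⟨i, k, Or.inr (Or.inl rfl)⟩, ?_⟩
      rw [rF_dpow_e, rF_dpow_f]
      exact ((adj_e i).pow k).smul _
    · refine ⟨dpow (e i) k, Subring.subset_closure ⟨i, k, Or.inl rfl⟩, ?_⟩
      rw [rF_dpow_e, rF_dpow_f]
      exact ((adj_f i).pow k).smul _
    · refine ⟨binom (h i) k, Subring.subset_closure ⟨i, k, Or.inr (Or.inr rfl)⟩, ?_⟩
      rw [rF_binom]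
      exact (adj_binom i k).smul _
  | zero => exact ⟨0, UZ.zero_mem, by intro x y; simp [Bf_zero_left, Bf_zero_right]⟩
  | one => exact ⟨1, UZ.one_mem, by intro x y; simp⟩
  | add x y _ _ hx hy =>
    obtain ⟨a, ha, h1⟩ := hx
    obtain ⟨b, hb, h2⟩ := hy
    exact ⟨a + b, UZ.add_mem ha hb, by rw [map_add, map_add]; exact h1.add h2⟩
  | neg x _ hx =>
    obtain ⟨a, ha, h1⟩ := hx
    exact ⟨-a, UZ.neg_mem ha, by rw [map_neg, map_neg]; exact h1.neg⟩
  | mul x y _ _ hx hy =>
    obtain ⟨a, ha, h1⟩ := hx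
    obtain ⟨b, hb, h2⟩ := hy
    exact ⟨b * a, UZ.mul_mem hb ha, by rw [map_mul, map_mul]; exact h1.mul h2⟩

/-! ### The Fock space as a module over `U(𝔤)` -/

/-- The Fock space with the action shifted by `c`. -/
def FkC (_c : ℂ) : Type := Fk

noncomputable instance (c : ℂ) : AddCommGroup (FkC c) := inferInstanceAs (AddCommGroup Fk)
noncomputable instance (c : ℂ) : Module ℂ (FkC c) := inferInstanceAs (Module ℂ Fk)

noncomputable instance (c : ℂ) : Module UA (FkC c) where
  smul u x := rF c u x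
  one_smul x := by change rF c 1 x = x; rw [map_one]; rfl
  mul_smul a b x := by change rF c (a * b) x = rF c a (rF c b x); rw [map_mul]; rfl
  smul_zero a := (rF c a).map_zero
  smul_add a x y := (rF c a).map_add x y
  add_smul a b x := by change rF c (a + b) x = rF c a x + rF c b x; rw [map_add]; rfl
  zero_smul x := by change rF c 0 x = 0; rw [map_zero]; rfl

instance (c : ℂ) : IsScalarTower ℂ UA (FkC c) :=
  ⟨fun a u x => by change rF c (a • u) x = a • rF c u x; rw [map_smul]; rfl⟩

/-- The vector as an element of the module. -/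
def toC (c : ℂ) (x : Fk) : FkC c := x

lemma smul_toC (c : ℂ) (u : UA) (x : Fk) : u • toC c x = toC c (rF c u x) := rfl

lemma hw_toC (lam : Fin 2 → ℕ) (c : ℂ) (v : Fk) (he : ∀ i, opE i v = 0)
    (hh : ∀ i, opH i v = (lam i : ℂ) • v) (hd : opD c v = 0) : HW lam (toC c v) where
  ke i := by rw [smul_toC, rF_e, he]; rfl
  kh i := by rw [smul_toC, rF_h, hh]; rfl
  kd := by rw [smul_toC, rF_d, hd]; rfl

section compare

variable {lam : Fin 2 → ℕ} {c : ℂ} {v : Fk}

lemma ideal_kill (H : HW lam (toC c v)) {u : UA} (hu : u ∈ vermaIdeal lam) :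
    u • toC c v = 0 := by
  unfold vermaIdeal at hu
  induction hu using Submodule.span_induction with
  | mem y hy =>
    rcases hy with (⟨i, rfl⟩ | ⟨i, rfl⟩) | hy
    · exact H.ke i
    · rw [sub_smul, H.kh, algebraMap_smul', sub_self]
    · rw [Set.mem_singleton_iff.mp hy, H.kd]
  | zero => rw [zero_smul]
  | add y z _ _ hy hz => rw [add_smul, hy, hz, add_zero]
  | smul a y _ hy => rw [smul_eq_mul, mul_smul, hy, smul_zero]

/-- The map from the Verma module. -/
noncomputable def psiV (H : HW lam (toC c v)) : Verma lam →ₗ[UA] FkC c :=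
  (vermaIdeal lam).liftQ ((LinearMap.toSpanSingleton UA (FkC c) (toC c v)))
    (fun u hu => by
      rw [LinearMap.mem_ker, LinearMap.toSpanSingleton_apply]
      exact ideal_kill H hu)

lemma psiV_mk (H : HW lam (toC c v)) (u : UA) : psiV H (vermaMk lam u) = u • toC c v := rfl

lemma psiV_Phi (H : HW lam (toC c v)) (t : T) : psiV H (Phi (vac lam) t) = Phi (toC c v) t := by
  induction t using Finsupp.induction_linear with
  | zero => simp
  | add x y hx hy => rw [map_add, map_add, map_add, hx, hy]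
  | single J a =>
    have h0 : psiV H (vac lam) = toC c v := by
      rw [vac, psiV_mk, one_smul]
    rw [Phi_single, Phi_single, ← algebraMap_smul' a (fw J • vac lam), map_smul,
      algebraMap_smul', map_smul, h0]

lemma Bf_Phi (H : HW lam (toC c v)) (t : T) :
    Bf (show Fk from Phi (toC c v) t) v = eps0 t * Bf v v := by
  induction t using Finsupp.induction_linear with
  | zero => rw [map_zero, map_zero, zero_mul]; exact Bf_zero_left v
  | add x y hx hy =>
    rw [map_add, map_add, add_mul, ← hx, ← hy]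
    exact Bf_add_left _ _ _
  | single J a =>
    rw [Phi_single]
    change Bf (a • (show Fk from (fw J • toC c v))) v = _
    rw [Bf_smul_left]
    cases J with
    | nil =>
      rw [eps0_nil, fw, one_smul]; rfl
    | cons i J =>
      have h1 : eps0 (Finsupp.single (i :: J) a) = 0 := by
        rw [← fT_single, eps0_fT]
      rw [h1, zero_mul, fw, mul_smul]
      have h2 : (show Fk from (f i • (fw J • toC c v))) =
          opF i (show Fk from (fw J • toC c v)) := by
        change rF c (f i) _ = _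
        rw [rF_f]
      rw [h2, adj_f i]
      have h3 : opE i v = 0 := by
        have := H.ke i
        rw [smul_toC, rF_e] at this
        exact this
      rw [h3, Bf_zero_right, mul_zero]

/-- Comparison: an element of `U_ℤ` kills the highest weight vector of `L_ℂ(λ)` if and only if it
kills a given singular vector of weight `λ` with integer coefficients in the Fock space. -/
theorem lc_iff (hv : v ≠ 0) (hI : IntV v) (H : HW lam (toC c v)) {u : UA} (hu : u ∈ UZ) :
    u • vlam lam = 0 ↔ rF c u v = 0 := by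
  have e1 : u • vlam lam = lcMk lam (vermaMk lam u) := by
    rw [vlam, ← map_smul, ← map_smul, smul_eq_mul, mul_one]
  constructor
  · intro h0
    rw [e1] at h0
    have h1 : vermaMk lam u ∈ maxSub lam := (Submodule.Quotient.mk_eq_zero _).mp h0
    have hx : IntV (rF c u v) := IntV_rF c hu v hI
    refine Bf_pos _ hx ?_
    obtain ⟨u', hu', hadj⟩ := adj_UZ c hu
    rw [hadj, Bf_comm]
    have h2 : rF c u' (rF c u v) = rF c (u' * u) v := by rw [map_mul]; rfl
    rw [h2]
    obtain ⟨t, ht⟩ := Phi_surj lam (vermaMk lam (u' * u))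
    have h3 : (show Fk from Phi (toC c v) t) = rF c (u' * u) v := by
      have := psiV_Phi H t
      rw [ht, psiV_mk] at this
      exact this.symm
    rw [← h3, Bf_Phi H]
    have h4 : eps lam (vermaMk lam (u' * u)) = 0 := by
      apply eps_maxSub
      have : vermaMk lam (u' * u) = u' • vermaMk lam u := by
        rw [← map_smul, smul_eq_mul]
      rw [this]
      exact (maxSub lam).smul_mem u' h1
    rw [← ht, eps_Phi] at h4
    rw [h4, zero_mul]
  · intro h0
    rw [e1]
    have h1 : LinearMap.ker (psiV H) ≤ maxSub lam := by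
      refine le_sSup (show LinearMap.ker (psiV H) ≠ ⊤ from ?_)
      intro h2
      have h3 : vermaMk lam 1 ∈ LinearMap.ker (psiV H) := by rw [h2]; trivial
      rw [LinearMap.mem_ker, psiV_mk, one_smul] at h3
      exact hv h3
    have h2 : vermaMk lam u ∈ LinearMap.ker (psiV H) := by
      rw [LinearMap.mem_ker, psiV_mk, smul_toC, h0]; rfl
    exact (Submodule.Quotient.mk_eq_zero _).mpr (h1 h2)

end compare

end Pool.Agent.Helper840.AE
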