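import Pool.Agent.Helper840.AE.FockDefs
import Pool.Agent.Helper840.AE.P_X_comm
import Pool.Agent.Helper840.AE.P_X_ket
import Pool.Agent.Helper840.AE.P_X_box
import Pool.Agent.Helper840.AE.P_S_apply
import Pool.Agent.Helper840.AE.P_S_supp

set_option autoImplicit false

namespace Pool.Agent.Helper840.AE

theorem S_nilp_occ_self_qS_nilp (i : Site) (D : Finset Site) : occ (tog i D) i ↔ ¬ occ D i := by
  unfold occ tog
  by_cases h1 : i.2 < 0 <;> by_cases h2 : i ∈ D <;> simp [h1, h2]

theorem S_nilp_occ_ne_qS_nilp (i j : Site) (h : j ≠ i) (D : Finset Site) :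
    occ (tog i D) j ↔ occ D j := by
  unfold occ tog
  by_cases h1 : j.2 < 0 <;> by_cases h2 : i ∈ D <;> simp [h1, h2, h]

theorem S_nilp_sh_ne_qS_nilp (d : ℤ) (hd : d ≠ 0) (i : Site) : sh d i ≠ i := by
  intro h
  have := congrArg Prod.snd h
  simp only [sh] at this
  omega

theorem S_nilp_sq_qS_nilp (d : ℤ) (hd : d ≠ 0) (i : Site) :
    X (sh d i) i * X (sh d i) i = 0 := by
  have hne := S_nilp_sh_ne_qS_nilp d hd i
  have h2 : ∀ D, (X (sh d i) i) ((X (sh d i) i) (ket D)) = 0 := by
    intro D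
    obtain ⟨ε, _, h⟩ := X_ket (sh d i) i hne D
    rw [h]
    split_ifs with hc
    · rw [map_smul]
      obtain ⟨ε', _, h'⟩ := X_ket (sh d i) i hne (tog (sh d i) (tog i D))
      rw [h', if_neg, smul_zero]
      rintro ⟨h1, _⟩
      rw [S_nilp_occ_ne_qS_nilp _ _ hne.symm, S_nilp_occ_self_qS_nilp] at h1
      exact h1 hc.1
    · rw [map_zero]
  refine Finsupp.lhom_ext (fun D c => ?_)
  have h3 : (Finsupp.single D c : Fk) = c • ket D := by
    unfold ket
    rw [Finsupp.smul_single, smul_eq_mul, mul_one]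
  rw [h3, map_smul, Module.End.mul_apply, h2, smul_zero, LinearMap.zero_apply]

theorem S_nilp_comm_qS_nilp (d : ℤ) (g : Site → ℂ) (hgg : ∀ i, g i * g (sh d i) = 0) (i j : Site) :
    Commute (g i • X (sh d i) i) (g j • X (sh d j) j) := by
  have h := X_comm (sh d i) i (sh d j) j
  unfold Commute SemiconjBy
  rw [smul_mul_smul_comm, smul_mul_smul_comm, mul_comm (g j) (g i)]
  by_cases h1 : i = sh d j
  · have h2 : g i * g j = 0 := by rw [h1, mul_comm]; exact hgg j
    rw [h2, zero_smul, zero_smul]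
  · by_cases h3 : sh d i = j
    · have h2 : g i * g j = 0 := by rw [← h3]; exact hgg i
      rw [h2, zero_smul, zero_smul]
    · rw [if_neg h1, if_neg h3] at h
      have h4 : X (sh d i) i * X (sh d j) j = X (sh d j) j * X (sh d i) i := by
        refine LinearMap.ext (fun v => ?_)
        have h5 := LinearMap.congr_fun h v
        rw [LinearMap.sub_apply, LinearMap.sub_apply] at h5
        rw [LinearMap.zero_apply, sub_zero, sub_eq_zero] at h5
        exact h5
      rw [h4]

theorem S_nilp_box_mono_qS_nilp {R R' : ℕ} (h : R ≤ R') : box R ⊆ box R' := by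
  intro i hi
  unfold box at *
  rw [Finset.mem_product, Finset.mem_Icc] at *
  refine ⟨hi.1, ?_, ?_⟩ <;> omega

theorem S_nilp_out_qS_nilp (d : ℤ) (hd : d ≠ 0) (x : Fk) (R : ℕ)
    (hR : ∀ D ∈ x.support, bd D + d.natAbs ≤ R) (j : Site) (hj : j ∉ box R) :
    X (sh d j) j x = 0 := by
  have hx : x = ∑ D ∈ x.support, x D • ket D := by
    conv_lhs => rw [← Finsupp.sum_single x]
    unfold Finsupp.sum
    refine Finset.sum_congr rfl (fun D _ => ?_)
    unfold ket
    rw [Finsupp.smul_single, smul_eq_mul, mul_one]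
  rw [hx, map_sum]
  refine Finset.sum_eq_zero (fun D hD => ?_)
  rw [map_smul]
  by_cases h : X (sh d j) j (ket D) = 0
  · rw [h, smul_zero]
  · exact absurd (S_nilp_box_mono_qS_nilp (hR D hD) (X_box d hd j D h).1) hj

/-- local nilpotency of a sum of commuting quadratic moves with square zero -/
theorem S_nilp (d : ℤ) (hd : d ≠ 0) (g : Site → ℂ) (hg : ∀ i, g i = 0 ∨ g i = 1)
    (hgg : ∀ i, g i * g (sh d i) = 0) (x : Fk) : ∃ K : ℕ, ∀ k ≥ K, ((S d g) ^ k) x = 0 := by
  classical
  set R0 : ℕ := x.support.sup bd with hR0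
  have hb0 : ∀ D ∈ x.support, bd D ≤ R0 := fun D hD => Finset.le_sup (f := bd) hD
  set R : ℕ := R0 + d.natAbs with hR
  set A : Module.End ℂ Fk := ∑ i ∈ box R, g i • X (sh d i) i with hA
  have hnil : IsNilpotent A := by
    rw [hA]
    refine Commute.isNilpotent_sum (fun i _ => ⟨2, ?_⟩) (fun i j _ _ => S_nilp_comm_qS_nilp d g hgg i j)
    rw [pow_two, smul_mul_smul_comm, S_nilp_sq_qS_nilp d hd i, smul_zero]
  obtain ⟨K, hK⟩ := hnil
  have hsupp : ∀ k : ℕ, ∀ D ∈ (((S d g) ^ k) x).support, bd D ≤ R0 + k * d.natAbs := by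
    intro k
    induction k with
    | zero => intro D hD; simpa using hb0 D (by simpa using hD)
    | succ k ih =>
      intro D hD
      rw [pow_succ', Module.End.mul_apply] at hD
      have := S_supp d hd g _ _ ih D hD
      calc bd D ≤ R0 + k * d.natAbs + d.natAbs := this
        _ = R0 + (k + 1) * d.natAbs := by ring
  have hout : ∀ j ∉ box R, (g j • X (sh d j) j) x = 0 := by
    intro j hj
    rw [LinearMap.smul_apply, S_nilp_out_qS_nilp d hd x R (fun D hD => by have := hb0 D hD; omega) j hj,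
      smul_zero]
  have hcomm : ∀ j, Commute (g j • X (sh d j) j) A := by
    intro j
    rw [hA]
    exact Commute.sum_right _ _ _ (fun i _ => S_nilp_comm_qS_nilp d g hgg j i)
  have hpow : ∀ k : ℕ, ((S d g) ^ k) x = (A ^ k) x := by
    intro k
    induction k with
    | zero => simp
    | succ k ih =>
      rw [pow_succ', Module.End.mul_apply, pow_succ', Module.End.mul_apply]
      set R' : ℕ := R0 + k * d.natAbs + d.natAbs with hR'
      have h1 : S d g (((S d g) ^ k) x) = ∑ i ∈ box R', g i • X (sh d i) i (((S d g) ^ k) x) :=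
        S_apply d hd g _ R' (fun D hD => by have := hsupp k D hD; omega)
      rw [h1, ih]
      have h2 : A ((A ^ k) x) = ∑ i ∈ box R, g i • X (sh d i) i ((A ^ k) x) := by
        conv_lhs => rw [hA]
        rw [LinearMap.sum_apply]
        rfl
      rw [h2]
      symm
      refine Finset.sum_subset (S_nilp_box_mono_qS_nilp (by omega)) (fun j _ hj => ?_)
      have h3 : g j • X (sh d j) j ((A ^ k) x) = ((g j • X (sh d j) j) * A ^ k) x := rfl
      rw [h3, ((hcomm j).pow_right k).eq, Module.End.mul_apply, hout j hj, map_zero]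
  refine ⟨K, fun k hk => ?_⟩
  rw [hpow k]
  obtain ⟨m, rfl⟩ := Nat.exists_eq_add_of_le hk
  rw [pow_add, hK, zero_mul, LinearMap.zero_apply]

end Pool.Agent.Helper840.AE
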