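import Pool.Agent.Helper840.AE.FockDefs
import Pool.Agent.Helper840.AE.FockDefs2
import Pool.Agent.Helper840.AE.P_S_nilp

set_option autoImplicit false

namespace Pool.Agent.Helper840.AE

theorem nilp_op_podd_qnilp_op (d : ℤ) (hd : d % 2 = 1) (x : Fk) :
    ∃ K : ℕ, ∀ k ≥ K, ((S d podd) ^ k) x = 0 := by
  apply S_nilp d (by omega) podd
  · intro i
    unfold podd
    split_ifs
    · exact Or.inr rfl
    · exact Or.inl rfl
  · intro i
    unfold podd sh
    simp only
    split_ifs with h1 h2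
    · exfalso; omega
    · simp
    · simp
    · simp

theorem nilp_op_pev_qnilp_op (d : ℤ) (hd : d % 2 = 1) (x : Fk) :
    ∃ K : ℕ, ∀ k ≥ K, ((S d pev) ^ k) x = 0 := by
  apply S_nilp d (by omega) pev
  · intro i
    unfold pev
    split_ifs
    · exact Or.inr rfl
    · exact Or.inl rfl
  · intro i
    unfold pev sh
    simp only
    split_ifs with h1 h2
    · exfalso; omega
    · simp
    · simp
    · simp

theorem nilp_op (i : Fin 2) (x : Fk) :
    ∃ K : ℕ, ∀ k ≥ K, ((opE i) ^ k) x = 0 ∧ ((opF i) ^ k) x = 0 := by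
  have h1 : ∃ K : ℕ, ∀ k ≥ K, ((opE i) ^ k) x = 0 := by
    unfold opE
    split_ifs
    · exact nilp_op_podd_qnilp_op (-1) (by norm_num) x
    · exact nilp_op_pev_qnilp_op (-1) (by norm_num) x
  have h2 : ∃ K : ℕ, ∀ k ≥ K, ((opF i) ^ k) x = 0 := by
    unfold opF
    split_ifs
    · exact nilp_op_pev_qnilp_op 1 (by norm_num) x
    · exact nilp_op_podd_qnilp_op 1 (by norm_num) x
  obtain ⟨K1, hK1⟩ := h1
  obtain ⟨K2, hK2⟩ := h2
  exact ⟨max K1 K2, fun k hk => ⟨hK1 k (le_trans (le_max_left _ _) hk),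
    hK2 k (le_trans (le_max_right _ _) hk)⟩⟩

end Pool.Agent.Helper840.AE
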