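import Pool.Agent.Helper840.AE.Form

/-!
Sanity checks: the quotient of the Verma module by the sum of all proper submodules is a simple
module, and its highest weight vector is nonzero.
-/

set_option autoImplicit false

namespace Pool.Agent.Helper840.AE

theorem maxSub_coatom (lam : Fin 2 → ℕ) : IsCoatom (maxSub lam) := by
  constructor
  · intro h
    have h1 : vac lam ∈ maxSub lam := by rw [h]; trivial
    have h2 := eps_maxSub lam h1
    rw [← Phi_nil (vac lam), eps_Phi, eps0_nil] at h2
    exact one_ne_zero h2
  · intro N hN
    by_contra h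
    exact absurd (le_sSup (show N ∈ {N | N ≠ ⊤} from h)) (not_le_of_gt hN)

theorem lc_simple (lam : Fin 2 → ℕ) : IsSimpleModule UA (LC lam) :=
  isSimpleModule_iff_isCoatom.mpr (maxSub_coatom lam)

theorem vlam_ne_zero (lam : Fin 2 → ℕ) : vlam lam ≠ 0 := by
  intro h
  have h1 := epsL_vlam lam
  rw [h, map_zero] at h1
  exact zero_ne_one h1

end Pool.Agent.Helper840.AE
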